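import Mathlib
import Pool.Agent.Lib.MP_95e7ec_an.Defs
import Pool.Agent.Lib.MP_95e7ec_an.AvgDefs

/-!
# Power growth, part C: definitions

The plane field which carries `n` copies of the periodic scalar equation
`y' = (p(x) y + q(x)) / (r(x) y - s(x))`, `p, q, r, s` trigonometric polynomials of degree `≤ M`:
with `Z = X + i Y = √ρ e^{ix/2}` and `y = T_n (ρ - 2)` it is `Z' = Z (U + i V) / 2`, where
`U = ρ^M (p y + q)`, `V = ρ ρ^M T_n'(ρ - 2) (r y - s)`, so that `ρ' = ρ U`, `x' = V`.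
The field turned by `α` has `ρ' = ρ (cos α U - sin α V)`, `x' = sin α U + cos α V`.
-/

set_option autoImplicit false

open Set Filter Topology

namespace Pool.Agent.Lib.MP_95e7ec_an.Pw

/-- `f` is a trigonometric polynomial of degree at most `k` (period `2π`), given by a binary form
of degree `2k` in `(cos (x/2), sin (x/2))`. -/
def IsTrig (k : ℕ) (f : ℝ → ℝ) : Prop :=
  ∃ P : MvPolynomial (Fin 2) ℝ, P.IsHomogeneous (2 * k) ∧
    ∀ x, f x = MvPolynomial.eval ![Real.cos (x / 2), Real.sin (x / 2)] P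

/-- `U = ρ^M (p y + q)`, `y = T_n (ρ - 2)`. -/
noncomputable def UU (n M : ℕ) (p q : ℝ → ℝ) (x ρ : ℝ) : ℝ :=
  ρ ^ M * (p x * (Polynomial.Chebyshev.T ℝ n).eval (ρ - 2) + q x)

/-- `V = ρ ρ^M T_n'(ρ - 2) (r y - s)`, `y = T_n (ρ - 2)`. -/
noncomputable def VV (n M : ℕ) (r s : ℝ → ℝ) (x ρ : ℝ) : ℝ :=
  ρ * (ρ ^ M * ((Polynomial.Chebyshev.T ℝ n).derivative.eval (ρ - 2) *
    (r x * (Polynomial.Chebyshev.T ℝ n).eval (ρ - 2) - s x)))

/-- the point of the plane with coordinates `(x, ρ)` -/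
noncomputable def pt (x ρ : ℝ) : ℝ × ℝ :=
  (Real.sqrt ρ * Real.cos (x / 2), Real.sqrt ρ * Real.sin (x / 2))

end Pool.Agent.Lib.MP_95e7ec_an.Pw
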