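import Mathlib
import Pool.Agent.Lib.MP_95e7ec_an.Defs

/-!
# Power growth of the Hilbert numbers: the definitions

`tr P x` is the value of the binary form `P` at the point of the unit circle with the angle `x / 2`;
for forms of degree `2 M` these are exactly the trigonometric polynomials of degree at most `M` in
`x`. `IsSol num den s y`: `y` is a solution of `y' = num / den` on the set `s`, with positive
denominator and `|y| < 1`.
-/

set_option autoImplicit false

open Set Filter Topology

namespace Pool.Agent.Lib.MP_95e7ec_an.Pw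

/-- The value of the binary form `P` at the point of the unit circle with the angle `x / 2`. -/
noncomputable def tr (P : MvPolynomial (Fin 2) ℝ) (x : ℝ) : ℝ :=
  MvPolynomial.eval ![Real.cos (x / 2), Real.sin (x / 2)] P

/-- `y` solves `y' = num x y / den x y` on `s`, with positive denominator and `|y| < 1`. -/
structure IsSol (num den : ℝ → ℝ → ℝ) (s : Set ℝ) (y : ℝ → ℝ) : Prop where
  pos : ∀ x ∈ s, 0 < den x (y x)
  bd : ∀ x ∈ s, |y x| < 1
  deriv : ∀ x ∈ s, HasDerivWithinAt y (num x (y x) / den x (y x)) s x

/-- The affine function `p(x) y + q(x)` of `y`. -/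
noncomputable def aff (P Q : MvPolynomial (Fin 2) ℝ) (x y : ℝ) : ℝ := tr P x * y + tr Q x

/-- `h(x) = - cos (n x) / 4` -/
noncomputable def hh (n : ℕ) (x : ℝ) : ℝ := -Real.cos (n * x) / 4

/-- `h'(x) = n sin (n x) / 4` -/
noncomputable def hd (n : ℕ) (x : ℝ) : ℝ := n * Real.sin (n * x) / 4

/-- The numerator `h' (1 + h' G) y`. -/
noncomputable def bnum (h' G : ℝ → ℝ) (x y : ℝ) : ℝ := h' x * (1 + h' x * G x) * y

/-- The denominator `(1 + a) y - a h`. -/
noncomputable def bden (h a : ℝ → ℝ) (x y : ℝ) : ℝ := (1 + a x) * y - a x * h x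

end Pool.Agent.Lib.MP_95e7ec_an.Pw
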