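import Mathlib
import Pool.Agent.Lib.MP_95e7ec_an.Pw.Defs
import Pool.Agent.Lib.MP_95e7ec_an.Pw.CDefs
import Pool.Agent.Lib.MP_95e7ec_anW.Defs

/-!
# Part B: definitions

The equation is `y' = h' (1 + h' G) y / ((1 + a) y - a h)`, `h = - cos (n x) / 4`. `Gd` says that
`y` is a solution on `[α, γ]` with `0 < y < 1/2` and positive denominator.
-/

set_option autoImplicit false

open Set Filter Topology

namespace Pool.Agent.Lib.MP_95e7ec_an.Pw

/-- `y` is a good solution on `[α, γ]`. -/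
def Gd (n : ℕ) (a G : ℝ → ℝ) (α γ : ℝ) (y : ℝ → ℝ) : Prop :=
  ∀ x ∈ Icc α γ, 0 < y x ∧ y x < 1 / 2 ∧ 0 < bden (hh n) a x (y x) ∧
    HasDerivWithinAt y (bnum (hd n) G x (y x) / bden (hh n) a x (y x)) (Icc α γ) x

/-- The left end `2πj/n` of the `j`-th period (a minimum of `h`). -/
noncomputable def pl (n j : ℕ) : ℝ := 2 * Real.pi * j / n

/-- The first zero of `h` in the `j`-th period. -/
noncomputable def z0 (n j : ℕ) : ℝ := pl n j + Real.pi / (2 * n)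

/-- The middle of the `j`-th period (a maximum of `h`). -/
noncomputable def pm (n j : ℕ) : ℝ := pl n j + Real.pi / n

/-- The second zero of `h` in the `j`-th period. -/
noncomputable def z1 (n j : ℕ) : ℝ := pl n j + 3 * Real.pi / (2 * n)

/-- The sequence of the states of a word given by sequences `μ`, `b`. -/
noncomputable def st (μ b : ℕ → ℝ) (z : ℝ) : ℕ → ℝ
  | 0 => z
  | j + 1 => (st μ b z j ^ μ j + b j) ^ (1 / μ j)

/-- The hypotheses on `a` on the `j`-th period: the ratio is `μ` at both zeros of `h`. -/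
structure PerHyp (n j : ℕ) (a : ℝ → ℝ) (μ L : ℝ) : Prop where
  bd : ∀ x ∈ Icc (pl n j) (pl n (j + 1)), |a x - 1| ≤ 1 / 100
  lip : ∀ x ∈ Icc (pl n j) (pl n (j + 1)), |a x - μ| ≤ L * |hh n x|

/-- The constants of one period: `y(γ) ^ μ = A u ^ μ + ∫ G W + error`, `u = y(α)`. -/
structure PerConst (n j : ℕ) (a : ℝ → ℝ) (μ A C ε0 : ℝ) (W : ℝ → ℝ) : Prop where
  Apos : 0 < A
  C0 : 0 ≤ C
  eps : 0 < ε0
  W_cont : ContinuousOn W (Icc (z0 n j) (z1 n j))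
  W_pos : ∀ x ∈ Ioo (z0 n j) (z1 n j), x ≠ pm n j → 0 < W x
  main : ∀ G : ℝ → ℝ, Continuous G → ∀ η : ℝ,
    (∀ x ∈ Icc (pl n j) (pl n (j + 1)), |G x| ≤ η) → ∀ u : ℝ, 0 < u → u ^ μ + η ≤ ε0 →
    C * (u ^ μ + η) ^ (6 / 5 : ℝ) < A * u ^ μ + ∫ x in z0 n j..z1 n j, G x * W x →
    ∃ y : ℝ → ℝ, y (pl n j) = u ∧ Gd n a G (pl n j) (pl n (j + 1)) y ∧
      |y (pl n (j + 1)) ^ μ - (A * u ^ μ + ∫ x in z0 n j..z1 n j, G x * W x)| ≤
        C * (u ^ μ + η) ^ (6 / 5 : ℝ)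

end Pool.Agent.Lib.MP_95e7ec_an.Pw
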