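import Mathlib

/-!
# Scalar differential equations on a compact interval

`Sl f a b y`: the function `y` solves `y' = f x y` on `[a,b]`. Existence, uniqueness, monotonicity
and Lipschitz dependence on the initial value, comparison of two equations, barriers.
-/

set_option autoImplicit false

open Set Filter Topology

namespace Pool.Agent.Lib.MP_95e7ec_an.Pw

/-- The function `y` solves `y' = f x y` on `[a,b]`. -/
def Sl (f : ℝ → ℝ → ℝ) (a b : ℝ) (y : ℝ → ℝ) : Prop :=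
  ∀ x ∈ Icc a b, HasDerivWithinAt y (f x (y x)) (Icc a b) x

variable {f g : ℝ → ℝ → ℝ} {a b L M : ℝ} {y z : ℝ → ℝ} {S : ℝ → Set ℝ}

theorem Sl.contOn (h : Sl f a b y) : ContinuousOn y (Icc a b) := fun x hx =>
  (h x hx).continuousWithinAt

theorem Sl.mono {c d : ℝ} (h : Sl f a b y) (hc : a ≤ c) (hd : d ≤ b) : Sl f c d y := fun x hx =>
  (h x ⟨hc.trans hx.1, hx.2.trans hd⟩).mono (Icc_subset_Icc hc hd)

theorem Sl.congr (h : Sl f a b y) (e : ∀ x ∈ Icc a b, g x (y x) = f x (y x)) : Sl g a b y :=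
  fun x hx => by rw [e x hx]; exact h x hx

theorem Sl.congr' (h : Sl f a b y) (e : ∀ x ∈ Icc a b, z x = y x) : Sl f a b z := fun x hx => by
  rw [e x hx]
  exact (h x hx).congr e (e x hx)

theorem Sl.right (h : Sl f a b y) {x : ℝ} (hx : x ∈ Ico a b) :
    HasDerivWithinAt y (f x (y x)) (Ici x) x :=
  ((h x ⟨hx.1, hx.2.le⟩).mono (Icc_subset_Icc_left hx.1)).mono_of_mem_nhdsWithin
    (Icc_mem_nhdsGE hx.2)

theorem Sl.inner (h : Sl f a b y) {x : ℝ} (hx : x ∈ Ioo a b) : HasDerivAt y (f x (y x)) x :=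
  (h x ⟨hx.1.le, hx.2.le⟩).hasDerivAt (Icc_mem_nhds hx.1 hx.2)

/-- The reflected equation. -/
theorem Sl.neg (h : Sl f a b y) : Sl (fun x v => -f (-x) v) (-b) (-a) (fun x => y (-x)) := by
  intro x hx
  have hx' : -x ∈ Icc a b := ⟨by linarith [hx.2], by linarith [hx.1]⟩
  have h1 := h (-x) hx'
  have h2 : HasDerivWithinAt (fun x : ℝ => -x) (-1) (Icc (-b) (-a)) x :=
    (hasDerivAt_neg x).hasDerivWithinAt
  have h3 : MapsTo (fun x : ℝ => -x) (Icc (-b) (-a)) (Icc a b) := fun t ht =>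
    ⟨by linarith [ht.2], by linarith [ht.1]⟩
  have h4 := HasDerivWithinAt.scomp x h1 h2 h3
  simpa [Function.comp_def] using h4

/-- Gluing of two solutions. -/
theorem Sl.glue {c : ℝ} (hac : a ≤ c) (hcb : c ≤ b) (h1 : Sl f a c y) (h2 : Sl f c b y) :
    Sl f a b y := by
  intro x hx
  rcases lt_trichotomy x c with h | h | h
  · refine (h1 x ⟨hx.1, h.le⟩).mono_of_mem_nhdsWithin ?_
    exact mem_nhdsWithin.2 ⟨Iio c, isOpen_Iio, h, fun t ht => ⟨ht.2.1, ht.1.le⟩⟩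
  · subst h
    have := (h1 x ⟨hac, le_refl x⟩).union (h2 x ⟨le_refl x, hcb⟩)
    rwa [Icc_union_Icc_eq_Icc hac hcb] at this
  · refine (h2 x ⟨h.le, hx.2⟩).mono_of_mem_nhdsWithin ?_
    exact mem_nhdsWithin.2 ⟨Ioi c, isOpen_Ioi, h, fun t ht => ⟨ht.1.le, ht.2.2⟩⟩

/-- Existence of solutions for bounded right sides, Lipschitz in `y`. -/
theorem exists_Sl (hc : ∀ v, ContinuousOn (fun x => f x v) (Icc a b))
    (hM : ∀ x ∈ Icc a b, ∀ v, |f x v| ≤ M)
    (hL : ∀ x ∈ Icc a b, ∀ v w, |f x v - f x w| ≤ L * |v - w|)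
    {x0 : ℝ} (hx0 : x0 ∈ Icc a b) (y0 : ℝ) : ∃ y : ℝ → ℝ, y x0 = y0 ∧ Sl f a b y := by
  have hM0 : 0 ≤ M := (abs_nonneg _).trans (hM x0 hx0 0)
  have hL0 : 0 ≤ L := by
    have h := hL x0 hx0 1 0
    have : |(1 : ℝ) - 0| = 1 := by norm_num
    rw [this, mul_one] at h
    exact (abs_nonneg _).trans h
  have hab : a ≤ b := hx0.1.trans hx0.2
  have hba : 0 ≤ b - a := by linarith
  have hpl : IsPicardLindelof f (⟨x0, hx0⟩ : Icc a b) y0 (⟨M * (b - a), by positivity⟩ : NNReal) 0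
      ⟨M, hM0⟩ ⟨L, hL0⟩ := by
    refine ⟨fun t ht => ?_, fun v _ => hc v, fun t ht v _ => ?_, ?_⟩
    · refine LipschitzOnWith.of_dist_le_mul fun v _ w _ => ?_
      rw [Real.dist_eq, Real.dist_eq]
      exact hL t ht v w
    · rw [Real.norm_eq_abs]
      exact hM t ht v
    · have h1 : max (b - x0) (x0 - a) ≤ b - a := max_le (by linarith [hx0.1]) (by linarith [hx0.2])
      have h2 := mul_le_mul_of_nonneg_left h1 hM0
      have h3 : ((0 : NNReal) : ℝ) = 0 := rfl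
      rw [h3, sub_zero]
      exact h2
  obtain ⟨y, hy0, hy⟩ := hpl.exists_eq_forall_mem_Icc_hasDerivWithinAt₀
  exact ⟨y, hy0, hy⟩

/-- Comparison of a solution of `y' = f x y` with a solution of `z' = g x z`. -/
theorem Sl.dist_le (hL : ∀ x ∈ Icc a b, ∀ v ∈ S x, ∀ w ∈ S x, |f x v - f x w| ≤ L * |v - w|)
    (hy : Sl f a b y) (hz : Sl g a b z) (hyS : ∀ x ∈ Icc a b, y x ∈ S x)
    (hzS : ∀ x ∈ Icc a b, z x ∈ S x) {δ ε : ℝ} (hε : ∀ x ∈ Icc a b, |g x (z x) - f x (z x)| ≤ ε)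
    (hδ : |y a - z a| ≤ δ) : ∀ x ∈ Icc a b, |y x - z x| ≤ gronwallBound δ L ε (x - a) := by
  have key := norm_le_gronwallBound_of_norm_deriv_right_le (f := fun x => y x - z x)
    (f' := fun x => f x (y x) - g x (z x)) (δ := δ) (K := L) (ε := ε) (a := a) (b := b)
    (hy.contOn.sub hz.contOn) (fun x hx => (hy.right hx).sub (hz.right hx))
    (by simpa using hδ) (fun x hx => by
      have hx' : x ∈ Icc a b := ⟨hx.1, hx.2.le⟩
      have h1 := hL x hx' _ (hyS x hx') _ (hzS x hx')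
      have h2 := hε x hx'
      have h3 : f x (y x) - g x (z x) = (f x (y x) - f x (z x)) - (g x (z x) - f x (z x)) := by
        ring
      simp only [Real.norm_eq_abs]
      rw [h3]
      exact (abs_sub _ _).trans (by linarith))
  intro x hx
  simpa using key x hx

/-- Two solutions of the same equation. -/
theorem Sl.dist_le_exp (hL : ∀ x ∈ Icc a b, ∀ v ∈ S x, ∀ w ∈ S x, |f x v - f x w| ≤ L * |v - w|)
    (hy : Sl f a b y) (hz : Sl f a b z) (hyS : ∀ x ∈ Icc a b, y x ∈ S x)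
    (hzS : ∀ x ∈ Icc a b, z x ∈ S x) :
    ∀ x ∈ Icc a b, |y x - z x| ≤ |y a - z a| * Real.exp (L * (x - a)) := by
  intro x hx
  have h := Sl.dist_le hL hy hz hyS hzS (δ := |y a - z a|) (ε := 0) (fun x _ => by simp) le_rfl x hx
  rwa [gronwallBound_ε0] at h

theorem Sl.dist_le_exp_left
    (hL : ∀ x ∈ Icc a b, ∀ v ∈ S x, ∀ w ∈ S x, |f x v - f x w| ≤ L * |v - w|)
    (hy : Sl f a b y) (hz : Sl f a b z) (hyS : ∀ x ∈ Icc a b, y x ∈ S x)
    (hzS : ∀ x ∈ Icc a b, z x ∈ S x) :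
    ∀ x ∈ Icc a b, |y x - z x| ≤ |y b - z b| * Real.exp (L * (b - x)) := by
  intro x hx
  have hm : ∀ t ∈ Icc (-b) (-a), -t ∈ Icc a b := fun t ht =>
    ⟨by linarith [ht.2], by linarith [ht.1]⟩
  have h := Sl.dist_le_exp (f := fun x v => -f (-x) v) (a := -b) (b := -a) (L := L)
    (S := fun x => S (-x)) (fun t ht v hv w hw => by
      have := hL (-t) (hm t ht) v hv w hw
      rw [show -f (-t) v - -f (-t) w = -(f (-t) v - f (-t) w) by ring, abs_neg]
      exact this) hy.neg hz.neg (fun t ht => hyS _ (hm t ht)) (fun t ht => hzS _ (hm t ht)) (-x)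
    ⟨by linarith [hx.2], by linarith [hx.1]⟩
  simp only [neg_neg] at h
  rwa [show -x - -b = b - x by ring] at h

/-- Uniqueness. -/
theorem Sl.unique (hL : ∀ x ∈ Icc a b, ∀ v ∈ S x, ∀ w ∈ S x, |f x v - f x w| ≤ L * |v - w|)
    (hy : Sl f a b y) (hz : Sl f a b z) (hyS : ∀ x ∈ Icc a b, y x ∈ S x)
    (hzS : ∀ x ∈ Icc a b, z x ∈ S x) {x0 : ℝ} (hx0 : x0 ∈ Icc a b) (h0 : y x0 = z x0) :
    ∀ x ∈ Icc a b, y x = z x := by
  intro x hx
  rcases le_total x x0 with h | h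
  · have := Sl.dist_le_exp_left (a := a) (b := x0) (S := S)
      (fun t ht => hL t ⟨ht.1, ht.2.trans hx0.2⟩) (hy.mono le_rfl hx0.2) (hz.mono le_rfl hx0.2)
      (fun t ht => hyS t ⟨ht.1, ht.2.trans hx0.2⟩) (fun t ht => hzS t ⟨ht.1, ht.2.trans hx0.2⟩)
      x ⟨hx.1, h⟩
    rw [h0, sub_self, abs_zero, zero_mul] at this
    exact sub_eq_zero.1 (abs_nonpos_iff.1 this)
  · have := Sl.dist_le_exp (a := x0) (b := b) (S := S)
      (fun t ht => hL t ⟨hx0.1.trans ht.1, ht.2⟩) (hy.mono hx0.1 le_rfl) (hz.mono hx0.1 le_rfl)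
      (fun t ht => hyS t ⟨hx0.1.trans ht.1, ht.2⟩) (fun t ht => hzS t ⟨hx0.1.trans ht.1, ht.2⟩)
      x ⟨h, hx.2⟩
    rw [h0, sub_self, abs_zero, zero_mul] at this
    exact sub_eq_zero.1 (abs_nonpos_iff.1 this)

/-- Strict monotonicity in the initial value. -/
theorem Sl.lt (hL : ∀ x ∈ Icc a b, ∀ v ∈ S x, ∀ w ∈ S x, |f x v - f x w| ≤ L * |v - w|)
    (hy : Sl f a b y) (hz : Sl f a b z) (hyS : ∀ x ∈ Icc a b, y x ∈ S x)
    (hzS : ∀ x ∈ Icc a b, z x ∈ S x) {x0 : ℝ} (hx0 : x0 ∈ Icc a b) (h0 : y x0 < z x0) :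
    ∀ x ∈ Icc a b, y x < z x := by
  intro x hx
  by_contra hcon
  rw [not_lt] at hcon
  have hco : ContinuousOn (fun x => z x - y x) (uIcc x0 x) :=
    (hz.contOn.sub hy.contOn).mono (uIcc_subset_Icc hx0 hx)
  have hiv := intermediate_value_uIcc hco
  have h0mem : (0 : ℝ) ∈ uIcc (z x0 - y x0) (z x - y x) := by
    rw [mem_uIcc]
    exact Or.inr ⟨by linarith, by linarith⟩
  obtain ⟨t, ht, ht0⟩ := hiv h0mem
  have ht' : t ∈ Icc a b := uIcc_subset_Icc hx0 hx ht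
  have := Sl.unique hL hy hz hyS hzS ht' (by simp only at ht0; linarith) x0 hx0
  linarith

theorem Sl.le (hL : ∀ x ∈ Icc a b, ∀ v ∈ S x, ∀ w ∈ S x, |f x v - f x w| ≤ L * |v - w|)
    (hy : Sl f a b y) (hz : Sl f a b z) (hyS : ∀ x ∈ Icc a b, y x ∈ S x)
    (hzS : ∀ x ∈ Icc a b, z x ∈ S x) {x0 : ℝ} (hx0 : x0 ∈ Icc a b) (h0 : y x0 ≤ z x0) :
    ∀ x ∈ Icc a b, y x ≤ z x := by
  rcases h0.lt_or_eq with h | h
  · exact fun x hx => (Sl.lt hL hy hz hyS hzS hx0 h x hx).le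
  · exact fun x hx => (Sl.unique hL hy hz hyS hzS hx0 h x hx).le

/-- A strict lower barrier: if `l` starts below `y` and crosses upwards with a smaller slope than
the equation prescribes, it stays below. -/
theorem Sl.lower_barrier {l l' : ℝ → ℝ} (hy : Sl f a b y)
    (hl : ∀ x ∈ Ico a b, HasDerivWithinAt l (l' x) (Ici x) x) (hlc : ContinuousOn l (Icc a b))
    (hlt : ∀ x ∈ Ico a b, l' x < f x (l x)) (h0 : l a ≤ y a) : ∀ x ∈ Icc a b, l x ≤ y x := by
  have key := image_le_of_deriv_right_lt_deriv_boundary' (f := l) (f' := l') (a := a) (b := b)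
    (B := y) (B' := fun x => f x (y x)) hlc hl h0 hy.contOn (fun x hx => hy.right hx)
    (fun x hx he => by rw [← he]; exact hlt x hx)
  exact fun x hx => key hx

/-- A strict upper barrier. -/
theorem Sl.upper_barrier {l l' : ℝ → ℝ} (hy : Sl f a b y)
    (hl : ∀ x ∈ Ico a b, HasDerivWithinAt l (l' x) (Ici x) x) (hlc : ContinuousOn l (Icc a b))
    (hlt : ∀ x ∈ Ico a b, f x (l x) < l' x) (h0 : y a ≤ l a) : ∀ x ∈ Icc a b, y x ≤ l x := by
  have key := image_le_of_deriv_right_lt_deriv_boundary' (f := y) (f' := fun x => f x (y x))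
    (a := a) (b := b) (B := l) (B' := l') hy.contOn (fun x hx => hy.right hx) h0 hlc hl
    (fun x hx he => by rw [he]; exact hlt x hx)
  exact fun x hx => key hx

end Pool.Agent.Lib.MP_95e7ec_an.Pw
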