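import Mathlib
import Pool.Agent.Lib.MP_95e7ec_an.Pw.BDefs
import Pool.Agent.Lib.MP_95e7ec_an.Pw.Ode

/-!
# Part B: the chain of periods on `[0, π]`

`cc j`: the constant of the unperturbed passage from `0` to the left end of the `j`-th period.
-/

set_option autoImplicit false

open Set Filter Topology

namespace Pool.Agent.Lib.MP_95e7ec_an.Pw

/-- The constants `c_0 = 1`, `c_{j+1} = A_j ^ (1 / μ_j) c_j`. -/
noncomputable def cc (μ A : ℕ → ℝ) : ℕ → ℝ
  | 0 => 1
  | j + 1 => A j ^ (1 / μ j) * cc μ A j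

theorem cc_pos (μ A : ℕ → ℝ) (K : ℕ) (hA : ∀ j < K, 0 < A j) : ∀ j ≤ K, 0 < cc μ A j := by
  intro j
  induction j with
  | zero => intro _; exact one_pos
  | succ j ih =>
    intro hj
    exact mul_pos (Real.rpow_pos_of_pos (hA j (by omega)) _) (ih (by omega))

theorem st_pos (μ b : ℕ → ℝ) (z : ℝ) (hz : 0 < z) (K : ℕ)
    (hs : ∀ j < K, 0 < st μ b z j ^ μ j + b j) : ∀ j ≤ K, 0 < st μ b z j := by
  intro j hj
  cases j with
  | zero => exact hz
  | succ j => exact Real.rpow_pos_of_pos (hs j (by omega)) _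

theorem pl_le_succ (n j : ℕ) : pl n j ≤ pl n (j + 1) := by
  unfold pl
  refine div_le_div_of_nonneg_right ?_ (Nat.cast_nonneg n)
  refine mul_le_mul_of_nonneg_left ?_ (by positivity)
  push_cast
  linarith

/-- One step of the chain. -/
theorem chain_step (n j : ℕ) (a : ℝ → ℝ) (μ A C ε0 : ℝ) (W : ℝ → ℝ) (hμ : |μ - 1| ≤ 1 / 100)
    (hc : PerConst n j a μ A C ε0 W)
    (hsub : Icc (pl n j) (pl n (j + 1)) ⊆ Icc 0 Real.pi)
    (G : ℝ → ℝ → ℝ) (hG : ∀ S, Continuous (G S))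
    (hGb : ∀ᶠ S in atTop, ∀ x ∈ Icc (0 : ℝ) Real.pi, |G S x| ≤ Real.exp (-(24 / 25 * S)))
    (κ : ℝ) (hk : Tendsto (fun S => Real.exp (μ * S) *
      ∫ x in z0 n j..z1 n j, G S x * W x) atTop (𝓝 κ))
    (U : ℝ → ℝ) (v : ℝ) (hv : 0 < v)
    (hU : Tendsto (fun S => Real.exp S * U S) atTop (𝓝 v)) (hτ : 0 < A * v ^ μ + κ) :
    ∃ y : ℝ → ℝ → ℝ,
      (∀ᶠ S in atTop, y S (pl n j) = U S ∧ Gd n a (G S) (pl n j) (pl n (j + 1)) (y S)) ∧
      Tendsto (fun S => Real.exp S * y S (pl n (j + 1))) atTop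
        (𝓝 ((A * v ^ μ + κ) ^ (1 / μ))) := by
  have hμ1 : 99 / 100 ≤ μ := by
    have := (abs_le.1 hμ).1
    linarith
  have hμ2 : μ ≤ 101 / 100 := by
    have := (abs_le.1 hμ).2
    linarith
  have hμ0 : 0 < μ := by linarith
  -- `U > 0`
  have hUpos : ∀ᶠ S in atTop, 0 < U S := by
    filter_upwards [hU.eventually (lt_mem_nhds hv)] with S hS
    exact pos_of_mul_pos_right hS (Real.exp_pos _).le
  have hUμ : Tendsto (fun S => Real.exp (μ * S) * U S ^ μ) atTop (𝓝 (v ^ μ)) := by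
    have h1 := hU.rpow_const (p := μ) (Or.inl hv.ne')
    refine h1.congr' ?_
    filter_upwards [hUpos] with S hS
    rw [Real.mul_rpow (Real.exp_pos _).le hS.le, ← Real.exp_mul, mul_comm S μ]
  -- the size of the errors
  let E : ℝ → ℝ := fun S => U S ^ μ + Real.exp (-(24 / 25 * S))
  let M : ℝ := v ^ μ + 2
  have hM : 0 < M := by
    have := Real.rpow_pos_of_pos hv μ
    positivity
  have hE : ∀ᶠ S in atTop, 0 < E S ∧ E S ≤ M * Real.exp (-(24 / 25 * S)) := by
    filter_upwards [hUpos, hUμ.eventually (gt_mem_nhds (lt_add_one (v ^ μ))),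
      eventually_ge_atTop 0] with S h1 h2 h3
    have h4 := Real.rpow_pos_of_pos h1 μ
    refine ⟨add_pos h4 (Real.exp_pos _), ?_⟩
    have h5 : U S ^ μ = Real.exp (-(μ * S)) * (Real.exp (μ * S) * U S ^ μ) := by
      rw [← mul_assoc, ← Real.exp_add, neg_add_cancel, Real.exp_zero, one_mul]
    have h6 : Real.exp (-(μ * S)) ≤ Real.exp (-(24 / 25 * S)) := by
      refine Real.exp_le_exp.2 ?_
      nlinarith
    have h7 : U S ^ μ ≤ Real.exp (-(24 / 25 * S)) * (v ^ μ + 1) := by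
      rw [h5]
      exact mul_le_mul h6 h2.le (mul_pos (Real.exp_pos _) h4).le (Real.exp_pos _).le
    calc E S ≤ Real.exp (-(24 / 25 * S)) * (v ^ μ + 1) + Real.exp (-(24 / 25 * S)) :=
          add_le_add_left h7 _
      _ = M * Real.exp (-(24 / 25 * S)) := by
          simp only [M]
          ring
  have hE0 : ∀ᶠ S in atTop, E S ≤ ε0 := by
    have h1 : Tendsto (fun S : ℝ => M * Real.exp (-(24 / 25 * S))) atTop (𝓝 (M * 0)) := by
      refine Tendsto.const_mul _ ?_
      refine Real.tendsto_exp_atBot.comp ?_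
      refine tendsto_neg_atTop_atBot.comp ?_
      exact tendsto_id.const_mul_atTop (by norm_num)
    rw [mul_zero] at h1
    filter_upwards [hE, h1.eventually (gt_mem_nhds hc.eps)] with S h2 h3
    exact h2.2.trans h3.le
  have hD : Tendsto (fun S => Real.exp (μ * S) * (C * E S ^ (6 / 5 : ℝ))) atTop (𝓝 0) := by
    have h1 : Tendsto (fun S : ℝ => C * M ^ (6 / 5 : ℝ) * Real.exp (-(1 / 10 * S))) atTop
        (𝓝 (C * M ^ (6 / 5 : ℝ) * 0)) := by
      refine Tendsto.const_mul _ ?_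
      refine Real.tendsto_exp_atBot.comp ?_
      refine tendsto_neg_atTop_atBot.comp ?_
      exact tendsto_id.const_mul_atTop (by norm_num)
    rw [mul_zero] at h1
    refine squeeze_zero' ?_ ?_ h1
    · filter_upwards [hE] with S h2
      exact mul_nonneg (Real.exp_pos _).le
        (mul_nonneg hc.C0 (Real.rpow_nonneg h2.1.le _))
    · filter_upwards [hE, eventually_ge_atTop 0] with S h2 h3
      have h4 : E S ^ (6 / 5 : ℝ) ≤ M ^ (6 / 5 : ℝ) * Real.exp (-(144 / 125 * S)) := by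
        calc E S ^ (6 / 5 : ℝ) ≤ (M * Real.exp (-(24 / 25 * S))) ^ (6 / 5 : ℝ) :=
              Real.rpow_le_rpow h2.1.le h2.2 (by norm_num)
          _ = M ^ (6 / 5 : ℝ) * Real.exp (-(144 / 125 * S)) := by
              rw [Real.mul_rpow hM.le (Real.exp_pos _).le, ← Real.exp_mul]
              congr 2
              ring
      calc Real.exp (μ * S) * (C * E S ^ (6 / 5 : ℝ))
          ≤ Real.exp (μ * S) * (C * (M ^ (6 / 5 : ℝ) * Real.exp (-(144 / 125 * S)))) :=
            mul_le_mul_of_nonneg_left (mul_le_mul_of_nonneg_left h4 hc.C0) (Real.exp_pos _).le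
        _ = C * M ^ (6 / 5 : ℝ) * Real.exp (μ * S + -(144 / 125 * S)) := by
            rw [Real.exp_add]
            ring
        _ ≤ C * M ^ (6 / 5 : ℝ) * Real.exp (-(1 / 10 * S)) := by
            refine mul_le_mul_of_nonneg_left (Real.exp_le_exp.2 ?_)
              (mul_nonneg hc.C0 (Real.rpow_nonneg hM.le _))
            nlinarith
  let T : ℝ → ℝ := fun S => A * U S ^ μ + ∫ x in z0 n j..z1 n j, G S x * W x
  have hT : Tendsto (fun S => Real.exp (μ * S) * T S) atTop (𝓝 (A * v ^ μ + κ)) := by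
    have h1 := (hUμ.const_mul A).add hk
    refine h1.congr fun S => ?_
    simp only [T]
    ring
  have hlt : ∀ᶠ S in atTop, C * E S ^ (6 / 5 : ℝ) < T S := by
    have h2 : (A * v ^ μ + κ) / 2 < A * v ^ μ + κ := by linarith
    have h3 : 0 < (A * v ^ μ + κ) / 2 := by linarith
    filter_upwards [hD.eventually (gt_mem_nhds h3), hT.eventually (lt_mem_nhds h2)] with S h4 h5
    exact lt_of_mul_lt_mul_left (h4.trans h5) (Real.exp_pos _).le
  have hex : ∀ᶠ S in atTop, ∃ y : ℝ → ℝ, y (pl n j) = U S ∧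
      Gd n a (G S) (pl n j) (pl n (j + 1)) y ∧
      |y (pl n (j + 1)) ^ μ - T S| ≤ C * E S ^ (6 / 5 : ℝ) := by
    filter_upwards [hUpos, hE0, hlt, hGb] with S h1 h2 h3 h4
    exact hc.main (G S) (hG S) (Real.exp (-(24 / 25 * S))) (fun x hx => h4 x (hsub hx)) (U S) h1
      h2 h3
  let y : ℝ → ℝ → ℝ := fun S => by
    classical
    exact if h : ∃ y : ℝ → ℝ, y (pl n j) = U S ∧
      Gd n a (G S) (pl n j) (pl n (j + 1)) y ∧
      |y (pl n (j + 1)) ^ μ - T S| ≤ C * E S ^ (6 / 5 : ℝ) then h.choose else fun _ => 0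
  have hy : ∀ᶠ S in atTop, y S (pl n j) = U S ∧
      Gd n a (G S) (pl n j) (pl n (j + 1)) (y S) ∧
      |y S (pl n (j + 1)) ^ μ - T S| ≤ C * E S ^ (6 / 5 : ℝ) := by
    filter_upwards [hex] with S h
    have e : y S = h.choose := dif_pos h
    rw [e]
    exact h.choose_spec
  refine ⟨y, hy.mono fun S h => ⟨h.1, h.2.1⟩, ?_⟩
  have h1 : Tendsto (fun S => Real.exp (μ * S) * y S (pl n (j + 1)) ^ μ) atTop
      (𝓝 (A * v ^ μ + κ)) := by
    have h2 : Tendsto (fun S => Real.exp (μ * S) * (y S (pl n (j + 1)) ^ μ - T S)) atTop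
        (𝓝 0) := by
      refine squeeze_zero_norm' ?_ hD
      filter_upwards [hy] with S h
      rw [norm_mul, Real.norm_eq_abs, Real.norm_eq_abs, abs_of_pos (Real.exp_pos _)]
      exact mul_le_mul_of_nonneg_left h.2.2 (Real.exp_pos _).le
    have h3 := h2.add hT
    rw [zero_add] at h3
    refine h3.congr fun S => ?_
    ring
  have h2 := h1.rpow_const (p := 1 / μ) (Or.inl hτ.ne')
  refine h2.congr' ?_
  filter_upwards [hy] with S h
  have hp := (h.2.1 (pl n (j + 1)) ⟨pl_le_succ n j, le_rfl⟩).1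
  rw [Real.mul_rpow (Real.exp_pos _).le (Real.rpow_nonneg hp.le _), ← Real.rpow_mul hp.le,
    mul_one_div_cancel hμ0.ne', Real.rpow_one, ← Real.exp_mul]
  congr 2
  field_simp

theorem Gd.glue {n : ℕ} {a G : ℝ → ℝ} {α β γ : ℝ} (h1 : α ≤ β) (h2 : β ≤ γ) {y y' : ℝ → ℝ}
    (h : Gd n a G α β y) (h' : Gd n a G β γ y') (e : y' β = y β) :
    Gd n a G α γ (fun x => if x ≤ β then y x else y' x) := by
  have s1 : Sl (fun x v => bnum (hd n) G x v / bden (hh n) a x v) α β
      (fun x => if x ≤ β then y x else y' x) := by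
    have : Sl (fun x v => bnum (hd n) G x v / bden (hh n) a x v) α β y :=
      fun x hx => (h x hx).2.2.2
    exact this.congr' fun x hx => if_pos hx.2
  have s2 : Sl (fun x v => bnum (hd n) G x v / bden (hh n) a x v) β γ
      (fun x => if x ≤ β then y x else y' x) := by
    have : Sl (fun x v => bnum (hd n) G x v / bden (hh n) a x v) β γ y' :=
      fun x hx => (h' x hx).2.2.2
    refine this.congr' fun x hx => ?_
    rcases eq_or_lt_of_le hx.1 with h3 | h3
    · rw [← h3, if_pos le_rfl, e]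
    · exact if_neg (not_le.2 h3)
  have s3 := Sl.glue h1 h2 s1 s2
  intro x hx
  rcases le_or_gt x β with h3 | h3
  · have h4 := h x ⟨hx.1, h3⟩
    have h5 := s3 x hx
    simp only [if_pos h3] at h5 ⊢
    exact ⟨h4.1, h4.2.1, h4.2.2.1, h5⟩
  · have h4 := h' x ⟨h3.le, hx.2⟩
    have h5 := s3 x hx
    simp only [if_neg (not_le.2 h3)] at h5 ⊢
    exact ⟨h4.1, h4.2.1, h4.2.2.1, h5⟩

/-- The chain: `e^S y(2πj/n) → c_j s_j`. The error exponents: `u ^ μ ≤ e^{-0.98 S}`,
`|G| ≤ e^{-(24/25) S}`, `(6/5) · (24/25) > 1 + 1/100 ≥ μ`. -/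
theorem chain (n K : ℕ) (hK : n = 2 * K) (hK1 : 1 ≤ K) (a : ℝ → ℝ) (ha : Continuous a)
    (μ A C ε0 : ℕ → ℝ) (W : ℕ → ℝ → ℝ) (hμ : ∀ j < K, |μ j - 1| ≤ 1 / 100)
    (hc : ∀ j < K, PerConst n j a (μ j) (A j) (C j) (ε0 j) (W j))
    (G : ℝ → ℝ → ℝ) (hG : ∀ S, Continuous (G S))
    (hGb : ∀ᶠ S in atTop, ∀ x ∈ Icc (0 : ℝ) Real.pi, |G S x| ≤ Real.exp (-(24 / 25 * S)))
    (b : ℕ → ℝ)
    (hkick : ∀ j < K, Tendsto (fun S => Real.exp (μ j * S) *
      ∫ x in z0 n j..z1 n j, G S x * W j x) atTop (𝓝 (cc μ A (j + 1) ^ μ j * b j)))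
    (z : ℝ) (hz : 0 < z) (hs : ∀ j < K, 0 < st μ b z j ^ μ j + b j) :
    ∀ j ≤ K, ∃ Y : ℝ → ℝ → ℝ,
      (∀ᶠ S in atTop, Y S 0 = Real.exp (-S) * z ∧ Gd n a (G S) 0 (pl n j) (Y S)) ∧
      Tendsto (fun S => Real.exp S * Y S (pl n j)) atTop (𝓝 (cc μ A j * st μ b z j)) := by
  have hn : (0 : ℝ) < n := by
    rw [hK]
    push_cast
    have : (1 : ℝ) ≤ K := by exact_mod_cast hK1
    linarith
  have hpl0 : pl n 0 = 0 := by simp [pl]
  have hplK : pl n K = Real.pi := by
    unfold pl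
    rw [hK]
    push_cast
    have : (K : ℝ) ≠ 0 := by
      have : (1 : ℝ) ≤ K := by exact_mod_cast hK1
      positivity
    field_simp
  have hpl_mono : Monotone (pl n) := monotone_nat_of_le_succ (pl_le_succ n)
  have hsub : ∀ j < K, Icc (pl n j) (pl n (j + 1)) ⊆ Icc 0 Real.pi := by
    intro j hj x hx
    constructor
    · have := hpl_mono (Nat.zero_le j)
      rw [hpl0] at this
      exact this.trans hx.1
    · have := hpl_mono (show j + 1 ≤ K by omega)
      rw [hplK] at this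
      exact hx.2.trans this
  have hA : ∀ j < K, 0 < A j := fun j hj => (hc j hj).Apos
  have hcp := cc_pos μ A K hA
  have hsp := st_pos μ b z hz K hs
  -- the step
  have step : ∀ j < K, ∀ U : ℝ → ℝ,
      Tendsto (fun S => Real.exp S * U S) atTop (𝓝 (cc μ A j * st μ b z j)) →
      ∃ y : ℝ → ℝ → ℝ,
        (∀ᶠ S in atTop, y S (pl n j) = U S ∧ Gd n a (G S) (pl n j) (pl n (j + 1)) (y S)) ∧
        Tendsto (fun S => Real.exp S * y S (pl n (j + 1))) atTop
          (𝓝 (cc μ A (j + 1) * st μ b z (j + 1))) := by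
    intro j hj U hU
    have hμ0 : 0 < μ j := by
      have := (abs_le.1 (hμ j hj)).1
      linarith
    have hc0 := hcp j hj.le
    have hs0 := hsp j hj.le
    have e1 : cc μ A (j + 1) ^ μ j = A j * cc μ A j ^ μ j := by
      show (A j ^ (1 / μ j) * cc μ A j) ^ μ j = _
      rw [Real.mul_rpow (Real.rpow_nonneg (hA j hj).le _) hc0.le, ← Real.rpow_mul (hA j hj).le,
        one_div_mul_cancel hμ0.ne', Real.rpow_one]
    have e2 : A j * (cc μ A j * st μ b z j) ^ μ j + cc μ A (j + 1) ^ μ j * b j =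
        cc μ A (j + 1) ^ μ j * (st μ b z j ^ μ j + b j) := by
      rw [e1, Real.mul_rpow hc0.le hs0.le]
      ring
    have hτ : 0 < A j * (cc μ A j * st μ b z j) ^ μ j + cc μ A (j + 1) ^ μ j * b j := by
      rw [e2]
      exact mul_pos (Real.rpow_pos_of_pos (hcp (j + 1) hj) _) (hs j hj)
    obtain ⟨y, h1, h2⟩ := chain_step n j a (μ j) (A j) (C j) (ε0 j) (W j) (hμ j hj) (hc j hj)
      (hsub j hj) G hG hGb _ (hkick j hj) U _ (mul_pos hc0 hs0) hU hτ
    refine ⟨y, h1, ?_⟩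
    have e3 : (A j * (cc μ A j * st μ b z j) ^ μ j + cc μ A (j + 1) ^ μ j * b j) ^ (1 / μ j) =
        cc μ A (j + 1) * st μ b z (j + 1) := by
      rw [e2, Real.mul_rpow (Real.rpow_nonneg (hcp (j + 1) hj).le _) (hs j hj).le,
        ← Real.rpow_mul (hcp (j + 1) hj).le, mul_one_div_cancel hμ0.ne', Real.rpow_one]
      rfl
    rw [e3] at h2
    exact h2
  intro j
  induction j with
  | zero =>
    intro _
    have hU : Tendsto (fun S => Real.exp S * (Real.exp (-S) * z)) atTop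
        (𝓝 (cc μ A 0 * st μ b z 0)) := by
      have e : ∀ S : ℝ, Real.exp S * (Real.exp (-S) * z) = cc μ A 0 * st μ b z 0 := by
        intro S
        rw [← mul_assoc, ← Real.exp_add, add_neg_cancel, Real.exp_zero]
        rfl
      simp_rw [e]
      exact tendsto_const_nhds
    obtain ⟨y, h1, h2⟩ := step 0 (by omega) (fun S => Real.exp (-S) * z) hU
    refine ⟨y, ?_, ?_⟩
    · filter_upwards [h1] with S h
      rw [hpl0] at h ⊢
      refine ⟨h.1, ?_⟩
      intro x hx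
      have h3 : 0 ≤ pl n (0 + 1) := by
        have := hpl_mono (Nat.zero_le (0 + 1))
        rwa [hpl0] at this
      obtain ⟨i1, i2, i3, i4⟩ := h.2 x ⟨hx.1, hx.2.trans h3⟩
      exact ⟨i1, i2, i3, i4.mono fun t ht => ⟨ht.1, ht.2.trans h3⟩⟩
    · refine hU.congr' ?_
      filter_upwards [h1] with S h
      rw [h.1]
  | succ j ih =>
    intro hj
    obtain ⟨Y, h1, h2⟩ := ih (by omega)
    obtain ⟨y, h3, h4⟩ := step j (by omega) (fun S => Y S (pl n j)) h2
    have hp0 : 0 ≤ pl n j := by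
      have := hpl_mono (Nat.zero_le j)
      rwa [hpl0] at this
    refine ⟨fun S x => if x ≤ pl n j then Y S x else y S x, ?_, ?_⟩
    · filter_upwards [h1, h3] with S h5 h6
      refine ⟨?_, Gd.glue hp0 (pl_le_succ n j) h5.2 h6.2 h6.1⟩
      rw [if_pos hp0]
      exact h5.1
    · refine h4.congr' ?_
      have h5 : ¬ pl n (j + 1) ≤ pl n j := by
        rw [not_le]
        unfold pl
        refine div_lt_div_of_pos_right ?_ hn
        refine mul_lt_mul_of_pos_left ?_ (by positivity)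
        push_cast
        linarith
      exact Eventually.of_forall fun S => by
        simp only
        rw [if_neg h5]

end Pool.Agent.Lib.MP_95e7ec_an.Pw
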