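import Mathlib

/-!
# One period of the scalar equation: definitions

The equation is `y' = h' (1 + h' G) y / D`, `D = (1 + a) y - a h = u + a w`, with `u = y`,
`w = y - h`. A half period is an interval `[α, β]` on which `h` increases from `-1/4` to `1/4`.
-/

set_option autoImplicit false

open Set Filter Topology

namespace Pool.Agent.Lib.MP_95e7ec_an.Pw

/-- The denominator `(1 + a) y - a h`. -/
noncomputable def den (a h : ℝ → ℝ) (x y : ℝ) : ℝ := (1 + a x) * y - a x * h x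

/-- The right hand side `h' (1 + h' G) y / D`. -/
noncomputable def rhs (a h h1 G : ℝ → ℝ) (x y : ℝ) : ℝ :=
  h1 x * (1 + h1 x * G x) * y / den a h x y

/-- A half period: `h` increases from `-1/4` to `1/4`, `a` is near `1`, and `a - mu` vanishes at the
zero of `h`. -/
structure Half (α x0 β : ℝ) (a h h1 : ℝ → ℝ) (mu L c M : ℝ) : Prop where
  lt0 : α < x0
  lt1 : x0 < β
  cont_a : Continuous a
  cont_h1 : Continuous h1
  deriv : ∀ x, HasDerivAt h (h1 x) x
  h_start : h α = -1 / 4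
  h_zero : h x0 = 0
  h_end : h β = 1 / 4
  h1_pos : ∀ x ∈ Ioo α β, 0 < h1 x
  h1_le : ∀ x ∈ Icc α β, |h1 x| ≤ M
  a_near : ∀ x ∈ Icc α β, |a x - 1| ≤ 1 / 100
  a_lip : ∀ x ∈ Icc α β, |a x - mu| ≤ L * |h x|
  c_pos : 0 < c
  h_lower : ∀ x ∈ Icc α β, c * |x - x0| ≤ |h x|

/-- A solution on `[α, β]` in the region `0 < y ≤ 1`, `4 h / 5 ≤ y` (one-sided derivatives at the
ends). -/
def Sol (a h h1 G : ℝ → ℝ) (α β : ℝ) (y : ℝ → ℝ) : Prop :=
  ∀ x ∈ Icc α β, 0 < y x ∧ 4 / 5 * h x ≤ y x ∧ y x ≤ 1 ∧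
    HasDerivWithinAt y (rhs a h h1 G x (y x)) (Icc α β) x

/-- The quantity `P = w u^mu`. -/
noncomputable def PP (mu : ℝ) (h y : ℝ → ℝ) (x : ℝ) : ℝ := (y x - h x) * (y x) ^ mu

/-- The coefficient `k = (mu - a) h' / D`. -/
noncomputable def kk (mu : ℝ) (a h h1 y : ℝ → ℝ) (x : ℝ) : ℝ :=
  (mu - a x) * h1 x / den a h x (y x)

/-- The inhomogeneous term `h'^2 G u^mu (u + mu w) / D`. -/
noncomputable def EE (mu : ℝ) (a h h1 G y : ℝ → ℝ) (x : ℝ) : ℝ :=
  h1 x ^ 2 * G x * ((y x) ^ mu * (y x + mu * (y x - h x)) / den a h x (y x))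

/-- The limit of `k`. -/
noncomputable def kinf (mu : ℝ) (a h h1 : ℝ → ℝ) (x : ℝ) : ℝ :=
  (mu - a x) * h1 x / (max (h x) 0 + a x * max (-h x) 0)

/-- The integral of the limit of `k`. -/
noncomputable def Kinf (mu : ℝ) (a h h1 : ℝ → ℝ) (α x : ℝ) : ℝ :=
  ∫ t in α..x, kinf mu a h h1 t

/-- The weight of the half period. -/
noncomputable def wgt (mu : ℝ) (a h h1 : ℝ → ℝ) (α β x : ℝ) : ℝ :=
  Real.exp (Kinf mu a h h1 α β - Kinf mu a h h1 α x) * (h1 x ^ 2 * (h x) ^ mu)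

/-- Mirror image. -/
def mir (f : ℝ → ℝ) : ℝ → ℝ := fun x => f (-x)

/-- Negative of the mirror image. -/
def nmir (f : ℝ → ℝ) : ℝ → ℝ := fun x => -f (-x)

/-- A full period: a half period and the mirror image of a half period. -/
structure Period (α x0 β x1 γ : ℝ) (a h h1 : ℝ → ℝ) (mu L c M : ℝ) : Prop where
  left : Half α x0 β a h h1 mu L c M
  right : Half (-γ) (-x1) (-β) (mir a) (mir h) (nmir h1) mu L c M

/-- The denominator is positive in the region. -/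
theorem den_ge {a h : ℝ → ℝ} {x y : ℝ} (ha : |a x - 1| ≤ 1 / 100) (hy : 0 < y)
    (hb : 4 / 5 * h x ≤ y) : (y + |y - h x|) / 2 ≤ den a h x y := by
  rw [abs_le] at ha
  have e : den a h x y = y + a x * (y - h x) := by unfold den; ring
  rw [e]
  rcases le_or_gt 0 (y - h x) with h0 | h0
  · rw [abs_of_nonneg h0]
    nlinarith [ha.1]
  · rw [abs_of_neg h0]
    nlinarith [ha.2]

theorem den_pos {a h : ℝ → ℝ} {x y : ℝ} (ha : |a x - 1| ≤ 1 / 100) (hy : 0 < y)
    (hb : 4 / 5 * h x ≤ y) : 0 < den a h x y := by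
  have h1 := den_ge ha hy hb
  have h2 := abs_nonneg (y - h x)
  linarith

end Pool.Agent.Lib.MP_95e7ec_an.Pw
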