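import Mathlib

/-!
# Power growth, part B: trigonometric polynomials with prescribed kicks

`K` intervals `[l j, r j]` of `[0, π]` with disjoint interiors, each divided at an inner point `m j`,
weights `V j` on `[l j, m j]` and `W j` on `[m j, r j]`, continuous and positive inside.
`kick l m r V W G j` is the sum of the two weighted integrals of `G`. There are even and odd
trigonometric polynomials of degree at most `K` with prescribed kicks.
-/

set_option autoImplicit false

open MeasureTheory Set

namespace Pool.Agent.Lib.MP_95e7ec_an.Pw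

/-- the sum of the two weighted integrals -/
noncomputable def kick {K : ℕ} (l m r : Fin K → ℝ) (V W : Fin K → ℝ → ℝ) (G : ℝ → ℝ)
    (j : Fin K) : ℝ :=
  (∫ x in (l j)..(m j), G x * V j x) + ∫ x in (m j)..(r j), G x * W j x

/-- The hypotheses on the intervals and the weights. -/
structure KickData (K : ℕ) (l m r : Fin K → ℝ) (V W : Fin K → ℝ → ℝ) : Prop where
  l0 : ∀ j, 0 ≤ l j
  rpi : ∀ j, r j ≤ Real.pi
  lm : ∀ j, l j < m j
  mr : ∀ j, m j < r j
  dis : ∀ i j, i < j → r i ≤ l j
  cV : ∀ j, ContinuousOn (V j) (Icc (l j) (m j))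
  cW : ∀ j, ContinuousOn (W j) (Icc (m j) (r j))
  pV : ∀ j, ∀ x ∈ Ioo (l j) (m j), 0 < V j x
  pW : ∀ j, ∀ x ∈ Ioo (m j) (r j), 0 < W j x

section

variable {K : ℕ} {l m r : Fin K → ℝ} {V W : Fin K → ℝ → ℝ}

theorem KickData.intV (h : KickData K l m r V W) {G : ℝ → ℝ} (hG : Continuous G) (j : Fin K) :
    IntervalIntegrable (fun x => G x * V j x) volume (l j) (m j) := by
  apply ContinuousOn.intervalIntegrable
  rw [uIcc_of_le (h.lm j).le]
  exact hG.continuousOn.mul (h.cV j)

theorem KickData.intW (h : KickData K l m r V W) {G : ℝ → ℝ} (hG : Continuous G) (j : Fin K) :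
    IntervalIntegrable (fun x => G x * W j x) volume (m j) (r j) := by
  apply ContinuousOn.intervalIntegrable
  rw [uIcc_of_le (h.mr j).le]
  exact hG.continuousOn.mul (h.cW j)

theorem KickData.kick_add (h : KickData K l m r V W) {G H : ℝ → ℝ} (hG : Continuous G)
    (hH : Continuous H) (j : Fin K) :
    kick l m r V W (fun x => G x + H x) j = kick l m r V W G j + kick l m r V W H j := by
  unfold kick
  simp only [add_mul]
  rw [intervalIntegral.integral_add (h.intV hG j) (h.intV hH j),
    intervalIntegral.integral_add (h.intW hG j) (h.intW hH j)]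
  ring

theorem kick_smul (c : ℝ) (G : ℝ → ℝ) (j : Fin K) :
    kick l m r V W (fun x => c * G x) j = c * kick l m r V W G j := by
  unfold kick
  simp only [mul_assoc]
  rw [intervalIntegral.integral_const_mul, intervalIntegral.integral_const_mul]
  ring

theorem kick_neg (G : ℝ → ℝ) (j : Fin K) :
    kick l m r V W (fun x => -G x) j = -kick l m r V W G j := by
  have := kick_smul (l := l) (m := m) (r := r) (V := V) (W := W) (-1) G j
  simpa using this

/-- If the kick vanishes, then the function has a zero inside. -/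
theorem KickData.exists_zero (h : KickData K l m r V W) {G : ℝ → ℝ} (hG : Continuous G)
    (j : Fin K) (h0 : kick l m r V W G j = 0) : ∃ x ∈ Ioo (l j) (r j), G x = 0 := by
  by_contra hne
  push Not at hne
  have hsign : (∀ x ∈ Ioo (l j) (r j), 0 < G x) ∨ (∀ x ∈ Ioo (l j) (r j), G x < 0) := by
    by_contra hcon
    push Not at hcon
    obtain ⟨⟨x, hx, hx0⟩, ⟨y, hy, hy0⟩⟩ := hcon
    have hpc : IsPreconnected (Ioo (l j) (r j)) := isPreconnected_Ioo
    obtain ⟨z, hz, hz0⟩ := hpc.intermediate_value hx hy hG.continuousOn ⟨hx0, hy0⟩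
    exact hne z hz hz0
  have hlm := h.lm j
  have hmr := h.mr j
  unfold kick at h0
  rcases hsign with hp | hn
  · have h1 : 0 < ∫ x in (l j)..(m j), G x * V j x :=
      intervalIntegral.intervalIntegral_pos_of_pos_on (h.intV hG j)
        (fun x hx => mul_pos (hp x ⟨hx.1, hx.2.trans hmr⟩) (h.pV j x hx)) hlm
    have h2 : 0 < ∫ x in (m j)..(r j), G x * W j x :=
      intervalIntegral.intervalIntegral_pos_of_pos_on (h.intW hG j)
        (fun x hx => mul_pos (hp x ⟨hlm.trans hx.1, hx.2⟩) (h.pW j x hx)) hmr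
    linarith
  · have h1 : 0 < ∫ x in (l j)..(m j), -(G x * V j x) :=
      intervalIntegral.intervalIntegral_pos_of_pos_on (h.intV hG j).neg
        (fun x hx => by
          have := mul_neg_of_neg_of_pos (hn x ⟨hx.1, hx.2.trans hmr⟩) (h.pV j x hx)
          simpa using this) hlm
    have h2 : 0 < ∫ x in (m j)..(r j), -(G x * W j x) :=
      intervalIntegral.intervalIntegral_pos_of_pos_on (h.intW hG j).neg
        (fun x hx => by
          have := mul_neg_of_neg_of_pos (hn x ⟨hlm.trans hx.1, hx.2⟩) (h.pW j x hx)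
          simpa using this) hmr
    rw [intervalIntegral.integral_neg] at h1 h2
    linarith

/-- The linear map from polynomials of degree less than `K` to kicks, with a multiplier `s`. -/
noncomputable def KickData.map (h : KickData K l m r V W) (s : ℝ → ℝ) (hs : Continuous s) :
    Polynomial.degreeLT ℝ K →ₗ[ℝ] (Fin K → ℝ) where
  toFun p := kick l m r V W (fun x => s x * (p : Polynomial ℝ).eval (Real.cos x))
  map_add' p q := by
    funext j
    have hc : ∀ P : Polynomial ℝ, Continuous (fun x => s x * P.eval (Real.cos x)) := fun P =>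
      hs.mul (P.continuous.comp Real.continuous_cos)
    have := h.kick_add (hc p) (hc q) j
    rw [Pi.add_apply, ← this]
    congr 1
    funext x
    simp only [Submodule.coe_add, Polynomial.eval_add]
    ring
  map_smul' c p := by
    funext j
    have := kick_smul (l := l) (m := m) (r := r) (V := V) (W := W) c
      (fun x => s x * (p : Polynomial ℝ).eval (Real.cos x)) j
    rw [Pi.smul_apply, RingHom.id_apply, smul_eq_mul, ← this]
    congr 1
    funext x
    simp only [Submodule.coe_smul, Polynomial.eval_smul, smul_eq_mul]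
    ring

theorem KickData.map_injective (h : KickData K l m r V W) (s : ℝ → ℝ) (hs : Continuous s)
    (hs0 : ∀ x ∈ Ioo 0 Real.pi, s x ≠ 0) : Function.Injective (h.map s hs) := by
  rw [← LinearMap.ker_eq_bot, LinearMap.ker_eq_bot']
  intro p hp
  have hin : ∀ j, ∀ x ∈ Ioo (l j) (r j), x ∈ Ioo 0 Real.pi := fun j x hx =>
    ⟨(h.l0 j).trans_lt hx.1, hx.2.trans_le (h.rpi j)⟩
  have hz : ∀ j, ∃ x ∈ Ioo (l j) (r j), (p : Polynomial ℝ).eval (Real.cos x) = 0 := by
    intro j
    have h0 : kick l m r V W (fun x => s x * (p : Polynomial ℝ).eval (Real.cos x)) j = 0 :=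
      congrFun hp j
    obtain ⟨x, hx, hx0⟩ := h.exists_zero
      (hs.mul ((p : Polynomial ℝ).continuous.comp Real.continuous_cos)) j h0
    exact ⟨x, hx, (mul_eq_zero.1 hx0).resolve_left (hs0 x (hin j x hx))⟩
  choose z hzI hz0 using hz
  have hinj : Function.Injective (fun j => Real.cos (z j)) := by
    intro i j hij
    have hzz : z i = z j := Real.injOn_cos
      ⟨(hin i _ (hzI i)).1.le, (hin i _ (hzI i)).2.le⟩
      ⟨(hin j _ (hzI j)).1.le, (hin j _ (hzI j)).2.le⟩ hij
    rcases lt_trichotomy i j with hlt | heq | hgt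
    · have := h.dis i j hlt
      have h1 := (hzI i).2
      have h2 := (hzI j).1
      linarith
    · exact heq
    · have := h.dis j i hgt
      have h1 := (hzI j).2
      have h2 := (hzI i).1
      linarith
  have hdeg : (p : Polynomial ℝ).degree < K := Polynomial.mem_degreeLT.1 p.2
  have : (p : Polynomial ℝ) = 0 := by
    apply Polynomial.eq_zero_of_degree_lt_of_eval_index_eq_zero (s := Finset.univ)
      (v := fun j : Fin K => Real.cos (z j)) (hinj.injOn)
    · simpa using hdeg
    · intro i _
      exact hz0 i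
  exact Subtype.ext this

theorem KickData.exists_poly (h : KickData K l m r V W) (s : ℝ → ℝ) (hs : Continuous s)
    (hs0 : ∀ x ∈ Ioo 0 Real.pi, s x ≠ 0) (B : Fin K → ℝ) :
    ∃ p : Polynomial ℝ, p.degree < K ∧
      ∀ j, kick l m r V W (fun x => s x * p.eval (Real.cos x)) j = B j := by
  have hinj := h.map_injective s hs hs0
  have hfin : Module.finrank ℝ (Polynomial.degreeLT ℝ K) = Module.finrank ℝ (Fin K → ℝ) := by
    rw [LinearEquiv.finrank_eq (Polynomial.degreeLTEquiv ℝ K)]
  have : FiniteDimensional ℝ (Polynomial.degreeLT ℝ K) :=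
    LinearEquiv.finiteDimensional (Polynomial.degreeLTEquiv ℝ K).symm
  have hsurj : Function.Surjective (h.map s hs) :=
    (LinearMap.injective_iff_surjective_of_finrank_eq_finrank hfin).1 hinj
  obtain ⟨p, hp⟩ := hsurj B
  exact ⟨p, Polynomial.mem_degreeLT.1 p.2, fun j => congrFun hp j⟩

/-- Linear version: a basis `p j` of polynomials with the unit vectors as kicks. -/
theorem KickData.exists_basis (h : KickData K l m r V W) (s : ℝ → ℝ) (hs : Continuous s)
    (hs0 : ∀ x ∈ Ioo 0 Real.pi, s x ≠ 0) :
    ∃ p : Fin K → Polynomial ℝ, (∀ i, (p i).degree < K) ∧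
      ∀ B : Fin K → ℝ, ∀ j,
        kick l m r V W (fun x => s x * (∑ i, Polynomial.C (B i) * p i).eval (Real.cos x)) j
          = B j := by
  choose p hp hk using fun i : Fin K => h.exists_poly s hs hs0 (Pi.single i 1)
  refine ⟨p, hp, fun B j => ?_⟩
  have hc : ∀ P : Polynomial ℝ, Continuous (fun x => s x * P.eval (Real.cos x)) := fun P =>
      hs.mul (P.continuous.comp Real.continuous_cos)
  have key : ∀ t : Finset (Fin K),
      kick l m r V W (fun x => s x * (∑ i ∈ t, Polynomial.C (B i) * p i).eval (Real.cos x)) j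
        = ∑ i ∈ t, B i * (Pi.single i (1 : ℝ) : Fin K → ℝ) j := by
    intro t
    classical
    induction t using Finset.induction_on with
    | empty => simp [kick]
    | insert a t ha ih =>
      have e3 : (fun x => s x * (∑ i ∈ insert a t, Polynomial.C (B i) * p i).eval (Real.cos x)) =
          fun x => B a * (s x * (p a).eval (Real.cos x)) +
            s x * (∑ i ∈ t, Polynomial.C (B i) * p i).eval (Real.cos x) := by
        funext x
        rw [Finset.sum_insert ha, Polynomial.eval_add, Polynomial.eval_mul, Polynomial.eval_C]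
        ring
      rw [e3, Finset.sum_insert ha, ← ih, ← hk a j]
      rw [h.kick_add (G := fun x => B a * (s x * (p a).eval (Real.cos x)))
        (continuous_const.mul (hc (p a))) (hc _) j, kick_smul]
  rw [key Finset.univ]
  simp [Pi.single_apply]

end

/-- **Kicks.** Trigonometric polynomials `G = P (cos x) + sin x * Q (cos x)` with prescribed kicks,
the mirror image `- G (- x)` having no kicks, and `G` bounded by a constant times the kicks. -/
theorem exists_kicks {K : ℕ} {l m r : Fin K → ℝ} {V W : Fin K → ℝ → ℝ}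
    (h : KickData K l m r V W) :
    ∃ C : ℝ, 0 < C ∧ ∃ p q : Fin K → Polynomial ℝ, (∀ i, (p i).degree < K) ∧
      (∀ i, (q i).degree < K) ∧ ∀ B : Fin K → ℝ, ∀ G : ℝ → ℝ,
      (∀ x, G x = (∑ i, Polynomial.C (B i) * p i).eval (Real.cos x) +
        Real.sin x * (∑ i, Polynomial.C (B i) * q i).eval (Real.cos x)) →
      (∀ x, |G x| ≤ C * ∑ i, |B i|) ∧ (∀ j, kick l m r V W G j = B j) ∧
      (∀ j, kick l m r V W (fun x => -G (-x)) j = 0) := by
  obtain ⟨p, hp, hpk⟩ := h.exists_basis (fun _ => 2) continuous_const (fun x _ => by norm_num)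
  obtain ⟨q, hq, hqk⟩ := h.exists_basis (fun x => 2 * Real.sin x)
    (continuous_const.mul Real.continuous_sin)
    (fun x hx => by
      have := Real.sin_pos_of_mem_Ioo hx
      positivity)
  -- bounds on `[-1, 1]`
  have hbd : ∀ P : Polynomial ℝ, ∃ c : ℝ, 0 ≤ c ∧ ∀ x, |P.eval (Real.cos x)| ≤ c := by
    intro P
    obtain ⟨c, hc⟩ := isCompact_Icc.exists_bound_of_continuousOn
      (P.continuous.continuousOn (s := Icc (-1 : ℝ) 1))
    refine ⟨c, (norm_nonneg _).trans (hc 0 ⟨by norm_num, by norm_num⟩), fun x => ?_⟩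
    exact hc (Real.cos x) ⟨Real.neg_one_le_cos x, Real.cos_le_one x⟩
  choose c hc0 hc using hbd
  refine ⟨1 + ∑ i, (c (p i) + c (q i)), ?_, p, q, hp, hq, ?_⟩
  · have : 0 ≤ ∑ i, (c (p i) + c (q i)) :=
      Finset.sum_nonneg fun i _ => add_nonneg (hc0 _) (hc0 _)
    linarith
  intro B G hG
  have hcp : ∀ P : Polynomial ℝ, Continuous (fun x => P.eval (Real.cos x)) := fun P =>
    P.continuous.comp Real.continuous_cos
  have e1 : ∀ j, kick l m r V W
      (fun x => (∑ i, Polynomial.C (B i) * p i).eval (Real.cos x)) j = B j / 2 := by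
    intro j
    have h1 := hpk B j
    rw [kick_smul] at h1
    linarith
  have e2 : ∀ j, kick l m r V W
      (fun x => Real.sin x * (∑ i, Polynomial.C (B i) * q i).eval (Real.cos x)) j = B j / 2 := by
    intro j
    have h1 := hqk B j
    simp only [mul_assoc] at h1
    rw [kick_smul] at h1
    linarith
  refine ⟨fun x => ?_, fun j => ?_, fun j => ?_⟩
  · rw [hG x, Polynomial.eval_finsetSum, Polynomial.eval_finsetSum, Finset.mul_sum,
      ← Finset.sum_add_distrib, Finset.mul_sum]
    refine (Finset.abs_sum_le_sum_abs _ _).trans (Finset.sum_le_sum fun i _ => ?_)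
    rw [Polynomial.eval_mul, Polynomial.eval_C, Polynomial.eval_mul, Polynomial.eval_C]
    have h1 := hc (p i) x
    have h2 := hc (q i) x
    have h3 : |Real.sin x| ≤ 1 := Real.abs_sin_le_one x
    have h4 : |Real.sin x * (B i * (q i).eval (Real.cos x))| ≤ |B i| * c (q i) := by
      rw [abs_mul, abs_mul]
      calc |Real.sin x| * (|B i| * |(q i).eval (Real.cos x)|)
          ≤ 1 * (|B i| * c (q i)) := by gcongr
        _ = |B i| * c (q i) := one_mul _
    have h5 : |B i * (p i).eval (Real.cos x)| ≤ |B i| * c (p i) := by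
      rw [abs_mul]
      gcongr
    have h6 : c (p i) + c (q i) ≤ 1 + ∑ i, (c (p i) + c (q i)) := by
      have := Finset.single_le_sum (f := fun i => c (p i) + c (q i))
        (fun i _ => add_nonneg (hc0 _) (hc0 _)) (Finset.mem_univ i)
      linarith
    calc |B i * (p i).eval (Real.cos x) + Real.sin x * (B i * (q i).eval (Real.cos x))|
        ≤ |B i| * c (p i) + |B i| * c (q i) := (abs_add_le _ _).trans (add_le_add h5 h4)
      _ = (c (p i) + c (q i)) * |B i| := by ring
      _ ≤ _ := by gcongr
  · have : G = fun x => (∑ i, Polynomial.C (B i) * p i).eval (Real.cos x) +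
        Real.sin x * (∑ i, Polynomial.C (B i) * q i).eval (Real.cos x) := funext hG
    rw [this, h.kick_add (G := fun x => (∑ i, Polynomial.C (B i) * p i).eval (Real.cos x))
      (H := fun x => Real.sin x * (∑ i, Polynomial.C (B i) * q i).eval (Real.cos x))
      (hcp _) (Real.continuous_sin.mul (hcp _)), e1, e2]
    ring
  · have : (fun x => -G (-x)) = fun x => -(∑ i, Polynomial.C (B i) * p i).eval (Real.cos x) +
        Real.sin x * (∑ i, Polynomial.C (B i) * q i).eval (Real.cos x) := by
      funext x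
      rw [hG (-x), Real.cos_neg, Real.sin_neg]
      ring
    rw [this, h.kick_add (G := fun x => -(∑ i, Polynomial.C (B i) * p i).eval (Real.cos x))
      (H := fun x => Real.sin x * (∑ i, Polynomial.C (B i) * q i).eval (Real.cos x))
      (hcp _).neg (Real.continuous_sin.mul (hcp _)), kick_neg, e1, e2]
    ring

/-- **Kicks, one weight on each interval** (which may vanish at the inner point `m j`). -/
theorem exists_kicks_single {K : ℕ} {l m r : Fin K → ℝ} {W : Fin K → ℝ → ℝ}
    (l0 : ∀ j, 0 ≤ l j) (rpi : ∀ j, r j ≤ Real.pi) (lm : ∀ j, l j < m j) (mr : ∀ j, m j < r j)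
    (dis : ∀ i j, i < j → r i ≤ l j) (cW : ∀ j, ContinuousOn (W j) (Icc (l j) (r j)))
    (pW : ∀ j, ∀ x ∈ Ioo (l j) (r j), x ≠ m j → 0 < W j x) :
    ∃ C : ℝ, 0 < C ∧ ∃ p q : Fin K → Polynomial ℝ, (∀ i, (p i).degree < K) ∧
      (∀ i, (q i).degree < K) ∧ ∀ B : Fin K → ℝ, ∀ G : ℝ → ℝ,
      (∀ x, G x = (∑ i, Polynomial.C (B i) * p i).eval (Real.cos x) +
        Real.sin x * (∑ i, Polynomial.C (B i) * q i).eval (Real.cos x)) →
      Continuous G ∧ (∀ x, |G x| ≤ C * ∑ i, |B i|) ∧
      (∀ j, ∫ x in (l j)..(r j), G x * W j x = B j) ∧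
      (∀ j, ∫ x in (l j)..(r j), -G (-x) * W j x = 0) := by
  have h : KickData K l m r W W :=
    { l0 := l0
      rpi := rpi
      lm := lm
      mr := mr
      dis := dis
      cV := fun j => (cW j).mono (Icc_subset_Icc_right (mr j).le)
      cW := fun j => (cW j).mono (Icc_subset_Icc_left (lm j).le)
      pV := fun j x hx => pW j x ⟨hx.1, hx.2.trans (mr j)⟩ hx.2.ne
      pW := fun j x hx => pW j x ⟨(lm j).trans hx.1, hx.2⟩ hx.1.ne' }
  obtain ⟨C, hC, p, q, hp, hq, H⟩ := exists_kicks h
  refine ⟨C, hC, p, q, hp, hq, fun B G hG => ?_⟩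
  obtain ⟨h1, h2, h3⟩ := H B G hG
  have hcp : ∀ P : Polynomial ℝ, Continuous (fun x => P.eval (Real.cos x)) := fun P =>
    P.continuous.comp Real.continuous_cos
  have hGc : Continuous G := by
    rw [funext hG]
    exact (hcp _).add (Real.continuous_sin.mul (hcp _))
  have hGc' : Continuous (fun x => -G (-x)) := (hGc.comp continuous_neg).neg
  have hadd : ∀ F : ℝ → ℝ, Continuous F → ∀ j,
      ∫ x in (l j)..(r j), F x * W j x = kick l m r W W F j := fun F hF j =>
    (intervalIntegral.integral_add_adjacent_intervals (h.intV hF j) (h.intW hF j)).symm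
  exact ⟨hGc, h1, fun j => (hadd G hGc j).trans (h2 j), fun j => (hadd _ hGc' j).trans (h3 j)⟩

end Pool.Agent.Lib.MP_95e7ec_an.Pw
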