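import Mathlib
import Pool.Agent.Lib.MP_95e7ec_an.Pw.BDefs
import Pool.Agent.Lib.MP_95e7ec_an.Pw.TKick

/-!
# Part B: perturbations with prescribed kicks

`G = p(cos x) + sin x q(cos x)`; its kicks on the `K` periods of `[0, π]` are prescribed and the
kicks of the mirror image `- G(-x)` are zero.
-/

set_option autoImplicit false

open Set Filter Topology

namespace Pool.Agent.Lib.MP_95e7ec_an.Pw

/-- `p(cos x) + sin x q(cos x)` -/
noncomputable def gg (p q : Polynomial ℝ) (x : ℝ) : ℝ :=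
  p.eval (Real.cos x) + Real.sin x * q.eval (Real.cos x)

theorem natDegree_sum_C_mul_le {K : ℕ} (B : Fin K → ℝ) (p : Fin K → Polynomial ℝ)
    (hp : ∀ i, (p i).degree < K) : (∑ i, Polynomial.C (B i) * p i).natDegree ≤ K := by
  have hmem : (∑ i, Polynomial.C (B i) * p i) ∈ Polynomial.degreeLT ℝ K := by
    refine Submodule.sum_mem _ fun i _ => ?_
    rw [← Polynomial.smul_eq_C_mul]
    exact Submodule.smul_mem _ _ (Polynomial.mem_degreeLT.2 (hp i))
  exact Polynomial.natDegree_le_iff_degree_le.2 (Polynomial.mem_degreeLT.1 hmem).le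

theorem exists_target (n K : ℕ) (hK : n = 2 * K) (hK1 : 1 ≤ K) (W : ℕ → ℝ → ℝ)
    (hW : ∀ j < K, ContinuousOn (W j) (Icc (z0 n j) (z1 n j)))
    (hpos : ∀ j < K, ∀ x ∈ Ioo (z0 n j) (z1 n j), x ≠ pm n j → 0 < W j x) :
    ∃ C : ℝ, 0 ≤ C ∧ ∀ τ : ℕ → ℝ, ∃ p q : Polynomial ℝ, p.natDegree ≤ K ∧ q.natDegree ≤ K ∧
      (∀ x, |gg p q x| ≤ C * ∑ j ∈ Finset.range K, |τ j|) ∧
      (∀ j < K, ∫ x in z0 n j..z1 n j, gg p q x * W j x = τ j) ∧
      (∀ j < K, ∫ x in z0 n j..z1 n j, -gg p q (-x) * W j x = 0) := by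
  have hKr : (1 : ℝ) ≤ K := by exact_mod_cast hK1
  have hnr : (n : ℝ) = 2 * K := by rw [hK]; push_cast; ring
  have hn0 : (0 : ℝ) < n := by rw [hnr]; linarith
  have hpi := Real.pi_pos
  -- the points as multiples of `π / (2 n)`
  have e0 : ∀ j, z0 n j = (4 * j + 1) * (Real.pi / (2 * n)) := fun j => by
    unfold z0 pl
    field_simp
    ring
  have em : ∀ j, pm n j = (4 * j + 2) * (Real.pi / (2 * n)) := fun j => by
    unfold pm pl
    field_simp
    ring
  have e1 : ∀ j, z1 n j = (4 * j + 3) * (Real.pi / (2 * n)) := fun j => by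
    unfold z1 pl
    field_simp
    ring
  have hd : 0 < Real.pi / (2 * n) := by positivity
  have hpi' : Real.pi = 4 * K * (Real.pi / (2 * n)) := by
    rw [hnr]
    field_simp
    ring
  obtain ⟨C, hC, p, q, hp, hq, H⟩ := exists_kicks_single (K := K) (l := fun j => z0 n j)
    (m := fun j => pm n j) (r := fun j => z1 n j) (W := fun j => W j)
    (fun j => by
      show 0 ≤ z0 n j
      rw [e0]
      positivity)
    (fun j => by
      show z1 n j ≤ Real.pi
      have hj : ((j : ℕ) : ℝ) + 1 ≤ K := by exact_mod_cast j.2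
      have h5 := mul_le_mul_of_nonneg_right (show (4 * ((j : ℕ) : ℝ) + 3) ≤ 4 * K by linarith) hd.le
      rw [e1]
      exact h5.trans_eq hpi'.symm)
    (fun j => by
      show z0 n j < pm n j
      rw [e0, em]
      exact mul_lt_mul_of_pos_right (by linarith) hd)
    (fun j => by
      show pm n j < z1 n j
      rw [e1, em]
      exact mul_lt_mul_of_pos_right (by linarith) hd)
    (fun i j hij => by
      show z1 n i ≤ z0 n j
      rw [e0, e1]
      have hij' : ((i : ℕ) : ℝ) + 1 ≤ ((j : ℕ) : ℝ) := by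
        exact_mod_cast hij
      exact mul_le_mul_of_nonneg_right (by linarith) hd.le)
    (fun j => hW j j.2) (fun j => hpos j j.2)
  refine ⟨C, hC.le, fun τ => ?_⟩
  refine ⟨∑ i : Fin K, Polynomial.C (τ i) * p i, ∑ i : Fin K, Polynomial.C (τ i) * q i,
    natDegree_sum_C_mul_le _ _ hp, natDegree_sum_C_mul_le _ _ hq, ?_⟩
  obtain ⟨-, h2, h3, h4⟩ := H (fun i => τ i) (gg (∑ i : Fin K, Polynomial.C (τ i) * p i)
    (∑ i : Fin K, Polynomial.C (τ i) * q i)) (fun x => rfl)
  refine ⟨fun x => ?_, fun j hj => h3 ⟨j, hj⟩, fun j hj => h4 ⟨j, hj⟩⟩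
  rw [Finset.sum_range]
  exact h2 x

end Pool.Agent.Lib.MP_95e7ec_an.Pw
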