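import Mathlib
import Pool.Agent.Lib.MP_95e7ec_an.Pw.BDefs

/-!
# Part B: the ratio function `a = P(cos x)`
-/

set_option autoImplicit false

open Set Filter Topology

namespace Pool.Agent.Lib.MP_95e7ec_an.Pw

/-- A polynomial in `cos x` is bounded. -/
theorem exists_bd_cos (Q : Polynomial ℝ) : ∃ B : ℝ, 0 ≤ B ∧ ∀ x, |Q.eval (Real.cos x)| ≤ B := by
  obtain ⟨B, hB⟩ := (isCompact_Icc (a := (-1 : ℝ)) (b := 1)).exists_bound_of_continuousOn
    (f := fun u => Q.eval u) Q.continuous.continuousOn
  exact ⟨max B 0, le_max_right _ _, fun x =>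
    (hB (Real.cos x) ⟨Real.neg_one_le_cos x, Real.cos_le_one x⟩).trans (le_max_left _ _)⟩

/-- The nodes: the zeros of `h` in `[0, π]`. -/
noncomputable def nd (n m : ℕ) : ℝ := (2 * m + 1) * Real.pi / (2 * n)

theorem z0_eq_nd (n j : ℕ) (hn : 0 < n) : z0 n j = nd n (2 * j) := by
  have h : (n : ℝ) ≠ 0 := by positivity
  unfold z0 pl nd
  push_cast
  field_simp

theorem z1_eq_nd (n j : ℕ) (hn : 0 < n) : z1 n j = nd n (2 * j + 1) := by
  have h : (n : ℝ) ≠ 0 := by positivity
  unfold z1 pl nd
  push_cast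
  field_simp
  ring

theorem nd_mem (n m : ℕ) (hm : m < n) : nd n m ∈ Icc 0 Real.pi := by
  have hn : (0 : ℝ) < n := by
    have : 0 < n := by omega
    exact_mod_cast this
  have h1 : (m : ℝ) + 1 ≤ n := by exact_mod_cast hm
  have h2 := Real.pi_pos
  refine ⟨by unfold nd; positivity, ?_⟩
  unfold nd
  rw [div_le_iff₀ (by positivity)]
  nlinarith

theorem nd_injOn (n : ℕ) : InjOn (fun m => Real.cos (nd n m)) (Finset.range n : Set ℕ) := by
  intro m hm k hk h
  have hm' : m < n := by simpa using hm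
  have hk' : k < n := by simpa using hk
  have hn : (0 : ℝ) < n := by
    have : 0 < n := by omega
    exact_mod_cast this
  have h1 := Real.injOn_cos (nd_mem n m hm') (nd_mem n k hk') h
  unfold nd at h1
  have h2 := Real.pi_pos
  rw [div_left_inj' (by positivity)] at h1
  have h3 : (2 * (m : ℝ) + 1) = 2 * k + 1 := mul_right_cancel₀ h2.ne' h1
  have h4 : (m : ℝ) = k := by linarith
  exact_mod_cast h4

/-- Interpolation at the zeros of `h` in `[0, π]`. -/
theorem exists_ratio (n K : ℕ) (hK : n = 2 * K) (hK1 : 1 ≤ K) : ∃ δ : ℝ, 0 < δ ∧ ∀ μ : ℕ → ℝ,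
    (∀ j < K, |μ j - 1| ≤ δ) → ∃ P : Polynomial ℝ, P.natDegree ≤ n ∧
      (∀ x, |P.eval (Real.cos x) - 1| ≤ 1 / 100) ∧
      ∀ j < K, P.eval (Real.cos (z0 n j)) = μ j ∧ P.eval (Real.cos (z1 n j)) = μ j := by
  classical
  have hn : 0 < n := by omega
  set v : ℕ → ℝ := fun m => Real.cos (nd n m) with hv
  have hinj : InjOn v (Finset.range n : Set ℕ) := nd_injOn n
  choose B hB0 hB using fun m : ℕ => exists_bd_cos (Lagrange.basis (Finset.range n) v m)
  set S : ℝ := ∑ m ∈ Finset.range n, B m + 1 with hS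
  have hS1 : 1 ≤ S := by
    have := Finset.sum_nonneg (s := Finset.range n) fun m _ => hB0 m
    linarith
  refine ⟨1 / (100 * S), by positivity, fun μ hμ => ?_⟩
  set r : ℕ → ℝ := fun m => μ (m / 2) - 1 with hr
  have hrb : ∀ m ∈ Finset.range n, |r m| ≤ 1 / (100 * S) := by
    intro m hm
    have : m < n := by simpa using hm
    exact hμ (m / 2) (by omega)
  set I := Lagrange.interpolate (Finset.range n) v r with hI
  have hev : ∀ m ∈ Finset.range n, I.eval (v m) = r m := fun m hm =>
    Lagrange.eval_interpolate_at_node r hinj hm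
  have hdeg : I.natDegree ≤ n := by
    rcases eq_or_ne I 0 with h | h
    · rw [h]; simp
    · have h1 := Lagrange.degree_interpolate_lt r hinj
      rw [← hI, Polynomial.degree_eq_natDegree h, Finset.card_range] at h1
      exact_mod_cast h1.le
  refine ⟨1 + I, ?_, fun x => ?_, fun j hj => ?_⟩
  · refine (Polynomial.natDegree_add_le _ _).trans ?_
    simp [hdeg]
  · have h1 : (1 + I).eval (Real.cos x) - 1 = ∑ m ∈ Finset.range n,
        r m * (Lagrange.basis (Finset.range n) v m).eval (Real.cos x) := by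
      rw [Polynomial.eval_add, Polynomial.eval_one, hI, Lagrange.interpolate_apply,
        Polynomial.eval_finsetSum]
      simp
    rw [h1]
    calc |∑ m ∈ Finset.range n,
        r m * (Lagrange.basis (Finset.range n) v m).eval (Real.cos x)|
        ≤ ∑ m ∈ Finset.range n,
          |r m * (Lagrange.basis (Finset.range n) v m).eval (Real.cos x)| :=
          Finset.abs_sum_le_sum_abs _ _
      _ ≤ ∑ m ∈ Finset.range n, 1 / (100 * S) * B m := by
          refine Finset.sum_le_sum fun m hm => ?_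
          rw [abs_mul]
          exact mul_le_mul (hrb m hm) (hB m x) (abs_nonneg _) (by positivity)
      _ = 1 / (100 * S) * ∑ m ∈ Finset.range n, B m := by rw [Finset.mul_sum]
      _ ≤ 1 / (100 * S) * S := by
          refine mul_le_mul_of_nonneg_left ?_ (by positivity)
          rw [hS]; linarith
      _ = 1 / 100 := by
          field_simp
  · constructor
    · have h1 : Real.cos (z0 n j) = v (2 * j) := by rw [z0_eq_nd n j hn]
      rw [h1, Polynomial.eval_add, Polynomial.eval_one, hev _ (by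
        rw [Finset.mem_range]; omega)]
      simp only [hr]
      rw [show 2 * j / 2 = j by omega]
      ring
    · have h1 : Real.cos (z1 n j) = v (2 * j + 1) := by rw [z1_eq_nd n j hn]
      rw [h1, Polynomial.eval_add, Polynomial.eval_one, hev _ (by
        rw [Finset.mem_range]; omega)]
      simp only [hr]
      rw [show (2 * j + 1) / 2 = j by omega]
      ring

/-- A polynomial in `cos x` is Lipschitz. -/
theorem exists_lip_cos (P : Polynomial ℝ) : ∃ B : ℝ, 0 ≤ B ∧ ∀ x y,
    |P.eval (Real.cos x) - P.eval (Real.cos y)| ≤ B * |x - y| := by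
  obtain ⟨B, hB0, hB⟩ := exists_bd_cos P.derivative
  refine ⟨B, hB0, fun x y => ?_⟩
  have h1 : ∀ x ∈ (univ : Set ℝ), HasDerivWithinAt (fun x => P.eval (Real.cos x))
      (P.derivative.eval (Real.cos x) * -Real.sin x) univ x := fun x _ =>
    ((P.hasDerivAt (Real.cos x)).comp x (Real.hasDerivAt_cos x)).hasDerivWithinAt
  have h2 : ∀ x ∈ (univ : Set ℝ), ‖P.derivative.eval (Real.cos x) * -Real.sin x‖ ≤ B := by
    intro x _
    rw [Real.norm_eq_abs, abs_mul, abs_neg]
    calc |P.derivative.eval (Real.cos x)| * |Real.sin x| ≤ B * 1 :=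
          mul_le_mul (hB x) (Real.abs_sin_le_one x) (abs_nonneg _) hB0
      _ = B := mul_one B
  exact convex_univ.norm_image_sub_le_of_norm_hasDerivWithin_le h1 h2 (mem_univ y) (mem_univ x)

theorem exists_perHyp (n j : ℕ) (hn : 0 < n) (P : Polynomial ℝ) (μ : ℝ)
    (h1 : ∀ x, |P.eval (Real.cos x) - 1| ≤ 1 / 100)
    (h2 : P.eval (Real.cos (z0 n j)) = μ) (h3 : P.eval (Real.cos (z1 n j)) = μ) :
    ∃ L : ℝ, PerHyp n j (fun x => P.eval (Real.cos x)) μ L := by
  obtain ⟨B, hB0, hB⟩ := exists_lip_cos P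
  have hn0 : (0 : ℝ) < n := by exact_mod_cast hn
  have hn1 : (1 : ℝ) ≤ n := by exact_mod_cast hn
  have hpi := Real.pi_pos
  refine ⟨B * (2 * Real.pi), fun x _ => h1 x, fun x hx => ?_⟩
  -- the key estimate
  have key : ∀ z : ℝ, P.eval (Real.cos z) = μ → |(n : ℝ) * (x - z)| ≤ Real.pi / 2 →
      |Real.cos (n * x)| = |Real.sin (n * (x - z))| →
      |P.eval (Real.cos x) - μ| ≤ B * (2 * Real.pi) * |hh n x| := by
    intro z hz hxz hc
    have h4 := Real.mul_abs_le_abs_sin hxz
    have h5 : |hh n x| = |Real.sin (n * (x - z))| / 4 := by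
      unfold hh
      rw [abs_div, abs_neg, hc, abs_of_pos (show (0 : ℝ) < 4 by norm_num)]
    have h6 : |P.eval (Real.cos x) - μ| ≤ B * |x - z| := by
      rw [← hz]; exact hB x z
    have h7 : |x - z| ≤ |(n : ℝ) * (x - z)| := by
      rw [abs_mul, abs_of_pos hn0]
      nlinarith [abs_nonneg (x - z)]
    have h8 : |(n : ℝ) * (x - z)| ≤ Real.pi / 2 * |Real.sin (n * (x - z))| := by
      have : 2 / Real.pi * |(n : ℝ) * (x - z)| * (Real.pi / 2) =
          |(n : ℝ) * (x - z)| := by field_simp
      calc |(n : ℝ) * (x - z)| = 2 / Real.pi * |(n : ℝ) * (x - z)| * (Real.pi / 2) := this.symm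
        _ ≤ |Real.sin (n * (x - z))| * (Real.pi / 2) :=
            mul_le_mul_of_nonneg_right h4 (by positivity)
        _ = _ := by ring
    calc |P.eval (Real.cos x) - μ| ≤ B * |x - z| := h6
      _ ≤ B * (Real.pi / 2 * |Real.sin (n * (x - z))|) :=
          mul_le_mul_of_nonneg_left (h7.trans h8) hB0
      _ = B * (2 * Real.pi) * |hh n x| := by rw [h5]; ring
  have hx1 : 2 * Real.pi * j ≤ n * x := by
    have := hx.1
    unfold pl at this
    rw [div_le_iff₀ hn0] at this
    linarith
  have hx2 : n * x ≤ 2 * Real.pi * j + 2 * Real.pi := by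
    have := hx.2
    unfold pl at this
    rw [le_div_iff₀ hn0] at this
    push_cast at this
    linarith
  have e0 : (n : ℝ) * z0 n j = 2 * Real.pi * j + Real.pi / 2 := by
    unfold z0 pl; field_simp
  have e1 : (n : ℝ) * z1 n j = 2 * Real.pi * j + 3 * Real.pi / 2 := by
    unfold z1 pl; field_simp
  rcases le_total ((n : ℝ) * x) (2 * Real.pi * j + Real.pi) with h | h
  · refine key (z0 n j) h2 ?_ ?_
    · rw [mul_sub, e0, abs_le]
      constructor <;> linarith
    · rw [mul_sub, e0]
      have : (n : ℝ) * x - (2 * Real.pi * j + Real.pi / 2) =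
          (n : ℝ) * x - Real.pi / 2 - j * (2 * Real.pi) := by ring
      rw [this, Real.sin_sub_nat_mul_two_pi, Real.sin_sub_pi_div_two, abs_neg]
  · refine key (z1 n j) h3 ?_ ?_
    · rw [mul_sub, e1, abs_le]
      constructor <;> linarith
    · rw [mul_sub, e1]
      have : (n : ℝ) * x - (2 * Real.pi * j + 3 * Real.pi / 2) =
          (n : ℝ) * x + Real.pi / 2 - 2 * Real.pi - j * (2 * Real.pi) := by ring
      rw [this, Real.sin_sub_nat_mul_two_pi, Real.sin_sub_two_pi, Real.sin_add_pi_div_two]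

end Pool.Agent.Lib.MP_95e7ec_an.Pw
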