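import Mathlib
import Pool.Agent.Lib.MP_95e7ec_an.Pw.BDefs
import Pool.Agent.Lib.MP_95e7ec_an.Pw.Ode

/-!
# Part B: gluing a solution on `[0, π]` with a reflected one
-/

set_option autoImplicit false

open Set Filter Topology

namespace Pool.Agent.Lib.MP_95e7ec_an.Pw

/-- A good solution on `[0, π]` and a good solution of the mirrored equation with the same value
at `0` give a good solution on `[-π, π]`. -/
theorem Gd.glue_mirror (n : ℕ) (a G y y' : ℝ → ℝ) (ha : ∀ x, a (-x) = a x)
    (h : Gd n a G 0 Real.pi y) (h' : Gd n a (fun x => -G (-x)) 0 Real.pi y') (h0 : y 0 = y' 0) :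
    Gd n a G (-Real.pi) Real.pi (fun x => if 0 ≤ x then y x else y' (-x)) := by
  have hodd : ∀ x : ℝ, hd n (-x) = -hd n x := fun x => by
    unfold hd
    rw [mul_neg, Real.sin_neg]
    ring
  have heven : ∀ x : ℝ, hh n (-x) = hh n x := fun x => by
    unfold hh
    rw [mul_neg, Real.cos_neg]
  have hden : ∀ x v : ℝ, bden (hh n) a (-x) v = bden (hh n) a x v := fun x v => by
    unfold bden
    rw [ha, heven]
  have hnum : ∀ x v : ℝ, bnum (hd n) (fun x => -G (-x)) (-x) v = -bnum (hd n) G x v :=
    fun x v => by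
      simp only [bnum, hodd, neg_neg]
      ring
  have hpi := Real.pi_pos
  have s1 : Sl (fun x v => bnum (hd n) G x v / bden (hh n) a x v) 0 Real.pi
      (fun x => if 0 ≤ x then y x else y' (-x)) := by
    have : Sl (fun x v => bnum (hd n) G x v / bden (hh n) a x v) 0 Real.pi y :=
      fun x hx => (h x hx).2.2.2
    exact this.congr' fun x hx => if_pos hx.1
  have e2 : ∀ x ∈ Icc (-Real.pi) (-0), (if 0 ≤ x then y x else y' (-x)) = y' (-x) := by
    intro x hx
    rcases eq_or_lt_of_le hx.2 with h1 | h1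
    · rw [h1]
      simpa using h0
    · rw [neg_zero] at h1
      exact if_neg (not_le.2 h1)
  have s2 : Sl (fun x v => bnum (hd n) G x v / bden (hh n) a x v) (-Real.pi) (-0)
      (fun x => if 0 ≤ x then y x else y' (-x)) := by
    have t1 : Sl (fun x v => bnum (hd n) (fun x => -G (-x)) x v / bden (hh n) a x v) 0 Real.pi
        y' := fun x hx => (h' x hx).2.2.2
    have t2 := t1.neg.congr' e2
    refine t2.congr fun x hx => ?_
    simp only [hden, hnum]
    ring
  rw [neg_zero] at s2 e2
  have s3 := Sl.glue (neg_nonpos.2 hpi.le) hpi.le s2 s1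
  intro x hx
  refine ⟨?_, ?_, ?_, s3 x hx⟩
  · rcases le_or_gt 0 x with h1 | h1
    · simpa only [if_pos h1] using (h x ⟨h1, hx.2⟩).1
    · simpa only [if_neg (not_le.2 h1)] using
        (h' (-x) ⟨by linarith, by linarith [hx.1]⟩).1
  · rcases le_or_gt 0 x with h1 | h1
    · simpa only [if_pos h1] using (h x ⟨h1, hx.2⟩).2.1
    · simpa only [if_neg (not_le.2 h1)] using
        (h' (-x) ⟨by linarith, by linarith [hx.1]⟩).2.1
  · rcases le_or_gt 0 x with h1 | h1
    · simpa only [if_pos h1] using (h x ⟨h1, hx.2⟩).2.2.1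
    · have := (h' (-x) ⟨by linarith, by linarith [hx.1]⟩).2.2.1
      rw [hden] at this
      simpa only [if_neg (not_le.2 h1)] using this

/-- Words as sequences. -/
theorem wd_eq_st (l : List (ℝ × ℝ)) (z : ℝ) (h : Pool.Agent.MP95e7W.Ok l z) :
    Pool.Agent.MP95e7W.wd l z = st (fun j => (l.getD j (1, 0)).1) (fun j => (l.getD j (1, 0)).2) z
      l.length ∧
    ∀ j < l.length, 0 < st (fun j => (l.getD j (1, 0)).1) (fun j => (l.getD j (1, 0)).2) z j ^
      (l.getD j (1, 0)).1 + (l.getD j (1, 0)).2 := by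
  induction l generalizing z with
  | nil => exact ⟨rfl, fun j hj => absurd hj (Nat.not_lt_zero j)⟩
  | cons p l ih =>
    obtain ⟨h1, h2, h3⟩ := h
    have hs : ∀ j, st (fun j => ((p :: l).getD j (1, 0)).1) (fun j => ((p :: l).getD j (1, 0)).2)
        z (j + 1) = st (fun j => (l.getD j (1, 0)).1) (fun j => (l.getD j (1, 0)).2)
        (Pool.Agent.MP95e7W.lt p z) j := by
      intro j
      induction j with
      | zero => rfl
      | succ j ihj =>
        show (st _ _ z (j + 1) ^ ((p :: l).getD (j + 1) (1, 0)).1 +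
          ((p :: l).getD (j + 1) (1, 0)).2) ^ (1 / ((p :: l).getD (j + 1) (1, 0)).1) = _
        rw [ihj]
        rfl
    obtain ⟨i1, i2⟩ := ih _ h3
    refine ⟨?_, ?_⟩
    · rw [List.length_cons, hs, Pool.Agent.MP95e7W.wd_cons, i1]
    · intro j hj
      rcases j with _ | j
      · exact h2
      · rw [hs]
        exact i2 j (Nat.lt_of_succ_lt_succ hj)

end Pool.Agent.Lib.MP_95e7ec_an.Pw
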