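import Mathlib
import Pool.Agent.Lib.MP_95e7ec_an.Pw.CDefs

/-!
# Power growth, part C: trigonometric polynomials and the plane field
-/

set_option autoImplicit false

open Set Filter Topology

namespace Pool.Agent.Lib.MP_95e7ec_an.Pw

open MvPolynomial

/-- The form `X² + Y²`. -/
noncomputable def rr : MvPolynomial (Fin 2) ℝ := X 0 ^ 2 + X 1 ^ 2

theorem rr_hom : rr.IsHomogeneous 2 := (isHomogeneous_X_pow 0 2).add (isHomogeneous_X_pow 1 2)

theorem rr_pow_hom (k : ℕ) : (rr ^ k).IsHomogeneous (2 * k) := rr_hom.pow k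

theorem eval_rr (x y : ℝ) : eval ![x, y] rr = x ^ 2 + y ^ 2 := by
  simp [rr]

theorem eval_rr_half (x : ℝ) : eval ![Real.cos (x / 2), Real.sin (x / 2)] rr = 1 := by
  rw [eval_rr, Real.cos_sq_add_sin_sq]

theorem eval_scale {P : MvPolynomial (Fin 2) ℝ} {d : ℕ} (hP : P.IsHomogeneous d) (r x y : ℝ) :
    eval ![r * x, r * y] P = r ^ d * eval ![x, y] P := by
  rw [eval_eq', eval_eq', Finset.mul_sum]
  refine Finset.sum_congr rfl fun e he => ?_
  have h1 := hP (mem_support_iff.1 he)
  have h2 : e 0 + e 1 = d := by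
    rw [← h1]
    simp [Finsupp.weight_apply, Finsupp.sum_fintype]
  rw [← h2]
  simp only [Fin.prod_univ_two, Matrix.cons_val_zero, Matrix.cons_val_one]
  rw [mul_pow, mul_pow, pow_add]
  ring

/-! ### Trigonometric polynomials -/

theorem IsTrig.add {k : ℕ} {f g : ℝ → ℝ} (hf : IsTrig k f) (hg : IsTrig k g) :
    IsTrig k fun x => f x + g x := by
  obtain ⟨P, hP, hP'⟩ := hf
  obtain ⟨Q, hQ, hQ'⟩ := hg
  exact ⟨P + Q, hP.add hQ, fun x => by rw [map_add, ← hP', ← hQ']⟩

theorem IsTrig.mul {k l : ℕ} {f g : ℝ → ℝ} (hf : IsTrig k f) (hg : IsTrig l g) :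
    IsTrig (k + l) fun x => f x * g x := by
  obtain ⟨P, hP, hP'⟩ := hf
  obtain ⟨Q, hQ, hQ'⟩ := hg
  refine ⟨P * Q, ?_, fun x => by rw [map_mul, ← hP', ← hQ']⟩
  rw [mul_add]
  exact hP.mul hQ

theorem IsTrig.const (k : ℕ) (c : ℝ) : IsTrig k fun _ => c := by
  refine ⟨C c * rr ^ k, ?_, fun x => ?_⟩
  · have := (isHomogeneous_C (Fin 2) c).mul (rr_pow_hom k)
    rwa [zero_add] at this
  · rw [map_mul, map_pow, eval_rr_half, eval_C, one_pow, mul_one]

theorem IsTrig.mono {k l : ℕ} (h : k ≤ l) {f : ℝ → ℝ} (hf : IsTrig k f) : IsTrig l f := by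
  obtain ⟨m, rfl⟩ := Nat.exists_eq_add_of_le h
  have := hf.mul (IsTrig.const m 1)
  simpa using this

theorem IsTrig.const_mul {k : ℕ} {f : ℝ → ℝ} (c : ℝ) (hf : IsTrig k f) :
    IsTrig k fun x => c * f x := by
  have := (IsTrig.const 0 c).mul hf
  rwa [zero_add] at this

theorem IsTrig.neg {k : ℕ} {f : ℝ → ℝ} (hf : IsTrig k f) : IsTrig k fun x => -f x := by
  have := hf.const_mul (-1)
  simpa using this

theorem IsTrig.sub {k : ℕ} {f g : ℝ → ℝ} (hf : IsTrig k f) (hg : IsTrig k g) :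
    IsTrig k fun x => f x - g x := by
  have := hf.add hg.neg
  simpa [sub_eq_add_neg] using this

theorem IsTrig.sum {ι : Type*} (s : Finset ι) {k : ℕ} {f : ι → ℝ → ℝ}
    (hf : ∀ i ∈ s, IsTrig k (f i)) : IsTrig k fun x => ∑ i ∈ s, f i x := by
  classical
  induction s using Finset.induction_on with
  | empty => simpa using IsTrig.const k 0
  | insert a s ha ih =>
    have h1 := (hf a (Finset.mem_insert_self a s)).add
      (ih fun i hi => hf i (Finset.mem_insert_of_mem hi))
    simpa [Finset.sum_insert ha] using h1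

theorem IsTrig.pow {k : ℕ} {f : ℝ → ℝ} (hf : IsTrig k f) (m : ℕ) :
    IsTrig (k * m) fun x => f x ^ m := by
  induction m with
  | zero => simpa using IsTrig.const 0 1
  | succ m ih =>
    have := ih.mul hf
    simpa [pow_succ, Nat.mul_succ] using this

theorem isTrig_cos : IsTrig 1 Real.cos := by
  refine ⟨X 0 ^ 2 - X 1 ^ 2, (isHomogeneous_X_pow 0 2).sub (isHomogeneous_X_pow 1 2), fun x => ?_⟩
  have h := Real.cos_two_mul' (x / 2)
  rw [mul_div_cancel₀ x two_ne_zero] at h
  simp [h]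

theorem isTrig_sin : IsTrig 1 Real.sin := by
  refine ⟨C 2 * (X 1 * X 0), ?_, fun x => ?_⟩
  · have := (isHomogeneous_C (Fin 2) (2 : ℝ)).mul
      ((isHomogeneous_X ℝ (1 : Fin 2)).mul (isHomogeneous_X ℝ (0 : Fin 2)))
    simpa using this
  · have h := Real.sin_two_mul (x / 2)
    rw [mul_div_cancel₀ x two_ne_zero] at h
    simp [h, mul_assoc]

theorem isTrig_cos_sin_nat (k : ℕ) :
    IsTrig k (fun x => Real.cos (k * x)) ∧ IsTrig k fun x => Real.sin (k * x) := by
  induction k with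
  | zero =>
    constructor
    · simpa using IsTrig.const 0 1
    · simpa using IsTrig.const 0 0
  | succ k ih =>
    obtain ⟨h1, h2⟩ := ih
    constructor
    · have h3 := (h1.mul isTrig_cos).sub (h2.mul isTrig_sin)
      refine (congrArg _ (funext fun x => ?_)).mp h3
      push_cast
      rw [add_mul, one_mul, Real.cos_add]
    · have h3 := (h2.mul isTrig_cos).add (h1.mul isTrig_sin)
      refine (congrArg _ (funext fun x => ?_)).mp h3
      push_cast
      rw [add_mul, one_mul, Real.sin_add]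

theorem IsTrig.cos_nat (k : ℕ) : IsTrig k fun x => Real.cos (k * x) := (isTrig_cos_sin_nat k).1

theorem IsTrig.sin_nat (k : ℕ) : IsTrig k fun x => Real.sin (k * x) := (isTrig_cos_sin_nat k).2

/-- A polynomial in `cos x`. -/
theorem IsTrig.poly_cos (A : Polynomial ℝ) {k : ℕ} (h : A.natDegree ≤ k) :
    IsTrig k fun x => A.eval (Real.cos x) := by
  have h1 : ∀ x, A.eval (Real.cos x) =
      ∑ i ∈ Finset.range (A.natDegree + 1), A.coeff i * Real.cos x ^ i :=
    fun x => Polynomial.eval_eq_sum_range (Real.cos x)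
  simp only [h1]
  refine IsTrig.sum _ fun i hi => (IsTrig.const_mul _ ?_)
  have h2 := isTrig_cos.pow i
  rw [one_mul] at h2
  refine h2.mono ?_
  have := Finset.mem_range.1 hi
  omega

theorem contDiff_eval (P : MvPolynomial (Fin 2) ℝ) {m : WithTop ℕ∞} {u v : ℝ → ℝ}
    (hu : ContDiff ℝ m u) (hv : ContDiff ℝ m v) :
    ContDiff ℝ m fun x => eval ![u x, v x] P := by
  induction P using MvPolynomial.induction_on with
  | C a => simpa using contDiff_const
  | add p q hp hq =>
    simp only [map_add]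
    exact hp.add hq
  | mul_X p i hp =>
    simp only [map_mul, eval_X]
    refine hp.mul ?_
    fin_cases i
    · simpa using hu
    · simpa using hv

theorem IsTrig.contDiff {k : ℕ} {f : ℝ → ℝ} (hf : IsTrig k f) {m : WithTop ℕ∞} :
    ContDiff ℝ m f := by
  obtain ⟨P, -, hP⟩ := hf
  have h : f = fun x => eval ![Real.cos (x / 2), Real.sin (x / 2)] P := funext hP
  rw [h]
  exact contDiff_eval P (Real.contDiff_cos.comp (contDiff_id.div_const 2))
    (Real.contDiff_sin.comp (contDiff_id.div_const 2))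

theorem IsTrig.continuous {k : ℕ} {f : ℝ → ℝ} (hf : IsTrig k f) : Continuous f :=
  (hf.contDiff (m := 0)).continuous

theorem IsTrig.periodic {k : ℕ} {f : ℝ → ℝ} (hf : IsTrig k f) (x : ℝ) :
    f (x + 2 * Real.pi) = f x := by
  obtain ⟨P, hP, hP'⟩ := hf
  rw [hP', hP', show (x + 2 * Real.pi) / 2 = x / 2 + Real.pi by ring, Real.cos_add_pi,
    Real.sin_add_pi]
  have h := eval_scale hP (-1) (Real.cos (x / 2)) (Real.sin (x / 2))
  rw [pow_mul] at h
  simpa using h

/-! ### The plane field -/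

theorem eval_aeval (A : Polynomial ℝ) (a : MvPolynomial (Fin 2) ℝ) (v : Fin 2 → ℝ) :
    eval v (Polynomial.aeval a A) = A.eval (eval v a) := by
  rw [Polynomial.aeval_def, Polynomial.hom_eval₂, Polynomial.eval]
  congr 1
  ext x
  simp

theorem totalDegree_aeval_le (A : Polynomial ℝ) (a : MvPolynomial (Fin 2) ℝ) {d k : ℕ}
    (hA : A.natDegree ≤ d) (ha : a.totalDegree ≤ k) :
    (Polynomial.aeval a A).totalDegree ≤ d * k := by
  rw [Polynomial.aeval_eq_sum_range]
  refine totalDegree_finsetSum_le fun i hi => ?_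
  refine (totalDegree_smul_le _ _).trans ((totalDegree_pow _ _).trans ?_)
  have := Finset.mem_range.1 hi
  exact Nat.mul_le_mul (by omega) ha

theorem totalDegree_rr_sub : (rr - C 2 : MvPolynomial (Fin 2) ℝ).totalDegree ≤ 2 := by
  refine (totalDegree_sub _ _).trans (max_le rr_hom.totalDegree_le ?_)
  rw [totalDegree_C]
  exact Nat.zero_le _

/-- **The plane field.** -/
theorem exists_field {n M : ℕ} (hn : 1 ≤ n) {p q r s : ℝ → ℝ} (hp : IsTrig M p) (hq : IsTrig M q)
    (hr : IsTrig M r) (hs : IsTrig M s) :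
    ∃ P Q : MvPolynomial (Fin 2) ℝ, P.totalDegree ≤ 2 * M + 4 * n + 1 ∧
      Q.totalDegree ≤ 2 * M + 4 * n + 1 ∧ ∀ ρ : ℝ, 0 ≤ ρ → ∀ x : ℝ,
        vf P Q (pt x ρ) =
          ((Real.sqrt ρ * Real.cos (x / 2) * UU n M p q x ρ -
            Real.sqrt ρ * Real.sin (x / 2) * VV n M r s x ρ) / 2,
          (Real.sqrt ρ * Real.sin (x / 2) * UU n M p q x ρ +
            Real.sqrt ρ * Real.cos (x / 2) * VV n M r s x ρ) / 2) := by
  obtain ⟨p', hp1, hp2⟩ := hp
  obtain ⟨q', hq1, hq2⟩ := hq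
  obtain ⟨r', hr1, hr2⟩ := hr
  obtain ⟨s', hs1, hs2⟩ := hs
  set T : MvPolynomial (Fin 2) ℝ :=
    Polynomial.aeval (rr - C 2) (Polynomial.Chebyshev.T ℝ n) with hT
  set T' : MvPolynomial (Fin 2) ℝ :=
    Polynomial.aeval (rr - C 2) (Polynomial.Chebyshev.T ℝ n).derivative with hT'
  set U : MvPolynomial (Fin 2) ℝ := p' * T + q' with hU
  set V : MvPolynomial (Fin 2) ℝ := rr * (T' * (r' * T - s')) with hV
  have hTd : T.totalDegree ≤ n * 2 := by
    refine totalDegree_aeval_le _ _ ?_ totalDegree_rr_sub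
    rw [Polynomial.Chebyshev.natDegree_T, Int.natAbs_natCast]
  have hTd' : T'.totalDegree ≤ (n - 1) * 2 := by
    refine totalDegree_aeval_le _ _ ?_ totalDegree_rr_sub
    refine (Polynomial.natDegree_derivative_le _).trans ?_
    rw [Polynomial.Chebyshev.natDegree_T, Int.natAbs_natCast]
  have hUd : U.totalDegree ≤ 2 * M + 2 * n := by
    refine (totalDegree_add _ _).trans (max_le ?_ ?_)
    · refine (totalDegree_mul _ _).trans ?_
      have := hp1.totalDegree_le
      omega
    · have := hq1.totalDegree_le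
      omega
  have hVd : V.totalDegree ≤ 2 * M + 4 * n := by
    refine (totalDegree_mul _ _).trans ?_
    have h1 : rr.totalDegree ≤ 2 := rr_hom.totalDegree_le
    have h2 : (T' * (r' * T - s')).totalDegree ≤ (n - 1) * 2 + (2 * M + n * 2) := by
      refine (totalDegree_mul _ _).trans (Nat.add_le_add hTd' ?_)
      refine (totalDegree_sub _ _).trans (max_le ?_ ?_)
      · refine (totalDegree_mul _ _).trans ?_
        have := hr1.totalDegree_le
        omega
      · have := hs1.totalDegree_le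
        omega
    omega
  have hX : ∀ (i : Fin 2) (W : MvPolynomial (Fin 2) ℝ), W.totalDegree ≤ 2 * M + 4 * n →
      (X i * W).totalDegree ≤ 2 * M + 4 * n + 1 := by
    intro i W hW
    refine (totalDegree_mul _ _).trans ?_
    rw [totalDegree_X]
    omega
  have hC : ∀ W : MvPolynomial (Fin 2) ℝ, W.totalDegree ≤ 2 * M + 4 * n + 1 →
      (C (1 / 2) * W).totalDegree ≤ 2 * M + 4 * n + 1 := by
    intro W hW
    refine (totalDegree_mul _ _).trans ?_
    rw [totalDegree_C]
    omega
  refine ⟨C (1 / 2) * (X 0 * U - X 1 * V), C (1 / 2) * (X 1 * U + X 0 * V), ?_, ?_, ?_⟩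
  · exact hC _ ((totalDegree_sub _ _).trans (max_le (hX 0 U (by omega)) (hX 1 V hVd)))
  · exact hC _ ((totalDegree_add _ _).trans (max_le (hX 1 U (by omega)) (hX 0 V hVd)))
  · intro ρ hρ x
    have hsq : Real.sqrt ρ ^ 2 = ρ := Real.sq_sqrt hρ
    set c := Real.cos (x / 2) with hc
    set t := Real.sin (x / 2) with ht
    have hform : ∀ (F : MvPolynomial (Fin 2) ℝ), F.IsHomogeneous (2 * M) →
        eval ![Real.sqrt ρ * c, Real.sqrt ρ * t] F = ρ ^ M * eval ![c, t] F := by
      intro F hF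
      rw [eval_scale hF, pow_mul, hsq]
    have hrr : eval ![Real.sqrt ρ * c, Real.sqrt ρ * t] rr = ρ := by
      rw [eval_rr, mul_pow, mul_pow, hsq, ← mul_add, hc, ht, Real.cos_sq_add_sin_sq, mul_one]
    have hTe : eval ![Real.sqrt ρ * c, Real.sqrt ρ * t] T =
        (Polynomial.Chebyshev.T ℝ n).eval (ρ - 2) := by
      rw [hT, eval_aeval, map_sub, hrr, eval_C]
    have hTe' : eval ![Real.sqrt ρ * c, Real.sqrt ρ * t] T' =
        (Polynomial.Chebyshev.T ℝ n).derivative.eval (ρ - 2) := by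
      rw [hT', eval_aeval, map_sub, hrr, eval_C]
    have hUe : eval ![Real.sqrt ρ * c, Real.sqrt ρ * t] U = UU n M p q x ρ := by
      rw [hU, map_add, map_mul, hform p' hp1, hform q' hq1, hTe, UU, hp2, hq2]
      ring
    have hVe : eval ![Real.sqrt ρ * c, Real.sqrt ρ * t] V = VV n M r s x ρ := by
      rw [hV, map_mul, map_mul, map_sub, map_mul, hform r' hr1, hform s' hs1, hTe, hTe', hrr, VV,
        hr2, hs2]
      ring
    show (eval ![Real.sqrt ρ * c, Real.sqrt ρ * t] _, eval ![Real.sqrt ρ * c, Real.sqrt ρ * t] _) =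
      _
    simp only [map_mul, map_sub, map_add, eval_C, eval_X, hUe, hVe, Matrix.cons_val_zero,
      Matrix.cons_val_one]
    ext <;> ring

end Pool.Agent.Lib.MP_95e7ec_an.Pw
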