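import Mathlib
import Pool.Agent.Lib.MP_95e7ec_an.Pw.BDefs
import Pool.Agent.Lib.MP_95e7ec_an.Pw.CField
import Pool.Agent.Lib.MP_95e7ec_an.Pw.BTarget

/-!
# Part B: auxiliary facts for the final assembly
-/

set_option autoImplicit false

open Set Filter Topology

namespace Pool.Agent.Lib.MP_95e7ec_an.Pw

theorem pl_zero (n : ℕ) : pl n 0 = 0 := by
  simp [pl]

theorem pl_K {n K : ℕ} (hK : n = 2 * K) (hK1 : 1 ≤ K) : pl n K = Real.pi := by
  have h : (K : ℝ) ≠ 0 := by positivity
  unfold pl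
  subst hK
  push_cast
  field_simp

theorem gg_continuous (p q : Polynomial ℝ) : Continuous (gg p q) := by
  unfold gg
  exact (p.continuous.comp Real.continuous_cos).add
    (Real.continuous_sin.mul (q.continuous.comp Real.continuous_cos))

theorem isTrig_gg {p q : Polynomial ℝ} {K : ℕ} (hp : p.natDegree ≤ K) (hq : q.natDegree ≤ K) :
    IsTrig (K + 1) (gg p q) := by
  have h1 : IsTrig (K + 1) fun x => p.eval (Real.cos x) :=
    IsTrig.poly_cos p (hp.trans (Nat.le_succ K))
  have h2 : IsTrig (1 + K) fun x => Real.sin x * q.eval (Real.cos x) :=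
    isTrig_sin.mul (IsTrig.poly_cos q hq)
  rw [add_comm 1 K] at h2
  exact h1.add h2

theorem isTrig_hh (n : ℕ) : IsTrig n (hh n) := by
  have h := (IsTrig.cos_nat n).const_mul (-1 / 4)
  refine (congrArg (IsTrig n) ?_).mp h
  funext x
  unfold hh
  ring

theorem isTrig_hd (n : ℕ) : IsTrig n (hd n) := by
  have h := (IsTrig.sin_nat n).const_mul (n / 4)
  refine (congrArg (IsTrig n) ?_).mp h
  funext x
  unfold hd
  ring

theorem st_zero_b (μ : ℕ → ℝ) (z : ℝ) (hz : 0 < z) (K : ℕ) (hμ : ∀ j < K, μ j ≠ 0) :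
    ∀ j ≤ K, st μ (fun _ => 0) z j = z := by
  intro j
  induction j with
  | zero => intro _; rfl
  | succ j ih =>
    intro hj
    have h1 := ih (by omega)
    show (st μ (fun _ => 0) z j ^ μ j + 0) ^ (1 / μ j) = z
    rw [h1, add_zero, one_div, Real.rpow_rpow_inv hz.le (hμ j (by omega))]

/-- The bound for the perturbation: a sum of `K` terms `C e^{-μ_j S}` with `μ_j ≥ 99/100` is at
most `e^{-(24/25) S}` for large `S`. -/
theorem eventually_sum_le (K : ℕ) (μ v : ℕ → ℝ) (C : ℝ) (hC : 0 ≤ C)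
    (hμ : ∀ j < K, |μ j - 1| ≤ 1 / 100) :
    ∀ᶠ S in atTop, C * ∑ j ∈ Finset.range K, |Real.exp (-(μ j * S)) * v j| ≤
      Real.exp (-(24 / 25 * S)) := by
  have h1 : Tendsto (fun S : ℝ => (C * ∑ j ∈ Finset.range K, |v j|) *
      Real.exp (-(3 / 100 * S))) atTop (𝓝 ((C * ∑ j ∈ Finset.range K, |v j|) * 0)) := by
    refine Tendsto.const_mul _ ?_
    refine Real.tendsto_exp_atBot.comp ?_
    refine tendsto_neg_atTop_atBot.comp ?_
    exact tendsto_id.const_mul_atTop (by norm_num)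
  rw [mul_zero] at h1
  filter_upwards [h1.eventually_le_const (by norm_num : (0 : ℝ) < 1), eventually_ge_atTop 0]
    with S hS hS0
  have h2 : ∀ j ∈ Finset.range K, |Real.exp (-(μ j * S)) * v j| ≤
      Real.exp (-(99 / 100 * S)) * |v j| := by
    intro j hj
    rw [abs_mul, abs_of_pos (Real.exp_pos _)]
    refine mul_le_mul_of_nonneg_right (Real.exp_le_exp.2 ?_) (abs_nonneg _)
    have := (abs_le.1 (hμ j (Finset.mem_range.1 hj))).1
    nlinarith
  calc C * ∑ j ∈ Finset.range K, |Real.exp (-(μ j * S)) * v j|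
      ≤ C * ∑ j ∈ Finset.range K, Real.exp (-(99 / 100 * S)) * |v j| :=
        mul_le_mul_of_nonneg_left (Finset.sum_le_sum h2) hC
    _ = ((C * ∑ j ∈ Finset.range K, |v j|) * Real.exp (-(3 / 100 * S))) *
        Real.exp (-(24 / 25 * S)) := by
        rw [← Finset.mul_sum]
        have : Real.exp (-(99 / 100 * S)) = Real.exp (-(3 / 100 * S)) *
            Real.exp (-(24 / 25 * S)) := by
          rw [← Real.exp_add]; ring_nf
        rw [this]; ring
    _ ≤ 1 * Real.exp (-(24 / 25 * S)) :=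
        mul_le_mul_of_nonneg_right hS (Real.exp_pos _).le
    _ = _ := one_mul _

end Pool.Agent.Lib.MP_95e7ec_an.Pw
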