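import Pool.Agent.Lib.MP_95e7ec_an.Pw.Half3Aux

/-!
# Half period: the asymptotic letter
-/

set_option autoImplicit false

open Set Filter Topology MeasureTheory

namespace Pool.Agent.Lib.MP_95e7ec_an.Pw

variable {α x0 β : ℝ} {a h h1 : ℝ → ℝ} {mu L c M : ℝ}

theorem half3_cont_dinf (D : Half α x0 β a h h1 mu L c M) : Continuous (dinf a h) := by
  have h2 := (half3_cont_h D)
  have h3 := D.cont_a
  unfold dinf
  fun_prop

theorem half3_kinf_int (D : Half α x0 β a h h1 mu L c M) {x x' : ℝ} (hx : x ∈ Icc α β)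
    (hx' : x' ∈ Icc α β) (hxx : x ≤ x') : IntervalIntegrable (kinf mu a h h1) volume x x' := by
  rw [intervalIntegrable_iff_integrableOn_Icc_of_le hxx]
  have hm : Measurable (kinf mu a h h1) := by
    have h2 : Measurable fun x => (mu - a x) * h1 x :=
      ((continuous_const.sub D.cont_a).mul D.cont_h1).measurable
    exact h2.div (half3_cont_dinf D).measurable
  apply Measure.integrableOn_of_bounded (M := 2 * L * M) (by simp) hm.aestronglyMeasurable
  rw [ae_restrict_iff' measurableSet_Icc]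
  refine Eventually.of_forall fun t ht => ?_
  rw [Real.norm_eq_abs]
  exact half3_kinf_le D ⟨hx.1.trans ht.1, ht.2.trans hx'.2⟩

theorem half3_y_cont {G y : ℝ → ℝ} (hS : Sol a h h1 G α β y) : ContinuousOn y (Icc α β) :=
  fun x hx => (hS x hx).2.2.2.continuousWithinAt

theorem half3_den_cont (D : Half α x0 β a h h1 mu L c M) {G y : ℝ → ℝ}
    (hS : Sol a h h1 G α β y) : ContinuousOn (fun x => den a h x (y x)) (Icc α β) := by
  have h2 := (half3_cont_h D).continuousOn (s := Icc α β)
  have h3 := D.cont_a.continuousOn (s := Icc α β)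
  have h4 := half3_y_cont hS
  unfold den
  fun_prop

theorem half3_k_cont (D : Half α x0 β a h h1 mu L c M) {G y : ℝ → ℝ}
    (hS : Sol a h h1 G α β y) : ContinuousOn (kk mu a h h1 y) (Icc α β) := by
  have h2 := D.cont_h1.continuousOn (s := Icc α β)
  have h3 := D.cont_a.continuousOn (s := Icc α β)
  apply ContinuousOn.div
  · fun_prop
  · exact half3_den_cont D hS
  · intro x hx
    exact (den_pos (D.a_near x hx) (hS x hx).1 (hS x hx).2.1).ne'

theorem half3_E_cont (D : Half α x0 β a h h1 mu L c M) {G y : ℝ → ℝ} (hG : Continuous G)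
    (hS : Sol a h h1 G α β y) : ContinuousOn (EE mu a h h1 G y) (Icc α β) := by
  have h2 := D.cont_h1.continuousOn (s := Icc α β)
  have h3 := (half3_cont_h D).continuousOn (s := Icc α β)
  have h4 := half3_y_cont hS
  have h5 := hG.continuousOn (s := Icc α β)
  have h6 : ContinuousOn (fun x => (y x) ^ mu) (Icc α β) :=
    h4.rpow_const fun x hx => Or.inl (hS x hx).1.ne'
  have h7 : ContinuousOn (fun x => (y x) ^ mu * (y x + mu * (y x - h x)) / den a h x (y x))
      (Icc α β) := by
    apply ContinuousOn.div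
    · fun_prop
    · exact half3_den_cont D hS
    · intro x hx
      exact (den_pos (D.a_near x hx) (hS x hx).1 (hS x hx).2.1).ne'
  unfold EE
  fun_prop

/-- Variation of constants. -/
theorem half3_var (D : Half α x0 β a h h1 mu L c M) {G y : ℝ → ℝ} (hG : Continuous G)
    (hS : Sol a h h1 G α β y) :
    PP mu h y β = Real.exp (∫ t in α..β, kk mu a h h1 y t) * PP mu h y α +
      ∫ x in α..β, Real.exp (∫ t in x..β, kk mu a h h1 y t) * EE mu a h h1 G y x := by
  have hαβ : α ≤ β := (D.lt0.trans D.lt1).le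
  have hk := half3_k_cont D hS
  have hE := half3_E_cont D hG hS
  have hki : ∀ x ∈ Icc α β, ∀ x' ∈ Icc α β, IntervalIntegrable (kk mu a h h1 y) volume x x' := by
    intro x hx x' hx'
    apply ContinuousOn.intervalIntegrable
    apply hk.mono
    intro t ht
    rw [mem_uIcc] at ht
    rcases ht with ht | ht
    · exact ⟨hx.1.trans ht.1, ht.2.trans hx'.2⟩
    · exact ⟨hx'.1.trans ht.1, ht.2.trans hx.2⟩
  set K : ℝ → ℝ := fun x => ∫ t in α..x, kk mu a h h1 y t with hK
  have hKd : ∀ x ∈ Ioo α β, HasDerivAt K (kk mu a h h1 y x) x := by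
    intro x hx
    apply intervalIntegral.integral_hasDerivAt_right
    · exact hki α (left_mem_Icc.2 hαβ) x (Ioo_subset_Icc_self hx)
    · exact (hk.mono Ioo_subset_Icc_self).stronglyMeasurableAtFilter isOpen_Ioo x hx
    · exact hk.continuousAt (Icc_mem_nhds hx.1 hx.2)
  have hKc : ContinuousOn K (Icc α β) := by
    have h2 : IntegrableOn (kk mu a h h1 y) (uIcc α β) := by
      rw [uIcc_of_le hαβ]
      exact hk.integrableOn_Icc
    have h3 := intervalIntegral.continuousOn_primitive_interval h2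
    rwa [uIcc_of_le hαβ] at h3
  have hPc : ContinuousOn (PP mu h y) (Icc α β) := fun x hx =>
    (PP_deriv D hS hx).continuousWithinAt
  set F : ℝ → ℝ := fun x => Real.exp (-K x) * PP mu h y x with hF
  have hFc : ContinuousOn F (Icc α β) := (Real.continuous_exp.comp_continuousOn hKc.neg).mul hPc
  have hFd : ∀ x ∈ Ioo α β, HasDerivAt F (Real.exp (-K x) * EE mu a h h1 G y x) x := by
    intro x hx
    have h2 := (PP_deriv D hS (Ioo_subset_Icc_self hx)).hasDerivAt (Icc_mem_nhds hx.1 hx.2)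
    have h3 := ((hKd x hx).neg.exp).mul h2
    refine h3.congr_deriv ?_
    simp only [Pi.neg_apply]
    ring
  have hint : IntervalIntegrable (fun x => Real.exp (-K x) * EE mu a h h1 G y x) volume α β := by
    apply ContinuousOn.intervalIntegrable
    rw [uIcc_of_le hαβ]
    exact (Real.continuous_exp.comp_continuousOn hKc.neg).mul hE
  have h2 := intervalIntegral.integral_eq_sub_of_hasDeriv_right
    (f := F) (f' := fun x => Real.exp (-K x) * EE mu a h h1 G y x) (a := α) (b := β)
    (by rw [uIcc_of_le hαβ]; exact hFc)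
    (by
      rw [min_eq_left hαβ, max_eq_right hαβ]
      intro x hx
      exact (hFd x hx).hasDerivWithinAt) hint
  have h3 : F α = PP mu h y α := by
    simp [hF, hK]
  have h4 : PP mu h y β = Real.exp (K β) * F β := by
    rw [hF]
    simp only
    rw [← mul_assoc, ← Real.exp_add]
    simp
  have h5 : ∫ x in α..β, Real.exp (∫ t in x..β, kk mu a h h1 y t) * EE mu a h h1 G y x =
      Real.exp (K β) * ∫ x in α..β, Real.exp (-K x) * EE mu a h h1 G y x := by
    rw [← intervalIntegral.integral_const_mul]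
    apply intervalIntegral.integral_congr
    intro x hx
    rw [uIcc_of_le hαβ] at hx
    simp only
    rw [← mul_assoc, ← Real.exp_add]
    congr 2
    have := intervalIntegral.integral_add_adjacent_intervals
      (hki α (left_mem_Icc.2 hαβ) x hx) (hki x hx β (right_mem_Icc.2 hαβ))
    simp only [hK]
    linarith
  rw [h5, h2, h3, h4]
  ring


/-- The difference of the integrals of `k` and of its limit. -/
theorem half3_k_int (D : Half α x0 β a h h1 mu L c M) {G y : ℝ → ℝ}
    (hS : Sol a h h1 G α β y) {ρ : ℝ} (hρ0 : 0 < ρ)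
    (hρ : ∀ x ∈ Icc α β, |y x - max (h x) 0| ≤ ρ) {x : ℝ} (hx : x ∈ Icc α β) :
    |(∫ t in x..β, kk mu a h h1 y t) - ∫ t in x..β, kinf mu a h h1 t| ≤
      (2 * (4 * L * M) + 5 * L * M / c * (β - α)) * Real.sqrt ρ := by
  have hαβ : α ≤ β := (D.lt0.trans D.lt1).le
  have hL := D.L_nonneg
  have hM := D.M_nonneg
  have hc := D.c_pos
  have hk := half3_k_cont D hS
  have h2 : IntervalIntegrable (kk mu a h h1 y) volume x β := by
    apply ContinuousOn.intervalIntegrable
    rw [uIcc_of_le hx.2]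
    exact hk.mono (Icc_subset_Icc_left hx.1)
  have h3 := half3_kinf_int D hx (right_mem_Icc.2 hαβ) hx.2
  rw [← intervalIntegral.integral_sub h2 h3]
  apply half3_int_bound (x0 := x0) hx.2 (by linarith [hx.1]) (by positivity) (by positivity)
    (Real.sqrt_pos.2 hρ0)
  · intro t ht
    have ht' : t ∈ Icc α β := ⟨hx.1.trans ht.1, ht.2⟩
    have h4 := kk_le D hS ht'
    have h5 := half3_kinf_le D ht'
    calc |kk mu a h h1 y t - kinf mu a h h1 t| ≤ |kk mu a h h1 y t| + |kinf mu a h h1 t| :=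
          abs_sub _ _
      _ ≤ 4 * L * M := by linarith
  · intro t ht htx
    have ht' : t ∈ Icc α β := ⟨hx.1.trans ht.1, ht.2⟩
    have h4 : 0 < |t - x0| := abs_pos.2 (sub_ne_zero.2 htx)
    have h5 := D.h_lower t ht'
    have h6 : 0 < |h t| := lt_of_lt_of_le (by positivity) h5
    refine (half3_k_sub D hS ht' (hρ t ht') (abs_pos.1 h6)).trans ?_
    rw [Real.sq_sqrt hρ0.le, div_le_div_iff₀ h6 h4]
    have h7 : 5 * L * M / c * ρ * (c * |t - x0|) ≤ 5 * L * M / c * ρ * |h t| :=
      mul_le_mul_of_nonneg_left h5 (by positivity)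
    calc 5 * L * M * ρ * |t - x0| = 5 * L * M / c * ρ * (c * |t - x0|) := by
          field_simp
      _ ≤ _ := h7

/-- The weight is continuous and positive. -/
theorem wgt_cont (D : Half α x0 β a h h1 mu L c M) :
    ContinuousOn (wgt mu a h h1 α β) (Icc x0 β) ∧ (∀ x ∈ Ioo x0 β, 0 < wgt mu a h h1 α β x) ∧
      wgt mu a h h1 α β β = (h1 β) ^ 2 * (1 / 4 : ℝ) ^ mu := by
  have hαβ : α ≤ β := (D.lt0.trans D.lt1).le
  have hmu := mu_near D
  rw [abs_le] at hmu
  refine ⟨?_, ?_, ?_⟩
  · have h2 : ContinuousOn (fun x => Kinf mu a h h1 α x) (Icc α β) := by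
      have h3 := half3_kinf_int D (left_mem_Icc.2 hαβ) (right_mem_Icc.2 hαβ) hαβ
      rw [intervalIntegrable_iff_integrableOn_Icc_of_le hαβ] at h3
      rw [← uIcc_of_le hαβ] at h3
      have h4 := intervalIntegral.continuousOn_primitive_interval h3
      rwa [uIcc_of_le hαβ] at h4
    have h3 := h2.mono (Icc_subset_Icc_left D.lt0.le)
    have h4 : ContinuousOn (fun x => (h x) ^ mu) (Icc x0 β) :=
      (half3_cont_h D).continuousOn.rpow_const fun x _ => Or.inr (by linarith [hmu.1])
    have h5 := D.cont_h1.continuousOn (s := Icc x0 β)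
    unfold wgt
    exact (Real.continuous_exp.comp_continuousOn (continuousOn_const.sub h3)).mul
      ((h5.pow 2).mul h4)
  · intro x hx
    have h2 : 0 < h x := by
      have hmono : StrictMonoOn h (Icc α β) := by
        apply strictMonoOn_of_deriv_pos (convex_Icc _ _)
          (fun x _ => (D.deriv x).continuousAt.continuousWithinAt)
        intro x hx
        rw [interior_Icc] at hx
        rw [(D.deriv x).deriv]
        exact D.h1_pos x hx
      have h3 := hmono ⟨D.lt0.le, D.lt1.le⟩ ⟨(D.lt0.trans hx.1).le, hx.2.le⟩ hx.1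
      rwa [D.h_zero] at h3
    have h3 : 0 < h1 x := D.h1_pos x ⟨D.lt0.trans hx.1, hx.2⟩
    unfold wgt
    positivity
  · unfold wgt
    rw [sub_self, Real.exp_zero, one_mul, D.h_end]

/-- The value of `P` at the end of the half period, up to the power `6/5` of the small
parameter. -/
theorem half3 (D : Half α x0 β a h h1 mu L c M) :
    ∃ C : ℝ, 1 ≤ C ∧ ∃ ε0 : ℝ, 0 < ε0 ∧ ∀ (G : ℝ → ℝ) (η : ℝ) (y : ℝ → ℝ), Continuous G →
      (∀ x ∈ Icc α β, |G x| ≤ η) → Sol a h h1 G α β y → (y α) ^ mu + η ≤ ε0 →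
      |PP mu h y β - (Real.exp (Kinf mu a h h1 α β) / 4 * (y α) ^ mu +
        ∫ x in x0..β, wgt mu a h h1 α β x * G x)| ≤ C * ((y α) ^ mu + η) ^ (6 / 5 : ℝ) := by
  obtain ⟨C2, hC2, H2⟩ := half2 D
  have hαβ : α < β := D.lt0.trans D.lt1
  have hℓ : 0 < β - α := by linarith
  have hL := D.L_nonneg
  have hM := D.M_nonneg
  have hc := D.c_pos
  have hmu := mu_near D
  rw [abs_le] at hmu
  set B : ℝ := 2 * L * M * (β - α) with hB
  set E : ℝ := Real.exp B with hE
  have hE0 : 0 < E := Real.exp_pos _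
  set C1 : ℝ := 2 * (4 * L * M) + 5 * L * M / c * (β - α) with hC1
  have hC10 : 0 ≤ C1 := by positivity
  set C3 : ℝ := E * C1 / 4 + (β - α) * (E * (3 * M ^ 2) + E * C1 * (3 * M ^ 2) +
    E * ((6 + 2 * L) * M ^ 2)) with hC3
  have hC30 : 0 ≤ C3 := by positivity
  refine ⟨1 + E + C3 * C2, ?_, 1 / C2, by positivity, ?_⟩
  · have : 0 ≤ C3 * C2 := by positivity
    linarith
  intro G η y hG hη hS hε
  set z : ℝ := y α with hz
  have hzm : α ∈ Icc α β := left_mem_Icc.2 hαβ.le
  obtain ⟨hz0, -, hz1, -⟩ := hS α hzm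
  rw [← hz] at hz0 hz1
  have hη0 : 0 ≤ η := (abs_nonneg _).trans (hη α hzm)
  have hzmu : 0 < z ^ mu := Real.rpow_pos_of_pos hz0 _
  set ε : ℝ := z ^ mu + η with hεd
  have hε0 : 0 < ε := by positivity
  have hεC : C2 * ε ≤ 1 := by
    rw [le_div_iff₀ (by linarith)] at hε
    linarith
  have hε1 : ε ≤ 1 := by nlinarith
  set ρ : ℝ := (C2 * ε) ^ (1 / (1 + mu)) with hρd
  have hρ0 : 0 < ρ := Real.rpow_pos_of_pos (by positivity) _
  have hρ1 : ρ ≤ 1 := Real.rpow_le_one (by positivity) hεC (by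
    apply div_nonneg zero_le_one; linarith [hmu.1])
  have hρ : ∀ x ∈ Icc α β, |y x - max (h x) 0| ≤ ρ := fun x hx => (H2 G η y hG hη hS x hx).2
  set σ : ℝ := ρ ^ (9 / 20 : ℝ) with hσd
  have hσ0 : 0 < σ := Real.rpow_pos_of_pos hρ0 _
  have hsq : Real.sqrt ρ ≤ σ := by
    rw [Real.sqrt_eq_rpow]
    exact Real.rpow_le_rpow_of_exponent_ge hρ0 hρ1 (by norm_num)
  have hσε : σ ≤ C2 * ε ^ (1 / 5 : ℝ) := by
    rw [hσd, hρd, ← Real.rpow_mul (by positivity)]
    have h2 : (C2 * ε) ^ (1 / (1 + mu) * (9 / 20)) ≤ (C2 * ε) ^ (1 / 5 : ℝ) := by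
      apply Real.rpow_le_rpow_of_exponent_ge (by positivity) hεC
      rw [one_div_mul_eq_div, div_le_div_iff₀ (by norm_num) (by linarith [hmu.1])]
      linarith [hmu.2]
    refine h2.trans ?_
    rw [Real.mul_rpow (by linarith) hε0.le]
    apply mul_le_mul_of_nonneg_right _ (Real.rpow_nonneg hε0.le _)
    conv_rhs => rw [← Real.rpow_one C2]
    exact Real.rpow_le_rpow_of_exponent_le hC2 (by norm_num)
  have hε65 : ε * ε ^ (1 / 5 : ℝ) = ε ^ (6 / 5 : ℝ) := by
    conv_lhs => rw [← Real.rpow_one ε]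
    rw [← Real.rpow_mul hε0.le, ← Real.rpow_add hε0]
    norm_num
  have hz65 : z * z ^ mu ≤ ε ^ (6 / 5 : ℝ) := by
    have h2 : z * z ^ mu = (z ^ mu) ^ ((1 + mu) / mu) := by
      rw [← Real.rpow_mul hz0.le, mul_div_cancel₀ _ (by linarith [hmu.1] : mu ≠ 0),
        Real.rpow_add hz0, Real.rpow_one]
    rw [h2]
    have h3 : (z ^ mu) ^ ((1 + mu) / mu) ≤ ε ^ ((1 + mu) / mu) :=
      Real.rpow_le_rpow hzmu.le (by linarith) (div_nonneg (by linarith [hmu.1])
        (by linarith [hmu.1]))
    refine h3.trans ?_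
    apply Real.rpow_le_rpow_of_exponent_ge hε0 hε1
    rw [div_le_div_iff₀ (by norm_num) (by linarith [hmu.1])]
    linarith [hmu.2]
  -- the integrals of `k`
  have hkb : ∀ x ∈ Icc α β, (∫ t in x..β, kk mu a h h1 y t) ≤ B := by
    intro x hx
    have h2 := intervalIntegral.norm_integral_le_of_norm_le_const (a := x) (b := β)
      (f := kk mu a h h1 y) (C := 2 * L * M) (by
        intro t ht
        rw [uIoc_of_le hx.2] at ht
        rw [Real.norm_eq_abs]
        exact kk_le D hS ⟨hx.1.trans ht.1.le, ht.2⟩)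
    rw [Real.norm_eq_abs, abs_of_nonneg (sub_nonneg.2 hx.2)] at h2
    refine (le_abs_self _).trans (h2.trans ?_)
    rw [hB]
    apply mul_le_mul_of_nonneg_left _ (by positivity)
    linarith [hx.1]
  have hkb' : ∀ x ∈ Icc α β, (∫ t in x..β, kinf mu a h h1 t) ≤ B := by
    intro x hx
    have h2 := intervalIntegral.norm_integral_le_of_norm_le_const (a := x) (b := β)
      (f := kinf mu a h h1) (C := 2 * L * M) (by
        intro t ht
        rw [uIoc_of_le hx.2] at ht
        rw [Real.norm_eq_abs]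
        exact half3_kinf_le D ⟨hx.1.trans ht.1.le, ht.2⟩)
    rw [Real.norm_eq_abs, abs_of_nonneg (sub_nonneg.2 hx.2)] at h2
    refine (le_abs_self _).trans (h2.trans ?_)
    rw [hB]
    apply mul_le_mul_of_nonneg_left _ (by positivity)
    linarith [hx.1]
  have hexp : ∀ x ∈ Icc α β, |Real.exp (∫ t in x..β, kk mu a h h1 y t) -
      Real.exp (∫ t in x..β, kinf mu a h h1 t)| ≤ E * (C1 * σ) := by
    intro x hx
    refine (half3_exp_sub (hkb x hx) (hkb' x hx)).trans ?_
    apply mul_le_mul_of_nonneg_left _ hE0.le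
    exact (half3_k_int D hS hρ0 hρ hx).trans (mul_le_mul_of_nonneg_left hsq hC10)
  have hwgt : ∀ x ∈ Icc x0 β, wgt mu a h h1 α β x =
      Real.exp (∫ t in x..β, kinf mu a h h1 t) * (h1 x ^ 2 * (h x) ^ mu) := by
    intro x hx
    have hx' : x ∈ Icc α β := ⟨D.lt0.le.trans hx.1, hx.2⟩
    unfold wgt Kinf
    congr 2
    have := intervalIntegral.integral_add_adjacent_intervals
      (half3_kinf_int D hzm hx' hx'.1) (half3_kinf_int D hx' (right_mem_Icc.2 hαβ.le) hx'.2)
    linarith
  -- the first term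
  have hT1 : |Real.exp (∫ t in α..β, kk mu a h h1 y t) * PP mu h y α -
      Real.exp (Kinf mu a h h1 α β) / 4 * z ^ mu| ≤ E * C1 / 4 * (ε * σ) + E * (z * z ^ mu) := by
    have e : Real.exp (∫ t in α..β, kk mu a h h1 y t) * PP mu h y α -
        Real.exp (Kinf mu a h h1 α β) / 4 * z ^ mu =
        (Real.exp (∫ t in α..β, kk mu a h h1 y t) - Real.exp (∫ t in α..β, kinf mu a h h1 t)) *
          (z ^ mu / 4) + Real.exp (∫ t in α..β, kk mu a h h1 y t) * (z * z ^ mu) := by
      unfold PP Kinf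
      rw [D.h_start, ← hz]
      ring
    rw [e]
    refine (abs_add_le _ _).trans ?_
    rw [abs_mul, abs_mul, abs_of_pos (by positivity : 0 < z ^ mu / 4),
      abs_of_pos (Real.exp_pos _), abs_of_pos (by positivity : 0 < z * z ^ mu)]
    apply add_le_add
    · calc |Real.exp (∫ t in α..β, kk mu a h h1 y t) -
          Real.exp (∫ t in α..β, kinf mu a h h1 t)| * (z ^ mu / 4)
          ≤ (E * (C1 * σ)) * (ε / 4) := by
            apply mul_le_mul (hexp α hzm) _ (by positivity) (by positivity)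
            linarith
        _ = E * C1 / 4 * (ε * σ) := by ring
    · apply mul_le_mul_of_nonneg_right _ (by positivity)
      exact Real.exp_le_exp.2 (hkb α hzm)
  -- the integrand on the left half
  have hEc := half3_E_cont D hG hS
  have hkc := half3_k_cont D hS
  have hx0m : x0 ∈ Icc α β := ⟨D.lt0.le, D.lt1.le⟩
  have hKc : ContinuousOn (fun x => ∫ t in x..β, kk mu a h h1 y t) (Icc α β) := by
    have h2 : IntegrableOn (kk mu a h h1 y) (uIcc β α) := by
      rw [uIcc_of_ge hαβ.le]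
      exact hkc.integrableOn_Icc
    have h3 := intervalIntegral.continuousOn_primitive_interval h2
    rw [uIcc_of_ge hαβ.le] at h3
    have h4 : (fun x => ∫ t in x..β, kk mu a h h1 y t) =
        fun x => -∫ t in β..x, kk mu a h h1 y t := by
      funext x; rw [intervalIntegral.integral_symm]
    rw [h4]
    exact h3.neg
  set I1 : ℝ → ℝ := fun x => Real.exp (∫ t in x..β, kk mu a h h1 y t) * EE mu a h h1 G y x
    with hI1
  have hI1c : ContinuousOn I1 (Icc α β) := (Real.continuous_exp.comp_continuousOn hKc).mul hEc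
  have hI1i : ∀ x ∈ Icc α β, ∀ x' ∈ Icc α β, x ≤ x' → IntervalIntegrable I1 volume x x' := by
    intro x hx x' hx' hxx
    apply ContinuousOn.intervalIntegrable
    rw [uIcc_of_le hxx]
    exact hI1c.mono (Icc_subset_Icc hx.1 hx'.2)
  have hmono : MonotoneOn h (Icc α β) := by
    apply monotoneOn_of_deriv_nonneg (convex_Icc _ _)
      (fun x _ => (D.deriv x).continuousAt.continuousWithinAt)
      (fun x _ => (D.deriv x).differentiableAt.differentiableWithinAt)
    intro x hx
    rw [interior_Icc] at hx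
    rw [(D.deriv x).deriv]
    exact (D.h1_pos x hx).le
  have hT2 : |∫ x in α..x0, I1 x| ≤ (β - α) * (E * (3 * M ^ 2)) * (ε * σ) := by
    have h2 := intervalIntegral.norm_integral_le_of_norm_le_const (a := α) (b := x0)
      (f := I1) (C := E * (3 * M ^ 2 * η * σ)) (by
        intro t ht
        rw [uIoc_of_le D.lt0.le] at ht
        have ht' : t ∈ Icc α β := ⟨ht.1.le, ht.2.trans D.lt1.le⟩
        have h0 : h t ≤ 0 := by
          have := hmono ht' hx0m ht.2
          rwa [D.h_zero] at this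
        rw [Real.norm_eq_abs, hI1]
        simp only
        rw [abs_mul, abs_of_pos (Real.exp_pos _)]
        exact mul_le_mul (Real.exp_le_exp.2 (hkb t ht'))
          (half3_E_neg D hS ht' (hη t ht') (hρ t ht') hρ1 h0) (abs_nonneg _) hE0.le)
    rw [Real.norm_eq_abs, abs_of_nonneg (sub_nonneg.2 D.lt0.le)] at h2
    refine h2.trans ?_
    have h3 : x0 - α ≤ β - α := by linarith [D.lt1]
    have h4 : η ≤ ε := by linarith
    calc E * (3 * M ^ 2 * η * σ) * (x0 - α) ≤ E * (3 * M ^ 2 * ε * σ) * (β - α) := by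
          apply mul_le_mul _ h3 (sub_nonneg.2 D.lt0.le) (by positivity)
          apply mul_le_mul_of_nonneg_left _ hE0.le
          apply mul_le_mul_of_nonneg_right _ hσ0.le
          exact mul_le_mul_of_nonneg_left h4 (by positivity)
      _ = (β - α) * (E * (3 * M ^ 2)) * (ε * σ) := by ring
  have hwi : IntervalIntegrable (fun x => wgt mu a h h1 α β x * G x) volume x0 β := by
    apply ContinuousOn.intervalIntegrable
    rw [uIcc_of_le D.lt1.le]
    exact (wgt_cont D).1.mul hG.continuousOn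
  have hT3 : |(∫ x in x0..β, I1 x) - ∫ x in x0..β, wgt mu a h h1 α β x * G x| ≤
      (β - α) * (E * C1 * (3 * M ^ 2) + E * ((6 + 2 * L) * M ^ 2)) * (ε * σ) := by
    rw [← intervalIntegral.integral_sub (hI1i x0 hx0m β (right_mem_Icc.2 hαβ.le) D.lt1.le) hwi]
    have h2 := intervalIntegral.norm_integral_le_of_norm_le_const (a := x0) (b := β)
      (f := fun x => I1 x - wgt mu a h h1 α β x * G x)
      (C := (E * (C1 * σ)) * (3 * M ^ 2 * η) + E * ((6 + 2 * L) * M ^ 2 * η * σ)) (by
        intro t ht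
        rw [uIoc_of_le D.lt1.le] at ht
        have ht' : t ∈ Icc α β := ⟨D.lt0.le.trans ht.1.le, ht.2⟩
        have h0 : 0 ≤ h t := by
          have := hmono hx0m ht' ht.1.le
          rwa [D.h_zero] at this
        rw [Real.norm_eq_abs]
        rw [hwgt t ⟨ht.1.le, ht.2⟩, hI1]
        simp only
        have e : Real.exp (∫ t in t..β, kk mu a h h1 y t) * EE mu a h h1 G y t -
            Real.exp (∫ t in t..β, kinf mu a h h1 t) * (h1 t ^ 2 * h t ^ mu) * G t =
            (Real.exp (∫ t in t..β, kk mu a h h1 y t) -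
              Real.exp (∫ t in t..β, kinf mu a h h1 t)) * EE mu a h h1 G y t +
            Real.exp (∫ t in t..β, kinf mu a h h1 t) *
              (EE mu a h h1 G y t - h1 t ^ 2 * h t ^ mu * G t) := by ring
        rw [e]
        refine (abs_add_le _ _).trans ?_
        rw [abs_mul, abs_mul, abs_of_pos (Real.exp_pos _)]
        apply add_le_add
        · exact mul_le_mul (hexp t ht') (EE_le D hη hS ht') (abs_nonneg _) (by positivity)
        · exact mul_le_mul (Real.exp_le_exp.2 (hkb' t ht'))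
            (half3_E_pos D hS ht' (hη t ht') (hρ t ht') hρ1 h0) (abs_nonneg _) hE0.le)
    rw [Real.norm_eq_abs, abs_of_nonneg (sub_nonneg.2 D.lt1.le)] at h2
    refine h2.trans ?_
    have h3 : β - x0 ≤ β - α := by linarith [D.lt0]
    have h4 : η ≤ ε := by linarith
    calc ((E * (C1 * σ)) * (3 * M ^ 2 * η) + E * ((6 + 2 * L) * M ^ 2 * η * σ)) * (β - x0)
        = (E * C1 * (3 * M ^ 2) + E * ((6 + 2 * L) * M ^ 2)) * (η * σ) * (β - x0) := by ring
      _ ≤ (E * C1 * (3 * M ^ 2) + E * ((6 + 2 * L) * M ^ 2)) * (ε * σ) * (β - α) := by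
          apply mul_le_mul _ h3 (sub_nonneg.2 D.lt1.le) (by positivity)
          apply mul_le_mul_of_nonneg_left _ (by positivity)
          exact mul_le_mul_of_nonneg_right h4 hσ0.le
      _ = _ := by ring
  rw [half3_var D hG hS, ← intervalIntegral.integral_add_adjacent_intervals
    (hI1i α hzm x0 hx0m D.lt0.le) (hI1i x0 hx0m β (right_mem_Icc.2 hαβ.le) D.lt1.le)]
  have e : Real.exp (∫ t in α..β, kk mu a h h1 y t) * PP mu h y α +
      ((∫ x in α..x0, I1 x) + ∫ x in x0..β, I1 x) -
      (Real.exp (Kinf mu a h h1 α β) / 4 * z ^ mu + ∫ x in x0..β, wgt mu a h h1 α β x * G x) =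
      (Real.exp (∫ t in α..β, kk mu a h h1 y t) * PP mu h y α -
        Real.exp (Kinf mu a h h1 α β) / 4 * z ^ mu) + (∫ x in α..x0, I1 x) +
      ((∫ x in x0..β, I1 x) - ∫ x in x0..β, wgt mu a h h1 α β x * G x) := by ring
  rw [e]
  have h9 : ε * σ ≤ C2 * ε ^ (6 / 5 : ℝ) := by
    calc ε * σ ≤ ε * (C2 * ε ^ (1 / 5 : ℝ)) := mul_le_mul_of_nonneg_left hσε hε0.le
      _ = C2 * (ε * ε ^ (1 / 5 : ℝ)) := by ring
      _ = C2 * ε ^ (6 / 5 : ℝ) := by rw [hε65]
  have h10 : 0 ≤ ε ^ (6 / 5 : ℝ) := Real.rpow_nonneg hε0.le _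
  refine (abs_add_le _ _).trans ((add_le_add (abs_add_le _ _) le_rfl).trans ?_)
  calc _ ≤ (E * C1 / 4 * (ε * σ) + E * (z * z ^ mu) + (β - α) * (E * (3 * M ^ 2)) * (ε * σ)) +
        (β - α) * (E * C1 * (3 * M ^ 2) + E * ((6 + 2 * L) * M ^ 2)) * (ε * σ) :=
        add_le_add (add_le_add hT1 hT2) hT3
    _ = C3 * (ε * σ) + E * (z * z ^ mu) := by rw [hC3]; ring
    _ ≤ C3 * (C2 * ε ^ (6 / 5 : ℝ)) + E * ε ^ (6 / 5 : ℝ) :=
        add_le_add (mul_le_mul_of_nonneg_left h9 hC30) (mul_le_mul_of_nonneg_left hz65 hE0.le)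
    _ ≤ (1 + E + C3 * C2) * ε ^ (6 / 5 : ℝ) := by nlinarith

end Pool.Agent.Lib.MP_95e7ec_an.Pw
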