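import Pool.Agent.Lib.MP_95e7ec_an.Pw.Half1
import Pool.Agent.Lib.MP_95e7ec_an.Pw.Half3
import Pool.Agent.Lib.MP_95e7ec_an.Pw.Ode

/-!
# One period = one letter
-/

set_option autoImplicit false

open Set Filter Topology MeasureTheory

namespace Pool.Agent.Lib.MP_95e7ec_an.Pw

variable {α x0 β x1 γ : ℝ} {a h h1 : ℝ → ℝ} {mu L c M : ℝ}

/-- `y ↦ (y - 1/4) y^mu` is strictly increasing for `y ≥ 1/5`. -/
theorem pfun_strictMono (hmu : |mu - 1| ≤ 1 / 100) :
    StrictMonoOn (fun v : ℝ => (v - 1 / 4) * v ^ mu) (Ici (1 / 5)) := by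
  have hm := abs_le.1 hmu
  have hder : ∀ v : ℝ, 0 < v → HasDerivAt (fun v : ℝ => (v - 1 / 4) * v ^ mu)
      (1 * v ^ mu + (v - 1 / 4) * (mu * v ^ (mu - 1))) v := by
    intro v hv
    exact ((hasDerivAt_id v).sub_const (1 / 4)).mul (Real.hasDerivAt_rpow_const (Or.inl hv.ne'))
  refine strictMonoOn_of_deriv_pos (convex_Ici _) ?_ ?_
  · intro v hv
    exact (hder v (by linarith [mem_Ici.1 hv])).continuousAt.continuousWithinAt
  · intro v hv
    rw [interior_Ici, mem_Ioi] at hv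
    have hv0 : 0 < v := by linarith
    rw [(hder v hv0).deriv]
    have e : v ^ mu = v ^ (mu - 1) * v := by
      rw [Real.rpow_sub_one hv0.ne']; field_simp
    have e2 : 0 < v ^ (mu - 1) := Real.rpow_pos_of_pos hv0 _
    rw [e]
    have e3 : 1 * (v ^ (mu - 1) * v) + (v - 1 / 4) * (mu * v ^ (mu - 1)) =
        v ^ (mu - 1) * (v + mu * (v - 1 / 4)) := by ring
    rw [e3]
    refine mul_pos e2 ?_
    nlinarith [hm.1, hm.2]

/-- The mirrored right hand side. -/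
theorem rhs_mir (G : ℝ → ℝ) (x v : ℝ) :
    rhs (mir a) (mir h) (nmir h1) (nmir G) x v = -rhs a h h1 G (-x) v := by
  unfold rhs den mir nmir
  ring

theorem h1_end_nonneg (D : Half α x0 β a h h1 mu L c M) : 0 ≤ h1 β := by
  have hlt : α < β := D.lt0.trans D.lt1
  have hcl : β ∈ closure (Ioo α β) := by
    rw [closure_Ioo hlt.ne]; exact ⟨hlt.le, le_refl _⟩
  have := mem_closure_iff_nhdsWithin_neBot.1 hcl
  exact ge_of_tendsto (D.cont_h1.continuousWithinAt (s := Ioo α β) (x := β))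
    (eventually_nhdsWithin_of_forall fun t ht => (D.h1_pos t ht).le)

theorem h1_mid (D : Period α x0 β x1 γ a h h1 mu L c M) : h1 β = 0 := by
  have e1 := h1_end_nonneg D.left
  have e2 := h1_end_nonneg D.right
  unfold nmir at e2
  rw [neg_neg] at e2
  linarith

/-- The constant of the first half. -/
noncomputable def cA (mu : ℝ) (a h h1 : ℝ → ℝ) (α β : ℝ) : ℝ := Real.exp (Kinf mu a h h1 α β)

/-- The weight of a period. -/
noncomputable def WW (mu : ℝ) (a h h1 : ℝ → ℝ) (α β γ x : ℝ) : ℝ :=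
  if x ≤ β then 4 / cA mu (mir a) (mir h) (nmir h1) (-γ) (-β) * wgt mu a h h1 α β x
  else 4 / cA mu (mir a) (mir h) (nmir h1) (-γ) (-β) *
    wgt mu (mir a) (mir h) (nmir h1) (-γ) (-β) (-x)

theorem WW_left {x : ℝ} (hx : x ≤ β) : WW mu a h h1 α β γ x =
    4 / cA mu (mir a) (mir h) (nmir h1) (-γ) (-β) * wgt mu a h h1 α β x := by
  unfold WW; rw [if_pos hx]

theorem WW_right (D : Period α x0 β x1 γ a h h1 mu L c M) {x : ℝ} (hx : β ≤ x) :
    WW mu a h h1 α β γ x = 4 / cA mu (mir a) (mir h) (nmir h1) (-γ) (-β) *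
      wgt mu (mir a) (mir h) (nmir h1) (-γ) (-β) (-x) := by
  rcases hx.lt_or_eq with hx | hx
  · unfold WW; rw [if_neg (not_le.2 hx)]
  · subst hx
    rw [WW_left (le_refl _), (wgt_cont D.left).2.2, (wgt_cont D.right).2.2, h1_mid D]
    unfold nmir
    rw [neg_neg, h1_mid D, neg_zero]

theorem WW_cont_left (D : Period α x0 β x1 γ a h h1 mu L c M) :
    ContinuousOn (WW mu a h h1 α β γ) (Icc x0 β) :=
  ((wgt_cont D.left).1.const_mul _).congr fun _ hx => WW_left hx.2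

theorem WW_cont_right (D : Period α x0 β x1 γ a h h1 mu L c M) :
    ContinuousOn (WW mu a h h1 α β γ) (Icc β x1) := by
  have e1 : ContinuousOn (fun x => wgt mu (mir a) (mir h) (nmir h1) (-γ) (-β) (-x))
      (Icc β x1) := by
    refine (wgt_cont D.right).1.comp continuous_neg.continuousOn ?_
    intro x hx
    exact ⟨by linarith [hx.2], by linarith [hx.1]⟩
  exact (e1.const_mul _).congr fun x hx => WW_right D hx.1

theorem x0_lt_β (D : Period α x0 β x1 γ a h h1 mu L c M) : x0 < β := D.left.lt1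

theorem β_lt_x1 (D : Period α x0 β x1 γ a h h1 mu L c M) : β < x1 := by
  linarith [D.right.lt1]

theorem x1_lt_γ (D : Period α x0 β x1 γ a h h1 mu L c M) : x1 < γ := by
  linarith [D.right.lt0]

theorem WW_cont (D : Period α x0 β x1 γ a h h1 mu L c M) :
    ContinuousOn (WW mu a h h1 α β γ) (Icc x0 x1) := by
  have e := (WW_cont_left D).union_of_isClosed (WW_cont_right D) isClosed_Icc isClosed_Icc
  rwa [Icc_union_Icc_eq_Icc (x0_lt_β D).le (β_lt_x1 D).le] at e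

/-- The integral of the weight of a period. -/
theorem integral_WW (D : Period α x0 β x1 γ a h h1 mu L c M) {G : ℝ → ℝ} (hG : Continuous G) :
    ∫ x in x0..x1, WW mu a h h1 α β γ x * G x =
      4 / cA mu (mir a) (mir h) (nmir h1) (-γ) (-β) *
        ((∫ x in x0..β, wgt mu a h h1 α β x * G x) -
          ∫ x in (-x1)..(-β), wgt mu (mir a) (mir h) (nmir h1) (-γ) (-β) x * nmir G x) := by
  have h0 := (x0_lt_β D).le
  have h1' := (β_lt_x1 D).le
  have i1 : IntervalIntegrable (fun x => WW mu a h h1 α β γ x * G x) volume x0 β := by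
    refine ContinuousOn.intervalIntegrable ?_
    rw [uIcc_of_le h0]
    exact (WW_cont_left D).mul hG.continuousOn
  have i2 : IntervalIntegrable (fun x => WW mu a h h1 α β γ x * G x) volume β x1 := by
    refine ContinuousOn.intervalIntegrable ?_
    rw [uIcc_of_le h1']
    exact (WW_cont_right D).mul hG.continuousOn
  rw [← intervalIntegral.integral_add_adjacent_intervals i1 i2]
  have e1 : ∫ x in x0..β, WW mu a h h1 α β γ x * G x =
      4 / cA mu (mir a) (mir h) (nmir h1) (-γ) (-β) *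
        ∫ x in x0..β, wgt mu a h h1 α β x * G x := by
    rw [← intervalIntegral.integral_const_mul]
    refine intervalIntegral.integral_congr fun x hx => ?_
    rw [uIcc_of_le h0] at hx
    rw [WW_left hx.2]; ring
  have e2 : ∫ x in β..x1, WW mu a h h1 α β γ x * G x =
      4 / cA mu (mir a) (mir h) (nmir h1) (-γ) (-β) *
        -∫ x in (-x1)..(-β), wgt mu (mir a) (mir h) (nmir h1) (-γ) (-β) x * nmir G x := by
    rw [← intervalIntegral.integral_neg, ← intervalIntegral.integral_const_mul,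
      ← intervalIntegral.integral_comp_neg]
    refine intervalIntegral.integral_congr fun x hx => ?_
    rw [uIcc_of_le h1'] at hx
    rw [WW_right D hx.1]
    unfold nmir
    rw [neg_neg]; ring
  rw [e1, e2]; ring

theorem Half.h_le (D : Half α x0 β a h h1 mu L c M) {x : ℝ} (hx : x ∈ Icc α β) :
    h x ≤ 1 / 4 := by
  have hmono : MonotoneOn h (Icc α β) := by
    refine monotoneOn_of_deriv_nonneg (convex_Icc _ _)
      (fun t _ => (D.deriv t).continuousAt.continuousWithinAt)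
      (fun t _ => (D.deriv t).differentiableAt.differentiableWithinAt) ?_
    intro t ht
    rw [interior_Icc] at ht
    rw [(D.deriv t).deriv]
    exact (D.h1_pos t ht).le
  rw [← D.h_end]
  exact hmono hx D.right_mem hx.2

/-- In a half period the solution stays below `1/2`. -/
theorem sol_lt_half (D : Half α x0 β a h h1 mu L c M) {B e : ℝ} {y : ℝ → ℝ} {x : ℝ}
    (hx : x ∈ Icc α β) (hd : |y x - max (h x) 0| ≤ (B * e) ^ (1 / (1 + mu)))
    (hB : 0 ≤ B * e) (hBe : B * e < (1 / 4 : ℝ) ^ (1 + mu)) : y x < 1 / 2 := by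
  have hmu := abs_le.1 (mu_near D)
  have hpos : 0 < 1 + mu := by linarith [hmu.1]
  have e1 : (B * e) ^ (1 / (1 + mu)) < 1 / 4 := by
    have e2 : (1 / 4 : ℝ) = ((1 / 4 : ℝ) ^ (1 + mu)) ^ (1 / (1 + mu)) := by
      rw [← Real.rpow_mul (by norm_num), mul_one_div, div_self hpos.ne', Real.rpow_one]
    calc (B * e) ^ (1 / (1 + mu)) < ((1 / 4 : ℝ) ^ (1 + mu)) ^ (1 / (1 + mu)) :=
          Real.rpow_lt_rpow hB hBe (by positivity)
      _ = 1 / 4 := e2.symm
  have e3 := D.h_le hx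
  have e4 : max (h x) 0 ≤ 1 / 4 := max_le e3 (by norm_num)
  have e5 := (abs_le.1 hd).2
  linarith

/-- The passage of a full period: `z^mu` becomes `A z^mu + ∫ W G`, up to the power `6/5` of the
small parameter. The constants do not depend on `G`, `η`, `z`. -/
theorem period_step (D : Period α x0 β x1 γ a h h1 mu L c M) :
    ∃ A : ℝ, 0 < A ∧ ∃ W : ℝ → ℝ, ContinuousOn W (Icc x0 x1) ∧ (∀ x ∈ Icc x0 x1, 0 ≤ W x) ∧
      (∀ x ∈ Ioo x0 β, 0 < W x) ∧ (∀ x ∈ Ioo β x1, 0 < W x) ∧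
      ∃ K : ℝ, 1 ≤ K ∧ ∃ ε0 : ℝ, 0 < ε0 ∧ ∀ (G : ℝ → ℝ) (η z : ℝ), Continuous G →
        (∀ x ∈ Icc α γ, |G x| ≤ η) → 0 < z → z ^ mu + η ≤ ε0 →
        K * (z ^ mu + η) ^ (6 / 5 : ℝ) < A * z ^ mu + ∫ x in x0..x1, W x * G x →
        ∃ y : ℝ → ℝ, y α = z ∧
          (∀ x ∈ Icc α γ, 0 < y x ∧ y x < 1 / 2 ∧ 0 < den a h x (y x) ∧
            HasDerivWithinAt y (rhs a h h1 G x (y x)) (Icc α γ) x) ∧
          |(y γ) ^ mu - (A * z ^ mu + ∫ x in x0..x1, W x * G x)| ≤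
            K * (z ^ mu + η) ^ (6 / 5 : ℝ) := by
  have DL := D.left
  have DR := D.right
  have hmu := abs_le.1 (mu_near DL)
  have hmu0 : 0 < mu := by linarith [hmu.1]
  obtain ⟨C1, hC1, ε1, hε1, H1⟩ := half3 DL
  obtain ⟨C2, hC2, ε2, hε2, H2⟩ := half3 DR
  obtain ⟨B1, hB1, R1⟩ := half2 DL
  obtain ⟨B2, hB2, R2⟩ := half2 DR
  have hαβ : α < β := DL.lt0.trans DL.lt1
  have hβγ : β < γ := (β_lt_x1 D).trans (x1_lt_γ D)
  have hx0β := x0_lt_β D
  have hβx1 := β_lt_x1 D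
  have hx01 : x0 < x1 := hx0β.trans hβx1
  have hM0 := DL.M_nonneg
  set A1 : ℝ := cA mu a h h1 α β with hA1
  set A2 : ℝ := cA mu (mir a) (mir h) (nmir h1) (-γ) (-β) with hA2
  have hA1p : 0 < A1 := Real.exp_pos _
  have hA2p : 0 < A2 := Real.exp_pos _
  have hWc := WW_cont D
  have hW0 : (∀ x ∈ Ioo x0 β, 0 < WW mu a h h1 α β γ x) := fun x hx => by
    rw [WW_left hx.2.le]
    exact mul_pos (div_pos (by norm_num) hA2p) ((wgt_cont DL).2.1 x hx)
  have hW1 : (∀ x ∈ Ioo β x1, 0 < WW mu a h h1 α β γ x) := fun x hx => by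
    rw [WW_right D hx.1.le]
    exact mul_pos (div_pos (by norm_num) hA2p)
      ((wgt_cont DR).2.1 (-x) ⟨by linarith [hx.2], by linarith [hx.1]⟩)
  obtain ⟨BW, hBW⟩ := isCompact_Icc.exists_bound_of_continuousOn hWc
  have hBW0 : 0 ≤ BW := (norm_nonneg _).trans (hBW x0 ⟨le_refl _, hx01.le⟩)
  set C3 : ℝ := A1 / A2 + BW * (x1 - x0) with hC3
  have hC3p : 0 ≤ C3 := by
    have := mul_nonneg hBW0 (sub_nonneg.2 hx01.le)
    have := div_pos hA1p hA2p
    rw [hC3]; linarith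
  set Q : ℝ := C1 + C2 * (C3 + 2) ^ (6 / 5 : ℝ) with hQ
  have hQ0 : 0 ≤ Q := by
    have : 0 ≤ (C3 + 2) ^ (6 / 5 : ℝ) := Real.rpow_nonneg (by linarith) _
    rw [hQ]
    have := mul_nonneg (by linarith : (0 : ℝ) ≤ C2) this
    linarith
  set K : ℝ := 4 / A2 * Q + 1 with hK
  have hK1 : 1 ≤ K := by
    have : 0 ≤ 4 / A2 * Q := by positivity
    rw [hK]; linarith
  have hKQ : Q ≤ A2 / 4 * K := by
    rw [hK]
    have : A2 / 4 * (4 / A2 * Q + 1) = Q + A2 / 4 := by field_simp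
    rw [this]; linarith
  -- smallness
  have hsmall : ∀ᶠ e : ℝ in 𝓝 0, e < ε1 ∧ (C3 + 2) * e < ε2 ∧ (C3 + 2) * e < (1 / 4 : ℝ) ^ mu ∧
      M * e < 1 / 10 ∧ K * e ^ (1 / 5 : ℝ) < 1 ∧ B1 * e < (1 / 4 : ℝ) ^ (1 + mu) ∧
      B2 * ((C3 + 2) * e) < (1 / 4 : ℝ) ^ (1 + mu) := by
    have key : ∀ (f : ℝ → ℝ) (d : ℝ), Continuous f → f 0 < d → ∀ᶠ e : ℝ in 𝓝 0, f e < d :=
      fun f d hf h0 => hf.continuousAt.eventually_lt continuousAt_const h0
    have hq : (0 : ℝ) < (1 / 4 : ℝ) ^ mu := Real.rpow_pos_of_pos (by norm_num) _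
    have hq' : (0 : ℝ) < (1 / 4 : ℝ) ^ (1 + mu) := Real.rpow_pos_of_pos (by norm_num) _
    refine (key _ _ continuous_id hε1).and ((key _ _ (by fun_prop) ?_).and
      ((key _ _ (by fun_prop) ?_).and ((key _ _ (by fun_prop) ?_).and
      ((key (fun e : ℝ => K * e ^ (1 / 5 : ℝ)) _
        (continuous_const.mul (Real.continuous_rpow_const (by norm_num))) ?_).and
      ((key _ _ (by fun_prop) ?_).and (key _ _ (by fun_prop) ?_))))))
    · rw [mul_zero]; exact hε2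
    · rw [mul_zero]; exact hq
    · norm_num
    · rw [Real.zero_rpow (by norm_num), mul_zero]; norm_num
    · rw [mul_zero]; exact hq'
    · rw [mul_zero, mul_zero]; exact hq'
  obtain ⟨δ, hδ, hδs⟩ := Metric.eventually_nhds_iff.1 hsmall
  refine ⟨A1 / A2, div_pos hA1p hA2p, WW mu a h h1 α β γ, hWc, ?_, hW0, hW1, K, hK1, δ / 2,
    by linarith, ?_⟩
  · intro x hx
    rcases le_or_gt x β with hxβ | hxβ
    · rw [WW_left hxβ]
      refine mul_nonneg (div_nonneg (by norm_num) hA2p.le) ?_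
      unfold wgt
      have hh : 0 ≤ h x := by
        have hcl : x ∈ Icc x0 β := ⟨hx.1, hxβ⟩
        by_contra hneg
        rw [not_le] at hneg
        rcases hx.1.lt_or_eq with hlt | heq
        · rcases hxβ.lt_or_eq with hlt2 | heq2
          · have hp := (wgt_cont DL).2.1 x ⟨hlt, hlt2⟩
            have hmono : StrictMonoOn h (Icc α β) := by
              refine strictMonoOn_of_deriv_pos (convex_Icc _ _)
                (fun t _ => (DL.deriv t).continuousAt.continuousWithinAt) ?_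
              intro t ht
              rw [interior_Icc] at ht
              rw [(DL.deriv t).deriv]
              exact DL.h1_pos t ht
            have := hmono DL.x0_mem ⟨DL.lt0.le.trans hx.1, hxβ⟩ hlt
            rw [DL.h_zero] at this
            linarith
          · rw [heq2, DL.h_end] at hneg; norm_num at hneg
        · rw [← heq, DL.h_zero] at hneg; exact lt_irrefl _ hneg
      exact mul_nonneg (Real.exp_pos _).le (mul_nonneg (sq_nonneg _) (Real.rpow_nonneg hh _))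
    · rcases hx.2.lt_or_eq with hlt | heq
      · exact (hW1 x ⟨hxβ, hlt⟩).le
      · rw [WW_right D hxβ.le]
        refine mul_nonneg (div_nonneg (by norm_num) hA2p.le) ?_
        unfold wgt
        rw [heq, DR.h_zero]
        exact mul_nonneg (Real.exp_pos _).le (mul_nonneg (sq_nonneg _)
          (Real.rpow_nonneg (le_refl _) _))
  intro G η z hG hη hz hε hT
  have hη0 : 0 ≤ η := (abs_nonneg _).trans (hη α ⟨le_refl _, (hαβ.trans hβγ).le⟩)
  have hzm : 0 < z ^ mu := Real.rpow_pos_of_pos hz _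
  set e : ℝ := z ^ mu + η with he
  have he0 : 0 < e := by rw [he]; linarith
  obtain ⟨s1, s2, s3, s4, s5, s6, s7⟩ := hδs (y := e) (by
    rw [Real.dist_eq, sub_zero, abs_of_pos he0]; linarith)
  have he6 : 0 < e ^ (6 / 5 : ℝ) := Real.rpow_pos_of_pos he0 _
  have hKe : K * e ^ (6 / 5 : ℝ) ≤ e := by
    have e1 : e ^ (6 / 5 : ℝ) = e ^ (1 / 5 : ℝ) * e := by
      have : (6 / 5 : ℝ) = 1 / 5 + 1 := by norm_num
      rw [this, Real.rpow_add he0, Real.rpow_one]
    rw [e1, ← mul_assoc]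
    nlinarith
  set T : ℝ := A1 / A2 * z ^ mu + ∫ x in x0..x1, WW mu a h h1 α β γ x * G x with hTdef
  have hTle : T ≤ C3 * e := by
    have e1 : |∫ x in x0..x1, WW mu a h h1 α β γ x * G x| ≤ BW * η * |x1 - x0| := by
      rw [← Real.norm_eq_abs]
      refine intervalIntegral.norm_integral_le_of_norm_le_const fun x hx => ?_
      rw [uIoc_of_le hx01.le] at hx
      have hx' : x ∈ Icc x0 x1 := ⟨hx.1.le, hx.2⟩
      rw [norm_mul]
      refine mul_le_mul (hBW x hx') ?_ (norm_nonneg _) hBW0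
      rw [Real.norm_eq_abs]
      exact hη x ⟨DL.lt0.le.trans hx'.1, hx'.2.trans (x1_lt_γ D).le⟩
    rw [abs_of_pos (sub_pos.2 hx01)] at e1
    have e2 := (abs_le.1 e1).2
    have e3 : A1 / A2 * z ^ mu ≤ A1 / A2 * e :=
      mul_le_mul_of_nonneg_left (by rw [he]; linarith) (div_pos hA1p hA2p).le
    have e4 : BW * η * (x1 - x0) ≤ BW * (x1 - x0) * e := by
      have : η ≤ e := by rw [he]; linarith
      have h5 := mul_nonneg hBW0 (sub_nonneg.2 hx01.le)
      nlinarith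
    rw [hTdef, hC3]
    nlinarith
  have hG1 : ∀ x ∈ Icc α γ, |G x| ≤ η := hη
  have hMe : M * η < 1 / 10 := by
    have : M * η ≤ M * e := mul_le_mul_of_nonneg_left (by rw [he]; linarith) hM0
    linarith
  obtain ⟨Y1, hY1, -, -⟩ := half_exists DL hG (fun x hx => by
    rw [abs_mul]
    have h5 := hη x ⟨hx.1, hx.2.trans hβγ.le⟩
    have h6 := DL.h1_le x hx
    have h7 : |h1 x| * |G x| ≤ M * η := mul_le_mul h6 h5 (abs_nonneg _) hM0
    linarith)
  have hnG : Continuous (nmir G) := (hG.comp continuous_neg).neg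
  have hηR : ∀ x ∈ Icc (-γ) (-β), |nmir G x| ≤ η := fun x hx => by
    unfold nmir
    rw [abs_neg]
    exact hη (-x) ⟨by linarith [hx.2], by linarith [hx.1]⟩
  obtain ⟨Y2, hY2, -, hY2c⟩ := half_exists DR hnG (fun x hx => by
    rw [abs_mul]
    have h5 := hηR x hx
    have h6 := DR.h1_le x hx
    have h7 : |nmir h1 x| * |nmir G x| ≤ M * η := mul_le_mul h6 h5 (abs_nonneg _) hM0
    linarith)
  have hle14 : ∀ t : ℝ, 0 < t → t ^ mu ≤ (C3 + 2) * e → t ≤ 1 / 4 := by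
    intro t ht h5
    have h6 : t ^ mu ≤ (1 / 4 : ℝ) ^ mu := h5.trans s3.le
    exact (Real.rpow_le_rpow_iff ht.le (by norm_num) hmu0).1 h6
  have hz14 : z ≤ 1 / 4 := hle14 z hz (by
    have : z ^ mu ≤ e := by rw [he]; linarith
    nlinarith)
  obtain ⟨hY1α, hY1s⟩ := hY1 z ⟨hz, hz14⟩
  set y1 := Y1 z with hy1
  -- the first half
  have hη1 : ∀ x ∈ Icc α β, |G x| ≤ η := fun x hx => hη x ⟨hx.1, hx.2.trans hβγ.le⟩
  have F1 := H1 G η y1 hG hη1 hY1s (by rw [hY1α, ← he]; linarith)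
  rw [hY1α, ← he] at F1
  -- the second half
  have F2 : ∀ z' : ℝ, 0 < z' → z' ^ mu ≤ (C3 + 1) * e →
      |PP mu (mir h) (Y2 z') (-β) - (A2 / 4 * z' ^ mu +
        ∫ x in (-x1)..(-β), wgt mu (mir a) (mir h) (nmir h1) (-γ) (-β) x * nmir G x)| ≤
      C2 * (C3 + 2) ^ (6 / 5 : ℝ) * e ^ (6 / 5 : ℝ) := by
    intro z' hz' hle
    have h5 : z' ^ mu + η ≤ (C3 + 2) * e := by
      have : η ≤ e := by rw [he]; linarith
      linarith
    obtain ⟨k1, k2⟩ := hY2 z' ⟨hz', hle14 z' hz' (by nlinarith)⟩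
    have k3 := H2 (nmir G) η (Y2 z') hnG hηR k2 (by rw [k1]; linarith)
    rw [k1] at k3
    refine k3.trans ?_
    rw [mul_assoc, ← Real.mul_rpow (by linarith) he0.le]
    refine mul_le_mul_of_nonneg_left (Real.rpow_le_rpow ?_ h5 (by norm_num)) (by linarith)
    have := Real.rpow_nonneg hz'.le mu
    linarith
  set J : ℝ := ∫ x in (-x1)..(-β), wgt mu (mir a) (mir h) (nmir h1) (-γ) (-β) x * nmir G x with hJ
  set I : ℝ := ∫ x in x0..β, wgt mu a h h1 α β x * G x with hI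
  have hTJ : A1 / 4 * z ^ mu + I = A2 / 4 * T + J := by
    rw [hTdef, integral_WW D hG, ← hA2, ← hI, ← hJ]
    field_simp
    ring
  have F1' : |PP mu h y1 β - (A2 / 4 * T + J)| ≤ C1 * e ^ (6 / 5 : ℝ) := by
    rw [← hTJ]; exact F1
  have F1a := abs_le.1 F1'
  have hTlo : 0 < T - K * e ^ (6 / 5 : ℝ) := by linarith
  have hThi : 0 < T + K * e ^ (6 / 5 : ℝ) := by
    have := mul_pos (by linarith : (0 : ℝ) < K) he6
    linarith
  have hpw : ∀ t : ℝ, 0 < t → (t ^ (1 / mu)) ^ mu = t := fun t ht => by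
    rw [← Real.rpow_mul ht.le, one_div_mul_cancel hmu0.ne', Real.rpow_one]
  set zlo : ℝ := (T - K * e ^ (6 / 5 : ℝ)) ^ (1 / mu) with hzlo
  set zhi : ℝ := (T + K * e ^ (6 / 5 : ℝ)) ^ (1 / mu) with hzhi
  have hzlo0 : 0 < zlo := Real.rpow_pos_of_pos hTlo _
  have hzhi0 : 0 < zhi := Real.rpow_pos_of_pos hThi _
  have hzlom : zlo ^ mu = T - K * e ^ (6 / 5 : ℝ) := hpw _ hTlo
  have hzhim : zhi ^ mu = T + K * e ^ (6 / 5 : ℝ) := hpw _ hThi
  have hKe0 : 0 < K * e ^ (6 / 5 : ℝ) := mul_pos (by linarith) he6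
  have hlohi : zlo ≤ zhi := by
    refine (Real.rpow_le_rpow_iff hzlo0.le hzhi0.le hmu0).1 ?_
    rw [hzlom, hzhim]; linarith
  have hzhi14 : zhi ≤ 1 / 4 := hle14 zhi hzhi0 (by rw [hzhim]; linarith)
  have hsub : Icc zlo zhi ⊆ Ioc (0 : ℝ) (1 / 4) := fun t ht =>
    ⟨hzlo0.trans_le ht.1, ht.2.trans hzhi14⟩
  have hend : mir h (-β) = 1 / 4 := by
    unfold mir; rw [neg_neg]; exact DL.h_end
  have hYge : ∀ t ∈ Icc zlo zhi, 1 / 5 ≤ Y2 t (-β) := by
    intro t ht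
    obtain ⟨-, k2⟩ := hY2 t (hsub ht)
    obtain ⟨-, k3, -, -⟩ := k2 (-β) DR.right_mem
    rw [hend] at k3
    linarith
  have hφc : ContinuousOn (fun t => (Y2 t (-β) - 1 / 4) * (Y2 t (-β)) ^ mu) (Icc zlo zhi) := by
    have hc := hY2c.mono hsub
    refine (hc.sub continuousOn_const).mul (hc.rpow_const fun t ht => Or.inr hmu0.le)
  have hφ : ∀ t, PP mu (mir h) (Y2 t) (-β) = (Y2 t (-β) - 1 / 4) * (Y2 t (-β)) ^ mu := by
    intro t; unfold PP; rw [hend]
  have hlo := abs_le.1 (F2 zlo hzlo0 (by rw [hzlom]; linarith))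
  have hhi := abs_le.1 (F2 zhi hzhi0 (by rw [hzhim]; linarith))
  rw [hφ, hzlom] at hlo
  rw [hφ, hzhim] at hhi
  have hQe : Q * e ^ (6 / 5 : ℝ) ≤ A2 / 4 * (K * e ^ (6 / 5 : ℝ)) := by
    rw [← mul_assoc]
    exact mul_le_mul_of_nonneg_right hKQ he6.le
  have hQe' : C1 * e ^ (6 / 5 : ℝ) + C2 * (C3 + 2) ^ (6 / 5 : ℝ) * e ^ (6 / 5 : ℝ) ≤
      A2 / 4 * (K * e ^ (6 / 5 : ℝ)) := by
    have : C1 * e ^ (6 / 5 : ℝ) + C2 * (C3 + 2) ^ (6 / 5 : ℝ) * e ^ (6 / 5 : ℝ) =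
        Q * e ^ (6 / 5 : ℝ) := by rw [hQ]; ring
    rw [this]; exact hQe
  have hmemv : PP mu h y1 β ∈ Icc ((Y2 zlo (-β) - 1 / 4) * (Y2 zlo (-β)) ^ mu)
      ((Y2 zhi (-β) - 1 / 4) * (Y2 zhi (-β)) ^ mu) := by
    constructor
    · have k1 : A2 / 4 * (T - K * e ^ (6 / 5 : ℝ)) =
        A2 / 4 * T - A2 / 4 * (K * e ^ (6 / 5 : ℝ)) := by ring
      rw [k1] at hlo
      linarith [hlo.2, F1a.1]
    · have k1 : A2 / 4 * (T + K * e ^ (6 / 5 : ℝ)) =
        A2 / 4 * T + A2 / 4 * (K * e ^ (6 / 5 : ℝ)) := by ring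
      rw [k1] at hhi
      linarith [hhi.1, F1a.2]
  obtain ⟨z', hz'm, hz'e⟩ := intermediate_value_Icc hlohi hφc hmemv
  obtain ⟨hY2α, hY2s⟩ := hY2 z' (hsub hz'm)
  set y2 := Y2 z' with hy2
  have hz'0 : 0 < z' := (hsub hz'm).1
  have hz'le : z' ^ mu ≤ T + K * e ^ (6 / 5 : ℝ) := by
    rw [← hzhim]; exact Real.rpow_le_rpow hz'0.le hz'm.2 hmu0.le
  have hz'ge : T - K * e ^ (6 / 5 : ℝ) ≤ z' ^ mu := by
    rw [← hzlom]; exact Real.rpow_le_rpow hzlo0.le hz'm.1 hmu0.le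
  have hyβ : y2 (-β) = y1 β := by
    have k1 : 1 / 5 ≤ y1 β := by
      obtain ⟨-, k3, -, -⟩ := hY1s β DL.right_mem
      rw [DL.h_end] at k3
      linarith
    have k2 := hYge z' hz'm
    refine (pfun_strictMono (mu_near DL)).injOn (mem_Ici.2 k2) (mem_Ici.2 k1) ?_
    have k4 : PP mu h y1 β = (y1 β - 1 / 4) * (y1 β) ^ mu := by unfold PP; rw [DL.h_end]
    rw [k4] at hz'e
    exact hz'e
  -- gluing
  let y : ℝ → ℝ := fun x => if x ≤ β then y1 x else y2 (-x)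
  have hyl : ∀ x ∈ Icc α β, y x = y1 x := fun x hx => if_pos hx.2
  have hyr : ∀ x ∈ Icc β γ, y x = y2 (-x) := fun x hx => by
    rcases hx.1.lt_or_eq with hlt | heq
    · exact if_neg (not_le.2 hlt)
    · show (if x ≤ β then y1 x else y2 (-x)) = y2 (-x)
      rw [if_pos heq.ge, ← heq, hyβ]
  have SL1 : Sl (rhs a h h1 G) α β y1 := fun x hx => (hY1s x hx).2.2.2
  have SL2 : Sl (rhs (mir a) (mir h) (nmir h1) (nmir G)) (-γ) (-β) y2 := fun x hx =>
    (hY2s x hx).2.2.2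
  have SL2' : Sl (rhs a h h1 G) β γ (fun x => y2 (-x)) := by
    have k := SL2.neg
    rw [neg_neg, neg_neg] at k
    refine k.congr fun x _ => ?_
    rw [rhs_mir, neg_neg, neg_neg]
  have SLy : Sl (rhs a h h1 G) α γ y :=
    Sl.glue hαβ.le hβγ.le (SL1.congr' hyl) (SL2'.congr' hyr)
  refine ⟨y, ?_, ?_, ?_⟩
  · rw [hyl α DL.left_mem]; exact hY1α
  · intro x hx
    refine ⟨?_, ?_, ?_, SLy x hx⟩
    · rcases le_total x β with hxβ | hxβ
      · rw [hyl x ⟨hx.1, hxβ⟩]; exact (hY1s x ⟨hx.1, hxβ⟩).1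
      · rw [hyr x ⟨hxβ, hx.2⟩]
        exact (hY2s (-x) ⟨by linarith [hx.2], by linarith⟩).1
    · rcases le_total x β with hxβ | hxβ
      · rw [hyl x ⟨hx.1, hxβ⟩]
        refine sol_lt_half DL ⟨hx.1, hxβ⟩
          (R1 G η y1 hG hη1 hY1s x ⟨hx.1, hxβ⟩).2 ?_ ?_
        · rw [hY1α, ← he]; exact mul_nonneg (by linarith) he0.le
        · rw [hY1α, ← he]; exact s6
      · rw [hyr x ⟨hxβ, hx.2⟩]
        have hx' : -x ∈ Icc (-γ) (-β) := ⟨by linarith [hx.2], by linarith⟩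
        have k5 : z' ^ mu + η ≤ (C3 + 2) * e := by
          have : η ≤ e := by rw [he]; linarith
          linarith
        refine sol_lt_half DR hx' (R2 (nmir G) η y2 hnG hηR hY2s (-x) hx').2 ?_ ?_
        · rw [hY2α]
          have := Real.rpow_nonneg hz'0.le mu
          exact mul_nonneg (by linarith) (by linarith)
        · rw [hY2α]
          refine lt_of_le_of_lt ?_ s7
          exact mul_le_mul_of_nonneg_left k5 (by linarith)
    · rcases le_total x β with hxβ | hxβ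
      · rw [hyl x ⟨hx.1, hxβ⟩]
        obtain ⟨k1, k2, -, -⟩ := hY1s x ⟨hx.1, hxβ⟩
        exact den_pos (DL.a_near x ⟨hx.1, hxβ⟩) k1 k2
      · rw [hyr x ⟨hxβ, hx.2⟩]
        have hx' : -x ∈ Icc (-γ) (-β) := ⟨by linarith [hx.2], by linarith⟩
        obtain ⟨k1, k2, -, -⟩ := hY2s (-x) hx'
        have k3 := den_pos (DR.a_near (-x) hx') k1 k2
        have k4 : den (mir a) (mir h) (-x) (y2 (-x)) = den a h x (y2 (-x)) := by
          unfold den mir; rw [neg_neg]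
        rwa [k4] at k3
  · rw [hyr γ ⟨hβγ.le, le_refl _⟩, hY2α, abs_le]
    constructor
    · linarith
    · linarith

end Pool.Agent.Lib.MP_95e7ec_an.Pw
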