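import Mathlib
import Pool.Agent.Lib.MP_95e7ec_an.Pw.BDefs
import Pool.Agent.Lib.MP_95e7ec_an.Pw.Period

/-!
# Part B: one period is one letter
-/

set_option autoImplicit false

open Set Filter Topology

namespace Pool.Agent.Lib.MP_95e7ec_an.Pw

theorem pl_lt_z0 (n j : ℕ) (hn : 0 < n) : pl n j < z0 n j := by
  have h1 : (0 : ℝ) < n := by exact_mod_cast hn
  have h2 : 0 < Real.pi / (2 * n) := by positivity
  unfold z0
  linarith

theorem z0_lt_pm (n j : ℕ) (hn : 0 < n) : z0 n j < pm n j := by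
  have h1 : (0 : ℝ) < n := by exact_mod_cast hn
  have h2 : 0 < Real.pi / (2 * n) := by positivity
  have h3 : Real.pi / n = 2 * (Real.pi / (2 * n)) := by field_simp
  unfold z0 pm
  linarith

theorem pm_lt_z1 (n j : ℕ) (hn : 0 < n) : pm n j < z1 n j := by
  have h1 : (0 : ℝ) < n := by exact_mod_cast hn
  have h2 : 0 < Real.pi / (2 * n) := by positivity
  have h3 : Real.pi / n = 2 * (Real.pi / (2 * n)) := by field_simp
  have h4 : 3 * Real.pi / (2 * n) = 3 * (Real.pi / (2 * n)) := by field_simp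
  unfold z1 pm
  linarith

theorem z1_lt_pl (n j : ℕ) (hn : 0 < n) : z1 n j < pl n (j + 1) := by
  have h1 : (0 : ℝ) < n := by exact_mod_cast hn
  have h2 : 0 < Real.pi / (2 * n) := by positivity
  have h3 : pl n (j + 1) = pl n j + 4 * (Real.pi / (2 * n)) := by
    unfold pl
    push_cast
    field_simp
    ring
  have h4 : 3 * Real.pi / (2 * n) = 3 * (Real.pi / (2 * n)) := by field_simp
  unfold z1
  linarith

theorem n_mul_pl (n j : ℕ) (hn : 0 < n) : (n : ℝ) * pl n j = j * (2 * Real.pi) := by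
  have h1 : (n : ℝ) ≠ 0 := by exact_mod_cast hn.ne'
  unfold pl
  field_simp

theorem n_mul_z0 (n j : ℕ) (hn : 0 < n) :
    (n : ℝ) * z0 n j = Real.pi / 2 + j * (2 * Real.pi) := by
  have h1 : (n : ℝ) ≠ 0 := by exact_mod_cast hn.ne'
  unfold z0 pl
  field_simp
  ring

theorem n_mul_pm (n j : ℕ) (hn : 0 < n) : (n : ℝ) * pm n j = Real.pi + j * (2 * Real.pi) := by
  have h1 : (n : ℝ) ≠ 0 := by exact_mod_cast hn.ne'
  unfold pm pl
  field_simp
  ring

theorem n_mul_z1 (n j : ℕ) (hn : 0 < n) :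
    (n : ℝ) * z1 n j = Real.pi + Real.pi / 2 + j * (2 * Real.pi) := by
  have h1 : (n : ℝ) ≠ 0 := by exact_mod_cast hn.ne'
  unfold z1 pl
  field_simp
  ring

theorem hh_pl (n j : ℕ) (hn : 0 < n) : hh n (pl n j) = -1 / 4 := by
  unfold hh
  rw [n_mul_pl n j hn, Real.cos_nat_mul_two_pi]

theorem hh_z0 (n j : ℕ) (hn : 0 < n) : hh n (z0 n j) = 0 := by
  unfold hh
  rw [n_mul_z0 n j hn, Real.cos_add_nat_mul_two_pi, Real.cos_pi_div_two]
  norm_num

theorem hh_pm (n j : ℕ) (hn : 0 < n) : hh n (pm n j) = 1 / 4 := by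
  unfold hh
  rw [n_mul_pm n j hn, Real.cos_add_nat_mul_two_pi, Real.cos_pi]
  norm_num

theorem hh_z1 (n j : ℕ) (hn : 0 < n) : hh n (z1 n j) = 0 := by
  unfold hh
  rw [n_mul_z1 n j hn, Real.cos_add_nat_mul_two_pi, Real.cos_add, Real.cos_pi_div_two,
    Real.sin_pi]
  norm_num

theorem continuous_hd (n : ℕ) : Continuous (hd n) := by
  unfold hd
  fun_prop

theorem hasDerivAt_hh (n : ℕ) (x : ℝ) : HasDerivAt (hh n) (hd n x) x := by
  unfold hh hd
  have h1 : HasDerivAt (fun x : ℝ => (n : ℝ) * x) n x := by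
    simpa using (hasDerivAt_id x).const_mul (n : ℝ)
  have h2 := (h1.cos.neg).div_const 4
  refine h2.congr_deriv ?_
  ring

theorem hd_abs_le (n : ℕ) (x : ℝ) : |hd n x| ≤ n / 4 := by
  unfold hd
  rw [abs_div, abs_mul, abs_of_nonneg (Nat.cast_nonneg n), abs_of_pos (by norm_num : (0 : ℝ) < 4)]
  have h1 := Real.abs_sin_le_one (n * x)
  have h2 : (0 : ℝ) ≤ n := Nat.cast_nonneg n
  have h3 : (n : ℝ) * |Real.sin (n * x)| ≤ n * 1 := mul_le_mul_of_nonneg_left h1 h2
  linarith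

/-- `sin` is positive on the rising half period. -/
theorem hd_pos_left (n j : ℕ) (hn : 0 < n) {x : ℝ} (hx : x ∈ Ioo (pl n j) (pm n j)) :
    0 < hd n x := by
  have h1 : (0 : ℝ) < n := by exact_mod_cast hn
  unfold hd
  have h2 : 0 < Real.sin ((n : ℝ) * x - j * (2 * Real.pi)) := by
    apply Real.sin_pos_of_pos_of_lt_pi
    · rw [← n_mul_pl n j hn]
      have := mul_lt_mul_of_pos_left hx.1 h1
      linarith
    · have h3 := mul_lt_mul_of_pos_left hx.2 h1
      rw [n_mul_pm n j hn] at h3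
      linarith
  rw [Real.sin_sub_nat_mul_two_pi] at h2
  positivity

theorem hd_neg_right (n j : ℕ) (hn : 0 < n) {x : ℝ} (hx : x ∈ Ioo (pm n j) (pl n (j + 1))) :
    hd n x < 0 := by
  have h1 : (0 : ℝ) < n := by exact_mod_cast hn
  unfold hd
  have h2 : 0 < Real.sin ((n : ℝ) * x - j * (2 * Real.pi) - Real.pi) := by
    apply Real.sin_pos_of_pos_of_lt_pi
    · have h3 := mul_lt_mul_of_pos_left hx.1 h1
      rw [n_mul_pm n j hn] at h3
      linarith
    · have h3 := mul_lt_mul_of_pos_left hx.2 h1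
      rw [n_mul_pl n (j + 1) hn] at h3
      push_cast at h3
      linarith
  rw [Real.sin_sub_pi, Real.sin_sub_nat_mul_two_pi] at h2
  have h4 : Real.sin (n * x) < 0 := by linarith
  have h5 : (n : ℝ) * Real.sin (n * x) < 0 := mul_neg_of_pos_of_neg h1 h4
  linarith

theorem abs_sin_ge {t : ℝ} (ht : |t| ≤ Real.pi / 2) : 2 / Real.pi * |t| ≤ |Real.sin t| := by
  rcases le_or_gt 0 t with h | h
  · rw [abs_of_nonneg h] at ht ⊢
    have h1 := Real.mul_le_sin h ht
    exact h1.trans (le_abs_self _)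
  · rw [abs_of_neg h] at ht ⊢
    have h1 := Real.mul_le_sin (by linarith : 0 ≤ -t) ht
    rw [Real.sin_neg] at h1
    exact h1.trans (neg_le_abs _)

/-- The lower bound at the first zero. -/
theorem hh_lower0 (n j : ℕ) (hn : 0 < n) {x : ℝ} (hx : x ∈ Icc (pl n j) (pm n j)) :
    (n : ℝ) / (2 * Real.pi) * |x - z0 n j| ≤ |hh n x| := by
  have h1 : (0 : ℝ) < n := by exact_mod_cast hn
  have e : hh n x = Real.sin (n * (x - z0 n j)) / 4 := by
    unfold hh
    rw [mul_sub, n_mul_z0 n j hn,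
      show (n : ℝ) * x - (Real.pi / 2 + j * (2 * Real.pi)) =
        ((n : ℝ) * x - Real.pi / 2) - j * (2 * Real.pi) by ring,
      Real.sin_sub_nat_mul_two_pi, Real.sin_sub_pi_div_two]
  have h2 : |(n : ℝ) * (x - z0 n j)| ≤ Real.pi / 2 := by
    rw [abs_le]
    have h3 := mul_le_mul_of_nonneg_left hx.1 h1.le
    have h4 := mul_le_mul_of_nonneg_left hx.2 h1.le
    rw [n_mul_pl n j hn] at h3
    rw [n_mul_pm n j hn] at h4
    rw [mul_sub, n_mul_z0 n j hn]
    constructor <;> linarith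
  have h3 := abs_sin_ge h2
  rw [e, abs_div, abs_of_pos (by norm_num : (0 : ℝ) < 4)]
  rw [abs_mul, abs_of_pos h1] at h3
  have hp := Real.pi_pos
  have h4 : (n : ℝ) / (2 * Real.pi) * |x - z0 n j| =
      2 / Real.pi * (n * |x - z0 n j|) / 4 := by
    field_simp
    ring
  rw [h4]
  linarith

/-- The lower bound at the second zero. -/
theorem hh_lower1 (n j : ℕ) (hn : 0 < n) {x : ℝ} (hx : x ∈ Icc (pm n j) (pl n (j + 1))) :
    (n : ℝ) / (2 * Real.pi) * |x - z1 n j| ≤ |hh n x| := by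
  have h1 : (0 : ℝ) < n := by exact_mod_cast hn
  have e : hh n x = -Real.sin (n * (x - z1 n j)) / 4 := by
    unfold hh
    rw [mul_sub, n_mul_z1 n j hn,
      show (n : ℝ) * x - (Real.pi + Real.pi / 2 + j * (2 * Real.pi)) =
        ((n : ℝ) * x - Real.pi / 2 - Real.pi) - j * (2 * Real.pi) by ring,
      Real.sin_sub_nat_mul_two_pi, Real.sin_sub_pi, Real.sin_sub_pi_div_two]
    ring
  have h2 : |(n : ℝ) * (x - z1 n j)| ≤ Real.pi / 2 := by
    rw [abs_le]
    have h3 := mul_le_mul_of_nonneg_left hx.1 h1.le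
    have h4 := mul_le_mul_of_nonneg_left hx.2 h1.le
    rw [n_mul_pm n j hn] at h3
    rw [n_mul_pl n (j + 1) hn] at h4
    push_cast at h4
    rw [mul_sub, n_mul_z1 n j hn]
    constructor <;> linarith
  have h3 := abs_sin_ge h2
  rw [e, abs_div, abs_neg, abs_of_pos (by norm_num : (0 : ℝ) < 4)]
  rw [abs_mul, abs_of_pos h1] at h3
  have hp := Real.pi_pos
  have h4 : (n : ℝ) / (2 * Real.pi) * |x - z1 n j| =
      2 / Real.pi * (n * |x - z1 n j|) / 4 := by
    field_simp
    ring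
  rw [h4]
  linarith

theorem exists_perConst (n j : ℕ) (hn : 0 < n) (a : ℝ → ℝ) (ha : Continuous a) (μ L : ℝ)
    (h : PerHyp n j a μ L) :
    ∃ (A C ε0 : ℝ) (W : ℝ → ℝ), PerConst n j a μ A C ε0 W := by
  have hn1 : (0 : ℝ) < n := by exact_mod_cast hn
  have o1 := pl_lt_z0 n j hn
  have o2 := z0_lt_pm n j hn
  have o3 := pm_lt_z1 n j hn
  have o4 := z1_lt_pl n j hn
  have hl : Half (pl n j) (z0 n j) (pm n j) a (hh n) (hd n) μ L (n / (2 * Real.pi)) (n / 4) := by
    refine ⟨o1, o2, ha, continuous_hd n, hasDerivAt_hh n, hh_pl n j hn, hh_z0 n j hn,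
      hh_pm n j hn, fun x hx => hd_pos_left n j hn hx, fun x _ => hd_abs_le n x,
      fun x hx => h.bd x ⟨hx.1, by linarith [hx.2]⟩,
      fun x hx => h.lip x ⟨hx.1, by linarith [hx.2]⟩, by positivity,
      fun x hx => hh_lower0 n j hn hx⟩
  have hr : Half (-pl n (j + 1)) (-z1 n j) (-pm n j) (mir a) (mir (hh n)) (nmir (hd n)) μ L
      (n / (2 * Real.pi)) (n / 4) := by
    refine ⟨by linarith, by linarith, ha.comp continuous_neg,
      ((continuous_hd n).comp continuous_neg).neg, ?_, ?_, ?_, ?_, ?_, ?_, ?_, ?_,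
      by positivity, ?_⟩
    · intro x
      have h1 := (hasDerivAt_hh n (-x)).comp x (hasDerivAt_neg x)
      refine HasDerivAt.congr_deriv h1 ?_
      unfold nmir
      ring
    · unfold mir
      rw [neg_neg, hh_pl n (j + 1) hn]
    · unfold mir
      rw [neg_neg, hh_z1 n j hn]
    · unfold mir
      rw [neg_neg, hh_pm n j hn]
    · intro x hx
      unfold nmir
      have := hd_neg_right n j hn (x := -x) ⟨by linarith [hx.2], by linarith [hx.1]⟩
      linarith
    · intro x _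
      unfold nmir
      rw [abs_neg]
      exact hd_abs_le n (-x)
    · intro x hx
      exact h.bd (-x) ⟨by linarith [hx.2], by linarith [hx.1]⟩
    · intro x hx
      exact h.lip (-x) ⟨by linarith [hx.2], by linarith [hx.1]⟩
    · intro x hx
      have := hh_lower1 n j hn (x := -x) ⟨by linarith [hx.2], by linarith [hx.1]⟩
      unfold mir
      rw [show |x - -z1 n j| = |-x - z1 n j| by rw [← abs_neg]; ring_nf]
      exact this
  obtain ⟨A, hA, W, hWc, _, hW1, hW2, K, hK, ε0, hε, hmain⟩ := period_step ⟨hl, hr⟩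
  refine ⟨A, K, ε0, W, hA, by linarith, hε, hWc, ?_, ?_⟩
  · intro x hx hne
    rcases lt_or_gt_of_ne hne with h1 | h1
    · exact hW1 x ⟨hx.1, h1⟩
    · exact hW2 x ⟨h1, hx.2⟩
  · intro G hG η hη u hu hue hlt
    have e : ∫ x in z0 n j..z1 n j, G x * W x = ∫ x in z0 n j..z1 n j, W x * G x := by
      congr 1
      ext x
      ring
    rw [e] at hlt ⊢
    obtain ⟨y, hy0, hy1, hy2⟩ := hmain G η u hG hη hu hue hlt
    exact ⟨y, hy0, hy1, hy2⟩

end Pool.Agent.Lib.MP_95e7ec_an.Pw
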