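import Mathlib
import Pool.Agent.Lib.MP_95e7ec_an.Pw.CField

/-!
# Transfer of periodic scalar equations to plane fields of low degree: the polynomials

A trigonometric polynomial of degree `≤ k²` is `A(cos x) + sin x B(cos x)`; `lft k A` is the
polynomial in two variables of degree `≤ 2k - 1` with `lft k A (x, x^k) = A(x)`. The plane
coordinates are `X = √ρ cos x`, `V = X^k + ε √ρ sin x`, `ρ = 1 + ε y`.
-/

set_option autoImplicit false

open Set Filter Topology

namespace Pool.Agent.Lib.MP_95e7ec_an.Pw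

open MvPolynomial

/-- `f = A(cos x) + sin x B(cos x)` with `A`, `B` of degree `≤ D`. -/
def EO (D : ℕ) (f : ℝ → ℝ) : Prop :=
  ∃ A B : Polynomial ℝ, A.natDegree ≤ D ∧ B.natDegree ≤ D ∧
    ∀ x, f x = A.eval (Real.cos x) + Real.sin x * B.eval (Real.cos x)

theorem EO.zero (D : ℕ) : EO D fun _ => 0 := ⟨0, 0, by simp, by simp, fun x => by simp⟩

theorem EO.add {D : ℕ} {f g : ℝ → ℝ} (hf : EO D f) (hg : EO D g) : EO D fun x => f x + g x := by
  obtain ⟨A, B, hA, hB, h⟩ := hf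
  obtain ⟨A', B', hA', hB', h'⟩ := hg
  refine ⟨A + A', B + B', (Polynomial.natDegree_add_le _ _).trans (max_le hA hA'),
    (Polynomial.natDegree_add_le _ _).trans (max_le hB hB'), fun x => ?_⟩
  simp only [h, h', Polynomial.eval_add]
  ring

theorem EO.sum {ι : Type*} (s : Finset ι) {D : ℕ} {f : ι → ℝ → ℝ} (h : ∀ i ∈ s, EO D (f i)) :
    EO D fun x => ∑ i ∈ s, f i x := by
  classical
  induction s using Finset.induction_on with
  | empty => simpa using EO.zero D
  | insert a s ha ih =>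
    simp only [Finset.sum_insert ha]
    exact (h a (Finset.mem_insert_self _ _)).add
      (ih fun i hi => h i (Finset.mem_insert_of_mem hi))

theorem natDegree_half (a b : ℕ) (c : ℝ) :
    (Polynomial.C c * ((Polynomial.C (1 / 2) * (1 + Polynomial.X)) ^ a *
      (Polynomial.C (1 / 2) * (1 - Polynomial.X)) ^ b) : Polynomial ℝ).natDegree ≤ a + b := by
  have h1 : (Polynomial.C (1 / 2) * (1 + Polynomial.X) : Polynomial ℝ).natDegree ≤ 1 := by
    refine (Polynomial.natDegree_C_mul_le _ _).trans ?_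
    refine (Polynomial.natDegree_add_le _ _).trans ?_
    simp
  have h2 : (Polynomial.C (1 / 2) * (1 - Polynomial.X) : Polynomial ℝ).natDegree ≤ 1 := by
    refine (Polynomial.natDegree_C_mul_le _ _).trans ?_
    refine (Polynomial.natDegree_sub_le _ _).trans ?_
    simp
  refine (Polynomial.natDegree_C_mul_le _ _).trans (Polynomial.natDegree_mul_le.trans ?_)
  refine add_le_add ((Polynomial.natDegree_pow_le).trans ?_)
    ((Polynomial.natDegree_pow_le).trans ?_)
  · calc a * _ ≤ a * 1 := Nat.mul_le_mul_left _ h1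
      _ = a := mul_one a
  · calc b * _ ≤ b * 1 := Nat.mul_le_mul_left _ h2
      _ = b := mul_one b

theorem EO.monomial {D i j : ℕ} (hij : i + j = 2 * D) (c : ℝ) :
    EO D fun x => c * (Real.cos (x / 2) ^ i * Real.sin (x / 2) ^ j) := by
  have hc : ∀ x : ℝ, Real.cos (x / 2) ^ 2 = 1 / 2 * (1 + Real.cos x) := fun x => by
    rw [Real.cos_sq, show 2 * (x / 2) = x by ring]
    ring
  have hs : ∀ x : ℝ, Real.sin (x / 2) ^ 2 = 1 / 2 * (1 - Real.cos x) := fun x => by
    rw [Real.sin_sq, hc]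
    ring
  have hcs : ∀ x : ℝ, Real.cos (x / 2) * Real.sin (x / 2) = 1 / 2 * Real.sin x := fun x => by
    have := Real.sin_two_mul (x / 2)
    rw [show 2 * (x / 2) = x by ring] at this
    rw [this]
    ring
  rcases Nat.even_or_odd' i with ⟨a, rfl | rfl⟩
  · obtain ⟨b, rfl⟩ : ∃ b, j = 2 * b := ⟨D - a, by omega⟩
    refine ⟨Polynomial.C c * ((Polynomial.C (1 / 2) * (1 + Polynomial.X)) ^ a *
      (Polynomial.C (1 / 2) * (1 - Polynomial.X)) ^ b), 0, (natDegree_half a b c).trans (by omega),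
      by simp, fun x => ?_⟩
    simp only [pow_mul, hc, hs]
    simp
  · obtain ⟨b, rfl⟩ : ∃ b, j = 2 * b + 1 := ⟨D - a - 1, by omega⟩
    refine ⟨0, Polynomial.C (c * (1 / 2)) * ((Polynomial.C (1 / 2) * (1 + Polynomial.X)) ^ a *
      (Polynomial.C (1 / 2) * (1 - Polynomial.X)) ^ b), by simp,
      (natDegree_half a b _).trans (by omega), fun x => ?_⟩
    simp only [pow_succ (_ : ℝ) (2 * _), pow_mul, hc, hs]
    have e : ∀ u v : ℝ, c * (u * Real.cos (x / 2) * (v * Real.sin (x / 2))) =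
        c * (u * v) * (Real.cos (x / 2) * Real.sin (x / 2)) := fun u v => by ring
    rw [e, hcs]
    simp
    ring

/-- Every trigonometric polynomial has the even-odd form. -/
theorem IsTrig.eo {D : ℕ} {f : ℝ → ℝ} (hf : IsTrig D f) : EO D f := by
  obtain ⟨P, hP, h⟩ := hf
  have e : f = fun x => ∑ d ∈ P.support, P.coeff d *
      (Real.cos (x / 2) ^ d 0 * Real.sin (x / 2) ^ d 1) := by
    funext x
    rw [h, eval_eq']
    refine Finset.sum_congr rfl fun d _ => ?_
    rw [Fin.prod_univ_two]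
    rfl
  rw [e]
  refine EO.sum _ fun d hd => EO.monomial ?_ _
  have h1 := hP (mem_support_iff.1 hd)
  rw [← h1]
  simp [Finsupp.weight_apply, Finsupp.sum_fintype]

/-! ### The lift -/

/-- The lift: `x^e` becomes `X^(e mod k) V^(e div k)`. -/
noncomputable def lft (k : ℕ) (A : Polynomial ℝ) : MvPolynomial (Fin 2) ℝ :=
  ∑ e ∈ Finset.range (A.natDegree + 1), C (A.coeff e) * (X 0 ^ (e % k) * X 1 ^ (e / k))

theorem eval_lft_graph (k : ℕ) (A : Polynomial ℝ) (x : ℝ) :
    eval ![x, x ^ k] (lft k A) = A.eval x := by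
  rw [lft, map_sum, Polynomial.eval_eq_sum_range]
  refine Finset.sum_congr rfl fun e _ => ?_
  simp only [map_mul, eval_C, map_pow, eval_X, Matrix.cons_val_zero, Matrix.cons_val_one]
  rw [← pow_mul, ← pow_add, Nat.mod_add_div]

theorem degree_mul_le {a b : ℕ} {P Q : MvPolynomial (Fin 2) ℝ} (hP : P.totalDegree ≤ a)
    (hQ : Q.totalDegree ≤ b) : (P * Q).totalDegree ≤ a + b :=
  (totalDegree_mul _ _).trans (add_le_add hP hQ)

theorem degree_add_le {a : ℕ} {P Q : MvPolynomial (Fin 2) ℝ} (hP : P.totalDegree ≤ a)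
    (hQ : Q.totalDegree ≤ a) : (P + Q).totalDegree ≤ a :=
  (totalDegree_add _ _).trans (max_le hP hQ)

theorem degree_sub_le {a : ℕ} {P Q : MvPolynomial (Fin 2) ℝ} (hP : P.totalDegree ≤ a)
    (hQ : Q.totalDegree ≤ a) : (P - Q).totalDegree ≤ a :=
  (totalDegree_sub _ _).trans (max_le hP hQ)

theorem degree_C_mul_le {a : ℕ} (c : ℝ) {P : MvPolynomial (Fin 2) ℝ} (hP : P.totalDegree ≤ a) :
    (C c * P).totalDegree ≤ a := by
  refine (totalDegree_mul _ _).trans ?_
  rw [totalDegree_C, zero_add]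
  exact hP

theorem degree_X_pow (i : Fin 2) (a : ℕ) :
    (X i ^ a : MvPolynomial (Fin 2) ℝ).totalDegree ≤ a := by
  rw [totalDegree_X_pow]

theorem lft_degree {k : ℕ} (hk : 1 ≤ k) {A : Polynomial ℝ} (hA : A.natDegree ≤ k ^ 2) :
    (lft k A).totalDegree ≤ 2 * k - 1 := by
  refine totalDegree_finsetSum_le fun e he => degree_C_mul_le _ ?_
  have h0 := Finset.mem_range.1 he
  have h1 : e % k < k := Nat.mod_lt _ hk
  have h2 : e / k ≤ k := by
    refine Nat.div_le_of_le_mul ?_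
    rw [← pow_two]
    omega
  refine (degree_mul_le (degree_X_pow 0 _) (degree_X_pow 1 _)).trans ?_
  omega

/-! ### The field -/

/-- `R = (V - X^k) / ε` -/
noncomputable def Rh (k : ℕ) (ε : ℝ) : MvPolynomial (Fin 2) ℝ := C ε⁻¹ * (X 1 - X 0 ^ k)

/-- `y = (X² + R² - 1) / ε` -/
noncomputable def Yh (k : ℕ) (ε : ℝ) : MvPolynomial (Fin 2) ℝ :=
  C ε⁻¹ * (X 0 ^ 2 + Rh k ε * Rh k ε - C 1)

/-- The lift of `A(cos x) + sin x B(cos x)`. -/
noncomputable def trh (k : ℕ) (ε : ℝ) (A B : Polynomial ℝ) : MvPolynomial (Fin 2) ℝ :=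
  lft k A + Rh k ε * lft k B

/-- The first component of the field with `x' = D`, `y' = (1 + ε y) N`. -/
noncomputable def Pf (k : ℕ) (ε : ℝ) (N D : MvPolynomial (Fin 2) ℝ) : MvPolynomial (Fin 2) ℝ :=
  C (ε / 2) * (X 0 ^ 1 * N) - Rh k ε * D

/-- The second component of the field with `x' = D`, `y' = (1 + ε y) N`. -/
noncomputable def Qf (k : ℕ) (ε : ℝ) (N D : MvPolynomial (Fin 2) ℝ) : MvPolynomial (Fin 2) ℝ :=
  C (k : ℝ) * (X 0 ^ (k - 1) * Pf k ε N D) +
    C ε * (X 0 ^ 1 * D + C (ε / 2) * (Rh k ε * N))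

theorem degree_Rh {k : ℕ} (hk : 1 ≤ k) (ε : ℝ) : (Rh k ε).totalDegree ≤ k := by
  refine degree_C_mul_le _ (degree_sub_le ?_ (degree_X_pow 0 k))
  rw [totalDegree_X]
  exact hk

theorem degree_Yh {k : ℕ} (hk : 1 ≤ k) (ε : ℝ) : (Yh k ε).totalDegree ≤ 2 * k := by
  refine degree_C_mul_le _ (degree_sub_le (degree_add_le ((degree_X_pow 0 2).trans ?_) ?_) ?_)
  · omega
  · exact (degree_mul_le (degree_Rh hk ε) (degree_Rh hk ε)).trans (by omega)
  · rw [totalDegree_C]
    omega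

theorem degree_trh {k : ℕ} (hk : 1 ≤ k) (ε : ℝ) {A B : Polynomial ℝ} (hA : A.natDegree ≤ k ^ 2)
    (hB : B.natDegree ≤ k ^ 2) : (trh k ε A B).totalDegree ≤ 3 * k - 1 := by
  refine degree_add_le ((lft_degree hk hA).trans (by omega)) ?_
  exact (degree_mul_le (degree_Rh hk ε) (lft_degree hk hB)).trans (by omega)

theorem degree_affh {k : ℕ} (hk : 1 ≤ k) (ε : ℝ) {T S : MvPolynomial (Fin 2) ℝ}
    (hT : T.totalDegree ≤ 3 * k - 1) (hS : S.totalDegree ≤ 3 * k - 1) :
    (T * Yh k ε + S).totalDegree ≤ 5 * k - 1 ∧ (T * Yh k ε - S).totalDegree ≤ 5 * k - 1 := by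
  have h1 : (T * Yh k ε).totalDegree ≤ 5 * k - 1 :=
    (degree_mul_le hT (degree_Yh hk ε)).trans (by omega)
  exact ⟨degree_add_le h1 (hS.trans (by omega)), degree_sub_le h1 (hS.trans (by omega))⟩

theorem degree_Pf {k : ℕ} (hk : 1 ≤ k) (ε : ℝ) {N D : MvPolynomial (Fin 2) ℝ}
    (hN : N.totalDegree ≤ 5 * k - 1) (hD : D.totalDegree ≤ 5 * k - 1) :
    (Pf k ε N D).totalDegree ≤ 6 * k - 1 := by
  refine degree_sub_le (degree_C_mul_le _ ?_) ?_
  · exact (degree_mul_le (degree_X_pow 0 1) hN).trans (by omega)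
  · exact (degree_mul_le (degree_Rh hk ε) hD).trans (by omega)

theorem degree_Qf {k : ℕ} (hk : 1 ≤ k) (ε : ℝ) {N D : MvPolynomial (Fin 2) ℝ}
    (hN : N.totalDegree ≤ 5 * k - 1) (hD : D.totalDegree ≤ 5 * k - 1) :
    (Qf k ε N D).totalDegree ≤ 7 * k := by
  refine degree_add_le (degree_C_mul_le _ ?_) (degree_C_mul_le _ (degree_add_le ?_
    (degree_C_mul_le _ ?_)))
  · exact (degree_mul_le (degree_X_pow 0 (k - 1)) (degree_Pf hk ε hN hD)).trans (by omega)
  · exact (degree_mul_le (degree_X_pow 0 1) hD).trans (by omega)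
  · exact (degree_mul_le (degree_Rh hk ε) hN).trans (by omega)

end Pool.Agent.Lib.MP_95e7ec_an.Pw
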