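import Mathlib
import Pool.Agent.Lib.MP_95e7ec_an.Pw.C2Lift

/-!
# Transfer of periodic scalar equations to plane fields of low degree: the chart

`X = √(1 + ε y) cos x`, `R = √(1 + ε y) sin x`, `V = X^k + ε R`. The scalar equation of the chart
(`F1`, parameter `ε`) and of the turned field (`F2`, parameter `α`).
-/

set_option autoImplicit false

open Set Filter Topology

namespace Pool.Agent.Lib.MP_95e7ec_an.Pw

open MvPolynomial

noncomputable def Xc (ε x y : ℝ) : ℝ := Real.sqrt (1 + ε * y) * Real.cos x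

noncomputable def Rc (ε x y : ℝ) : ℝ := Real.sqrt (1 + ε * y) * Real.sin x

noncomputable def Vc (k : ℕ) (ε x y : ℝ) : ℝ := Xc ε x y ^ k + ε * Rc ε x y

/-- The function `A(cos x) + sin x B(cos x)` in the chart. -/
noncomputable def trf (k : ℕ) (A B : Polynomial ℝ) (ε x y : ℝ) : ℝ :=
  eval ![Xc ε x y, Vc k ε x y] (lft k A) + Rc ε x y * eval ![Xc ε x y, Vc k ε x y] (lft k B)

theorem trf_zero (k : ℕ) (A B : Polynomial ℝ) (x y : ℝ) :
    trf k A B 0 x y = A.eval (Real.cos x) + Real.sin x * B.eval (Real.cos x) := by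
  have e1 : Xc 0 x y = Real.cos x := by simp [Xc]
  have e2 : Rc 0 x y = Real.sin x := by simp [Rc]
  have e3 : Vc k 0 x y = Real.cos x ^ k := by simp [Vc, e1]
  rw [trf, e1, e2, e3, eval_lft_graph, eval_lft_graph]

theorem sq_add_sq {ε x y : ℝ} (h : 0 < 1 + ε * y) :
    Xc ε x y ^ 2 + Rc ε x y ^ 2 = 1 + ε * y := by
  unfold Xc Rc
  rw [mul_pow, mul_pow, ← mul_add, Real.cos_sq_add_sin_sq, mul_one, Real.sq_sqrt h.le]

theorem Xc_per (ε x y : ℝ) : Xc ε (x + 2 * Real.pi) y = Xc ε x y := by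
  simp [Xc]

theorem Rc_per (ε x y : ℝ) : Rc ε (x + 2 * Real.pi) y = Rc ε x y := by
  simp [Rc]

theorem Vc_per (k : ℕ) (ε x y : ℝ) : Vc k ε (x + 2 * Real.pi) y = Vc k ε x y := by
  simp [Vc, Xc_per, Rc_per]

theorem eval_Rh {k : ℕ} {ε x y : ℝ} (hε : ε ≠ 0) :
    eval ![Xc ε x y, Vc k ε x y] (Rh k ε) = Rc ε x y := by
  simp only [Rh, map_mul, eval_C, map_sub, eval_X, map_pow, Matrix.cons_val_zero,
    Matrix.cons_val_one]
  unfold Vc
  field_simp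
  ring

theorem eval_Yh {k : ℕ} {ε x y : ℝ} (hε : ε ≠ 0) (h : 0 < 1 + ε * y) :
    eval ![Xc ε x y, Vc k ε x y] (Yh k ε) = y := by
  simp only [Yh, map_mul, eval_C, map_sub, map_add, eval_X, map_pow, Matrix.cons_val_zero,
    eval_Rh hε]
  have := sq_add_sq (x := x) h
  have e : Xc ε x y ^ 2 + Rc ε x y * Rc ε x y - 1 = ε * y := by nlinarith
  rw [e]
  field_simp

theorem eval_trh {k : ℕ} {ε x y : ℝ} (hε : ε ≠ 0) (A B : Polynomial ℝ) :
    eval ![Xc ε x y, Vc k ε x y] (trh k ε A B) = trf k A B ε x y := by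
  simp only [trh, map_add, map_mul, eval_Rh hε, trf]

/-! ### Smoothness -/

/-- The domain of the chart. -/
def Wd : Set (ℝ × ℝ × ℝ) := {p | 0 < 1 + p.1 * p.2.2}

theorem isOpen_Wd : IsOpen Wd :=
  isOpen_lt continuous_const (by fun_prop)

theorem contDiffOn_eval {E : Type*} [NormedAddCommGroup E] [NormedSpace ℝ E]
    (P : MvPolynomial (Fin 2) ℝ) {m : WithTop ℕ∞} {S : Set E}
    {u v : E → ℝ} (hu : ContDiffOn ℝ m u S) (hv : ContDiffOn ℝ m v S) :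
    ContDiffOn ℝ m (fun x => eval ![u x, v x] P) S := by
  induction P using MvPolynomial.induction_on with
  | C a => simpa using contDiffOn_const
  | add p q hp hq =>
    simp only [map_add]
    exact hp.add hq
  | mul_X p i hp =>
    simp only [map_mul, eval_X]
    refine hp.mul ?_
    fin_cases i
    · simpa using hu
    · simpa using hv

section smooth

variable {E : Type*} [NormedAddCommGroup E] [NormedSpace ℝ E] {S : Set E} {e x y : E → ℝ}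

theorem contDiffOn_Xc (he : ContDiffOn ℝ 1 e S) (hx : ContDiffOn ℝ 1 x S)
    (hy : ContDiffOn ℝ 1 y S) (h : ∀ p ∈ S, 0 < 1 + e p * y p) :
    ContDiffOn ℝ 1 (fun p => Xc (e p) (x p) (y p)) S :=
  ((contDiffOn_const.add (he.mul hy)).sqrt fun p hp => (h p hp).ne').mul hx.cos

theorem contDiffOn_Rc (he : ContDiffOn ℝ 1 e S) (hx : ContDiffOn ℝ 1 x S)
    (hy : ContDiffOn ℝ 1 y S) (h : ∀ p ∈ S, 0 < 1 + e p * y p) :
    ContDiffOn ℝ 1 (fun p => Rc (e p) (x p) (y p)) S :=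
  ((contDiffOn_const.add (he.mul hy)).sqrt fun p hp => (h p hp).ne').mul hx.sin

theorem contDiffOn_Vc (k : ℕ) (he : ContDiffOn ℝ 1 e S) (hx : ContDiffOn ℝ 1 x S)
    (hy : ContDiffOn ℝ 1 y S) (h : ∀ p ∈ S, 0 < 1 + e p * y p) :
    ContDiffOn ℝ 1 (fun p => Vc k (e p) (x p) (y p)) S :=
  ((contDiffOn_Xc he hx hy h).pow k).add (he.mul (contDiffOn_Rc he hx hy h))

theorem contDiffOn_trf (k : ℕ) (A B : Polynomial ℝ) (he : ContDiffOn ℝ 1 e S)
    (hx : ContDiffOn ℝ 1 x S) (hy : ContDiffOn ℝ 1 y S) (h : ∀ p ∈ S, 0 < 1 + e p * y p) :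
    ContDiffOn ℝ 1 (fun p => trf k A B (e p) (x p) (y p)) S :=
  (contDiffOn_eval _ (contDiffOn_Xc he hx hy h) (contDiffOn_Vc k he hx hy h)).add
    ((contDiffOn_Rc he hx hy h).mul
      (contDiffOn_eval _ (contDiffOn_Xc he hx hy h) (contDiffOn_Vc k he hx hy h)))

end smooth

/-! ### The first family -/

/-- Eight polynomials: the even and odd parts of `p`, `q`, `r`, `s`. -/
structure Oct where
  (p p' q q' r r' s s' : Polynomial ℝ)

noncomputable def numf (k : ℕ) (O : Oct) (ε x y : ℝ) : ℝ :=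
  trf k O.p O.p' ε x y * y + trf k O.q O.q' ε x y

noncomputable def denf (k : ℕ) (O : Oct) (ε x y : ℝ) : ℝ :=
  trf k O.r O.r' ε x y * y - trf k O.s O.s' ε x y

noncomputable def F1 (k : ℕ) (O : Oct) (p : ℝ × ℝ × ℝ) : ℝ :=
  (1 + p.1 * p.2.2) * numf k O p.1 p.2.1 p.2.2 / denf k O p.1 p.2.1 p.2.2

def Om1 (k : ℕ) (O : Oct) : Set (ℝ × ℝ × ℝ) := {p | 0 < 1 + p.1 * p.2.2 ∧
  0 < denf k O p.1 p.2.1 p.2.2}

theorem contDiffOn_numf (k : ℕ) (O : Oct) :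
    ContDiffOn ℝ 1 (fun p : ℝ × ℝ × ℝ => numf k O p.1 p.2.1 p.2.2) Wd := by
  have h1 : ContDiffOn ℝ 1 (fun p : ℝ × ℝ × ℝ => p.1) Wd := contDiff_fst.contDiffOn
  have h2 : ContDiffOn ℝ 1 (fun p : ℝ × ℝ × ℝ => p.2.1) Wd :=
    (contDiff_fst.comp contDiff_snd).contDiffOn
  have h3 : ContDiffOn ℝ 1 (fun p : ℝ × ℝ × ℝ => p.2.2) Wd :=
    (contDiff_snd.comp contDiff_snd).contDiffOn
  exact ((contDiffOn_trf k _ _ h1 h2 h3 fun p hp => hp).mul h3).add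
    (contDiffOn_trf k _ _ h1 h2 h3 fun p hp => hp)

theorem contDiffOn_denf (k : ℕ) (O : Oct) :
    ContDiffOn ℝ 1 (fun p : ℝ × ℝ × ℝ => denf k O p.1 p.2.1 p.2.2) Wd := by
  have h1 : ContDiffOn ℝ 1 (fun p : ℝ × ℝ × ℝ => p.1) Wd := contDiff_fst.contDiffOn
  have h2 : ContDiffOn ℝ 1 (fun p : ℝ × ℝ × ℝ => p.2.1) Wd :=
    (contDiff_fst.comp contDiff_snd).contDiffOn
  have h3 : ContDiffOn ℝ 1 (fun p : ℝ × ℝ × ℝ => p.2.2) Wd :=
    (contDiff_snd.comp contDiff_snd).contDiffOn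
  exact ((contDiffOn_trf k _ _ h1 h2 h3 fun p hp => hp).mul h3).sub
    (contDiffOn_trf k _ _ h1 h2 h3 fun p hp => hp)

theorem isOpen_Om1 (k : ℕ) (O : Oct) : IsOpen (Om1 k O) :=
  (contDiffOn_denf k O).continuousOn.isOpen_inter_preimage isOpen_Wd isOpen_Ioi

theorem contDiffOn_F1 (k : ℕ) (O : Oct) : ContDiffOn ℝ 1 (F1 k O) (Om1 k O) := by
  have hs : Om1 k O ⊆ Wd := fun p hp => hp.1
  have h0 : ContDiff ℝ 1 (fun p : ℝ × ℝ × ℝ => 1 + p.1 * p.2.2) :=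
    contDiff_const.add (contDiff_fst.mul (contDiff_snd.comp contDiff_snd))
  exact (h0.contDiffOn.mul ((contDiffOn_numf k O).mono hs)).div ((contDiffOn_denf k O).mono hs)
    fun p hp => hp.2.ne'

/-! ### The turned field -/

section turned

variable (k : ℕ) (P Q : MvPolynomial (Fin 2) ℝ) (ε α x y : ℝ)

/-- First component of the turned field. -/
noncomputable def Pa : ℝ :=
  Real.cos α * eval ![Xc ε x y, Vc k ε x y] P - Real.sin α * eval ![Xc ε x y, Vc k ε x y] Q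

/-- Second component of the turned field. -/
noncomputable def Qa : ℝ :=
  Real.sin α * eval ![Xc ε x y, Vc k ε x y] P + Real.cos α * eval ![Xc ε x y, Vc k ε x y] Q

/-- The derivative of `R`. -/
noncomputable def Sa : ℝ :=
  ε⁻¹ * (Qa k P Q ε α x y - k * Xc ε x y ^ (k - 1) * Pa k P Q ε α x y)

/-- The derivative of `x`. -/
noncomputable def va : ℝ :=
  (Xc ε x y * Sa k P Q ε α x y - Rc ε x y * Pa k P Q ε α x y) / (1 + ε * y)

/-- The derivative of `y`. -/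
noncomputable def wa : ℝ :=
  2 * ε⁻¹ * (Xc ε x y * Pa k P Q ε α x y + Rc ε x y * Sa k P Q ε α x y)

end turned

noncomputable def F2 (k : ℕ) (P Q : MvPolynomial (Fin 2) ℝ) (ε : ℝ) (p : ℝ × ℝ × ℝ) : ℝ :=
  wa k P Q ε p.1 p.2.1 p.2.2 / va k P Q ε p.1 p.2.1 p.2.2

def Wd2 (ε : ℝ) : Set (ℝ × ℝ × ℝ) := {p | 0 < 1 + ε * p.2.2}

def Om2 (k : ℕ) (P Q : MvPolynomial (Fin 2) ℝ) (ε : ℝ) : Set (ℝ × ℝ × ℝ) :=
  {p | 0 < 1 + ε * p.2.2 ∧ 0 < va k P Q ε p.1 p.2.1 p.2.2}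

theorem isOpen_Wd2 (ε : ℝ) : IsOpen (Wd2 ε) :=
  isOpen_lt continuous_const (by fun_prop)

section

variable (k : ℕ) (P Q : MvPolynomial (Fin 2) ℝ) (ε : ℝ)

theorem contDiffOn_X2 : ContDiffOn ℝ 1 (fun p : ℝ × ℝ × ℝ => Xc ε p.2.1 p.2.2) (Wd2 ε) :=
  contDiffOn_Xc (e := fun _ => ε) contDiffOn_const (contDiff_fst.comp contDiff_snd).contDiffOn
    (contDiff_snd.comp contDiff_snd).contDiffOn fun p hp => hp

theorem contDiffOn_R2 : ContDiffOn ℝ 1 (fun p : ℝ × ℝ × ℝ => Rc ε p.2.1 p.2.2) (Wd2 ε) :=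
  contDiffOn_Rc (e := fun _ => ε) contDiffOn_const (contDiff_fst.comp contDiff_snd).contDiffOn
    (contDiff_snd.comp contDiff_snd).contDiffOn fun p hp => hp

theorem contDiffOn_V2 : ContDiffOn ℝ 1 (fun p : ℝ × ℝ × ℝ => Vc k ε p.2.1 p.2.2) (Wd2 ε) :=
  contDiffOn_Vc (e := fun _ => ε) k contDiffOn_const (contDiff_fst.comp contDiff_snd).contDiffOn
    (contDiff_snd.comp contDiff_snd).contDiffOn fun p hp => hp

theorem contDiffOn_Pa :
    ContDiffOn ℝ 1 (fun p : ℝ × ℝ × ℝ => Pa k P Q ε p.1 p.2.1 p.2.2) (Wd2 ε) :=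
  ((Real.contDiff_cos.comp contDiff_fst).contDiffOn.mul
    (contDiffOn_eval P (contDiffOn_X2 ε) (contDiffOn_V2 k ε))).sub
  ((Real.contDiff_sin.comp contDiff_fst).contDiffOn.mul
    (contDiffOn_eval Q (contDiffOn_X2 ε) (contDiffOn_V2 k ε)))

theorem contDiffOn_Qa :
    ContDiffOn ℝ 1 (fun p : ℝ × ℝ × ℝ => Qa k P Q ε p.1 p.2.1 p.2.2) (Wd2 ε) :=
  ((Real.contDiff_sin.comp contDiff_fst).contDiffOn.mul
    (contDiffOn_eval P (contDiffOn_X2 ε) (contDiffOn_V2 k ε))).add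
  ((Real.contDiff_cos.comp contDiff_fst).contDiffOn.mul
    (contDiffOn_eval Q (contDiffOn_X2 ε) (contDiffOn_V2 k ε)))

theorem contDiffOn_Sa :
    ContDiffOn ℝ 1 (fun p : ℝ × ℝ × ℝ => Sa k P Q ε p.1 p.2.1 p.2.2) (Wd2 ε) :=
  contDiffOn_const.mul ((contDiffOn_Qa k P Q ε).sub
    ((contDiffOn_const.mul ((contDiffOn_X2 ε).pow (k - 1))).mul (contDiffOn_Pa k P Q ε)))

theorem contDiffOn_va :
    ContDiffOn ℝ 1 (fun p : ℝ × ℝ × ℝ => va k P Q ε p.1 p.2.1 p.2.2) (Wd2 ε) := by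
  have h0 : ContDiff ℝ 1 (fun p : ℝ × ℝ × ℝ => 1 + ε * p.2.2) :=
    contDiff_const.add (contDiff_const.mul (contDiff_snd.comp contDiff_snd))
  exact (((contDiffOn_X2 ε).mul (contDiffOn_Sa k P Q ε)).sub
    ((contDiffOn_R2 ε).mul (contDiffOn_Pa k P Q ε))).div h0.contDiffOn fun p hp => (ne_of_gt hp)

theorem contDiffOn_wa :
    ContDiffOn ℝ 1 (fun p : ℝ × ℝ × ℝ => wa k P Q ε p.1 p.2.1 p.2.2) (Wd2 ε) :=
  contDiffOn_const.mul (((contDiffOn_X2 ε).mul (contDiffOn_Pa k P Q ε)).add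
    ((contDiffOn_R2 ε).mul (contDiffOn_Sa k P Q ε)))

theorem isOpen_Om2 : IsOpen (Om2 k P Q ε) :=
  (contDiffOn_va k P Q ε).continuousOn.isOpen_inter_preimage (isOpen_Wd2 ε) isOpen_Ioi

theorem contDiffOn_F2 : ContDiffOn ℝ 1 (F2 k P Q ε) (Om2 k P Q ε) := by
  have hs : Om2 k P Q ε ⊆ Wd2 ε := fun p hp => hp.1
  exact ((contDiffOn_wa k P Q ε).mono hs).div ((contDiffOn_va k P Q ε).mono hs)
    fun p hp => hp.2.ne'

theorem Pa_per (α x y : ℝ) : Pa k P Q ε α (x + 2 * Real.pi) y = Pa k P Q ε α x y := by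
  simp only [Pa, Xc_per, Vc_per]

theorem Qa_per (α x y : ℝ) : Qa k P Q ε α (x + 2 * Real.pi) y = Qa k P Q ε α x y := by
  simp only [Qa, Xc_per, Vc_per]

theorem Sa_per (α x y : ℝ) : Sa k P Q ε α (x + 2 * Real.pi) y = Sa k P Q ε α x y := by
  simp only [Sa, Pa_per, Qa_per, Xc_per]

theorem va_per (α x y : ℝ) : va k P Q ε α (x + 2 * Real.pi) y = va k P Q ε α x y := by
  simp only [va, Pa_per, Sa_per, Xc_per, Rc_per]

theorem wa_per (α x y : ℝ) : wa k P Q ε α (x + 2 * Real.pi) y = wa k P Q ε α x y := by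
  simp only [wa, Pa_per, Sa_per, Xc_per, Rc_per]

end

/-! ### The two families agree at `α = 0` -/

/-- The numerator polynomial. -/
noncomputable def numP (k : ℕ) (ε : ℝ) (O : Oct) : MvPolynomial (Fin 2) ℝ :=
  trh k ε O.p O.p' * Yh k ε + trh k ε O.q O.q'

/-- The denominator polynomial. -/
noncomputable def denP (k : ℕ) (ε : ℝ) (O : Oct) : MvPolynomial (Fin 2) ℝ :=
  trh k ε O.r O.r' * Yh k ε - trh k ε O.s O.s'

theorem eval_numP {k : ℕ} {ε x y : ℝ} (hε : ε ≠ 0) (h : 0 < 1 + ε * y) (O : Oct) :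
    eval ![Xc ε x y, Vc k ε x y] (numP k ε O) = numf k O ε x y := by
  simp only [numP, map_add, map_mul, eval_trh hε, eval_Yh hε h, numf]

theorem eval_denP {k : ℕ} {ε x y : ℝ} (hε : ε ≠ 0) (h : 0 < 1 + ε * y) (O : Oct) :
    eval ![Xc ε x y, Vc k ε x y] (denP k ε O) = denf k O ε x y := by
  simp only [denP, map_sub, map_mul, eval_trh hε, eval_Yh hε h, denf]

theorem Pa_zero {k : ℕ} {ε x y : ℝ} (hε : ε ≠ 0) (h : 0 < 1 + ε * y) (O : Oct)
    (Q : MvPolynomial (Fin 2) ℝ) :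
    Pa k (Pf k ε (numP k ε O) (denP k ε O)) Q ε 0 x y =
      ε / 2 * Xc ε x y * numf k O ε x y - Rc ε x y * denf k O ε x y := by
  simp only [Pa, Real.cos_zero, Real.sin_zero, one_mul, zero_mul, sub_zero, Pf, map_sub, map_mul,
    eval_C, map_pow, eval_X, Matrix.cons_val_zero, eval_Rh hε, eval_numP hε h, eval_denP hε h]
  ring

theorem Sa_zero {k : ℕ} {ε x y : ℝ} (hε : ε ≠ 0) (h : 0 < 1 + ε * y) (O : Oct) :
    Sa k (Pf k ε (numP k ε O) (denP k ε O)) (Qf k ε (numP k ε O) (denP k ε O)) ε 0 x y =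
      Xc ε x y * denf k O ε x y + ε / 2 * Rc ε x y * numf k O ε x y := by
  rw [Sa, Pa_zero hε h]
  have e1 : Qa k (Pf k ε (numP k ε O) (denP k ε O)) (Qf k ε (numP k ε O) (denP k ε O)) ε 0 x y =
      k * Xc ε x y ^ (k - 1) *
        (ε / 2 * Xc ε x y * numf k O ε x y - Rc ε x y * denf k O ε x y) +
      ε * (Xc ε x y * denf k O ε x y + ε / 2 * Rc ε x y * numf k O ε x y) := by
    simp only [Qa, Real.cos_zero, Real.sin_zero, one_mul, zero_mul, zero_add, Qf, Pf, map_sub,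
      map_add, map_mul, eval_C, map_pow, eval_X, Matrix.cons_val_zero, eval_Rh hε,
      eval_numP hε h, eval_denP hε h]
    ring
  rw [e1]
  field_simp
  ring

theorem va_zero {k : ℕ} {ε x y : ℝ} (hε : ε ≠ 0) (h : 0 < 1 + ε * y) (O : Oct) :
    va k (Pf k ε (numP k ε O) (denP k ε O)) (Qf k ε (numP k ε O) (denP k ε O)) ε 0 x y =
      denf k O ε x y := by
  rw [va, Pa_zero hε h, Sa_zero hε h, div_eq_iff h.ne', ← sq_add_sq (x := x) h]
  ring

theorem wa_zero {k : ℕ} {ε x y : ℝ} (hε : ε ≠ 0) (h : 0 < 1 + ε * y) (O : Oct) :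
    wa k (Pf k ε (numP k ε O) (denP k ε O)) (Qf k ε (numP k ε O) (denP k ε O)) ε 0 x y =
      (1 + ε * y) * numf k O ε x y := by
  rw [wa, Pa_zero hε h, Sa_zero hε h, ← sq_add_sq (x := x) h]
  field_simp
  ring

theorem F2_zero {k : ℕ} {ε x y : ℝ} (hε : ε ≠ 0) (h : 0 < 1 + ε * y) (O : Oct) :
    F2 k (Pf k ε (numP k ε O) (denP k ε O)) (Qf k ε (numP k ε O) (denP k ε O)) ε (0, x, y) =
      F1 k O (ε, x, y) := by
  simp only [F2, F1, va_zero hε h, wa_zero hε h]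

end Pool.Agent.Lib.MP_95e7ec_an.Pw
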