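import Mathlib
import Pool.Agent.Lib.MP_95e7ec_an.Pw.CDefs

/-!
# Power growth, part C: periodic solutions in the coordinates `(x, ρ)` are closed orbits
-/

set_option autoImplicit false

open Set Filter Topology MeasureTheory

namespace Pool.Agent.Lib.MP_95e7ec_an.Pw

/-- Change of time along a closed curve: if `γ' = κ • F(γ)` with `κ > 0`, both periodic, then the
range of `γ` is a closed orbit of `F`. -/
theorem isClosedOrbit_of_param {F : ℝ × ℝ → ℝ × ℝ} {γ : ℝ → ℝ × ℝ} {κ : ℝ → ℝ} {T : ℝ}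
    (hT : 0 < T) (hκ : Continuous κ) (hpos : ∀ t, 0 < κ t)
    (hγ : ∀ t, HasDerivAt γ (κ t • F (γ t)) t) (hper : ∀ t, γ (t + T) = γ t)
    (hκper : ∀ t, κ (t + T) = κ t) (hne : ∃ s t, γ s ≠ γ t) :
    IsClosedOrbit F (Set.range γ) := by
  obtain ⟨s0, t0, hst⟩ := hne
  set θ : ℝ → ℝ := fun t => ∫ u in (0 : ℝ)..t, κ u with hθ
  have hθd : ∀ t, HasDerivAt θ (κ t) t := fun t =>
    intervalIntegral.integral_hasDerivAt_right (hκ.intervalIntegrable _ _)
      (hκ.stronglyMeasurableAtFilter _ _) hκ.continuousAt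
  have hθc : Continuous θ := continuous_iff_continuousAt.2 fun t => (hθd t).continuousAt
  have hmono : StrictMono θ := strictMono_of_hasDerivAt_pos hθd hpos
  have hθ0 : θ 0 = 0 := by simp [hθ]
  set S : ℝ := θ T with hS
  have hSpos : 0 < S := by rw [hS, ← hθ0]; exact hmono hT
  have hadd : ∀ t, θ (t + T) = θ t + S := by
    have h1 : ∀ t, HasDerivAt (fun t => θ (t + T) - θ t) 0 t := by
      intro t
      have e1 := (hθd (t + T)).comp_add_const t T
      have e2 := e1.sub (hθd t)
      rw [hκper, sub_self] at e2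
      exact e2
    intro t
    have h2 := is_const_of_deriv_eq_zero (fun t => (h1 t).differentiableAt)
      (fun t => (h1 t).deriv) t 0
    simp only [zero_add, hθ0] at h2
    rw [hS]
    linarith
  have hmulN : ∀ k : ℕ, θ (k * T) = k * S := by
    intro k
    induction k with
    | zero => simp [hθ0]
    | succ k ih =>
      push_cast
      rw [add_mul, one_mul, hadd, ih]
      ring
  have hmulN' : ∀ k : ℕ, θ (-(k * T)) = -(k * S) := by
    intro k
    induction k with
    | zero => simp [hθ0]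
    | succ k ih =>
      have := hadd (-((k + 1 : ℕ) * T))
      push_cast at this ⊢
      rw [show -((↑k + 1) * T) + T = -(k * T) by ring, ih] at this
      linarith
  have hsurj : Function.Surjective θ := by
    apply hθc.surjective
    · rw [tendsto_atTop_atTop_iff_of_monotone hmono.monotone]
      intro b
      obtain ⟨k, hk⟩ := exists_nat_ge (b / S)
      refine ⟨k * T, ?_⟩
      rw [hmulN]
      rwa [div_le_iff₀ hSpos] at hk
    · rw [tendsto_atBot_atBot_iff_of_monotone hmono.monotone]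
      intro b
      obtain ⟨k, hk⟩ := exists_nat_ge (-b / S)
      refine ⟨-(k * T), ?_⟩
      rw [hmulN']
      rw [div_le_iff₀ hSpos] at hk
      linarith
  -- inverse
  let e : ℝ ≃o ℝ := StrictMono.orderIsoOfSurjective θ hmono hsurj
  set σ : ℝ → ℝ := fun u => e.symm u with hσ
  have hσc : Continuous σ := e.symm.continuous
  have hθσ : ∀ u, θ (σ u) = u := fun u => e.apply_symm_apply u
  have hσθ : ∀ t, σ (θ t) = t := fun t => e.symm_apply_apply t
  have hσd : ∀ u, HasDerivAt σ (κ (σ u))⁻¹ u := fun u =>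
    HasDerivAt.of_local_left_inverse hσc.continuousAt (hθd (σ u)) (hpos _).ne'
      (Eventually.of_forall hθσ)
  have hσadd : ∀ u, σ (u + S) = σ u + T := by
    intro u
    apply hmono.injective
    rw [hθσ, hadd, hθσ]
  refine ⟨fun u => γ (σ u), S, hSpos, ?_, ?_, ?_, ?_⟩
  · intro u
    have := HasDerivAt.scomp u (hγ (σ u)) (hσd u)
    have h2 : (κ (σ u))⁻¹ • (κ (σ u) • F (γ (σ u))) = F (γ (σ u)) := by
      rw [smul_smul, inv_mul_cancel₀ (hpos _).ne', one_smul]
    rw [h2] at this
    exact this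
  · intro u
    simp only [hσadd, hper]
  · refine ⟨θ s0, θ t0, ?_⟩
    simpa only [hσθ] using hst
  · ext z
    constructor
    · rintro ⟨t, rfl⟩
      exact ⟨θ t, by simp only [hσθ]⟩
    · rintro ⟨u, rfl⟩
      exact ⟨σ u, rfl⟩

/-- a closed orbit of `-F` is a closed orbit of `F` -/
theorem isClosedOrbit_neg {F : ℝ × ℝ → ℝ × ℝ} {C : Set (ℝ × ℝ)}
    (h : IsClosedOrbit (fun z => -F z) C) : IsClosedOrbit F C := by
  obtain ⟨γ, T, hT, hγ, hper, ⟨s0, t0, hst⟩, rfl⟩ := h
  refine ⟨fun t => γ (-t), T, hT, ?_, ?_, ⟨-s0, -t0, by simpa using hst⟩, ?_⟩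
  · intro t
    have h1 := HasDerivAt.scomp t (hγ (-t)) (hasDerivAt_neg t)
    have h2 : (-1 : ℝ) • (-F (γ (-t))) = F (γ (-t)) := by simp
    rw [h2] at h1
    exact h1
  · intro t
    have h2 := hper (-(t + T))
    rw [show -(t + T) + T = -t by ring] at h2
    exact h2.symm
  · ext z
    constructor
    · rintro ⟨t, rfl⟩
      exact ⟨-t, by simp⟩
    · rintro ⟨t, rfl⟩
      exact ⟨-t, rfl⟩

/-- The periodic extension of a solution on `[-π, π]` with equal end values. -/
theorem exists_periodic_solution {f : ℝ → ℝ → ℝ} {r : ℝ → ℝ}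
    (hf : ∀ x ∈ Set.Icc (-Real.pi) Real.pi, ContinuousAt (fun z : ℝ × ℝ => f z.1 z.2) (x, r x))
    (hper : ∀ x y, f (x + 2 * Real.pi) y = f x y)
    (hr : ∀ x ∈ Set.Icc (-Real.pi) Real.pi,
      HasDerivWithinAt r (f x (r x)) (Set.Icc (-Real.pi) Real.pi) x)
    (hend : r Real.pi = r (-Real.pi)) :
    ∃ R : ℝ → ℝ, (∀ x, R (x + 2 * Real.pi) = R x) ∧
      (∀ x ∈ Set.Icc (-Real.pi) Real.pi, R x = r x) ∧
      (∀ x, HasDerivAt R (f x (R x)) x) ∧ Continuous fun x => f x (R x) := by
  have hpi := Real.pi_pos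
  have : Fact (0 < 2 * Real.pi) := ⟨by positivity⟩
  set R : ℝ → ℝ := fun x => AddCircle.liftIco (2 * Real.pi) (-Real.pi) r
    (x : AddCircle (2 * Real.pi)) with hR
  have hend' : -Real.pi + 2 * Real.pi = Real.pi := by ring
  have hrc : ContinuousOn r (Set.Icc (-Real.pi) Real.pi) := fun x hx =>
    (hr x hx).continuousWithinAt
  have hRc : Continuous R := by
    have h1 : Continuous (AddCircle.liftIco (2 * Real.pi) (-Real.pi) r) := by
      apply AddCircle.liftIco_continuous
      · rw [hend', hend]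
      · rw [hend']; exact hrc
    exact h1.comp (AddCircle.continuous_mk' _)
  have hRper : ∀ x, R (x + 2 * Real.pi) = R x := by
    intro x
    simp only [hR, AddCircle.coe_add_period]
  have hRico : ∀ x ∈ Set.Ico (-Real.pi) Real.pi, R x = r x := by
    intro x hx
    simp only [hR]
    exact AddCircle.liftIco_coe_apply (by rw [hend']; exact hx)
  have hRicc : ∀ x ∈ Set.Icc (-Real.pi) Real.pi, R x = r x := by
    intro x hx
    rcases eq_or_lt_of_le hx.2 with h | h
    · rw [h, hend, ← hRico (-Real.pi) ⟨le_rfl, by linarith⟩, ← hRper (-Real.pi), hend']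
    · exact hRico x ⟨hx.1, h⟩
  set G : ℝ → ℝ := fun x => f x (R x) with hG
  have hGper : Function.Periodic G (2 * Real.pi) := by
    intro x
    simp only [hG, hRper, hper]
  have hGat : ∀ x ∈ Set.Icc (-Real.pi) Real.pi, ContinuousAt G x := by
    intro x hx
    have h1 := hf x hx
    rw [← hRicc x hx] at h1
    exact ContinuousAt.comp (f := fun x : ℝ => (x, R x))
      (g := fun z : ℝ × ℝ => f z.1 z.2) h1 (by fun_prop)
  have hGc : Continuous G := by
    rw [continuous_iff_continuousAt]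
    intro x
    obtain ⟨k, hk, -⟩ := existsUnique_add_zsmul_mem_Ico (by positivity : 0 < 2 * Real.pi) x
      (-Real.pi)
    simp only [zsmul_eq_mul] at hk
    rw [hend'] at hk
    have h1 := hGat _ (Set.Ico_subset_Icc_self hk)
    have h2 : G = G ∘ fun y => y + (k : ℝ) * (2 * Real.pi) := by
      funext y
      simp only [Function.comp]
      exact ((hGper.int_mul k) y).symm
    rw [h2]
    exact ContinuousAt.comp h1 (by fun_prop)
  -- the integral equation
  have hint : ∀ x ∈ Set.Icc (-Real.pi) Real.pi,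
      ∫ s in (-Real.pi)..x, G s = r x - r (-Real.pi) := by
    intro x hx
    apply intervalIntegral.integral_eq_sub_of_hasDerivAt_of_le hx.1
    · exact hrc.mono (Set.Icc_subset_Icc le_rfl hx.2)
    · intro s hs
      have hs' : s ∈ Set.Icc (-Real.pi) Real.pi := ⟨hs.1.le, hs.2.le.trans hx.2⟩
      have h1 := (hr s hs').hasDerivAt (Icc_mem_nhds hs.1 (lt_of_lt_of_le hs.2 hx.2))
      simp only [hG]
      rw [hRicc s hs']
      exact h1
    · exact hGc.intervalIntegrable _ _
  set S : ℝ → ℝ := fun x => r (-Real.pi) + ∫ s in (-Real.pi)..x, G s with hS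
  have hSper : ∀ x, S (x + 2 * Real.pi) = S x := by
    intro x
    have h1 : ∫ s in x..(x + 2 * Real.pi), G s = 0 := by
      rw [hGper.intervalIntegral_add_eq x (-Real.pi), hend', hint Real.pi ⟨by linarith, le_rfl⟩,
        hend, sub_self]
    have h2 : (∫ s in (-Real.pi)..x, G s) + ∫ s in x..(x + 2 * Real.pi), G s =
        ∫ s in (-Real.pi)..(x + 2 * Real.pi), G s :=
      intervalIntegral.integral_add_adjacent_intervals (hGc.intervalIntegrable _ _)
        (hGc.intervalIntegrable _ _)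
    simp only [hS]
    rw [← h2, h1, add_zero]
  have hRS : ∀ x, R x = S x := by
    intro x
    have hp : Function.Periodic (fun x => R x - S x) (2 * Real.pi) := by
      intro y
      simp only [hRper, hSper]
    obtain ⟨y, hy, hxy⟩ := hp.exists_mem_Ico (by positivity) x (-Real.pi)
    rw [hend'] at hy
    have h1 : S y = R y := by
      simp only [hS]
      rw [hint y (Set.Ico_subset_Icc_self hy), hRico y hy]
      ring
    have h2 : R x - S x = 0 := by
      rw [hxy, h1, sub_self]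
    linarith
  refine ⟨R, hRper, hRicc, ?_, hGc⟩
  intro x
  have h1 : HasDerivAt S (G x) x :=
    (intervalIntegral.integral_hasDerivAt_right (hGc.intervalIntegrable _ _)
      (hGc.stronglyMeasurableAtFilter _ _) hGc.continuousAt).const_add _
  exact h1.congr_of_eventuallyEq (Eventually.of_forall hRS)

/-- **Closed orbits of the plane field.** Let the field `F` have in the coordinates `(x, ρ)` the
form `Z' = Z (u + i v) / 2`. A solution `r > 0` on `[-π, π]` of `r' = r u / v` with
`r(-π) = r(π)` and `v > 0` along it gives a closed orbit of `F` which meets the ray `x = -π` only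
at `ρ = r(-π)`. -/
theorem exists_closedOrbit_pos {F : ℝ × ℝ → ℝ × ℝ} {u v : ℝ → ℝ → ℝ}
    (hF : ∀ x ρ, 0 ≤ ρ → F (pt x ρ) =
      ((Real.sqrt ρ * Real.cos (x / 2) * u x ρ - Real.sqrt ρ * Real.sin (x / 2) * v x ρ) / 2,
       (Real.sqrt ρ * Real.sin (x / 2) * u x ρ + Real.sqrt ρ * Real.cos (x / 2) * v x ρ) / 2))
    (hu : Continuous fun z : ℝ × ℝ => u z.1 z.2) (hv : Continuous fun z : ℝ × ℝ => v z.1 z.2)
    (hup : ∀ x ρ, u (x + 2 * Real.pi) ρ = u x ρ) (hvp : ∀ x ρ, v (x + 2 * Real.pi) ρ = v x ρ)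
    {r : ℝ → ℝ} (hr0 : ∀ x ∈ Set.Icc (-Real.pi) Real.pi, 0 < r x)
    (hrv : ∀ x ∈ Set.Icc (-Real.pi) Real.pi, 0 < v x (r x))
    (hr : ∀ x ∈ Set.Icc (-Real.pi) Real.pi,
      HasDerivWithinAt r (r x * u x (r x) / v x (r x)) (Set.Icc (-Real.pi) Real.pi) x)
    (hend : r Real.pi = r (-Real.pi)) :
    ∃ C, IsClosedOrbit F C ∧ ∀ ρ, 0 < ρ → (pt (-Real.pi) ρ ∈ C ↔ ρ = r (-Real.pi)) := by
  have hpi := Real.pi_pos
  obtain ⟨R, hRper, hRicc, hRd, hRfc⟩ := exists_periodic_solution
    (f := fun x y => y * u x y / v x y) (r := r) (by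
      intro x hx
      refine ContinuousAt.div (by fun_prop) (by fun_prop) (hrv x hx).ne') (by
      intro x y
      simp only [hup, hvp]) hr hend
  have hRc : Continuous R := continuous_iff_continuousAt.2 fun x => (hRd x).continuousAt
  have hall : ∀ x, 0 < R x ∧ 0 < v x (R x) := by
    intro x
    obtain ⟨k, hk, -⟩ := existsUnique_add_zsmul_mem_Ico (by positivity : 0 < 2 * Real.pi) x
      (-Real.pi)
    simp only [zsmul_eq_mul] at hk
    rw [show -Real.pi + 2 * Real.pi = Real.pi by ring] at hk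
    have hk' := Set.Ico_subset_Icc_self hk
    have hp : Function.Periodic R (2 * Real.pi) := hRper
    have hp2 : Function.Periodic (fun x => v x (R x)) (2 * Real.pi) := by
      intro y
      simp only [hRper, hvp]
    have e1 := (hp.int_mul k) x
    have e2 := (hp2.int_mul k) x
    rw [hRicc _ hk'] at e1
    rw [hRicc _ hk'] at e2
    rw [← e2, ← e1]
    exact ⟨hr0 _ hk', hrv _ hk'⟩
  set γ : ℝ → ℝ × ℝ := fun x => pt x (R x) with hγ
  set κ : ℝ → ℝ := fun x => (v x (R x))⁻¹ with hκ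
  have hκc : Continuous κ := by
    rw [hκ]
    refine Continuous.inv₀ (by fun_prop) fun x => (hall x).2.ne'
  have hκpos : ∀ x, 0 < κ x := fun x => inv_pos.2 (hall x).2
  have hper4 : ∀ x, R (x + 4 * Real.pi) = R x := by
    intro x
    rw [show x + 4 * Real.pi = (x + 2 * Real.pi) + 2 * Real.pi by ring, hRper, hRper]
  have hγd : ∀ x, HasDerivAt γ (κ x • F (γ x)) x := by
    intro x
    have hRx := (hall x).1
    have hvx := (hall x).2
    have hs : 0 < Real.sqrt (R x) := Real.sqrt_pos.2 hRx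
    have hsq : Real.sqrt (R x) * Real.sqrt (R x) = R x := Real.mul_self_sqrt hRx.le
    have d1 : HasDerivAt (fun x => Real.sqrt (R x))
        (R x * u x (R x) / v x (R x) / (2 * Real.sqrt (R x))) x := (hRd x).sqrt hRx.ne'
    have d0 : HasDerivAt (fun x : ℝ => x / 2) (1 / 2) x := (hasDerivAt_id x).div_const 2
    have d2 : HasDerivAt (fun x : ℝ => Real.cos (x / 2)) (-Real.sin (x / 2) * (1 / 2)) x :=
      d0.cos
    have d3 : HasDerivAt (fun x : ℝ => Real.sin (x / 2)) (Real.cos (x / 2) * (1 / 2)) x :=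
      d0.sin
    have e1 : R x * u x (R x) / v x (R x) / (2 * Real.sqrt (R x)) =
        (v x (R x))⁻¹ * (Real.sqrt (R x) * u x (R x) / 2) := by
      rw [← hsq]
      rw [Real.sqrt_mul_self hs.le]
      field_simp
    refine HasDerivAt.congr_deriv ((d1.mul d2).prodMk (d1.mul d3)) ?_
    rw [hγ]
    simp only
    rw [hF x (R x) hRx.le, e1]
    refine Prod.ext ?_ ?_
    · simp only [hκ, Prod.smul_fst, smul_eq_mul]
      field_simp
      ring
    · simp only [hκ, Prod.smul_snd, smul_eq_mul]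
      field_simp
  have hγper : ∀ x, γ (x + 4 * Real.pi) = γ x := by
    intro x
    simp only [hγ, pt, hper4]
    rw [show (x + 4 * Real.pi) / 2 = x / 2 + 2 * Real.pi by ring, Real.cos_add_two_pi,
      Real.sin_add_two_pi]
  have hκper : ∀ x, κ (x + 4 * Real.pi) = κ x := by
    intro x
    simp only [hκ, hper4]
    rw [show x + 4 * Real.pi = (x + 2 * Real.pi) + 2 * Real.pi by ring, hvp, hvp]
  have hne : ∃ s t, γ s ≠ γ t := by
    refine ⟨-Real.pi, Real.pi, ?_⟩
    intro h
    have h2 := congrArg Prod.snd h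
    simp only [hγ, pt] at h2
    have e1 : R Real.pi = R (-Real.pi) := by
      rw [← hRper (-Real.pi)]; congr 1; ring
    rw [e1, show -Real.pi / 2 = -(Real.pi / 2) by ring, Real.sin_neg, Real.sin_pi_div_two] at h2
    have := Real.sqrt_pos.2 (hall (-Real.pi)).1
    linarith
  refine ⟨Set.range γ, isClosedOrbit_of_param (T := 4 * Real.pi) (by positivity) hκc hκpos hγd
    hγper hκper hne, ?_⟩
  intro ρ hρ
  have hm : -Real.pi ∈ Set.Icc (-Real.pi) Real.pi := ⟨le_rfl, by linarith⟩
  constructor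
  · rintro ⟨x, hx⟩
    have h1 := congrArg Prod.fst hx
    have h2 := congrArg Prod.snd hx
    simp only [hγ, pt] at h1 h2
    rw [show -Real.pi / 2 = -(Real.pi / 2) by ring, Real.cos_neg, Real.cos_pi_div_two,
      mul_zero] at h1
    rw [show -Real.pi / 2 = -(Real.pi / 2) by ring, Real.sin_neg, Real.sin_pi_div_two] at h2
    have hsx := Real.sqrt_pos.2 (hall x).1
    have hc : Real.cos (x / 2) = 0 := by
      rcases mul_eq_zero.1 h1 with h | h
      · exact absurd h hsx.ne'
      · exact h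
    have hRρ : R x = ρ := by
      have h3 : Real.sin (x / 2) ^ 2 = 1 := by
        have := Real.sin_sq_add_cos_sq (x / 2)
        rw [hc] at this
        linarith [this]
      have h4 : (Real.sqrt (R x) * Real.sin (x / 2)) ^ 2 = (Real.sqrt ρ * -1) ^ 2 := by rw [h2]
      rw [mul_pow, mul_pow, Real.sq_sqrt (hall x).1.le, Real.sq_sqrt hρ.le, h3] at h4
      linarith
    obtain ⟨k, hk⟩ := Real.cos_eq_zero_iff.1 hc
    have hxk : x = -Real.pi + ((k + 1 : ℤ) : ℝ) * (2 * Real.pi) := by
      push_cast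
      linarith
    have hp : Function.Periodic R (2 * Real.pi) := hRper
    rw [← hRρ, hxk, hp.int_mul (k + 1) (-Real.pi), hRicc _ hm]
  · rintro rfl
    exact ⟨-Real.pi, by simp only [hγ, hRicc _ hm]⟩

/-- the same with `v < 0` along the solution -/
theorem exists_closedOrbit_neg {F : ℝ × ℝ → ℝ × ℝ} {u v : ℝ → ℝ → ℝ}
    (hF : ∀ x ρ, 0 ≤ ρ → F (pt x ρ) =
      ((Real.sqrt ρ * Real.cos (x / 2) * u x ρ - Real.sqrt ρ * Real.sin (x / 2) * v x ρ) / 2,
       (Real.sqrt ρ * Real.sin (x / 2) * u x ρ + Real.sqrt ρ * Real.cos (x / 2) * v x ρ) / 2))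
    (hu : Continuous fun z : ℝ × ℝ => u z.1 z.2) (hv : Continuous fun z : ℝ × ℝ => v z.1 z.2)
    (hup : ∀ x ρ, u (x + 2 * Real.pi) ρ = u x ρ) (hvp : ∀ x ρ, v (x + 2 * Real.pi) ρ = v x ρ)
    {r : ℝ → ℝ} (hr0 : ∀ x ∈ Set.Icc (-Real.pi) Real.pi, 0 < r x)
    (hrv : ∀ x ∈ Set.Icc (-Real.pi) Real.pi, v x (r x) < 0)
    (hr : ∀ x ∈ Set.Icc (-Real.pi) Real.pi,
      HasDerivWithinAt r (r x * u x (r x) / v x (r x)) (Set.Icc (-Real.pi) Real.pi) x)
    (hend : r Real.pi = r (-Real.pi)) :
    ∃ C, IsClosedOrbit F C ∧ ∀ ρ, 0 < ρ → (pt (-Real.pi) ρ ∈ C ↔ ρ = r (-Real.pi)) := by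
  obtain ⟨C, hC, hC2⟩ := exists_closedOrbit_pos (F := fun z => -F z)
    (u := fun x ρ => -u x ρ) (v := fun x ρ => -v x ρ) (r := r) (by
      intro x ρ hρ
      rw [hF x ρ hρ]
      refine Prod.ext ?_ ?_
      · simp only [Prod.neg_mk]
        ring
      · simp only [Prod.neg_mk]
        ring) hu.neg hv.neg (by intro x ρ; rw [hup]) (by intro x ρ; rw [hvp]) hr0
      (fun x hx => neg_pos.2 (hrv x hx)) (by
        intro x hx
        have h := hr x hx
        have e : r x * -u x (r x) / -v x (r x) = r x * u x (r x) / v x (r x) := by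
          rw [mul_neg, neg_div_neg_eq]
        simp only [e]
        exact h) hend
  exact ⟨C, isClosedOrbit_neg hC, hC2⟩

end Pool.Agent.Lib.MP_95e7ec_an.Pw
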