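import Mathlib
import Pool.Agent.Lib.MP_95e7ec_an.Pw.C2Chart
import Pool.Agent.Lib.MP_95e7ec_an.Pw.CTime

/-!
# Transfer of periodic scalar equations to plane fields of low degree: closed orbits
-/

set_option autoImplicit false

open Set Filter Topology

namespace Pool.Agent.Lib.MP_95e7ec_an.Pw

/-- A periodic solution of the scalar equation of the chart gives a closed orbit of the turned
field, which meets the curve `x = -π` only once. -/
theorem exists_closedOrbit2 {k : ℕ} {P Q : MvPolynomial (Fin 2) ℝ} {ε α : ℝ} (hε : 0 < ε)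
    {r : ℝ → ℝ} (hΩ : ∀ x ∈ Set.Icc (-Real.pi) Real.pi, (α, x, r x) ∈ Om2 k P Q ε)
    (hr : ∀ x ∈ Set.Icc (-Real.pi) Real.pi,
      HasDerivWithinAt r (F2 k P Q ε (α, x, r x)) (Set.Icc (-Real.pi) Real.pi) x)
    (hend : r Real.pi = r (-Real.pi)) :
    ∃ C, IsClosedOrbit (turn α (vf P Q)) C ∧ ∀ η, 0 < 1 + ε * η →
      ((Xc ε (-Real.pi) η, Vc k ε (-Real.pi) η) ∈ C ↔ η = r (-Real.pi)) := by
  have hpi := Real.pi_pos
  obtain ⟨R, hRper, hRicc, hRd, hRfc⟩ := exists_periodic_solution
    (f := fun x y => F2 k P Q ε (α, x, y)) (r := r) (by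
      intro x hx
      have h1 := (contDiffOn_F2 k P Q ε).continuousOn.continuousAt
        ((isOpen_Om2 k P Q ε).mem_nhds (hΩ x hx))
      have h2 : ContinuousAt (fun z : ℝ × ℝ => (α, z.1, z.2)) (x, r x) := by fun_prop
      exact ContinuousAt.comp (g := F2 k P Q ε) h1 h2) (by
      intro x y
      simp only [F2, va_per, wa_per]) hr hend
  have hRc : Continuous R := continuous_iff_continuousAt.2 fun x => (hRd x).continuousAt
  have hall : ∀ x, (α, x, R x) ∈ Om2 k P Q ε := by
    intro x
    obtain ⟨m, hm, -⟩ := existsUnique_add_zsmul_mem_Ico (by positivity : 0 < 2 * Real.pi) x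
      (-Real.pi)
    simp only [zsmul_eq_mul] at hm
    rw [show -Real.pi + 2 * Real.pi = Real.pi by ring] at hm
    have hm' := Set.Ico_subset_Icc_self hm
    have hp : Function.Periodic R (2 * Real.pi) := hRper
    have hp2 : Function.Periodic (fun x => va k P Q ε α x (R x)) (2 * Real.pi) := by
      intro y
      simp only [hRper, va_per]
    have e1 := (hp.int_mul m) x
    have e2 := (hp2.int_mul m) x
    rw [hRicc _ hm'] at e1
    rw [hRicc _ hm'] at e2
    have h3 := hΩ _ hm'
    refine ⟨?_, ?_⟩
    · show 0 < 1 + ε * R x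
      rw [← e1]
      exact h3.1
    · show 0 < va k P Q ε α x (R x)
      rw [← e2]
      exact h3.2
  set γ : ℝ → ℝ × ℝ := fun x => (Xc ε x (R x), Vc k ε x (R x)) with hγ
  set κ : ℝ → ℝ := fun x => (va k P Q ε α x (R x))⁻¹ with hκ
  have hvc : Continuous fun x => va k P Q ε α x (R x) := by
    rw [continuous_iff_continuousAt]
    intro x
    have h1 := (contDiffOn_va k P Q ε).continuousOn.continuousAt
      ((isOpen_Wd2 ε).mem_nhds (show ((α, x, R x) : ℝ × ℝ × ℝ) ∈ Wd2 ε from (hall x).1))
    have h2 : ContinuousAt (fun x : ℝ => (α, x, R x)) x := by fun_prop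
    exact ContinuousAt.comp (g := fun p : ℝ × ℝ × ℝ => va k P Q ε p.1 p.2.1 p.2.2)
      (f := fun x : ℝ => (α, x, R x)) h1 h2
  have hκc : Continuous κ := hvc.inv₀ fun x => (hall x).2.ne'
  have hκpos : ∀ x, 0 < κ x := fun x => inv_pos.2 (hall x).2
  have hγd : ∀ x, HasDerivAt γ (κ x • turn α (vf P Q) (γ x)) x := by
    intro x
    have hρ : 0 < 1 + ε * R x := (hall x).1
    have hv : 0 < va k P Q ε α x (R x) := (hall x).2
    have hs : 0 < Real.sqrt (1 + ε * R x) := Real.sqrt_pos.2 hρ
    have hsq : Real.sqrt (1 + ε * R x) ^ 2 = 1 + ε * R x := Real.sq_sqrt hρ.le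
    have hρ2 := sq_add_sq (x := x) hρ
    have dR : HasDerivAt R (wa k P Q ε α x (R x) / va k P Q ε α x (R x)) x := hRd x
    have d0 : HasDerivAt (fun x => 1 + ε * R x)
        (ε * (wa k P Q ε α x (R x) / va k P Q ε α x (R x))) x := (dR.const_mul ε).const_add 1
    have d1 : HasDerivAt (fun x => Real.sqrt (1 + ε * R x))
        (ε * (wa k P Q ε α x (R x) / va k P Q ε α x (R x)) / (2 * Real.sqrt (1 + ε * R x))) x :=
      d0.sqrt hρ.ne'
    have key : ε * wa k P Q ε α x (R x) =
        2 * (Xc ε x (R x) * Pa k P Q ε α x (R x) + Rc ε x (R x) * Sa k P Q ε α x (R x)) := by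
      unfold wa
      field_simp
    have key2 : va k P Q ε α x (R x) * (1 + ε * R x) =
        Xc ε x (R x) * Sa k P Q ε α x (R x) - Rc ε x (R x) * Pa k P Q ε α x (R x) := by
      unfold va
      field_simp
    -- abbreviations
    set v := va k P Q ε α x (R x) with hvdef
    set w := wa k P Q ε α x (R x) with hwdef
    set Pp := Pa k P Q ε α x (R x) with hPp
    set Ss := Sa k P Q ε α x (R x) with hSs
    have dX : HasDerivAt (fun x => Xc ε x (R x)) (v⁻¹ * Pp) x := by
      have h := d1.mul (Real.hasDerivAt_cos x)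
      refine h.congr_deriv ?_
      have hX : Xc ε x (R x) = Real.sqrt (1 + ε * R x) * Real.cos x := rfl
      have hR' : Rc ε x (R x) = Real.sqrt (1 + ε * R x) * Real.sin x := rfl
      rw [hX, hR'] at key key2
      have hcs := Real.cos_sq_add_sin_sq x
      set q := Real.sqrt (1 + ε * R x) with hq
      rw [← hsq] at key2
      set c := Real.cos x with hc
      set s := Real.sin x with hsn
      have key3 : ε * w = 2 * q * (c * Pp + s * Ss) := by rw [key]; ring
      have key4 : v * q = c * Ss - s * Pp := by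
        have : q * (v * q) = q * (c * Ss - s * Pp) := by linear_combination key2
        exact mul_left_cancel₀ hs.ne' this
      have e1 : ε * (w / v) / (2 * q) = v⁻¹ * (c * Pp + s * Ss) := by
        rw [show ε * (w / v) / (2 * q) = (ε * w) / (2 * q * v) by field_simp, key3]
        field_simp
      rw [e1]
      have e2 : q * -s = v⁻¹ * (-(s * (c * Ss - s * Pp))) := by
        rw [← key4]
        field_simp
      rw [e2]
      linear_combination (v⁻¹ * Pp) * hcs
    have dRc : HasDerivAt (fun x => Rc ε x (R x)) (v⁻¹ * Ss) x := by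
      have h := d1.mul (Real.hasDerivAt_sin x)
      refine h.congr_deriv ?_
      have hX : Xc ε x (R x) = Real.sqrt (1 + ε * R x) * Real.cos x := rfl
      have hR' : Rc ε x (R x) = Real.sqrt (1 + ε * R x) * Real.sin x := rfl
      rw [hX, hR'] at key key2
      have hcs := Real.cos_sq_add_sin_sq x
      set q := Real.sqrt (1 + ε * R x) with hq
      rw [← hsq] at key2
      set c := Real.cos x with hc
      set s := Real.sin x with hsn
      have key3 : ε * w = 2 * q * (c * Pp + s * Ss) := by rw [key]; ring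
      have key4 : v * q = c * Ss - s * Pp := by
        have : q * (v * q) = q * (c * Ss - s * Pp) := by linear_combination key2
        exact mul_left_cancel₀ hs.ne' this
      have e1 : ε * (w / v) / (2 * q) = v⁻¹ * (c * Pp + s * Ss) := by
        rw [show ε * (w / v) / (2 * q) = (ε * w) / (2 * q * v) by field_simp, key3]
        field_simp
      rw [e1]
      have e2 : q * c = v⁻¹ * (c * (c * Ss - s * Pp)) := by
        rw [← key4]
        field_simp
      rw [e2]
      linear_combination (v⁻¹ * Ss) * hcs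
    have dV : HasDerivAt (fun x => Vc k ε x (R x))
        (v⁻¹ * Qa k P Q ε α x (R x)) x := by
      have h := (dX.pow k).add (dRc.const_mul ε)
      refine h.congr_deriv ?_
      rw [hSs, hPp]
      unfold Sa
      field_simp
      ring
    refine HasDerivAt.congr_deriv (dX.prodMk dV) ?_
    rfl
  have hγper : ∀ x, γ (x + 2 * Real.pi) = γ x := by
    intro x
    simp only [hγ, hRper, Xc_per, Vc_per]
  have hκper : ∀ x, κ (x + 2 * Real.pi) = κ x := by
    intro x
    simp only [hκ, hRper, va_per]
  have hne : ∃ s t, γ s ≠ γ t := by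
    refine ⟨-Real.pi, 0, ?_⟩
    intro h
    have h2 := congrArg Prod.fst h
    simp only [hγ, Xc] at h2
    rw [Real.cos_neg, Real.cos_pi, Real.cos_zero] at h2
    have a1 := Real.sqrt_pos.2 (hall (-Real.pi)).1
    have a2 := Real.sqrt_pos.2 (hall 0).1
    simp only at a1 a2
    linarith
  refine ⟨Set.range γ, isClosedOrbit_of_param (T := 2 * Real.pi) (by positivity) hκc hκpos hγd
    hγper hκper hne, ?_⟩
  intro η hη
  have hm : -Real.pi ∈ Set.Icc (-Real.pi) Real.pi := ⟨le_rfl, by linarith⟩
  constructor
  · rintro ⟨x, hx⟩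
    have h1 : Xc ε x (R x) = Xc ε (-Real.pi) η := congrArg Prod.fst hx
    have h2 : Vc k ε x (R x) = Vc k ε (-Real.pi) η := congrArg Prod.snd hx
    have h3 : Rc ε x (R x) = Rc ε (-Real.pi) η := by
      unfold Vc at h2
      rw [h1] at h2
      exact mul_left_cancel₀ hε.ne' (add_left_cancel h2)
    have hρ : 0 < 1 + ε * R x := (hall x).1
    have h4 : R x = η := by
      have a1 := sq_add_sq (x := x) hρ
      have a2 := sq_add_sq (x := -Real.pi) hη
      rw [h1, h3, a2] at a1
      have : ε * R x = ε * η := by linarith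
      exact mul_left_cancel₀ hε.ne' this
    have hsx := Real.sqrt_pos.2 hρ
    have hsη := Real.sqrt_pos.2 hη
    have hsin : Real.sin x = 0 := by
      simp only [Rc, Real.sin_neg, Real.sin_pi, neg_zero, mul_zero] at h3
      rcases mul_eq_zero.1 h3 with h | h
      · exact absurd h hsx.ne'
      · exact h
    have hcos : Real.cos x < 0 := by
      simp only [Xc, Real.cos_neg, Real.cos_pi] at h1
      by_contra hcon
      have := mul_nonneg hsx.le (not_lt.1 hcon)
      linarith
    obtain ⟨m, hm1⟩ := Real.sin_eq_zero_iff.1 hsin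
    have hmodd : Odd m := by
      rcases Int.even_or_odd m with he | ho
      · exfalso
        obtain ⟨l, rfl⟩ := he
        rw [← hm1] at hcos
        push_cast at hcos
        rw [show ((l : ℝ) + l) * Real.pi = l * (2 * Real.pi) by ring, Real.cos_int_mul_two_pi] at hcos
        linarith
      · exact ho
    obtain ⟨l, rfl⟩ := hmodd
    have hxl : x = -Real.pi + ((l + 1 : ℤ) : ℝ) * (2 * Real.pi) := by
      rw [← hm1]
      push_cast
      ring
    have hp : Function.Periodic R (2 * Real.pi) := hRper
    rw [← h4, hxl, hp.int_mul (l + 1) (-Real.pi), hRicc _ hm]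
  · rintro rfl
    exact ⟨-Real.pi, by simp only [hγ, hRicc _ hm]⟩

end Pool.Agent.Lib.MP_95e7ec_an.Pw
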