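import Mathlib
import Pool.Agent.Lib.MP_95e7ec_an.Pw.Ode

/-!
# Persistence of solutions of scalar equations with a parameter

`half_persist`: if `r0 ≤ r1` are solutions of `ρ' = F (0, x, ρ)` on `[a,b]` and `F` is `C¹` near the
region between their graphs, then for small parameters `α` all solutions of `ρ' = F (α, x, ρ)` which
start between `r0 a` and `r1 a` exist on `[a,b]`, stay near the region, and depend continuously on
the starting value.
-/

set_option autoImplicit false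

open Set Filter Topology

namespace Pool.Agent.Lib.MP_95e7ec_an.Pw

/-- The clamp of `t` to `[l, u]`. -/
noncomputable def clp (l u t : ℝ) : ℝ := max l (min t u)

theorem clp_mem {l u : ℝ} (h : l ≤ u) (t : ℝ) : clp l u t ∈ Icc l u :=
  ⟨le_max_left _ _, max_le h (min_le_right _ _)⟩

theorem clp_of_mem {l u t : ℝ} (h : t ∈ Icc l u) : clp l u t = t := by
  unfold clp
  rw [min_eq_left h.2, max_eq_right h.1]

theorem clp_lip (l u t t' : ℝ) : |clp l u t - clp l u t'| ≤ |t - t'| := by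
  unfold clp
  have h1 := abs_max_sub_max_le_max l (min t u) l (min t' u)
  have h2 := abs_min_sub_min_le_max t u t' u
  simp only [sub_self, abs_zero] at h1 h2
  exact h1.trans (max_le (abs_nonneg _) (h2.trans (max_le le_rfl (abs_nonneg _))))

theorem half_persist (F : ℝ × ℝ × ℝ → ℝ) (Ω : Set (ℝ × ℝ × ℝ)) (hΩ : IsOpen Ω)
    (hF : ContDiffOn ℝ 1 F Ω) {a b : ℝ} (hab : a ≤ b) (r0 r1 : ℝ → ℝ)
    (h0 : Sl (fun x v => F (0, x, v)) a b r0) (h1 : Sl (fun x v => F (0, x, v)) a b r1)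
    (hle : ∀ x ∈ Icc a b, r0 x ≤ r1 x)
    (hK : ∀ x ∈ Icc a b, ∀ v ∈ Icc (r0 x) (r1 x), ((0 : ℝ), x, v) ∈ Ω) (δ : ℝ) (hδ : 0 < δ) :
    ∃ ε > 0, ∀ α : ℝ, |α| < ε → ∃ Φ : ℝ → ℝ → ℝ,
      (∀ s ∈ Icc (r0 a) (r1 a), Φ s a = s ∧ Sl (fun x v => F (α, x, v)) a b (Φ s) ∧
        ∀ x ∈ Icc a b, r0 x - δ < Φ s x ∧ Φ s x < r1 x + δ ∧ (α, x, Φ s x) ∈ Ω) ∧
      ContinuousOn (fun s => Φ s b) (Icc (r0 a) (r1 a)) ∧
      |Φ (r0 a) b - r0 b| < δ ∧ |Φ (r1 a) b - r1 b| < δ := by
  have haI : a ∈ Icc a b := ⟨le_rfl, hab⟩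
  have hbI : b ∈ Icc a b := ⟨hab, le_rfl⟩
  -- compactness of the region
  have hc0 := h0.contOn
  have hc1 := h1.contOn
  set K0 : Set (ℝ × ℝ × ℝ) := (fun p : ℝ × ℝ => ((0 : ℝ), p.1,
    (1 - p.2) * r0 p.1 + p.2 * r1 p.1)) '' (Icc a b ×ˢ Icc (0 : ℝ) 1) with hK0
  have hK0c : IsCompact K0 := by
    refine (isCompact_Icc.prod isCompact_Icc).image_of_continuousOn ?_
    have e0 : ContinuousOn (fun p : ℝ × ℝ => r0 p.1) (Icc a b ×ˢ Icc (0 : ℝ) 1) :=
      hc0.comp continuousOn_fst fun p hp => hp.1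
    have e1 : ContinuousOn (fun p : ℝ × ℝ => r1 p.1) (Icc a b ×ˢ Icc (0 : ℝ) 1) :=
      hc1.comp continuousOn_fst fun p hp => hp.1
    exact continuousOn_const.prodMk (continuousOn_fst.prodMk
      (((continuousOn_const.sub continuousOn_snd).mul e0).add (continuousOn_snd.mul e1)))
  have hmemK0 : ∀ x ∈ Icc a b, ∀ v ∈ Icc (r0 x) (r1 x), ((0 : ℝ), x, v) ∈ K0 := by
    intro x hx v hv
    rcases eq_or_lt_of_le (hle x hx) with he | hlt
    · refine ⟨(x, 0), ⟨hx, by simp⟩, ?_⟩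
      have : v = r0 x := le_antisymm (he ▸ hv.2) hv.1
      simp [this]
    · have hd : 0 < r1 x - r0 x := by linarith
      refine ⟨(x, (v - r0 x) / (r1 x - r0 x)), ⟨hx, div_nonneg (by linarith [hv.1]) hd.le,
        (div_le_one hd).2 (by linarith [hv.2])⟩, ?_⟩
      simp only [Prod.mk.injEq, true_and]
      field_simp
      ring
  have hK0Ω : K0 ⊆ Ω := by
    rintro _ ⟨⟨x, t⟩, ⟨hx, ht⟩, rfl⟩
    refine hK x hx _ ?_
    have := hle x hx
    simp only at ht ⊢
    constructor <;> nlinarith [ht.1, ht.2]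
  obtain ⟨η0, hη0, hη0Ω⟩ := hK0c.exists_cthickening_subset_open hΩ hK0Ω
  set η : ℝ := min η0 δ with hη
  have hηpos : 0 < η := lt_min hη0 hδ
  have hηδ : η ≤ δ := min_le_right _ _
  set K1 : Set (ℝ × ℝ × ℝ) := {p | |p.1| ≤ η ∧ p.2.1 ∈ Icc a b ∧
    p.2.2 ∈ Icc (r0 p.2.1 - η) (r1 p.2.1 + η)} with hK1
  have hK1Ω : K1 ⊆ Ω := by
    rintro ⟨α, x, v⟩ ⟨h1', hx, hv⟩
    simp only at h1' hx hv
    refine hη0Ω (Metric.mem_cthickening_of_dist_le _ (0, x, clp (r0 x) (r1 x) v) η0 _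
      (hmemK0 x hx _ (clp_mem (hle x hx) v)) ?_)
    have hηη0 : η ≤ η0 := min_le_left _ _
    have h2 : |v - clp (r0 x) (r1 x) v| ≤ η := by
      have hlx := hle x hx
      unfold clp
      rw [abs_le]
      rcases le_total v (r1 x) with h | h
      · rw [min_eq_left h]
        rcases le_total (r0 x) v with h' | h'
        · rw [max_eq_right h']
          constructor <;> linarith
        · rw [max_eq_left h']
          constructor <;> linarith [hv.1]
      · rw [min_eq_right h, max_eq_right hlx]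
        constructor <;> linarith [hv.2]
    simp only [Prod.dist_eq, Real.dist_eq, sub_zero, sub_self, abs_zero]
    exact max_le (h1'.trans hηη0) (max_le (hηpos.le.trans hηη0) (h2.trans hηη0))
  have hK1c : IsCompact K1 := by
    have : K1 = (fun p : ℝ × ℝ × ℝ => (p.1, p.2.1,
      (1 - p.2.2) * (r0 p.2.1 - η) + p.2.2 * (r1 p.2.1 + η))) ''
        (Icc (-η) η ×ˢ Icc a b ×ˢ Icc (0 : ℝ) 1) := by
      ext ⟨α, x, v⟩
      constructor
      · rintro ⟨h1', hx, hv⟩
        simp only at h1' hx hv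
        have hlx := hle x hx
        have hd : 0 < r1 x + η - (r0 x - η) := by linarith
        refine ⟨(α, x, (v - (r0 x - η)) / (r1 x + η - (r0 x - η))), ⟨abs_le.1 h1', hx,
          div_nonneg (by linarith [hv.1]) hd.le, (div_le_one hd).2 (by linarith [hv.2])⟩, ?_⟩
        simp only [Prod.mk.injEq, true_and]
        field_simp
        ring
      · rintro ⟨⟨α', x', t⟩, ⟨ha', hx', ht⟩, he⟩
        simp only [Prod.mk.injEq] at he
        obtain ⟨rfl, rfl, rfl⟩ := he
        have hlx := hle x' hx'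
        refine ⟨abs_le.2 ha', hx', ?_⟩
        simp only at ht ⊢
        constructor <;> nlinarith [ht.1, ht.2]
    rw [this]
    refine (isCompact_Icc.prod (isCompact_Icc.prod isCompact_Icc)).image_of_continuousOn ?_
    have e0 : ContinuousOn (fun p : ℝ × ℝ × ℝ => r0 p.2.1)
        (Icc (-η) η ×ˢ Icc a b ×ˢ Icc (0 : ℝ) 1) :=
      hc0.comp (continuous_fst.comp continuous_snd).continuousOn fun p hp => hp.2.1
    have e1 : ContinuousOn (fun p : ℝ × ℝ × ℝ => r1 p.2.1)
        (Icc (-η) η ×ˢ Icc a b ×ˢ Icc (0 : ℝ) 1) :=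
      hc1.comp (continuous_fst.comp continuous_snd).continuousOn fun p hp => hp.2.1
    have e2 : ContinuousOn (fun p : ℝ × ℝ × ℝ => p.2.2)
        (Icc (-η) η ×ˢ Icc a b ×ˢ Icc (0 : ℝ) 1) :=
      (continuous_snd.comp continuous_snd).continuousOn
    exact continuousOn_fst.prodMk (((continuous_fst.comp continuous_snd).continuousOn).prodMk
      (((continuousOn_const.sub e2).mul (e0.sub continuousOn_const)).add
        (e2.mul (e1.add continuousOn_const))))
  -- bounds on `K1`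
  have hFc : ContinuousOn F K1 := hF.continuousOn.mono hK1Ω
  obtain ⟨M, hM⟩ := hK1c.exists_bound_of_continuousOn hFc
  have hdc : ContinuousOn (fun p => fderiv ℝ F p (0, 0, 1)) K1 :=
    ((hF.continuousOn_fderiv_of_isOpen hΩ le_rfl).clm_apply continuousOn_const).mono hK1Ω
  obtain ⟨L, hL⟩ := hK1c.exists_bound_of_continuousOn hdc
  have hderiv : ∀ p ∈ Ω, HasDerivAt (fun v => F (p.1, p.2.1, v)) (fderiv ℝ F p (0, 0, 1)) p.2.2 := by
    intro p hp
    have h1' : HasFDerivAt F (fderiv ℝ F p) p :=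
      ((hF.differentiableOn one_ne_zero p hp).differentiableAt (hΩ.mem_nhds hp)).hasFDerivAt
    have h2' : HasDerivAt (fun v : ℝ => (p.1, p.2.1, v)) (0, 0, 1) p.2.2 :=
      (hasDerivAt_const _ _).prodMk ((hasDerivAt_const _ _).prodMk (hasDerivAt_id _))
    exact HasFDerivAt.comp_hasDerivAt (f := fun v : ℝ => (p.1, p.2.1, v)) p.2.2 h1' h2'
  have hLip : ∀ α, |α| ≤ η → ∀ x ∈ Icc a b, ∀ v ∈ Icc (r0 x - η) (r1 x + η),
      ∀ w ∈ Icc (r0 x - η) (r1 x + η), |F (α, x, v) - F (α, x, w)| ≤ L * |v - w| := by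
    intro α hα x hx v hv w hw
    have := Convex.norm_image_sub_le_of_norm_hasDerivWithin_le (f := fun v => F (α, x, v))
      (f' := fun v => fderiv ℝ F (α, x, v) (0, 0, 1)) (s := Icc (r0 x - η) (r1 x + η)) (C := L)
      (fun u hu => (hderiv (α, x, u) (hK1Ω ⟨hα, hx, hu⟩)).hasDerivWithinAt)
      (fun u hu => hL (α, x, u) ⟨hα, hx, hu⟩) (convex_Icc _ _) hw hv
    simpa using this
  have hL0 : 0 ≤ L := (norm_nonneg _).trans (hL (0, a, r0 a) ⟨by simpa using hηpos.le, haI,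
    by constructor <;> linarith [hle a haI]⟩)
  -- the clamped equation
  set l : ℝ → ℝ := fun x => r0 x - η with hl
  set u : ℝ → ℝ := fun x => r1 x + η with hu
  have hlu : ∀ x ∈ Icc a b, l x ≤ u x := fun x hx => by
    simp only [hl, hu]
    linarith [hle x hx]
  set f : ℝ → ℝ → ℝ → ℝ := fun α x v => F (α, x, clp (l x) (u x) v) with hf
  have hfc : ∀ α, |α| ≤ η → ∀ v, ContinuousOn (fun x => f α x v) (Icc a b) := by
    intro α hα v
    have e1 : ContinuousOn (fun x => (α, x, clp (l x) (u x) v)) (Icc a b) := by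
      refine continuousOn_const.prodMk (continuousOn_id.prodMk ?_)
      have e0 : ContinuousOn (fun x => r0 x - η) (Icc a b) := hc0.sub continuousOn_const
      have e2 : ContinuousOn (fun x => r1 x + η) (Icc a b) := hc1.add continuousOn_const
      have e3 : ContinuousOn (fun x => min v (r1 x + η)) (Icc a b) :=
        continuous_min.comp_continuousOn (continuousOn_const.prodMk e2)
      exact continuous_max.comp_continuousOn (e0.prodMk e3)
    exact hFc.comp e1 fun x hx => ⟨hα, hx, clp_mem (hlu x hx) v⟩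
  have hfM : ∀ α, |α| ≤ η → ∀ x ∈ Icc a b, ∀ v, |f α x v| ≤ M := fun α hα x hx v =>
    hM _ ⟨hα, hx, clp_mem (hlu x hx) v⟩
  have hfL : ∀ α, |α| ≤ η → ∀ x ∈ Icc a b, ∀ v w, |f α x v - f α x w| ≤ L * |v - w| :=
    fun α hα x hx v w => (hLip α hα x hx _ (clp_mem (hlu x hx) v) _
      (clp_mem (hlu x hx) w)).trans (mul_le_mul_of_nonneg_left (clp_lip _ _ _ _) hL0)
  have hfL' : ∀ α, |α| ≤ η → ∀ x ∈ Icc a b, ∀ v ∈ (univ : Set ℝ), ∀ w ∈ (univ : Set ℝ),
      |f α x v - f α x w| ≤ L * |v - w| := fun α hα x hx v _ w _ => hfL α hα x hx v w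
  have hr : ∀ r : ℝ → ℝ, Sl (fun x v => F (0, x, v)) a b r → (∀ x ∈ Icc a b, r x ∈ Icc (l x) (u x)) →
      Sl (f 0) a b r := fun r h hm => h.congr fun x hx => by
    simp only [hf]
    rw [clp_of_mem (hm x hx)]
  have hm0 : ∀ x ∈ Icc a b, r0 x ∈ Icc (l x) (u x) := fun x hx => by
    have := hle x hx
    simp only [hl, hu]
    constructor <;> linarith
  have hm1 : ∀ x ∈ Icc a b, r1 x ∈ Icc (l x) (u x) := fun x hx => by
    have := hle x hx
    simp only [hl, hu]
    constructor <;> linarith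
  have hr0 := hr r0 h0 hm0
  have hr1 := hr r1 h1 hm1
  -- the size of the perturbation
  have hgb : ContinuousAt (fun e => gronwallBound 0 L e (b - a)) 0 :=
    (gronwallBound_continuous_ε 0 L (b - a)).continuousAt
  have hgb0 : gronwallBound 0 L 0 (b - a) = 0 := gronwallBound_ε0_δ0 L (b - a)
  obtain ⟨e, he, hebd⟩ : ∃ e > 0, gronwallBound 0 L e (b - a) < η := by
    have h2 : ∀ᶠ e in 𝓝 (0 : ℝ), gronwallBound 0 L e (b - a) < η := by
      have := hgb.eventually_lt (continuousAt_const (y := η)) (by simpa [hgb0] using hηpos)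
      exact this
    have h3 : ∀ᶠ e in 𝓝[>] (0 : ℝ), gronwallBound 0 L e (b - a) < η :=
      h2.filter_mono nhdsWithin_le_nhds
    obtain ⟨e, he1, he2⟩ := (h3.and self_mem_nhdsWithin).exists
    exact ⟨e, he2, he1⟩
  have huc : UniformContinuousOn F K1 := hK1c.uniformContinuousOn_of_continuous hFc
  rw [Metric.uniformContinuousOn_iff] at huc
  obtain ⟨κ, hκ, hκF⟩ := huc e he
  refine ⟨min κ η, lt_min hκ hηpos, fun α hα => ?_⟩
  have hακ : |α| < κ := hα.trans_le (min_le_left _ _)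
  have hαη : |α| ≤ η := (hα.trans_le (min_le_right _ _)).le
  have hex : ∀ s : ℝ, ∃ y : ℝ → ℝ, y a = s ∧ Sl (f α) a b y := fun s =>
    exists_Sl (hfc α hαη) (hfM α hαη) (hfL α hαη) haI s
  choose Φ hΦa hΦ using hex
  have hnear : ∀ r : ℝ → ℝ, Sl (f 0) a b r → (∀ x ∈ Icc a b, r x ∈ Icc (l x) (u x)) →
      ∀ x ∈ Icc a b, |Φ (r a) x - r x| < η := by
    intro r hr hm x hx
    have h := Sl.dist_le (S := fun _ => univ) (hfL' α hαη) (hΦ (r a)) hr
      (fun _ _ => mem_univ _) (fun _ _ => mem_univ _) (δ := 0) (ε := e) (fun t ht => by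
        have hmt := hm t ht
        have h1' : ((0 : ℝ), t, r t) ∈ K1 := ⟨by simpa using hηpos.le, ht, hmt⟩
        have h2' : (α, t, r t) ∈ K1 := ⟨hαη, ht, hmt⟩
        have h3' := hκF _ h1' _ h2' (by
          simp only [Prod.dist_eq, Real.dist_eq, sub_self, abs_zero, zero_sub, abs_neg]
          exact max_lt hακ (max_lt hκ hκ))
        simp only [hf, clp_of_mem hmt]
        rw [Real.dist_eq] at h3'
        exact h3'.le) (by rw [hΦa, sub_self, abs_zero]) x hx
    refine (h.trans ?_).trans_lt hebd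
    exact gronwallBound_mono le_rfl he.le hL0 (by linarith [hx.2])
  have hn0 := hnear r0 hr0 hm0
  have hn1 := hnear r1 hr1 hm1
  have hin : ∀ s ∈ Icc (r0 a) (r1 a), ∀ x ∈ Icc a b, l x < Φ s x ∧ Φ s x < u x := by
    intro s hs x hx
    have e0 := Sl.le (S := fun _ => univ) (hfL' α hαη) (hΦ (r0 a)) (hΦ s)
      (fun _ _ => mem_univ _) (fun _ _ => mem_univ _) haI (by rw [hΦa, hΦa]; exact hs.1) x hx
    have e1 := Sl.le (S := fun _ => univ) (hfL' α hαη) (hΦ s) (hΦ (r1 a))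
      (fun _ _ => mem_univ _) (fun _ _ => mem_univ _) haI (by rw [hΦa, hΦa]; exact hs.2) x hx
    have e2 := abs_lt.1 (hn0 x hx)
    have e3 := abs_lt.1 (hn1 x hx)
    simp only [hl, hu]
    constructor <;> linarith [e2.1, e3.2]
  refine ⟨Φ, fun s hs => ⟨hΦa s, (hΦ s).congr fun x hx => ?_, fun x hx => ?_⟩, ?_, ?_, ?_⟩
  · have := hin s hs x hx
    simp only [hf]
    rw [clp_of_mem ⟨this.1.le, this.2.le⟩]
  · have := hin s hs x hx
    refine ⟨?_, ?_, hK1Ω ⟨hαη, hx, this.1.le, this.2.le⟩⟩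
    · simp only [hl] at this
      linarith [this.1]
    · simp only [hu] at this
      linarith [this.2]
  · have hlip : LipschitzOnWith (⟨Real.exp (L * (b - a)), (Real.exp_pos _).le⟩ : NNReal)
        (fun s => Φ s b) (Icc (r0 a) (r1 a)) := by
      refine LipschitzOnWith.of_dist_le_mul fun s _ s' _ => ?_
      have h := Sl.dist_le_exp (S := fun _ => univ) (hfL' α hαη) (hΦ s) (hΦ s')
        (fun _ _ => mem_univ _) (fun _ _ => mem_univ _) b hbI
      rw [hΦa, hΦa] at h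
      rw [Real.dist_eq, Real.dist_eq]
      calc |Φ s b - Φ s' b| ≤ |s - s'| * Real.exp (L * (b - a)) := h
        _ = Real.exp (L * (b - a)) * |s - s'| := mul_comm _ _
    exact hlip.continuousOn
  · exact (hn0 b hbI).trans_le hηδ
  · exact (hn1 b hbI).trans_le hηδ

end Pool.Agent.Lib.MP_95e7ec_an.Pw
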