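import Mathlib
import Pool.Agent.Lib.MP_95e7ec_an.Pw.CHalf

/-!
# Persistence of periodic solutions under a small rotation of the field

`persist`: in the coordinates `(x, ρ)` the field is `ρ' = ρ U`, `x' = V`; between two solutions of
`dρ/dx = ρ U / V` whose displacements have opposite signs there is, for all small `α`, a periodic
solution of the turned equation `dρ/dx = ρ (cos α U - sin α V) / (sin α U + cos α V)`.
-/

set_option autoImplicit false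

open Set Filter Topology

namespace Pool.Agent.Lib.MP_95e7ec_an.Pw

/-- The right side of the turned equation. -/
noncomputable def turnF (U V : ℝ → ℝ → ℝ) (p : ℝ × ℝ × ℝ) : ℝ :=
  p.2.2 * (Real.cos p.1 * U p.2.1 p.2.2 - Real.sin p.1 * V p.2.1 p.2.2) /
    (Real.sin p.1 * U p.2.1 p.2.2 + Real.cos p.1 * V p.2.1 p.2.2)

/-- The region where the turned equation is regular. -/
def turnΩ (U V : ℝ → ℝ → ℝ) : Set (ℝ × ℝ × ℝ) :=
  {p | 0 < Real.sin p.1 * U p.2.1 p.2.2 + Real.cos p.1 * V p.2.1 p.2.2}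

variable {U V : ℝ → ℝ → ℝ}

theorem contDiff_den (hU : ContDiff ℝ 1 fun p : ℝ × ℝ => U p.1 p.2)
    (hV : ContDiff ℝ 1 fun p : ℝ × ℝ => V p.1 p.2) :
    ContDiff ℝ 1 fun p : ℝ × ℝ × ℝ =>
      Real.sin p.1 * U p.2.1 p.2.2 + Real.cos p.1 * V p.2.1 p.2.2 :=
  ((Real.contDiff_sin.comp contDiff_fst).mul (hU.comp contDiff_snd)).add
    ((Real.contDiff_cos.comp contDiff_fst).mul (hV.comp contDiff_snd))

theorem isOpen_turnΩ (hU : ContDiff ℝ 1 fun p : ℝ × ℝ => U p.1 p.2)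
    (hV : ContDiff ℝ 1 fun p : ℝ × ℝ => V p.1 p.2) : IsOpen (turnΩ U V) :=
  isOpen_lt continuous_const (contDiff_den hU hV).continuous

theorem contDiffOn_turnF (hU : ContDiff ℝ 1 fun p : ℝ × ℝ => U p.1 p.2)
    (hV : ContDiff ℝ 1 fun p : ℝ × ℝ => V p.1 p.2) : ContDiffOn ℝ 1 (turnF U V) (turnΩ U V) := by
  have h1 : ContDiff ℝ 1 fun p : ℝ × ℝ × ℝ =>
      p.2.2 * (Real.cos p.1 * U p.2.1 p.2.2 - Real.sin p.1 * V p.2.1 p.2.2) :=
    (contDiff_snd.comp contDiff_snd).mul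
      (((Real.contDiff_cos.comp contDiff_fst).mul (hU.comp contDiff_snd)).sub
        ((Real.contDiff_sin.comp contDiff_fst).mul (hV.comp contDiff_snd)))
  exact h1.contDiffOn.div (contDiff_den hU hV).contDiffOn fun p hp => (ne_of_gt hp)

/-- A Lipschitz constant on the region between two graphs. -/
theorem exists_lip (F : ℝ × ℝ × ℝ → ℝ) (Ω : Set (ℝ × ℝ × ℝ)) (hΩ : IsOpen Ω)
    (hF : ContDiffOn ℝ 1 F Ω) {a b : ℝ} {r0 r1 : ℝ → ℝ}
    (hc0 : ContinuousOn r0 (Icc a b)) (hc1 : ContinuousOn r1 (Icc a b))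
    (hK : ∀ x ∈ Icc a b, ∀ v ∈ uIcc (r0 x) (r1 x), ((0 : ℝ), x, v) ∈ Ω) :
    ∃ L : ℝ, ∀ x ∈ Icc a b, ∀ v ∈ uIcc (r0 x) (r1 x), ∀ w ∈ uIcc (r0 x) (r1 x),
      |F (0, x, v) - F (0, x, w)| ≤ L * |v - w| := by
  set K0 : Set (ℝ × ℝ × ℝ) := (fun p : ℝ × ℝ => ((0 : ℝ), p.1,
    (1 - p.2) * r0 p.1 + p.2 * r1 p.1)) '' (Icc a b ×ˢ Icc (0 : ℝ) 1) with hK0
  have hK0c : IsCompact K0 := by
    refine (isCompact_Icc.prod isCompact_Icc).image_of_continuousOn ?_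
    have e0 : ContinuousOn (fun p : ℝ × ℝ => r0 p.1) (Icc a b ×ˢ Icc (0 : ℝ) 1) :=
      hc0.comp continuousOn_fst fun p hp => hp.1
    have e1 : ContinuousOn (fun p : ℝ × ℝ => r1 p.1) (Icc a b ×ˢ Icc (0 : ℝ) 1) :=
      hc1.comp continuousOn_fst fun p hp => hp.1
    exact continuousOn_const.prodMk (continuousOn_fst.prodMk
      (((continuousOn_const.sub continuousOn_snd).mul e0).add (continuousOn_snd.mul e1)))
  have hmem : ∀ x ∈ Icc a b, ∀ v ∈ uIcc (r0 x) (r1 x), ((0 : ℝ), x, v) ∈ K0 := by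
    intro x hx v hv
    rw [← segment_eq_uIcc] at hv
    obtain ⟨c, d, hc, hd, hcd, rfl⟩ := hv
    refine ⟨(x, d), ⟨hx, hd, by linarith⟩, ?_⟩
    simp only [smul_eq_mul, Prod.mk.injEq, true_and]
    have : c = 1 - d := by linarith
    rw [this]
  have hK0Ω : K0 ⊆ Ω := by
    rintro _ ⟨⟨x, t⟩, ⟨hx, ht⟩, rfl⟩
    refine hK x hx _ ?_
    rw [← segment_eq_uIcc]
    exact ⟨1 - t, t, by linarith [ht.2], ht.1, by ring, by simp⟩
  have hdc : ContinuousOn (fun p => fderiv ℝ F p (0, 0, 1)) K0 :=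
    ((hF.continuousOn_fderiv_of_isOpen hΩ le_rfl).clm_apply continuousOn_const).mono hK0Ω
  obtain ⟨L, hL⟩ := hK0c.exists_bound_of_continuousOn hdc
  refine ⟨L, fun x hx v hv w hw => ?_⟩
  have hderiv : ∀ p ∈ Ω, HasDerivAt (fun v => F (p.1, p.2.1, v)) (fderiv ℝ F p (0, 0, 1)) p.2.2 := by
    intro p hp
    have h1' : HasFDerivAt F (fderiv ℝ F p) p :=
      ((hF.differentiableOn one_ne_zero p hp).differentiableAt (hΩ.mem_nhds hp)).hasFDerivAt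
    have h2' : HasDerivAt (fun v : ℝ => (p.1, p.2.1, v)) (0, 0, 1) p.2.2 :=
      (hasDerivAt_const _ _).prodMk ((hasDerivAt_const _ _).prodMk (hasDerivAt_id _))
    exact HasFDerivAt.comp_hasDerivAt (f := fun v : ℝ => (p.1, p.2.1, v)) p.2.2 h1' h2'
  have := Convex.norm_image_sub_le_of_norm_hasDerivWithin_le (f := fun v => F (0, x, v))
    (f' := fun v => fderiv ℝ F (0, x, v) (0, 0, 1)) (s := uIcc (r0 x) (r1 x)) (C := L)
    (fun u hu => (hderiv (0, x, u) (hK x hx u hu)).hasDerivWithinAt)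
    (fun u hu => hL (0, x, u) (hmem x hx u hu)) (convex_uIcc _ _) hw hv
  simpa using this

/-- **Persistence.** -/
theorem persist {U V : ℝ → ℝ → ℝ} (hU : ContDiff ℝ 1 fun p : ℝ × ℝ => U p.1 p.2)
    (hV : ContDiff ℝ 1 fun p : ℝ × ℝ => V p.1 p.2) {a b : ℝ} (hab : a < b) {r0 r1 : ℝ → ℝ}
    (h0 : ∀ x ∈ Icc a b, HasDerivWithinAt r0 (r0 x * U x (r0 x) / V x (r0 x)) (Icc a b) x)
    (h1 : ∀ x ∈ Icc a b, HasDerivWithinAt r1 (r1 x * U x (r1 x) / V x (r1 x)) (Icc a b) x)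
    (hlt : r0 a < r1 a)
    (hpos : ∀ x ∈ Icc a b, ∀ ρ ∈ uIcc (r0 x) (r1 x), 0 < V x ρ)
    (hs : (r0 b - r0 a) * (r1 b - r1 a) < 0) {δ : ℝ} (hδ : 0 < δ) :
    ∃ ε > 0, ∀ α : ℝ, |α| < ε → ∃ r : ℝ → ℝ, r a ∈ Ioo (r0 a) (r1 a) ∧ r b = r a ∧
      ∀ x ∈ Icc a b, r0 x - δ < r x ∧ r x < r1 x + δ ∧
        0 < Real.sin α * U x (r x) + Real.cos α * V x (r x) ∧
        HasDerivWithinAt r (r x * (Real.cos α * U x (r x) - Real.sin α * V x (r x)) /
          (Real.sin α * U x (r x) + Real.cos α * V x (r x))) (Icc a b) x := by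
  have haI : a ∈ Icc a b := ⟨le_rfl, hab.le⟩
  have hbI : b ∈ Icc a b := ⟨hab.le, le_rfl⟩
  have hΩ := isOpen_turnΩ hU hV
  have hF := contDiffOn_turnF hU hV
  have e0 : Sl (fun x v => turnF U V (0, x, v)) a b r0 := by
    intro x hx
    have := h0 x hx
    simpa [turnF] using this
  have e1 : Sl (fun x v => turnF U V (0, x, v)) a b r1 := by
    intro x hx
    have := h1 x hx
    simpa [turnF] using this
  have hK : ∀ x ∈ Icc a b, ∀ v ∈ uIcc (r0 x) (r1 x), ((0 : ℝ), x, v) ∈ turnΩ U V := by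
    intro x hx v hv
    simpa [turnΩ] using hpos x hx v hv
  obtain ⟨L, hL⟩ := exists_lip (turnF U V) (turnΩ U V) hΩ hF e0.contOn e1.contOn hK
  have hlt' : ∀ x ∈ Icc a b, r0 x < r1 x := Sl.lt (S := fun x => uIcc (r0 x) (r1 x)) hL e0 e1
    (fun x _ => left_mem_uIcc) (fun x _ => right_mem_uIcc) haI hlt
  have hne0 : r0 b - r0 a ≠ 0 := by
    intro h
    rw [h, zero_mul] at hs
    exact lt_irrefl _ hs
  have hne1 : r1 b - r1 a ≠ 0 := by
    intro h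
    rw [h, mul_zero] at hs
    exact lt_irrefl _ hs
  set δ' : ℝ := min δ (min |r0 b - r0 a| |r1 b - r1 a|) with hδ'
  have hδ'0 : 0 < δ' := lt_min hδ (lt_min (abs_pos.2 hne0) (abs_pos.2 hne1))
  have hδ'δ : δ' ≤ δ := min_le_left _ _
  have hd0 : δ' ≤ |r0 b - r0 a| := (min_le_right _ _).trans (min_le_left _ _)
  have hd1 : δ' ≤ |r1 b - r1 a| := (min_le_right _ _).trans (min_le_right _ _)
  obtain ⟨ε, hε, hmain⟩ := half_persist (turnF U V) (turnΩ U V) hΩ hF hab.le r0 r1 e0 e1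
    (fun x hx => (hlt' x hx).le) (fun x hx v hv => hK x hx v (Icc_subset_uIcc hv)) δ' hδ'0
  refine ⟨ε, hε, fun α hα => ?_⟩
  obtain ⟨Φ, hΦ, hΦc, hΦ0, hΦ1⟩ := hmain α hα
  have hcont : ContinuousOn (fun s => Φ s b - s) (Icc (r0 a) (r1 a)) := hΦc.sub continuousOn_id
  have hA := abs_lt.1 hΦ0
  have hB := abs_lt.1 hΦ1
  obtain ⟨s, hs1, hs2⟩ : ∃ s ∈ Ioo (r0 a) (r1 a), Φ s b - s = 0 := by
    rcases mul_neg_iff.1 hs with ⟨hp, hn⟩ | ⟨hn, hp⟩
    · rw [abs_of_pos hp] at hd0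
      rw [abs_of_neg hn] at hd1
      have h := intermediate_value_Ioo' hlt.le hcont
      obtain ⟨s, hs1, hs2⟩ := h (show (0 : ℝ) ∈ Ioo (Φ (r1 a) b - r1 a) (Φ (r0 a) b - r0 a) from
        ⟨by linarith [hB.2], by linarith [hA.1]⟩)
      exact ⟨s, hs1, hs2⟩
    · rw [abs_of_neg hn] at hd0
      rw [abs_of_pos hp] at hd1
      have h := intermediate_value_Ioo hlt.le hcont
      obtain ⟨s, hs1, hs2⟩ := h (show (0 : ℝ) ∈ Ioo (Φ (r0 a) b - r0 a) (Φ (r1 a) b - r1 a) from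
        ⟨by linarith [hA.2], by linarith [hB.1]⟩)
      exact ⟨s, hs1, hs2⟩
  obtain ⟨hsa, hsl, hst⟩ := hΦ s ⟨hs1.1.le, hs1.2.le⟩
  refine ⟨Φ s, ?_, ?_, fun x hx => ?_⟩
  · rw [hsa]; exact hs1
  · rw [hsa]; linarith
  · obtain ⟨g1, g2, g3⟩ := hst x hx
    refine ⟨by linarith, by linarith, g3, ?_⟩
    have := hsl x hx
    simpa [turnF] using this

end Pool.Agent.Lib.MP_95e7ec_an.Pw
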