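import Mathlib
import Pool.Agent.Lib.MP_95e7ec_an.Pw.CPers

/-!
# Persistence in a general one-parameter family of scalar equations

`persistF`: the periodic solution between two solutions with displacements of opposite signs.
`persist_many`: an alternating family of solutions persists.
-/

set_option autoImplicit false

open Set Filter Topology

namespace Pool.Agent.Lib.MP_95e7ec_an.Pw

/-- **Persistence of a periodic solution.** -/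
theorem persistF (F : ℝ × ℝ × ℝ → ℝ) (Ω : Set (ℝ × ℝ × ℝ)) (hΩ : IsOpen Ω)
    (hF : ContDiffOn ℝ 1 F Ω) {a b : ℝ} (hab : a < b) {r0 r1 : ℝ → ℝ}
    (e0 : Sl (fun x v => F (0, x, v)) a b r0) (e1 : Sl (fun x v => F (0, x, v)) a b r1)
    (hlt : r0 a < r1 a)
    (hK : ∀ x ∈ Icc a b, ∀ v ∈ uIcc (r0 x) (r1 x), ((0 : ℝ), x, v) ∈ Ω)
    (hs : (r0 b - r0 a) * (r1 b - r1 a) < 0) :
    ∃ ε > 0, ∀ α : ℝ, |α| < ε → ∃ r : ℝ → ℝ, r a ∈ Ioo (r0 a) (r1 a) ∧ r b = r a ∧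
      (∀ x ∈ Icc a b, (α, x, r x) ∈ Ω) ∧ Sl (fun x v => F (α, x, v)) a b r := by
  have haI : a ∈ Icc a b := ⟨le_rfl, hab.le⟩
  have hbI : b ∈ Icc a b := ⟨hab.le, le_rfl⟩
  obtain ⟨L, hL⟩ := exists_lip F Ω hΩ hF e0.contOn e1.contOn hK
  have hlt' : ∀ x ∈ Icc a b, r0 x < r1 x := Sl.lt (S := fun x => uIcc (r0 x) (r1 x)) hL e0 e1
    (fun x _ => left_mem_uIcc) (fun x _ => right_mem_uIcc) haI hlt
  have hne0 : r0 b - r0 a ≠ 0 := by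
    intro h
    rw [h, zero_mul] at hs
    exact lt_irrefl _ hs
  have hne1 : r1 b - r1 a ≠ 0 := by
    intro h
    rw [h, mul_zero] at hs
    exact lt_irrefl _ hs
  set δ' : ℝ := min |r0 b - r0 a| |r1 b - r1 a| with hδ'
  have hδ'0 : 0 < δ' := lt_min (abs_pos.2 hne0) (abs_pos.2 hne1)
  have hd0 : δ' ≤ |r0 b - r0 a| := min_le_left _ _
  have hd1 : δ' ≤ |r1 b - r1 a| := min_le_right _ _
  obtain ⟨ε, hε, hmain⟩ := half_persist F Ω hΩ hF hab.le r0 r1 e0 e1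
    (fun x hx => (hlt' x hx).le) (fun x hx v hv => hK x hx v (Icc_subset_uIcc hv)) δ' hδ'0
  refine ⟨ε, hε, fun α hα => ?_⟩
  obtain ⟨Φ, hΦ, hΦc, hΦ0, hΦ1⟩ := hmain α hα
  have hcont : ContinuousOn (fun s => Φ s b - s) (Icc (r0 a) (r1 a)) := hΦc.sub continuousOn_id
  have hA := abs_lt.1 hΦ0
  have hB := abs_lt.1 hΦ1
  obtain ⟨s, hs1, hs2⟩ : ∃ s ∈ Ioo (r0 a) (r1 a), Φ s b - s = 0 := by
    rcases mul_neg_iff.1 hs with ⟨hp, hn⟩ | ⟨hn, hp⟩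
    · rw [abs_of_pos hp] at hd0
      rw [abs_of_neg hn] at hd1
      have h := intermediate_value_Ioo' hlt.le hcont
      obtain ⟨s, hs1, hs2⟩ := h (show (0 : ℝ) ∈ Ioo (Φ (r1 a) b - r1 a) (Φ (r0 a) b - r0 a) from
        ⟨by linarith [hB.2], by linarith [hA.1]⟩)
      exact ⟨s, hs1, hs2⟩
    · rw [abs_of_neg hn] at hd0
      rw [abs_of_pos hp] at hd1
      have h := intermediate_value_Ioo hlt.le hcont
      obtain ⟨s, hs1, hs2⟩ := h (show (0 : ℝ) ∈ Ioo (Φ (r0 a) b - r0 a) (Φ (r1 a) b - r1 a) from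
        ⟨by linarith [hA.2], by linarith [hB.1]⟩)
      exact ⟨s, hs1, hs2⟩
  obtain ⟨hsa, hsl, hst⟩ := hΦ s ⟨hs1.1.le, hs1.2.le⟩
  refine ⟨Φ s, ?_, ?_, fun x hx => (hst x hx).2.2, hsl⟩
  · rw [hsa]; exact hs1
  · rw [hsa]; linarith

/-- A tube around the region between two graphs. -/
theorem exists_tube (Ω : Set (ℝ × ℝ × ℝ)) (hΩ : IsOpen Ω) {a b : ℝ} {r0 r1 : ℝ → ℝ}
    (hc0 : ContinuousOn r0 (Icc a b)) (hc1 : ContinuousOn r1 (Icc a b))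
    (hK : ∀ x ∈ Icc a b, ∀ v ∈ uIcc (r0 x) (r1 x), ((0 : ℝ), x, v) ∈ Ω) :
    ∃ δ > 0, ∀ α : ℝ, |α| < δ → ∀ x ∈ Icc a b, ∀ u0 u1 : ℝ, |u0 - r0 x| < δ → |u1 - r1 x| < δ →
      ∀ v ∈ uIcc u0 u1, (α, x, v) ∈ Ω := by
  set K0 : Set (ℝ × ℝ × ℝ) := (fun p : ℝ × ℝ => ((0 : ℝ), p.1,
    (1 - p.2) * r0 p.1 + p.2 * r1 p.1)) '' (Icc a b ×ˢ Icc (0 : ℝ) 1) with hK0
  have hK0c : IsCompact K0 := by
    refine (isCompact_Icc.prod isCompact_Icc).image_of_continuousOn ?_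
    have e0 : ContinuousOn (fun p : ℝ × ℝ => r0 p.1) (Icc a b ×ˢ Icc (0 : ℝ) 1) :=
      hc0.comp continuousOn_fst fun p hp => hp.1
    have e1 : ContinuousOn (fun p : ℝ × ℝ => r1 p.1) (Icc a b ×ˢ Icc (0 : ℝ) 1) :=
      hc1.comp continuousOn_fst fun p hp => hp.1
    exact continuousOn_const.prodMk (continuousOn_fst.prodMk
      (((continuousOn_const.sub continuousOn_snd).mul e0).add (continuousOn_snd.mul e1)))
  have hK0Ω : K0 ⊆ Ω := by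
    rintro _ ⟨⟨x, t⟩, ⟨hx, ht⟩, rfl⟩
    refine hK x hx _ ?_
    rw [← segment_eq_uIcc]
    exact ⟨1 - t, t, by linarith [ht.2], ht.1, by ring, by simp⟩
  obtain ⟨δ, hδ, hsub⟩ := hK0c.exists_cthickening_subset_open hΩ hK0Ω
  refine ⟨δ, hδ, fun α hα x hx u0 u1 h0 h1 v hv => hsub ?_⟩
  rw [← segment_eq_uIcc] at hv
  obtain ⟨c, d, hc, hd, hcd, rfl⟩ := hv
  refine Metric.mem_cthickening_of_dist_le _ ((0 : ℝ), x, (1 - d) * r0 x + d * r1 x) _ _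
    ⟨(x, d), ⟨hx, hd, by linarith⟩, rfl⟩ ?_
  have e : c = 1 - d := by linarith
  simp only [smul_eq_mul, Prod.dist_eq, Real.dist_eq, sub_zero, sub_self, abs_zero]
  refine max_le hα.le (max_le hδ.le ?_)
  rw [e, show (1 - d) * u0 + d * u1 - ((1 - d) * r0 x + d * r1 x) =
    (1 - d) * (u0 - r0 x) + d * (u1 - r1 x) by ring]
  have hd1 : 0 ≤ 1 - d := by linarith
  calc |(1 - d) * (u0 - r0 x) + d * (u1 - r1 x)| ≤
      |(1 - d) * (u0 - r0 x)| + |d * (u1 - r1 x)| := abs_add_le _ _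
    _ = (1 - d) * |u0 - r0 x| + d * |u1 - r1 x| := by
      rw [abs_mul, abs_mul, abs_of_nonneg hd1, abs_of_nonneg hd]
    _ ≤ (1 - d) * δ + d * δ := by
      gcongr
    _ = δ := by ring

/-- One solution persists. -/
theorem persist_one (F : ℝ × ℝ × ℝ → ℝ) (Ω : Set (ℝ × ℝ × ℝ)) (hΩ : IsOpen Ω)
    (hF : ContDiffOn ℝ 1 F Ω) {a b : ℝ} (hab : a ≤ b) {r : ℝ → ℝ}
    (e : Sl (fun x v => F (0, x, v)) a b r) (hK : ∀ x ∈ Icc a b, ((0 : ℝ), x, r x) ∈ Ω)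
    {δ : ℝ} (hδ : 0 < δ) :
    ∃ ε > 0, ∀ α : ℝ, |α| < ε → ∃ z : ℝ → ℝ, z a = r a ∧ (∀ x ∈ Icc a b, |z x - r x| < δ) ∧
      (∀ x ∈ Icc a b, (α, x, z x) ∈ Ω) ∧ Sl (fun x v => F (α, x, v)) a b z := by
  obtain ⟨ε, hε, h⟩ := half_persist F Ω hΩ hF hab r r e e (fun x _ => le_rfl)
    (fun x hx v hv => by rw [le_antisymm hv.2 hv.1]; exact hK x hx) δ hδ
  refine ⟨ε, hε, fun α hα => ?_⟩
  obtain ⟨Φ, hΦ, -, -, -⟩ := h α hα
  obtain ⟨h1, h2, h3⟩ := hΦ (r a) ⟨le_rfl, le_rfl⟩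
  exact ⟨Φ (r a), h1, fun x hx => abs_lt.2 ⟨by linarith [(h3 x hx).1], by linarith [(h3 x hx).2.1]⟩,
    fun x hx => (h3 x hx).2.2, h2⟩

/-- **An alternating family of solutions persists.** -/
theorem persist_many (F : ℝ × ℝ × ℝ → ℝ) (Ω : Set (ℝ × ℝ × ℝ)) (hΩ : IsOpen Ω)
    (hF : ContDiffOn ℝ 1 F Ω) {a b : ℝ} (hab : a < b) (N : ℕ) (y : ℕ → ℝ → ℝ)
    (e : ∀ i ≤ N, Sl (fun x v => F (0, x, v)) a b (y i))
    (hKi : ∀ i ≤ N, ∀ x ∈ Icc a b, ((0 : ℝ), x, y i x) ∈ Ω)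
    (hK : ∀ i < N, ∀ x ∈ Icc a b, ∀ v ∈ uIcc (y i x) (y (i + 1) x), ((0 : ℝ), x, v) ∈ Ω)
    (hs : ∀ i < N, (y i b - y i a) * (y (i + 1) b - y (i + 1) a) < 0) :
    ∃ ε > 0, ∀ α : ℝ, |α| < ε → ∃ z : ℕ → ℝ → ℝ, (∀ i ≤ N, z i a = y i a) ∧
      (∀ i ≤ N, Sl (fun x v => F (α, x, v)) a b (z i)) ∧
      (∀ i < N, ∀ x ∈ Icc a b, ∀ v ∈ uIcc (z i x) (z (i + 1) x), (α, x, v) ∈ Ω) ∧
      (∀ i < N, (z i b - z i a) * (z (i + 1) b - z (i + 1) a) < 0) := by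
  have hbI : b ∈ Icc a b := ⟨hab.le, le_rfl⟩
  -- the tubes
  have htube : ∀ i : Fin N, ∃ δ > 0, ∀ α : ℝ, |α| < δ → ∀ x ∈ Icc a b, ∀ u0 u1 : ℝ,
      |u0 - y i x| < δ → |u1 - y (i + 1) x| < δ → ∀ v ∈ uIcc u0 u1, (α, x, v) ∈ Ω := fun i =>
    exists_tube Ω hΩ (e i i.2.le).contOn (e (i + 1) i.2).contOn (hK i i.2)
  choose δ1 hδ1 htube using htube
  -- the sign tolerance
  have hsg : ∀ i : Fin N, ∃ δ > 0, ∀ u0 u1 : ℝ, |u0 - y i b| < δ → |u1 - y (i + 1) b| < δ →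
      (u0 - y i a) * (u1 - y (i + 1) a) < 0 := by
    intro i
    have h0 := hs i i.2
    refine ⟨min |y i b - y i a| |y (i + 1) b - y (i + 1) a|, ?_, fun u0 u1 hu0 hu1 => ?_⟩
    · refine lt_min (abs_pos.2 fun h => ?_) (abs_pos.2 fun h => ?_)
      · rw [h, zero_mul] at h0; exact lt_irrefl _ h0
      · rw [h, mul_zero] at h0; exact lt_irrefl _ h0
    · have k0 := abs_lt.1 (hu0.trans_le (min_le_left _ _))
      have k1 := abs_lt.1 (hu1.trans_le (min_le_right _ _))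
      rcases mul_neg_iff.1 h0 with ⟨hp, hn⟩ | ⟨hn, hp⟩
      · rw [abs_of_pos hp] at k0
        rw [abs_of_neg hn] at k1
        exact mul_neg_of_pos_of_neg (by linarith [k0.1]) (by linarith [k1.2])
      · rw [abs_of_neg hn] at k0
        rw [abs_of_pos hp] at k1
        exact mul_neg_of_neg_of_pos (by linarith [k0.2]) (by linarith [k1.1])
  choose δ2 hδ2 hsg using hsg
  obtain ⟨δ, hδ, hδle⟩ : ∃ δ > 0, ∀ i : Fin N, δ ≤ δ1 i ∧ δ ≤ δ2 i := by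
    have h : ∀ᶠ δ in 𝓝[>] (0 : ℝ), ∀ i : Fin N, δ ≤ δ1 i ∧ δ ≤ δ2 i := by
      refine Filter.eventually_all.2 fun i => ?_
      filter_upwards [Ioo_mem_nhdsGT (lt_min (hδ1 i) (hδ2 i))] with d hd
      exact ⟨hd.2.le.trans (min_le_left _ _), hd.2.le.trans (min_le_right _ _)⟩
    obtain ⟨δ, h1, h2⟩ := (h.and self_mem_nhdsWithin).exists
    exact ⟨δ, h2, h1⟩
  have hone : ∀ i : Fin (N + 1), ∃ ε > 0, ∀ α : ℝ, |α| < ε → ∃ z : ℝ → ℝ, z a = y i a ∧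
      (∀ x ∈ Icc a b, |z x - y i x| < δ) ∧
      (∀ x ∈ Icc a b, (α, x, z x) ∈ Ω) ∧ Sl (fun x v => F (α, x, v)) a b z := fun i =>
    persist_one F Ω hΩ hF hab.le (e i (Nat.lt_succ_iff.1 i.2)) (hKi i (Nat.lt_succ_iff.1 i.2)) hδ
  choose ε1 hε1 hone using hone
  obtain ⟨ε, hε, hεle⟩ : ∃ ε > 0, (∀ i : Fin (N + 1), ε ≤ ε1 i) ∧ ε ≤ δ := by
    have h : ∀ᶠ ε in 𝓝[>] (0 : ℝ), (∀ i : Fin (N + 1), ε ≤ ε1 i) ∧ ε ≤ δ := by
      refine Filter.Eventually.and (Filter.eventually_all.2 fun i => ?_) ?_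
      · filter_upwards [Ioo_mem_nhdsGT (hε1 i)] with d hd
        exact hd.2.le
      · filter_upwards [Ioo_mem_nhdsGT hδ] with d hd
        exact hd.2.le
    obtain ⟨ε, h1, h2⟩ := (h.and self_mem_nhdsWithin).exists
    exact ⟨ε, h2, h1⟩
  refine ⟨ε, hε, fun α hα => ?_⟩
  have H : ∀ i : ℕ, ∃ z : ℝ → ℝ, i ≤ N → z a = y i a ∧
      (∀ x ∈ Icc a b, |z x - y i x| < δ) ∧ Sl (fun x v => F (α, x, v)) a b z := by
    intro i
    by_cases hi : i ≤ N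
    · obtain ⟨z, h1, h2, -, h4⟩ := hone ⟨i, Nat.lt_succ_iff.2 hi⟩ α (hα.trans_le (hεle.1 _))
      exact ⟨z, fun _ => ⟨h1, h2, h4⟩⟩
    · exact ⟨fun _ => 0, fun h => absurd h hi⟩
  choose z hz using H
  refine ⟨z, fun i hi => (hz i hi).1, fun i hi => (hz i hi).2.2, fun i hi x hx v hv => ?_,
    fun i hi => ?_⟩
  · exact htube ⟨i, hi⟩ α (hα.trans_le (hεle.2.trans (hδle ⟨i, hi⟩).1)) x hx _ _
      (((hz i hi.le).2.1 x hx).trans_le (hδle ⟨i, hi⟩).1)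
      (((hz (i + 1) hi).2.1 x hx).trans_le (hδle ⟨i, hi⟩).1) v hv
  · rw [(hz i hi.le).1, (hz (i + 1) hi).1]
    exact hsg ⟨i, hi⟩ _ _ (((hz i hi.le).2.1 b hbI).trans_le (hδle ⟨i, hi⟩).2)
      (((hz (i + 1) hi).2.1 b hbI).trans_le (hδle ⟨i, hi⟩).2)

end Pool.Agent.Lib.MP_95e7ec_an.Pw
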