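import Mathlib
import Pool.Agent.Lib.MP_95e7ec_an.Defs
import Pool.Agent.Lib.MP_95e7ec_an.Orbits
import Pool.Agent.Lib.MP_95e7ec_an.AvgDefs
import Pool.Agent.Lib.MP_95e7ec_an.Rt.Mean2

/-!
# Isolation of the closed orbits of the turned fields

For almost every angle `α` the field `turn α (vf P Q)` has only finitely many closed orbits, so
they are limit cycles. Hence a number of closed orbits which is present for all small `α` is a lower
bound for the Hilbert number.
-/

set_option autoImplicit false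

open Set Filter Topology MeasureTheory
open scoped ENNReal

namespace Pool.Agent.Lib.MP_95e7ec_an.Pw

/-- The turned polynomial field is a polynomial field. -/
theorem turn_vf (α : ℝ) (P Q : MvPolynomial (Fin 2) ℝ) :
    turn α (vf P Q) = vf (MvPolynomial.C (Real.cos α) * P - MvPolynomial.C (Real.sin α) * Q)
      (MvPolynomial.C (Real.sin α) * P + MvPolynomial.C (Real.cos α) * Q) := by
  funext z
  simp [turn, vf]

theorem degree_turn {d : ℕ} {P Q : MvPolynomial (Fin 2) ℝ} (hP : P.totalDegree ≤ d)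
    (hQ : Q.totalDegree ≤ d) (s t : ℝ) :
    (MvPolynomial.C s * P + MvPolynomial.C t * Q).totalDegree ≤ d := by
  refine (MvPolynomial.totalDegree_add _ _).trans (max_le ?_ ?_)
  · refine (MvPolynomial.totalDegree_mul _ _).trans ?_
    rw [MvPolynomial.totalDegree_C]
    omega
  · refine (MvPolynomial.totalDegree_mul _ _).trans ?_
    rw [MvPolynomial.totalDegree_C]
    omega

theorem degree_turn' {d : ℕ} {P Q : MvPolynomial (Fin 2) ℝ} (hP : P.totalDegree ≤ d)
    (hQ : Q.totalDegree ≤ d) (s t : ℝ) :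
    (MvPolynomial.C s * P - MvPolynomial.C t * Q).totalDegree ≤ d := by
  have h : MvPolynomial.C s * P - MvPolynomial.C t * Q =
      MvPolynomial.C s * P + MvPolynomial.C (-t) * Q := by
    rw [map_neg]; ring
  rw [h]
  exact degree_turn hP hQ s (-t)

/-- If a polynomial field has only finitely many closed orbits, they are all limit cycles. -/
theorem isLimitCycle_of_finite {d : ℕ} {P Q : MvPolynomial (Fin 2) ℝ} (hP : P.totalDegree ≤ d)
    (hQ : Q.totalDegree ≤ d) (hfin : {C | IsClosedOrbit (vf P Q) C}.Finite) {C : Set (ℝ × ℝ)}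
    (hC : IsClosedOrbit (vf P Q) C) : IsLimitCycle (vf P Q) C := by
  have hne : ∀ C' : {C | IsClosedOrbit (vf P Q) C}, ∃ p : ℝ × ℝ, p ∈ (C' : Set (ℝ × ℝ)) := by
    rintro ⟨C', γ, T, hT, h1, h2, h3, rfl⟩
    exact ⟨γ 0, 0, rfl⟩
  choose p hp using hne
  have hfin' : Finite {C | IsClosedOrbit (vf P Q) C} := hfin
  set A : Set (ℝ × ℝ) := p '' {C' | (C' : Set (ℝ × ℝ)) ≠ C} with hA
  have hAfin : A.Finite := (Set.toFinite _).image _
  refine ⟨hC, Aᶜ, hAfin.isClosed.isOpen_compl, ?_, ?_⟩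
  · rintro x hx ⟨C', hC', rfl⟩
    apply hC'
    have key : ∀ D D' : Set (ℝ × ℝ), IsClosedOrbit (vf P Q) D → IsClosedOrbit (vf P Q) D' →
        ∀ q : ℝ × ℝ, q ∈ D → q ∈ D' → D = D' := by
      intro D D' h1 h2 q hq hq'
      rw [vf_eq_vfc hP hQ] at h1 h2
      exact h1.eq_of_mem h2 hq hq'
    exact key _ _ C'.2 hC _ (hp C') hx
  · intro C' hC' hsub
    by_contra hcon
    exact hsub (hp ⟨C', hC'⟩) ⟨⟨C', hC'⟩, hcon, rfl⟩

/-- A number of closed orbits which is present for all small angles is a lower bound for the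
Hilbert number. -/
theorem le_hilbert_of_turn {d K : ℕ} (hd : 1 ≤ d) (P Q : MvPolynomial (Fin 2) ℝ)
    (hP : P.totalDegree ≤ d) (hQ : Q.totalDegree ≤ d) {ε : ℝ} (hε : 0 < ε)
    (h : ∀ α ∈ Ioo 0 ε, (K : ℕ∞) ≤ {C | IsClosedOrbit (turn α (vf P Q)) C}.encard) :
    (K : ℕ∞) ≤ hilbertNumber d := by
  obtain ⟨K0, hK0⟩ := mean_theorem2
  obtain ⟨hmeas, hint⟩ := hK0 d hd P Q hP hQ
  have hlt : ∫⁻ a in Icc 0 (2 * Real.pi), allN (turn a (vf P Q)) ≠ ⊤ :=
    (hint.trans_lt ENNReal.ofReal_lt_top).ne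
  have hae : ∀ᵐ a ∂(volume.restrict (Icc 0 (2 * Real.pi))), allN (turn a (vf P Q)) < ⊤ :=
    ae_lt_top' hmeas hlt
  rw [ae_restrict_iff' measurableSet_Icc] at hae
  set e : ℝ := min ε (2 * Real.pi) with he
  have hepos : 0 < e := lt_min hε (by positivity)
  obtain ⟨α, hα1, hα2⟩ : ∃ α ∈ Ioo 0 e, allN (turn α (vf P Q)) < ⊤ := by
    by_contra hcon
    push Not at hcon
    have hsub : Ioo 0 e ⊆ {a | ¬ (a ∈ Icc 0 (2 * Real.pi) → allN (turn a (vf P Q)) < ⊤)} := by
      intro a ha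
      intro hcl
      have := hcl ⟨ha.1.le, (ha.2.trans_le (min_le_right _ _)).le⟩
      exact absurd (this.trans_le (hcon a ha)) (lt_irrefl _)
    have h0 : volume (Ioo 0 e) = 0 := measure_mono_null hsub (ae_iff.1 hae)
    rw [Real.volume_Ioo, sub_zero, ENNReal.ofReal_eq_zero] at h0
    linarith
  have hαε : α ∈ Ioo 0 ε := ⟨hα1.1, hα1.2.trans_le (min_le_left _ _)⟩
  have hKα := h α hαε
  have hfin : {C : Set (ℝ × ℝ) | IsClosedOrbit (turn α (vf P Q)) C}.Finite := by
    rw [← Set.encard_lt_top_iff]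
    unfold allN at hα2
    exact ENat.toENNReal_lt_top.1 hα2
  rw [turn_vf] at hfin hKα
  set P' := MvPolynomial.C (Real.cos α) * P - MvPolynomial.C (Real.sin α) * Q with hP'
  set Q' := MvPolynomial.C (Real.sin α) * P + MvPolynomial.C (Real.cos α) * Q with hQ'
  have dP : P'.totalDegree ≤ d := degree_turn' hP hQ _ _
  have dQ : Q'.totalDegree ≤ d := degree_turn hP hQ _ _
  have hle : {C | IsClosedOrbit (vf P' Q') C} ⊆ {C | IsLimitCycle (vf P' Q') C} := fun C hC =>
    isLimitCycle_of_finite dP dQ hfin hC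
  calc (K : ℕ∞) ≤ {C | IsClosedOrbit (vf P' Q') C}.encard := hKα
    _ ≤ {C | IsLimitCycle (vf P' Q') C}.encard := Set.encard_le_encard hle
    _ ≤ hilbertNumber d := by
      unfold hilbertNumber
      exact le_iSup_of_le P' (le_iSup_of_le Q' (le_iSup_of_le dP (le_iSup_of_le dQ le_rfl)))

end Pool.Agent.Lib.MP_95e7ec_an.Pw
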