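import Mathlib
import Pool.Agent.Lib.MP_95e7ec_an.Pw.C2Orbit
import Pool.Agent.Lib.MP_95e7ec_an.Pw.C2Pers
import Pool.Agent.Lib.MP_95e7ec_an.Pw.CIso

/-!
# Transfer of periodic scalar equations to plane fields of low degree

If `y' = (p y + q) / (r y - s)` with trigonometric polynomials of degree `≤ k²` has solutions
`y_0, …, y_N` on `[-π, π]` whose displacements have alternating signs, then there is a plane
polynomial field of degree `≤ 7 k` with `N` limit cycles.
-/

set_option autoImplicit false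

open Set Filter Topology

namespace Pool.Agent.Lib.MP_95e7ec_an.Pw

/-- **Part C'.** -/
theorem partC2 (k N : ℕ) (hk : 1 ≤ k) (p q r s : ℝ → ℝ) (hp : IsTrig (k ^ 2) p)
    (hq : IsTrig (k ^ 2) q) (hr : IsTrig (k ^ 2) r) (hs : IsTrig (k ^ 2) s) (y : ℕ → ℝ → ℝ)
    (hy : ∀ i ≤ N, ∀ x ∈ Icc (-Real.pi) Real.pi, 0 < r x * y i x - s x ∧
      HasDerivWithinAt (y i) ((p x * y i x + q x) / (r x * y i x - s x))
        (Icc (-Real.pi) Real.pi) x)
    (hord : ∀ i < N, y i (-Real.pi) < y (i + 1) (-Real.pi))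
    (hsign : ∀ i < N, (y i Real.pi - y i (-Real.pi)) *
      (y (i + 1) Real.pi - y (i + 1) (-Real.pi)) < 0) :
    (N : ℕ∞) ≤ hilbertNumber (7 * k) := by
  have hpi := Real.pi_pos
  have hab : -Real.pi < Real.pi := by linarith
  have hmL : -Real.pi ∈ Icc (-Real.pi) Real.pi := ⟨le_rfl, by linarith⟩
  obtain ⟨A, A', dA, dA', hA⟩ := hp.eo
  obtain ⟨B, B', dB, dB', hB⟩ := hq.eo
  obtain ⟨C, C', dC, dC', hC⟩ := hr.eo
  obtain ⟨D, D', dD, dD', hD⟩ := hs.eo
  set O : Oct := ⟨A, A', B, B', C, C', D, D'⟩ with hO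
  have hden : ∀ x v, denf k O 0 x v = r x * v - s x := fun x v => by
    simp only [denf, trf_zero, hC, hD, hO]
  have hnum : ∀ x v, numf k O 0 x v = p x * v + q x := fun x v => by
    simp only [numf, trf_zero, hA, hB, hO]
  have hF1 : ∀ x v, F1 k O (0, x, v) = (p x * v + q x) / (r x * v - s x) := fun x v => by
    simp only [F1, hden, hnum, zero_mul, add_zero, one_mul]
  have hO1 : ∀ x v, 0 < r x * v - s x → ((0 : ℝ), x, v) ∈ Om1 k O := fun x v h =>
    ⟨by simp, by simpa only [hden] using h⟩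
  have hseg : ∀ i < N, ∀ x ∈ Icc (-Real.pi) Real.pi, ∀ v ∈ uIcc (y i x) (y (i + 1) x),
      0 < r x * v - s x := by
    intro i hi x hx v hv
    have h1 := (hy i hi.le x hx).1
    have h2 := (hy (i + 1) hi x hx).1
    rw [← segment_eq_uIcc] at hv
    obtain ⟨c, d, hc, hd, hcd, rfl⟩ := hv
    have e : r x * (c • y i x + d • y (i + 1) x) - s x =
        c * (r x * y i x - s x) + d * (r x * y (i + 1) x - s x) := by
      have : d = 1 - c := by linarith
      rw [this]
      simp only [smul_eq_mul]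
      ring
    rw [e]
    rcases eq_or_lt_of_le hc with h | h
    · have : d = 1 := by linarith
      rw [← h, this]
      linarith
    · have := mul_pos h h1
      have := mul_nonneg hd h2.le
      linarith
  -- the first step
  obtain ⟨ε0, hε0, H0⟩ := persist_many (F1 k O) (Om1 k O) (isOpen_Om1 k O) (contDiffOn_F1 k O) hab
    N y (fun i hi x hx => by
      have := (hy i hi x hx).2
      simpa only [hF1] using this)
    (fun i hi x hx => hO1 x _ (hy i hi x hx).1)
    (fun i hi x hx v hv => hO1 x _ (hseg i hi x hx v hv)) hsign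
  set ε : ℝ := ε0 / 2 with hεdef
  have hε : 0 < ε := by positivity
  obtain ⟨z, hz0, hz1, hz2, hz3⟩ := H0 ε (by rw [abs_of_pos hε]; linarith)
  set N' := numP k ε O with hN'
  set D' := denP k ε O with hD'
  set P := Pf k ε N' D' with hP
  set Q := Qf k ε N' D' with hQ
  have dN : N'.totalDegree ≤ 5 * k - 1 :=
    (degree_affh hk ε (degree_trh hk ε dA dA') (degree_trh hk ε dB dB')).1
  have dDn : D'.totalDegree ≤ 5 * k - 1 :=
    (degree_affh hk ε (degree_trh hk ε dC dC') (degree_trh hk ε dD (by assumption))).2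
  have dP : P.totalDegree ≤ 7 * k := (degree_Pf hk ε dN dDn).trans (by omega)
  have dQ : Q.totalDegree ≤ 7 * k := degree_Qf hk ε dN dDn
  -- the second step
  have hF2 : ∀ x v, (ε, x, v) ∈ Om1 k O → F2 k P Q ε (0, x, v) = F1 k O (ε, x, v) :=
    fun x v h => F2_zero hε.ne' h.1 O
  have hO2 : ∀ x v, (ε, x, v) ∈ Om1 k O → ((0 : ℝ), x, v) ∈ Om2 k P Q ε := fun x v h =>
    ⟨h.1, by
      show 0 < va k P Q ε 0 x v
      rw [hP, hQ, hN', hD', va_zero hε.ne' h.1]
      exact h.2⟩
  have hord' : ∀ i < N, z i (-Real.pi) < z (i + 1) (-Real.pi) := fun i hi => by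
    rw [hz0 i hi.le, hz0 (i + 1) hi]
    exact hord i hi
  have H : ∀ i : Fin N, ∀ᶠ α in 𝓝[>] (0 : ℝ), ∃ C, IsClosedOrbit (turn α (vf P Q)) C ∧
      ∃ η ∈ Ioo (z i (-Real.pi)) (z (i + 1) (-Real.pi)), 0 < 1 + ε * η ∧
        ∀ η', 0 < 1 + ε * η' →
          ((Xc ε (-Real.pi) η', Vc k ε (-Real.pi) η') ∈ C ↔ η' = η) := by
    intro i
    have hi := i.2
    obtain ⟨ε1, hε1, h⟩ := persistF (F2 k P Q ε) (Om2 k P Q ε) (isOpen_Om2 k P Q ε)
      (contDiffOn_F2 k P Q ε) hab (r0 := z i) (r1 := z (i + 1))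
      ((hz1 i hi.le).congr fun x hx => hF2 x _ (hz2 i hi x hx _ left_mem_uIcc))
      ((hz1 (i + 1) hi).congr fun x hx => hF2 x _ (hz2 i hi x hx _ right_mem_uIcc))
      (hord' i hi) (fun x hx v hv => hO2 x v (hz2 i hi x hx v hv)) (hz3 i hi)
    filter_upwards [Ioo_mem_nhdsGT hε1] with α hα
    obtain ⟨ρ, h1, h2, h3, h4⟩ := h α (by rw [abs_of_pos hα.1]; exact hα.2)
    obtain ⟨C, hC1, hC2⟩ := exists_closedOrbit2 hε h3 h4 h2
    exact ⟨C, hC1, ρ (-Real.pi), h1, (h3 _ hmL).1, hC2⟩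
  have H2 := Filter.eventually_all.2 H
  obtain ⟨ε2, hε2, H3⟩ := (mem_nhdsGT_iff_exists_Ioo_subset).1 H2
  refine le_hilbert_of_turn (by omega) P Q dP dQ hε2 fun α hα => ?_
  have H4 := H3 hα
  simp only [Set.mem_ofPred_eq] at H4
  choose Cc hCc η hη hη1 hpt using H4
  have hmono : ∀ i l : ℕ, i + 1 ≤ l → l ≤ N → z (i + 1) (-Real.pi) ≤ z l (-Real.pi) := by
    intro i l hil
    induction l, hil using Nat.le_induction with
    | base => intro _; exact le_rfl
    | succ m hm ih =>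
      intro hmN
      exact (ih (by omega)).trans (hord' m (by omega)).le
  have hinj : Function.Injective Cc := by
    intro i j hij
    have h1 := (hpt i _ (hη1 i)).2 rfl
    rw [hij] at h1
    have h2 := (hpt j _ (hη1 i)).1 h1
    apply Fin.ext
    rcases lt_trichotomy (i : ℕ) j with h | h | h
    · have := hmono i j h j.2.le
      linarith [(hη i).2, (hη j).1]
    · exact h
    · have := hmono j i h i.2.le
      linarith [(hη j).2, (hη i).1]
  have hsub : Set.range Cc ⊆ {C | IsClosedOrbit (turn α (vf P Q)) C} := by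
    rintro _ ⟨j, rfl⟩
    exact hCc j
  have hcard : (Set.range Cc).encard = (N : ℕ∞) := by
    rw [← Set.image_univ, hinj.injOn.encard_image, Set.encard_univ, ENat.card_eq_coe_fintype_card,
      Fintype.card_fin]
  rw [← hcard]
  exact Set.encard_le_encard hsub

end Pool.Agent.Lib.MP_95e7ec_an.Pw
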