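import Mathlib
import Pool.Agent.Lib.MP_95e7ec_an.Pw.AInt
import Pool.Agent.Lib.MP_95e7ec_an.Pw.BPeriod
import Pool.Agent.Lib.MP_95e7ec_an.Pw.BChain
import Pool.Agent.Lib.MP_95e7ec_an.Pw.BTarget
import Pool.Agent.Lib.MP_95e7ec_an.Pw.BGlue
import Pool.Agent.Lib.MP_95e7ec_an.Pw.BMainAux

/-!
# Part B: every word of `K` letters with exponents near `1` is realised
-/

set_option autoImplicit false

open Set Filter Topology Pool.Agent.MP95e7W

namespace Pool.Agent.Lib.MP_95e7ec_an.Pw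

theorem B_main (n K : ℕ) (hK : n = 2 * K) (hK1 : 1 ≤ K) : ∃ δ : ℝ, 0 < δ ∧
    ∀ (l : List (ℝ × ℝ)) (N : ℕ) (z : ℕ → ℝ), l.length = K → (∀ p ∈ l, |p.1 - 1| ≤ δ) →
      (∀ i ≤ N, 0 < z i ∧ Ok l (z i)) → (∀ i < N, z i < z (i + 1)) →
      (∀ i ≤ N, 0 < (-1) ^ i * (wd l (z i) - z i)) →
      ∃ (p r s : ℝ → ℝ) (y : ℕ → ℝ → ℝ), IsTrig (3 * n) p ∧ IsTrig (3 * n) r ∧ IsTrig (3 * n) s ∧
        (∀ i ≤ N, ∀ x ∈ Icc (-Real.pi) Real.pi, 0 < y i x ∧ y i x < 1 ∧ 0 < r x * y i x - s x ∧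
          HasDerivWithinAt (y i) ((p x * y i x + 0) / (r x * y i x - s x))
            (Icc (-Real.pi) Real.pi) x) ∧
        (∀ i < N, y i (-Real.pi) < y (i + 1) (-Real.pi)) ∧
        (∀ i < N, (y i Real.pi - y i (-Real.pi)) *
          (y (i + 1) Real.pi - y (i + 1) (-Real.pi)) < 0) := by
  have hn : 0 < n := by omega
  obtain ⟨δ1, hδ1, hratio⟩ := exists_ratio n K hK hK1
  refine ⟨min δ1 (1 / 100), lt_min hδ1 (by norm_num), ?_⟩
  intro l N z hl hlδ hz hzm hsg
  set μ : ℕ → ℝ := fun j => (l.getD j (1, 0)).1 with hμdef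
  set b : ℕ → ℝ := fun j => (l.getD j (1, 0)).2 with hbdef
  have hμ1 : ∀ j < K, |μ j - 1| ≤ min δ1 (1 / 100) := by
    intro j hj
    refine hlδ _ ?_
    rw [List.getD_eq_getElem l _ (by omega : j < l.length)]
    exact List.getElem_mem _
  have hμδ : ∀ j < K, |μ j - 1| ≤ δ1 := fun j hj => (hμ1 j hj).trans (min_le_left _ _)
  have hμ2 : ∀ j < K, |μ j - 1| ≤ 1 / 100 := fun j hj => (hμ1 j hj).trans (min_le_right _ _)
  have hμ0 : ∀ j < K, μ j ≠ 0 := fun j hj h0 => by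
    have := hμ2 j hj
    rw [h0] at this
    norm_num at this
  obtain ⟨P, hPd, hP1, hPμ⟩ := hratio μ hμδ
  set a : ℝ → ℝ := fun x => P.eval (Real.cos x) with hadef
  have hac : Continuous a := P.continuous.comp Real.continuous_cos
  have hae : ∀ x, a (-x) = a x := fun x => by simp only [hadef, Real.cos_neg]
  have hper : ∀ j, ∃ (A C ε0 : ℝ) (W : ℝ → ℝ), j < K → PerConst n j a (μ j) A C ε0 W := by
    intro j
    by_cases hj : j < K
    · obtain ⟨L, hL⟩ := exists_perHyp n j hn P (μ j) hP1 (hPμ j hj).1 (hPμ j hj).2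
      obtain ⟨A, C, ε0, W, h⟩ := exists_perConst n j hn a hac (μ j) L hL
      exact ⟨A, C, ε0, W, fun _ => h⟩
    · exact ⟨0, 0, 0, fun _ => 0, fun h => absurd h hj⟩
  choose A C ε0 W hPC using hper
  obtain ⟨Ct, hCt, htarget⟩ := exists_target n K hK hK1 W (fun j hj => (hPC j hj).W_cont)
    (fun j hj => (hPC j hj).W_pos)
  -- the family of perturbations
  set v : ℕ → ℝ := fun j => cc μ A (j + 1) ^ μ j * b j with hvdef
  have hfam : ∀ S : ℝ, ∃ p q : Polynomial ℝ, p.natDegree ≤ K ∧ q.natDegree ≤ K ∧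
      (∀ x, |gg p q x| ≤ Ct * ∑ j ∈ Finset.range K, |Real.exp (-(μ j * S)) * v j|) ∧
      (∀ j < K, ∫ x in z0 n j..z1 n j, gg p q x * W j x = Real.exp (-(μ j * S)) * v j) ∧
      (∀ j < K, ∫ x in z0 n j..z1 n j, -gg p q (-x) * W j x = 0) := fun S =>
    htarget fun j => Real.exp (-(μ j * S)) * v j
  choose p q hp hq hbd hint hint0 using hfam
  have hGb : ∀ᶠ S in atTop, ∀ x : ℝ, |gg (p S) (q S) x| ≤ Real.exp (-(24 / 25 * S)) := by
    filter_upwards [eventually_sum_le K μ v Ct hCt hμ2] with S hS x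
    exact (hbd S x).trans hS
  -- the two chains
  have hok : ∀ i ≤ N, wd l (z i) = st μ b (z i) K ∧ ∀ j < K, 0 < st μ b (z i) j ^ μ j + b j := by
    intro i hi
    have h := wd_eq_st l (z i) (hz i hi).2
    rw [hl] at h
    exact h
  have hA : ∀ j < K, 0 < A j := fun j hj => (hPC j hj).Apos
  have hccK : 0 < cc μ A K := cc_pos μ A K hA K le_rfl
  have hR : ∀ i ≤ N, ∃ Y : ℝ → ℝ → ℝ,
      (∀ᶠ S in atTop, Y S 0 = Real.exp (-S) * z i ∧
        Gd n a (gg (p S) (q S)) 0 Real.pi (Y S)) ∧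
      Tendsto (fun S => Real.exp S * Y S Real.pi) atTop (𝓝 (cc μ A K * wd l (z i))) := by
    intro i hi
    have h := chain n K hK hK1 a hac μ A C ε0 W hμ2 hPC (fun S => gg (p S) (q S))
      (fun S => gg_continuous _ _) (hGb.mono fun S hS x _ => hS x) b (fun j hj => ?_) (z i)
      (hz i hi).1 (hok i hi).2 K le_rfl
    · rw [pl_K hK hK1, ← (hok i hi).1] at h
      exact h
    · refine tendsto_const_nhds.congr fun S => ?_
      rw [hint S j hj, ← mul_assoc, ← Real.exp_add, add_neg_cancel, Real.exp_zero, one_mul]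
  have hLft : ∀ i ≤ N, ∃ Y : ℝ → ℝ → ℝ,
      (∀ᶠ S in atTop, Y S 0 = Real.exp (-S) * z i ∧
        Gd n a (fun x => -gg (p S) (q S) (-x)) 0 Real.pi (Y S)) ∧
      Tendsto (fun S => Real.exp S * Y S Real.pi) atTop (𝓝 (cc μ A K * z i)) := by
    intro i hi
    have h := chain n K hK hK1 a hac μ A C ε0 W hμ2 hPC (fun S x => -gg (p S) (q S) (-x))
      (fun S => ((gg_continuous _ _).comp continuous_neg).neg)
      (hGb.mono fun S hS x _ => by rw [abs_neg]; exact hS (-x)) (fun _ => 0)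
      (fun j hj => ?_) (z i) (hz i hi).1 (fun j hj => ?_) K le_rfl
    · rw [pl_K hK hK1, st_zero_b μ (z i) (hz i hi).1 K hμ0 K le_rfl] at h
      exact h
    · refine tendsto_const_nhds.congr fun S => ?_
      rw [hint0 S j hj]
      ring
    · rw [st_zero_b μ (z i) (hz i hi).1 K hμ0 j hj.le, add_zero]
      exact Real.rpow_pos_of_pos (hz i hi).1 _
  have hR' : ∀ i, ∃ Y : ℝ → ℝ → ℝ, i ≤ N →
      (∀ᶠ S in atTop, Y S 0 = Real.exp (-S) * z i ∧
        Gd n a (gg (p S) (q S)) 0 Real.pi (Y S)) ∧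
      Tendsto (fun S => Real.exp S * Y S Real.pi) atTop (𝓝 (cc μ A K * wd l (z i))) := by
    intro i
    by_cases hi : i ≤ N
    · obtain ⟨Y, hY⟩ := hR i hi
      exact ⟨Y, fun _ => hY⟩
    · exact ⟨fun _ _ => 0, fun h => absurd h hi⟩
  have hLft' : ∀ i, ∃ Y : ℝ → ℝ → ℝ, i ≤ N →
      (∀ᶠ S in atTop, Y S 0 = Real.exp (-S) * z i ∧
        Gd n a (fun x => -gg (p S) (q S) (-x)) 0 Real.pi (Y S)) ∧
      Tendsto (fun S => Real.exp S * Y S Real.pi) atTop (𝓝 (cc μ A K * z i)) := by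
    intro i
    by_cases hi : i ≤ N
    · obtain ⟨Y, hY⟩ := hLft i hi
      exact ⟨Y, fun _ => hY⟩
    · exact ⟨fun _ _ => 0, fun h => absurd h hi⟩
  choose Y hY using hR'
  choose Y' hY' using hLft'
  -- one large `S`
  have e1 : ∀ᶠ S in atTop, ∀ i ∈ Finset.range (N + 1), Y i S 0 = Real.exp (-S) * z i ∧
      Gd n a (gg (p S) (q S)) 0 Real.pi (Y i S) ∧ Y' i S 0 = Real.exp (-S) * z i ∧
      Gd n a (fun x => -gg (p S) (q S) (-x)) 0 Real.pi (Y' i S) := by
    rw [Filter.eventually_all_finset]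
    intro i hi
    have hi' : i ≤ N := by
      have := Finset.mem_range.1 hi
      omega
    filter_upwards [(hY i hi').1, (hY' i hi').1] with S h1 h2
    exact ⟨h1.1, h1.2, h2.1, h2.2⟩
  have e2 : ∀ᶠ S in atTop, ∀ i ∈ Finset.range (N + 1),
      0 < (-1) ^ i * (Y i S Real.pi - Y' i S Real.pi) := by
    rw [Filter.eventually_all_finset]
    intro i hi
    have hi' : i ≤ N := by
      have := Finset.mem_range.1 hi
      omega
    have h1 : Tendsto (fun S => (-1) ^ i * (Real.exp S * Y i S Real.pi -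
        Real.exp S * Y' i S Real.pi)) atTop
        (𝓝 ((-1) ^ i * (cc μ A K * wd l (z i) - cc μ A K * z i))) :=
      ((hY i hi').2.sub (hY' i hi').2).const_mul _
    have h2 : 0 < (-1 : ℝ) ^ i * (cc μ A K * wd l (z i) - cc μ A K * z i) := by
      have := mul_pos hccK (hsg i hi')
      calc (0 : ℝ) < _ := this
        _ = _ := by ring
    filter_upwards [h1.eventually_const_lt h2] with S hS
    have h3 : (-1 : ℝ) ^ i * (Real.exp S * Y i S Real.pi - Real.exp S * Y' i S Real.pi) =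
        Real.exp S * ((-1) ^ i * (Y i S Real.pi - Y' i S Real.pi)) := by ring
    rw [h3] at hS
    exact (mul_pos_iff_of_pos_left (Real.exp_pos S)).1 hS
  have e3 : ∀ᶠ S in atTop, ∀ i ∈ Finset.range N, Y' i S Real.pi < Y' (i + 1) S Real.pi := by
    rw [Filter.eventually_all_finset]
    intro i hi
    have hi' := Finset.mem_range.1 hi
    have h1 : Tendsto (fun S => Real.exp S * Y' (i + 1) S Real.pi -
        Real.exp S * Y' i S Real.pi) atTop
        (𝓝 (cc μ A K * z (i + 1) - cc μ A K * z i)) :=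
      (hY' (i + 1) (by omega)).2.sub (hY' i (by omega)).2
    have h2 : 0 < cc μ A K * z (i + 1) - cc μ A K * z i := by
      have := mul_pos hccK (sub_pos.2 (hzm i hi'))
      calc (0 : ℝ) < _ := this
        _ = _ := by ring
    filter_upwards [h1.eventually_const_lt h2] with S hS
    have h3 : Real.exp S * Y' (i + 1) S Real.pi - Real.exp S * Y' i S Real.pi =
        Real.exp S * (Y' (i + 1) S Real.pi - Y' i S Real.pi) := by ring
    rw [h3] at hS
    exact sub_pos.1 ((mul_pos_iff_of_pos_left (Real.exp_pos S)).1 hS)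
  obtain ⟨S, hS1, hS2, hS3⟩ := (e1.and (e2.and e3)).exists
  have hpi : (0 : ℝ) ≤ Real.pi := Real.pi_pos.le
  set y : ℕ → ℝ → ℝ := fun i x => if 0 ≤ x then Y i S x else Y' i S (-x) with hy
  have hyR : ∀ i, y i Real.pi = Y i S Real.pi := fun i => by simp only [hy, if_pos hpi]
  have hyL : ∀ i, y i (-Real.pi) = Y' i S Real.pi := fun i => by
    have : ¬ (0 : ℝ) ≤ -Real.pi := by linarith [Real.pi_pos]
    simp only [hy, if_neg this, neg_neg]
  have hgood : ∀ i ≤ N, Gd n a (gg (p S) (q S)) (-Real.pi) Real.pi (y i) := by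
    intro i hi
    obtain ⟨h1, h2, h3, h4⟩ := hS1 i (Finset.mem_range.2 (by omega))
    exact Gd.glue_mirror n a _ _ _ hae h2 h4 (h1.trans h3.symm)
  refine ⟨fun x => hd n x * (1 + hd n x * gg (p S) (q S) x), fun x => 1 + a x,
    fun x => a x * hh n x, y, ?_, ?_, ?_, ?_, ?_, ?_⟩
  · have h1 : IsTrig (n + (K + 1)) fun x => hd n x * gg (p S) (q S) x :=
      (isTrig_hd n).mul (isTrig_gg (hp S) (hq S))
    have h2 : IsTrig (n + (n + (K + 1))) fun x => hd n x * (1 + hd n x * gg (p S) (q S) x) :=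
      (isTrig_hd n).mul ((IsTrig.const _ 1).add h1)
    exact IsTrig.mono (by omega) h2
  · exact (IsTrig.const (3 * n) 1).add (IsTrig.mono (by omega) (IsTrig.poly_cos P hPd))
  · have h1 : IsTrig (n + n) fun x => a x * hh n x :=
      (IsTrig.poly_cos P hPd).mul (isTrig_hh n)
    exact IsTrig.mono (by omega) h1
  · intro i hi x hx
    obtain ⟨h1, h2, h3, h4⟩ := hgood i hi x hx
    refine ⟨h1, h2.trans (by norm_num), h3, ?_⟩
    have h5 : (hd n x * (1 + hd n x * gg (p S) (q S) x) * y i x + 0) /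
        ((1 + a x) * y i x - a x * hh n x) =
        bnum (hd n) (gg (p S) (q S)) x (y i x) / bden (hh n) a x (y i x) := by
      unfold bnum bden
      rw [add_zero]
    rw [h5]
    exact h4
  · intro i hi
    rw [hyL, hyL]
    exact hS3 i (Finset.mem_range.2 hi)
  · intro i hi
    have h1 := hS2 i (Finset.mem_range.2 (by omega))
    have h2 := hS2 (i + 1) (Finset.mem_range.2 (by omega))
    rw [hyR, hyL, hyR, hyL]
    have h3 := mul_pos h1 h2
    have h4 : ((-1 : ℝ) ^ i * (-1) ^ (i + 1)) = -1 := by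
      rw [← pow_add, show i + (i + 1) = 2 * i + 1 by ring, pow_succ, pow_mul]
      norm_num
    have h5 : (-1 : ℝ) ^ i * (Y i S Real.pi - Y' i S Real.pi) *
        ((-1) ^ (i + 1) * (Y (i + 1) S Real.pi - Y' (i + 1) S Real.pi)) =
        ((-1) ^ i * (-1) ^ (i + 1)) * ((Y i S Real.pi - Y' i S Real.pi) *
          (Y (i + 1) S Real.pi - Y' (i + 1) S Real.pi)) := by ring
    rw [h5, h4] at h3
    linarith

end Pool.Agent.Lib.MP_95e7ec_an.Pw
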