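import Pool.Agent.Lib.MP_95e7ec_an.Pw.CDefs

/-!
# Trigonometric polynomials: even and odd part; the lift `X ^ m ↦ X ^ (m mod k) V ^ (m / k)`
-/

set_option autoImplicit false

open MvPolynomial

namespace Pool.Agent.Lib.MP_95e7ec_an.Pw

/-- A trigonometric polynomial is `p (cos x) + sin x q (cos x)`. -/
theorem IsTrig.exists_even_odd {M : ℕ} {f : ℝ → ℝ} (h : IsTrig M f) :
    ∃ p q : Polynomial ℝ, p.natDegree ≤ M ∧ q.natDegree ≤ M - 1 ∧
      ∀ x, f x = p.eval (Real.cos x) + Real.sin x * q.eval (Real.cos x) := by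
  obtain ⟨P, hP, hf⟩ := h
  have key : ∀ (d : Fin 2 →₀ ℕ) (a : ℝ), d 0 + d 1 = 2 * M →
      ∃ p q : Polynomial ℝ, p.natDegree ≤ M ∧ q.natDegree ≤ M - 1 ∧
        ∀ x, a * (Real.cos (x / 2) ^ d 0 * Real.sin (x / 2) ^ d 1) =
          p.eval (Real.cos x) + Real.sin x * q.eval (Real.cos x) := by
    intro d a hd
    have hc : ∀ x : ℝ, Real.cos (x / 2) ^ 2 = (1 + Real.cos x) / 2 := by
      intro x
      have := Real.cos_sq (x / 2)
      rw [this, mul_div_cancel₀ x (two_ne_zero)]
      ring
    have hs : ∀ x : ℝ, Real.sin (x / 2) ^ 2 = (1 - Real.cos x) / 2 := by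
      intro x
      have := Real.sin_sq (x / 2)
      rw [this, hc x]
      ring
    have hcs : ∀ x : ℝ, Real.cos (x / 2) * Real.sin (x / 2) = Real.sin x / 2 := by
      intro x
      have := Real.sin_two_mul (x / 2)
      rw [mul_div_cancel₀ x (two_ne_zero)] at this
      rw [this]
      ring
    rcases Nat.even_or_odd' (d 0) with ⟨i, hi | hi⟩
    · obtain ⟨j, hj⟩ : ∃ j, d 1 = 2 * j := ⟨M - i, by omega⟩
      refine ⟨Polynomial.C a * (Polynomial.C (1 / 2) * (1 + Polynomial.X)) ^ i *
        (Polynomial.C (1 / 2) * (1 - Polynomial.X)) ^ j, 0, ?_, by simp, ?_⟩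
      · have h1 : (Polynomial.C (1 / 2 : ℝ) * (1 + Polynomial.X)).natDegree ≤ 1 := by
          refine (Polynomial.natDegree_C_mul_le _ _).trans ?_
          refine (Polynomial.natDegree_add_le _ _).trans ?_
          simp
        have h2 : (Polynomial.C (1 / 2 : ℝ) * (1 - Polynomial.X)).natDegree ≤ 1 := by
          refine (Polynomial.natDegree_C_mul_le _ _).trans ?_
          refine (Polynomial.natDegree_sub_le _ _).trans ?_
          simp
        have h3 := Polynomial.natDegree_pow_le_of_le i h1
        have h4 := Polynomial.natDegree_pow_le_of_le j h2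
        refine Polynomial.natDegree_mul_le.trans ?_
        have h5 := Polynomial.natDegree_C_mul_le a
          ((Polynomial.C (1 / 2 : ℝ) * (1 + Polynomial.X)) ^ i)
        omega
      · intro x
        rw [hi, hj, pow_mul, pow_mul, hc, hs]
        simp only [Polynomial.eval_mul, Polynomial.eval_C, Polynomial.eval_pow,
          Polynomial.eval_add, Polynomial.eval_sub, Polynomial.eval_one, Polynomial.eval_X,
          Polynomial.eval_zero, mul_zero, add_zero]
        rw [show (1 / 2 : ℝ) * (1 + Real.cos x) = (1 + Real.cos x) / 2 by ring,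
          show (1 / 2 : ℝ) * (1 - Real.cos x) = (1 - Real.cos x) / 2 by ring]
        ring
    · obtain ⟨j, hj⟩ : ∃ j, d 1 = 2 * j + 1 := ⟨M - i - 1, by omega⟩
      refine ⟨0, Polynomial.C (a / 2) * (Polynomial.C (1 / 2) * (1 + Polynomial.X)) ^ i *
        (Polynomial.C (1 / 2) * (1 - Polynomial.X)) ^ j, by simp, ?_, ?_⟩
      · have h1 : (Polynomial.C (1 / 2 : ℝ) * (1 + Polynomial.X)).natDegree ≤ 1 := by
          refine (Polynomial.natDegree_C_mul_le _ _).trans ?_
          refine (Polynomial.natDegree_add_le _ _).trans ?_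
          simp
        have h2 : (Polynomial.C (1 / 2 : ℝ) * (1 - Polynomial.X)).natDegree ≤ 1 := by
          refine (Polynomial.natDegree_C_mul_le _ _).trans ?_
          refine (Polynomial.natDegree_sub_le _ _).trans ?_
          simp
        have h3 := Polynomial.natDegree_pow_le_of_le i h1
        have h4 := Polynomial.natDegree_pow_le_of_le j h2
        refine Polynomial.natDegree_mul_le.trans ?_
        have h5 := Polynomial.natDegree_C_mul_le (a / 2)
          ((Polynomial.C (1 / 2 : ℝ) * (1 + Polynomial.X)) ^ i)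
        omega
      · intro x
        rw [hi, hj, pow_succ, pow_succ, pow_mul, pow_mul, hc, hs]
        simp only [Polynomial.eval_mul, Polynomial.eval_C, Polynomial.eval_pow,
          Polynomial.eval_add, Polynomial.eval_sub, Polynomial.eval_one, Polynomial.eval_X,
          Polynomial.eval_zero, zero_add]
        rw [show (1 / 2 : ℝ) * (1 + Real.cos x) = (1 + Real.cos x) / 2 by ring,
          show (1 / 2 : ℝ) * (1 - Real.cos x) = (1 - Real.cos x) / 2 by ring]
        have := hcs x
        linear_combination (a * ((1 + Real.cos x) / 2) ^ i * ((1 - Real.cos x) / 2) ^ j) * this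
  have hsum : ∀ s : Finset (Fin 2 →₀ ℕ), (∀ d ∈ s, d 0 + d 1 = 2 * M) →
      ∃ p q : Polynomial ℝ, p.natDegree ≤ M ∧ q.natDegree ≤ M - 1 ∧
        ∀ x, ∑ d ∈ s, P.coeff d * (Real.cos (x / 2) ^ d 0 * Real.sin (x / 2) ^ d 1) =
          p.eval (Real.cos x) + Real.sin x * q.eval (Real.cos x) := by
    classical
    intro s
    induction s using Finset.induction_on with
    | empty => exact fun _ => ⟨0, 0, by simp, by simp, by simp⟩
    | insert d s hd ih =>
      intro hs
      obtain ⟨p, q, hp, hq, hpq⟩ := ih fun e he => hs e (Finset.mem_insert_of_mem he)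
      obtain ⟨p', q', hp', hq', hpq'⟩ := key d (P.coeff d) (hs d (Finset.mem_insert_self _ _))
      refine ⟨p' + p, q' + q, (Polynomial.natDegree_add_le _ _).trans (max_le hp' hp),
        (Polynomial.natDegree_add_le _ _).trans (max_le hq' hq), fun x => ?_⟩
      rw [Finset.sum_insert hd, hpq x, hpq' x, Polynomial.eval_add, Polynomial.eval_add]
      ring
  obtain ⟨p, q, hp, hq, hpq⟩ := hsum P.support fun d hd => by
    have := hP (mem_support_iff.1 hd)
    rw [Finsupp.weight_apply, Finsupp.sum_fintype _ _ (by simp)] at this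
    simpa [Fin.sum_univ_two] using this
  refine ⟨p, q, hp, hq, fun x => ?_⟩
  rw [hf x, ← hpq x, eval_eq']
  refine Finset.sum_congr rfl fun d _ => ?_
  simp [Fin.prod_univ_two]

/-- The lift `X ^ m ↦ X ^ (m mod k) V ^ (m / k)`. -/
noncomputable def lift2 (k : ℕ) (p : Polynomial ℝ) : MvPolynomial (Fin 2) ℝ :=
  ∑ m ∈ Finset.range (p.natDegree + 1), C (p.coeff m) * (X 0 ^ (m % k) * X 1 ^ (m / k))

theorem eval_lift2 (k : ℕ) (p : Polynomial ℝ) (x : ℝ) :
    eval ![x, x ^ k] (lift2 k p) = p.eval x := by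
  unfold lift2
  rw [map_sum, Polynomial.eval_eq_sum_range]
  refine Finset.sum_congr rfl fun m _ => ?_
  simp only [map_mul, eval_C, map_pow, eval_X, Matrix.cons_val_zero, Matrix.cons_val_one]
  rw [← pow_mul, ← pow_add, Nat.mod_add_div]

theorem totalDegree_lift2 {k : ℕ} (hk : 2 ≤ k) {p : Polynomial ℝ} (hp : p.natDegree ≤ k ^ 2) :
    (lift2 k p).totalDegree ≤ 2 * k - 2 := by
  unfold lift2
  refine totalDegree_finsetSum_le fun m hm => ?_
  rw [Finset.mem_range] at hm
  have h1 : (C (p.coeff m) * (X 0 ^ (m % k) * X 1 ^ (m / k)) :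
      MvPolynomial (Fin 2) ℝ).totalDegree ≤ m % k + m / k := by
    refine (totalDegree_mul _ _).trans ?_
    rw [totalDegree_C, zero_add]
    refine (totalDegree_mul _ _).trans ?_
    rw [totalDegree_X_pow, totalDegree_X_pow]
  refine h1.trans ?_
  have h2 : m ≤ k * k := by nlinarith [hm, hp]
  have h3 := Nat.mod_lt m (show 0 < k by omega)
  have h4 := Nat.mod_add_div m k
  rcases Nat.lt_or_ge (m / k) k with h5 | h5
  · omega
  · have h6 : k * (m / k) ≥ k * k := Nat.mul_le_mul_left k h5
    have h7 : m / k ≤ k := by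
      by_contra h
      have h9 : k * (k + 1) ≤ k * (m / k) := Nat.mul_le_mul_left k (by omega)
      rw [Nat.mul_succ] at h9
      omega
    have h8 : m % k = 0 := by omega
    omega

end Pool.Agent.Lib.MP_95e7ec_an.Pw
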