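import Mathlib

/-!
# Power growth: the final arithmetic

From `K (k² - 1) ≤ H (C K + C₀)` whenever `k ^ (2 - γ) ≤ K` to `n ^ (2 + c) ≤ H n`.
-/

set_option autoImplicit false

open Filter

namespace Pool.Agent.Lib.MP_95e7ec_an

/-- Real form: the estimate for one `n`. -/
theorem pw_real {γ : ℝ} (hγ : 0 < γ) (hγ1 : γ ≤ 1) (C C0 : ℕ) (hC : 1 ≤ C) (n0 : ℕ) :
    ∃ n1 : ℕ, ∀ n : ℕ, n1 ≤ n → ∃ K k : ℕ, n0 ≤ k ∧ (k : ℝ) ^ (2 - γ) ≤ K ∧ C * K + C0 ≤ n ∧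
      (n : ℝ) ^ (2 + γ / 4) ≤ ((K * (k ^ 2 - 1) : ℕ) : ℝ) := by
  have hC' : (1 : ℝ) ≤ C := by exact_mod_cast hC
  have hC0 : (0 : ℝ) < C := by linarith
  -- `A` is a lower bound for `k`, `B` for `n ^ (γ/4)`
  set A : ℝ := max (2 * ((n0 : ℝ) + 1)) 4 with hA
  have hA4 : 4 ≤ A := le_max_right _ _
  have hAn : 2 * ((n0 : ℝ) + 1) ≤ A := le_max_left _ _
  have t1 : Tendsto (fun n : ℕ => ((n : ℝ)) ^ (γ / 4)) atTop atTop :=
    (tendsto_rpow_atTop (by positivity)).comp tendsto_natCast_atTop_atTop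
  have t2 : Tendsto (fun n : ℕ => ((n : ℝ))) atTop atTop := tendsto_natCast_atTop_atTop
  have e1 := t1.eventually_ge_atTop (8 * (2 * (C : ℝ)) ^ (2 + γ / 2))
  have e2 := t2.eventually_ge_atTop (2 * (C : ℝ) * A ^ 2)
  have e3 := t2.eventually_ge_atTop (2 * ((C0 : ℝ) + C))
  obtain ⟨n1, hn1⟩ := eventually_atTop.1 (e1.and (e2.and e3))
  refine ⟨n1, fun n hn => ?_⟩
  obtain ⟨h1, h2, h3⟩ := hn1 n hn
  have hnC0 : C0 ≤ n := by
    have : (C0 : ℝ) ≤ n := by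
      have : (0 : ℝ) ≤ C0 := Nat.cast_nonneg _
      linarith
    exact_mod_cast this
  set K : ℕ := (n - C0) / C with hK
  have hKn : C * K + C0 ≤ n := by
    have h4 : C * K ≤ n - C0 := Nat.mul_div_le (n - C0) C
    omega
  have hK2 : (n : ℝ) / (2 * C) ≤ K := by
    have h4 : n - C0 < C * (K + 1) := Nat.lt_mul_div_succ _ (by omega)
    have h5 : ((n - C0 : ℕ) : ℝ) < C * (K + 1) := by exact_mod_cast h4
    rw [Nat.cast_sub hnC0] at h5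
    rw [div_le_iff₀ (by positivity)]
    nlinarith
  have hnpos : (0 : ℝ) < n := by nlinarith [mul_pos hC0 (show (0:ℝ) < A ^ 2 by positivity)]
  have hKA : A ^ 2 ≤ K := by
    refine le_trans ?_ hK2
    rw [le_div_iff₀ (by positivity)]
    linarith
  have hKpos : (0 : ℝ) < K := lt_of_lt_of_le (by positivity) hKA
  set x : ℝ := (K : ℝ) ^ (1 / (2 - γ)) with hx
  have h2γ : 0 < 2 - γ := by linarith
  have hxpow : x ^ (2 - γ) = K := by
    rw [hx, ← Real.rpow_mul hKpos.le, one_div_mul_cancel h2γ.ne', Real.rpow_one]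
  have hx0 : 0 < x := Real.rpow_pos_of_pos hKpos _
  have hK1 : (1 : ℝ) ≤ K := by nlinarith
  have hxA : A ≤ x := by
    have h6 : (A ^ 2) ^ ((1 : ℝ) / 2) ≤ (K : ℝ) ^ ((1 : ℝ) / 2) :=
      Real.rpow_le_rpow (by positivity) hKA (by norm_num)
    have h7 : (A ^ 2) ^ ((1 : ℝ) / 2) = A := by
      rw [← Real.sqrt_eq_rpow, Real.sqrt_sq (by linarith)]
    rw [h7] at h6
    refine h6.trans (Real.rpow_le_rpow_of_exponent_le hK1 ?_)
    exact one_div_le_one_div_of_le h2γ (by linarith)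
  set k : ℕ := ⌊x⌋₊ with hk
  have hkx : (k : ℝ) ≤ x := Nat.floor_le hx0.le
  have hkx2 : x < k + 1 := Nat.lt_floor_add_one x
  have hk2 : x / 2 ≤ k := by linarith
  refine ⟨K, k, ?_, ?_, hKn, ?_⟩
  · have : (n0 : ℝ) ≤ k := by linarith
    exact_mod_cast this
  · calc (k : ℝ) ^ (2 - γ) ≤ x ^ (2 - γ) := Real.rpow_le_rpow (by positivity) hkx h2γ.le
      _ = K := hxpow
  · have hk1 : 1 ≤ k ^ 2 := by
      have : (1 : ℝ) ≤ k := by linarith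
      have h8 : 1 ≤ k := by exact_mod_cast this
      exact Nat.one_le_pow _ _ h8
    rw [Nat.cast_mul, Nat.cast_sub hk1]
    push_cast
    have h9 : x ^ 2 / 8 ≤ (k : ℝ) ^ 2 - 1 := by nlinarith
    have h10 : (K : ℝ) ^ (1 + γ / 2) ≤ x ^ 2 := by
      rw [hx, ← Real.rpow_natCast, ← Real.rpow_mul hKpos.le]
      refine Real.rpow_le_rpow_of_exponent_le hK1 ?_
      rw [Nat.cast_ofNat, div_mul_eq_mul_div, one_mul, le_div_iff₀ h2γ]
      nlinarith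
    have h11 : (K : ℝ) ^ (2 + γ / 2) = K * (K : ℝ) ^ (1 + γ / 2) := by
      rw [show (2 + γ / 2 : ℝ) = 1 + (1 + γ / 2) by ring, Real.rpow_add hKpos, Real.rpow_one]
    have h12 : ((n : ℝ) / (2 * C)) ^ (2 + γ / 2) ≤ (K : ℝ) ^ (2 + γ / 2) :=
      Real.rpow_le_rpow (by positivity) hK2 (by positivity)
    have h13 : (n : ℝ) ^ (2 + γ / 4) * 8 ≤ ((n : ℝ) / (2 * C)) ^ (2 + γ / 2) := by
      rw [Real.div_rpow hnpos.le (by positivity), le_div_iff₀ (by positivity),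
        show (2 + γ / 2 : ℝ) = (2 + γ / 4) + γ / 4 by ring, Real.rpow_add hnpos (2 + γ / 4)]
      rw [show (2 + γ / 4 : ℝ) + γ / 4 = 2 + γ / 2 by ring]
      have h14 := mul_le_mul_of_nonneg_left h1 (Real.rpow_nonneg hnpos.le (2 + γ / 4))
      linarith
    have h15 : (K : ℝ) * (x ^ 2 / 8) ≤ K * ((k : ℝ) ^ 2 - 1) :=
      mul_le_mul_of_nonneg_left h9 hKpos.le
    have h16 : (K : ℝ) * (K : ℝ) ^ (1 + γ / 2) ≤ K * x ^ 2 :=
      mul_le_mul_of_nonneg_left h10 hKpos.le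
    linarith

/-- **Power growth.** If `K (k² - 1) ≤ H (C K + C₀)` for all `K`, `k` with `n₀ ≤ k` and
`k ^ (2 - γ) ≤ K`, then `n ^ (2 + c) ≤ H n` for some `c > 0` and all large `n`. -/
theorem pw_final {H : ℕ → ℕ∞} (hmono : Monotone H) {γ : ℝ} (hγ : 0 < γ) (C C0 : ℕ)
    (hC : 1 ≤ C) (n0 : ℕ)
    (h : ∀ K k : ℕ, n0 ≤ k → (k : ℝ) ^ (2 - γ) ≤ K →
      ((K * (k ^ 2 - 1) : ℕ) : ℕ∞) ≤ H (C * K + C0)) :
    ∃ c : ℝ, 0 < c ∧ ∃ n1 : ℕ, ∀ n : ℕ, n1 ≤ n →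
      ENNReal.ofReal ((n : ℝ) ^ (2 + c)) ≤ ((H n : ℕ∞) : ENNReal) := by
  set δ : ℝ := min γ 1 with hδ
  have hδ0 : 0 < δ := lt_min hγ one_pos
  have hδ1 : δ ≤ 1 := min_le_right _ _
  have hδγ : δ ≤ γ := min_le_left _ _
  obtain ⟨n1, hn1⟩ := pw_real hδ0 hδ1 C C0 hC (max n0 1)
  refine ⟨δ / 4, by positivity, n1, fun n hn => ?_⟩
  obtain ⟨K, k, hk, hkK, hKn, hle⟩ := hn1 n hn
  have hk1 : (1 : ℝ) ≤ k := by exact_mod_cast (le_max_right n0 1).trans hk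
  have h1 : (k : ℝ) ^ (2 - γ) ≤ K :=
    (Real.rpow_le_rpow_of_exponent_le hk1 (by linarith)).trans hkK
  have h2 := (h K k ((le_max_left n0 1).trans hk) h1).trans (hmono hKn)
  have h3 : (((K * (k ^ 2 - 1) : ℕ) : ℕ∞) : ENNReal) ≤ ((H n : ℕ∞) : ENNReal) :=
    ENat.toENNReal_le.2 h2
  refine le_trans ?_ h3
  rw [ENat.toENNReal_coe]
  refine (ENNReal.ofReal_le_ofReal hle).trans ?_
  rw [ENNReal.ofReal_natCast]

/-- **Power growth, the form with the word theorem.** If for all `m ≥ m₀` there is `N ≥ m ^ (1 + c)`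
with `m N ≤ H (C m + C₀)`, then `n ^ (2 + c') ≤ H n` for some `c' > 0` and all large `n`. -/
theorem pw_final2 {H : ℕ → ℕ∞} (hmono : Monotone H) {c : ℝ} (hc : 0 < c) (C C0 : ℕ)
    (hC : 1 ≤ C) (m0 : ℕ)
    (h : ∀ m : ℕ, m0 ≤ m → ∃ N : ℕ, (m : ℝ) ^ (1 + c) ≤ N ∧ ((m * N : ℕ) : ℕ∞) ≤ H (C * m + C0)) :
    ∃ c' : ℝ, 0 < c' ∧ ∃ n1 : ℕ, ∀ n : ℕ, n1 ≤ n →
      ENNReal.ofReal ((n : ℝ) ^ (2 + c')) ≤ ((H n : ℕ∞) : ENNReal) := by
  have hC' : (1 : ℝ) ≤ C := by exact_mod_cast hC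
  have hC0 : (0 : ℝ) < C := by linarith
  have t1 : Tendsto (fun n : ℕ => ((n : ℝ)) ^ (c / 2)) atTop atTop :=
    (tendsto_rpow_atTop (by positivity)).comp tendsto_natCast_atTop_atTop
  have t2 : Tendsto (fun n : ℕ => ((n : ℝ))) atTop atTop := tendsto_natCast_atTop_atTop
  have e1 := t1.eventually_ge_atTop ((2 * (C : ℝ)) ^ (2 + c))
  have e2 := t2.eventually_ge_atTop (2 * (C : ℝ) * (m0 + 1))
  have e3 := t2.eventually_ge_atTop (2 * ((C0 : ℝ) + C))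
  obtain ⟨n1, hn1⟩ := eventually_atTop.1 (e1.and (e2.and e3))
  refine ⟨c / 2, by positivity, n1, fun n hn => ?_⟩
  obtain ⟨h1, h2, h3⟩ := hn1 n hn
  have hC00 : (0 : ℝ) ≤ C0 := Nat.cast_nonneg _
  have hm00 : (0 : ℝ) ≤ m0 := Nat.cast_nonneg _
  have hnC0 : C0 ≤ n := by
    have : (C0 : ℝ) ≤ n := by linarith
    exact_mod_cast this
  have hnpos : (0 : ℝ) < n := by nlinarith
  set m : ℕ := (n - C0) / C with hm
  have hmn : C * m + C0 ≤ n := by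
    have h4 : C * m ≤ n - C0 := Nat.mul_div_le (n - C0) C
    omega
  have hm2 : (n : ℝ) / (2 * C) ≤ m := by
    have h4 : n - C0 < C * (m + 1) := Nat.lt_mul_div_succ _ (by omega)
    have h5 : ((n - C0 : ℕ) : ℝ) < C * (m + 1) := by exact_mod_cast h4
    rw [Nat.cast_sub hnC0] at h5
    rw [div_le_iff₀ (by positivity)]
    nlinarith
  have hm0 : m0 ≤ m := by
    have : (m0 : ℝ) ≤ m := by
      refine le_trans ?_ hm2
      rw [le_div_iff₀ (by positivity)]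
      nlinarith
    exact_mod_cast this
  have hmpos : (0 : ℝ) < m := lt_of_lt_of_le (by positivity) hm2
  obtain ⟨N, hN, hH⟩ := h m hm0
  have h6 : (((m * N : ℕ) : ℕ∞) : ENNReal) ≤ ((H n : ℕ∞) : ENNReal) :=
    ENat.toENNReal_le.2 (hH.trans (hmono hmn))
  refine le_trans ?_ h6
  rw [ENat.toENNReal_coe, ← ENNReal.ofReal_natCast]
  refine ENNReal.ofReal_le_ofReal ?_
  push_cast
  have h7 : (m : ℝ) ^ (2 + c) ≤ m * N := by
    rw [show (2 + c : ℝ) = 1 + (1 + c) by ring, Real.rpow_add hmpos, Real.rpow_one]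
    exact mul_le_mul_of_nonneg_left hN hmpos.le
  refine le_trans ?_ h7
  have h8 : ((n : ℝ) / (2 * C)) ^ (2 + c) ≤ (m : ℝ) ^ (2 + c) :=
    Real.rpow_le_rpow (by positivity) hm2 (by positivity)
  refine le_trans ?_ h8
  rw [Real.div_rpow hnpos.le (by positivity), le_div_iff₀ (by positivity),
    show (2 + c : ℝ) = (2 + c / 2) + c / 2 by ring, Real.rpow_add hnpos (2 + c / 2)]
  rw [show (2 + c / 2 : ℝ) + c / 2 = 2 + c by ring]
  exact mul_le_mul_of_nonneg_left h1 (Real.rpow_nonneg hnpos.le (2 + c / 2))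

end Pool.Agent.Lib.MP_95e7ec_an
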