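import Mathlib
import Pool.Agent.Lib.MP_95e7ec_an.Pw.CDefs

/-!
# Power growth, part C: the branches of `y = T_n (ρ - 2)`
-/

set_option autoImplicit false

open Set Filter Topology Polynomial.Chebyshev

namespace Pool.Agent.Lib.MP_95e7ec_an.Pw

/-- the angle of branch `k`: `cos (n θ) = y`, `k π < n θ < (k+1) π` -/
noncomputable def ang (n k : ℕ) (y : ℝ) : ℝ :=
  (k * Real.pi + Real.arccos ((-1) ^ k * y)) / n

/-- branch `k` of the inverse of `ρ ↦ T_n (ρ - 2)` -/
noncomputable def brn (n k : ℕ) (y : ℝ) : ℝ := 2 + Real.cos (ang n k y)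

theorem abs_sgn_mul (k : ℕ) (y : ℝ) : |(-1 : ℝ) ^ k * y| = |y| := by
  rw [abs_mul, abs_pow, abs_neg, abs_one, one_pow, one_mul]

theorem sgn_mul_self (k : ℕ) : (-1 : ℝ) ^ k * (-1) ^ k = 1 := by
  rw [← mul_pow]; norm_num

theorem arccos_mem {z : ℝ} (hz : |z| < 1) : 0 < Real.arccos z ∧ Real.arccos z < Real.pi := by
  obtain ⟨h1, h2⟩ := abs_lt.1 hz
  refine ⟨Real.arccos_pos.2 h2, lt_of_le_of_ne (Real.arccos_le_pi z) fun h => ?_⟩
  have := Real.arccos_eq_pi.1 h
  linarith

theorem ang_mem {n k : ℕ} (hn : 0 < n) {y : ℝ} (hy : |y| < 1) :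
    k * Real.pi / n < ang n k y ∧ ang n k y < (k + 1) * Real.pi / n := by
  have hn' : (0 : ℝ) < n := by exact_mod_cast hn
  obtain ⟨h1, h2⟩ := arccos_mem (z := (-1) ^ k * y) (by rwa [abs_sgn_mul])
  unfold ang
  constructor
  · exact div_lt_div_of_pos_right (by linarith) hn'
  · exact div_lt_div_of_pos_right (by linarith) hn'

theorem ang_mem_pi {n k : ℕ} (hk : k < n) {y : ℝ} (hy : |y| < 1) :
    0 < ang n k y ∧ ang n k y < Real.pi := by
  have hn : 0 < n := by omega
  have hn' : (0 : ℝ) < n := by exact_mod_cast hn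
  obtain ⟨h1, h2⟩ := ang_mem (k := k) hn hy
  have hpi := Real.pi_pos
  constructor
  · refine lt_of_le_of_lt (by positivity) h1
  · refine lt_of_lt_of_le h2 ?_
    rw [div_le_iff₀ hn']
    have : ((k : ℝ) + 1) ≤ n := by exact_mod_cast hk
    nlinarith

theorem brn_mem {n k : ℕ} (hk : k < n) {y : ℝ} (hy : |y| < 1) : 1 < brn n k y ∧ brn n k y < 3 := by
  obtain ⟨h1, h2⟩ := ang_mem_pi hk hy
  have e1 := Real.cos_lt_cos_of_nonneg_of_le_pi le_rfl h2.le h1
  have e2 := Real.cos_lt_cos_of_nonneg_of_le_pi h1.le le_rfl h2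
  rw [Real.cos_zero] at e1
  rw [Real.cos_pi] at e2
  unfold brn
  constructor <;> linarith

theorem n_mul_ang {n k : ℕ} (hn : 0 < n) (y : ℝ) :
    ((n : ℤ) : ℝ) * ang n k y = Real.arccos ((-1) ^ k * y) + k * Real.pi := by
  have hn' : (n : ℝ) ≠ 0 := by positivity
  unfold ang
  push_cast
  field_simp
  ring

theorem T_brn {n k : ℕ} (hn : 0 < n) {y : ℝ} (hy : |y| < 1) :
    (T ℝ n).eval (brn n k y - 2) = y := by
  have h1 : brn n k y - 2 = Real.cos (ang n k y) := by unfold brn; ring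
  obtain ⟨a1, a2⟩ := abs_lt.1 (show |(-1 : ℝ) ^ k * y| < 1 by rwa [abs_sgn_mul])
  rw [h1, T_real_cos, n_mul_ang hn, Real.cos_add_nat_mul_pi, Real.cos_arccos a1.le a2.le,
    ← mul_assoc, sgn_mul_self, one_mul]

/-- the derivative of `T_n` has on branch `k` the sign `(-1)^k` -/
theorem T_deriv_brn {n k : ℕ} (hk : k < n) {y : ℝ} (hy : |y| < 1) :
    0 < (-1) ^ k * (T ℝ n).derivative.eval (brn n k y - 2) := by
  have hn : 0 < n := by omega
  have hn' : (0 : ℝ) < n := by exact_mod_cast hn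
  have h1 : brn n k y - 2 = Real.cos (ang n k y) := by unfold brn; ring
  have hz : |(-1 : ℝ) ^ k * y| < 1 := by rwa [abs_sgn_mul]
  obtain ⟨h2, h3⟩ := ang_mem_pi hk hy
  have hsin := Real.sin_pos_of_pos_of_lt_pi h2 h3
  have h4 := U_real_cos (ang n k y) ((n : ℤ) - 1)
  have h5 : (((((n : ℤ) - 1 : ℤ) : ℝ) + 1)) = ((n : ℤ) : ℝ) := by push_cast; ring
  rw [h5, n_mul_ang hn, Real.sin_add_nat_mul_pi] at h4
  obtain ⟨b1, b2⟩ := arccos_mem hz
  have hs2 := Real.sin_pos_of_pos_of_lt_pi b1 b2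
  have h6 : (-1) ^ k * (U ℝ ((n : ℤ) - 1)).eval (Real.cos (ang n k y)) =
      Real.sin (Real.arccos ((-1) ^ k * y)) / Real.sin (ang n k y) := by
    rw [eq_div_iff hsin.ne', mul_assoc, h4, ← mul_assoc, sgn_mul_self, one_mul]
  rw [h1, T_derivative_eq_U, Polynomial.eval_mul]
  have h7 : (Polynomial.eval (Real.cos (ang n k y)) ((n : ℤ) : Polynomial ℝ)) = n := by simp
  rw [h7]
  have h8 : (-1) ^ k * ((n : ℝ) * (U ℝ ((n : ℤ) - 1)).eval (Real.cos (ang n k y))) =
      n * ((-1) ^ k * (U ℝ ((n : ℤ) - 1)).eval (Real.cos (ang n k y))) := by ring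
  rw [h8, h6]
  positivity

theorem T_deriv_brn_ne {n k : ℕ} (hk : k < n) {y : ℝ} (hy : |y| < 1) :
    (T ℝ n).derivative.eval (brn n k y - 2) ≠ 0 := by
  intro h
  have := T_deriv_brn hk hy
  rw [h, mul_zero] at this
  exact lt_irrefl _ this

theorem brn_continuous (n k : ℕ) : Continuous (brn n k) := by
  unfold brn ang
  fun_prop

theorem brn_hasDerivAt {n k : ℕ} (hk : k < n) {y : ℝ} (hy : |y| < 1) :
    HasDerivAt (brn n k) ((T ℝ n).derivative.eval (brn n k y - 2))⁻¹ y := by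
  have hn : 0 < n := by omega
  have h1 : HasDerivAt (fun ρ : ℝ => (T ℝ n).eval (ρ - 2))
      ((T ℝ n).derivative.eval (brn n k y - 2)) (brn n k y) := by
    have e := ((T ℝ n).hasDerivAt (brn n k y - 2)).comp (brn n k y)
      ((hasDerivAt_id (brn n k y)).sub_const 2)
    rw [mul_one] at e
    exact e
  refine HasDerivAt.of_local_left_inverse (brn_continuous n k).continuousAt h1
    (T_deriv_brn_ne hk hy) ?_
  have hopen : IsOpen {y : ℝ | |y| < 1} := isOpen_lt continuous_abs continuous_const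
  filter_upwards [hopen.mem_nhds hy] with z hz
  exact T_brn hn hz

/-- the image of a solution on branch `k` -/
theorem brn_comp_hasDerivWithinAt {n k : ℕ} (hk : k < n) {y : ℝ → ℝ} {y' x : ℝ} {s : Set ℝ}
    (hy : HasDerivWithinAt y y' s x) (h1 : |y x| < 1) :
    HasDerivWithinAt (fun x => brn n k (y x))
      (y' / (T ℝ n).derivative.eval (brn n k (y x) - 2)) s x := by
  have := (brn_hasDerivAt hk h1).comp_hasDerivWithinAt x hy
  refine this.congr_deriv ?_
  rw [div_eq_mul_inv, mul_comm]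

/-- on branch `k` the map `(-1)^k brn` is strictly increasing -/
theorem brn_strictMono {n k : ℕ} (hk : k < n) {y z : ℝ} (hy : |y| < 1) (hz : |z| < 1)
    (hyz : y < z) : 0 < (-1) ^ k * (brn n k z - brn n k y) := by
  have hn : 0 < n := by omega
  have hn' : (0 : ℝ) < n := by exact_mod_cast hn
  obtain ⟨h2, h3⟩ := ang_mem_pi hk hy
  obtain ⟨h4, h5⟩ := ang_mem_pi hk hz
  have b1 := abs_lt.1 hy
  have b2 := abs_lt.1 hz
  rcases Nat.even_or_odd k with he | ho
  · rw [he.neg_one_pow, one_mul]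
    have h6 : ang n k z < ang n k y := by
      unfold ang
      rw [he.neg_one_pow, one_mul, one_mul]
      have := Real.strictAntiOn_arccos ⟨b1.1.le, b1.2.le⟩ ⟨b2.1.le, b2.2.le⟩ hyz
      exact div_lt_div_of_pos_right (by linarith) hn'
    have h7 := Real.cos_lt_cos_of_nonneg_of_le_pi h4.le h3.le h6
    unfold brn
    linarith
  · rw [ho.neg_one_pow]
    have h6 : ang n k y < ang n k z := by
      unfold ang
      rw [ho.neg_one_pow]
      have := Real.strictAntiOn_arccos (show -1 * z ∈ Set.Icc (-1 : ℝ) 1 from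
        ⟨by linarith [b2.2], by linarith [b2.1]⟩) (show -1 * y ∈ Set.Icc (-1 : ℝ) 1 from
        ⟨by linarith [b1.2], by linarith [b1.1]⟩) (by linarith)
      exact div_lt_div_of_pos_right (by linarith) hn'
    have h7 := Real.cos_lt_cos_of_nonneg_of_le_pi h2.le h5.le h6
    unfold brn
    linarith

/-- different branches have disjoint ranges -/
theorem brn_inj {n k l : ℕ} (hk : k < n) (hl : l < n) {y z : ℝ} (hy : |y| < 1) (hz : |z| < 1)
    (h : brn n k y = brn n l z) : k = l := by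
  have hn : 0 < n := by omega
  have hn' : (0 : ℝ) < n := by exact_mod_cast hn
  have hpi := Real.pi_pos
  have key : ∀ {k l : ℕ} (_ : k < n) (_ : l < n) {y z : ℝ} (_ : |y| < 1) (_ : |z| < 1),
      k < l → brn n l z < brn n k y := by
    intro k l hk hl y z hy hz hkl
    obtain ⟨h2, h3⟩ := ang_mem_pi hk hy
    obtain ⟨h4, h5⟩ := ang_mem_pi hl hz
    have h6 := (ang_mem (k := k) hn hy).2
    have h7 := (ang_mem (k := l) hn hz).1
    have h8 : (k + 1) * Real.pi / n ≤ l * Real.pi / n := by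
      have : (k : ℝ) + 1 ≤ l := by exact_mod_cast hkl
      gcongr
    have h9 := Real.cos_lt_cos_of_nonneg_of_le_pi h2.le h5.le (by linarith :
      ang n k y < ang n l z)
    unfold brn
    linarith
  rcases lt_trichotomy k l with hkl | hkl | hkl
  · exact absurd h (key hk hl hy hz hkl).ne'
  · exact hkl
  · exact absurd h (key hl hk hz hy hkl).ne

end Pool.Agent.Lib.MP_95e7ec_an.Pw
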