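import Mathlib
import Pool.Agent.Lib.MP_95e7ec_an.Pw.CTime
import Pool.Agent.Lib.MP_95e7ec_an.Pw.CBranch
import Pool.Agent.Lib.MP_95e7ec_an.Pw.CField
import Pool.Agent.Lib.MP_95e7ec_an.Pw.CPers
import Pool.Agent.Lib.MP_95e7ec_an.Pw.CIso

/-!
# Part C: from a periodic scalar equation to the plane

Fold `y = T_n(ρ - 2)`, `1 < ρ < 3`, `ρ = X² + Y²`, `x = 2 arg (X + i Y)`: if the solutions
`y_0, …, y_N` of `y' = (p y + q) / (r y - s)` on `[-π, π]` have displacements of alternating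
signs, then a plane field of degree `2M + 4n + 1` has `n N` limit cycles.
-/

set_option autoImplicit false

open Set Filter Topology Polynomial.Chebyshev

namespace Pool.Agent.Lib.MP_95e7ec_an.Pw

theorem contDiff_evalSub (A : Polynomial ℝ) :
    ContDiff ℝ 1 fun z : ℝ × ℝ => A.eval (z.2 - 2) := by
  have h0 : ContDiff ℝ 1 fun x : ℝ => A.eval x := by
    have := A.contDiff_aeval (𝕜 := ℝ) 1
    simpa using this
  exact h0.comp (contDiff_snd.sub contDiff_const)

theorem UU_contDiff {n M : ℕ} {p q : ℝ → ℝ} (hp : ContDiff ℝ 1 p) (hq : ContDiff ℝ 1 q) :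
    ContDiff ℝ 1 fun z : ℝ × ℝ => UU n M p q z.1 z.2 := by
  have h1 := contDiff_evalSub (T ℝ n)
  have hp' : ContDiff ℝ 1 fun z : ℝ × ℝ => p z.1 := hp.comp contDiff_fst
  have hq' : ContDiff ℝ 1 fun z : ℝ × ℝ => q z.1 := hq.comp contDiff_fst
  unfold UU
  exact (contDiff_snd.pow M).mul ((hp'.mul h1).add hq')

theorem VV_contDiff {n M : ℕ} {r s : ℝ → ℝ} (hr : ContDiff ℝ 1 r) (hs : ContDiff ℝ 1 s) :
    ContDiff ℝ 1 fun z : ℝ × ℝ => VV n M r s z.1 z.2 := by
  have h1 := contDiff_evalSub (T ℝ n)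
  have h2 := contDiff_evalSub (T ℝ n).derivative
  have hr' : ContDiff ℝ 1 fun z : ℝ × ℝ => r z.1 := hr.comp contDiff_fst
  have hs' : ContDiff ℝ 1 fun z : ℝ × ℝ => s z.1 := hs.comp contDiff_fst
  unfold VV
  exact contDiff_snd.mul ((contDiff_snd.pow M).mul (h2.mul ((hr'.mul h1).sub hs')))

/-- The value of `V` on branch `k`. -/
theorem VV_brn {n M k : ℕ} (hk : k < n) (r s : ℝ → ℝ) (x : ℝ) {y : ℝ} (hy : |y| < 1) :
    VV n M r s x (brn n k y) = brn n k y * (brn n k y ^ M *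
      ((T ℝ n).derivative.eval (brn n k y - 2) * (r x * y - s x))) := by
  unfold VV
  rw [T_brn (by omega) hy]

theorem UU_brn {n M k : ℕ} (hk : k < n) (p q : ℝ → ℝ) (x : ℝ) {y : ℝ} (hy : |y| < 1) :
    UU n M p q x (brn n k y) = brn n k y ^ M * (p x * y + q x) := by
  unfold UU
  rw [T_brn (by omega) hy]

theorem sgn_VV_pos {n M k : ℕ} (hk : k < n) {r s : ℝ → ℝ} {x y : ℝ} (hy : |y| < 1)
    (h : 0 < r x * y - s x) : 0 < (-1) ^ k * VV n M r s x (brn n k y) := by
  rw [VV_brn hk r s x hy]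
  have h1 := T_deriv_brn hk hy
  have h2 : 0 < brn n k y := by linarith [(brn_mem hk hy).1]
  have h3 : (-1) ^ k * (brn n k y * (brn n k y ^ M *
      ((T ℝ n).derivative.eval (brn n k y - 2) * (r x * y - s x)))) =
      brn n k y * (brn n k y ^ M * (((-1) ^ k * (T ℝ n).derivative.eval (brn n k y - 2)) *
        (r x * y - s x))) := by ring
  rw [h3]
  positivity

/-- the sign of `V` on the part of branch `k` between two good values -/
theorem sgn_VV_pos_uIcc {n M k : ℕ} (hk : k < n) {r s : ℝ → ℝ} {x y z : ℝ} (hy : |y| < 1)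
    (hz : |z| < 1) (h : 0 < r x * y - s x) (h' : 0 < r x * z - s x) {ρ : ℝ}
    (hρ : ρ ∈ uIcc (brn n k y) (brn n k z)) : 0 < (-1) ^ k * VV n M r s x ρ := by
  obtain ⟨η, hη, rfl⟩ := intermediate_value_uIcc (brn_continuous n k).continuousOn hρ
  have hy' := abs_lt.1 hy
  have hz' := abs_lt.1 hz
  rcases Set.mem_uIcc.1 hη with h1 | h1
  · refine sgn_VV_pos hk (abs_lt.2 ⟨by linarith [h1.1], by linarith [h1.2]⟩) ?_
    rcases le_total 0 (r x) with h2 | h2
    · nlinarith [h1.1]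
    · nlinarith [h1.2]
  · refine sgn_VV_pos hk (abs_lt.2 ⟨by linarith [h1.1], by linarith [h1.2]⟩) ?_
    rcases le_total 0 (r x) with h2 | h2
    · nlinarith [h1.1]
    · nlinarith [h1.2]

/-- The image on branch `k` of a solution of the scalar equation. -/
theorem brn_solution {n M k : ℕ} (hk : k < n) {p q r s y : ℝ → ℝ} {x : ℝ} {S : Set ℝ}
    (h1 : |y x| < 1)
    (hy : HasDerivWithinAt y ((p x * y x + q x) / (r x * y x - s x)) S x) (σ : ℝ) (hσ : σ ≠ 0) :
    HasDerivWithinAt (fun x => brn n k (y x))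
      (brn n k (y x) * (σ * UU n M p q x (brn n k (y x))) / (σ * VV n M r s x (brn n k (y x))))
      S x := by
  refine (brn_comp_hasDerivWithinAt hk hy h1).congr_deriv ?_
  rw [VV_brn hk r s x h1, UU_brn hk p q x h1]
  have e1 := T_deriv_brn_ne hk h1
  have e2 : 0 < brn n k (y x) := by linarith [(brn_mem hk h1).1]
  have e3 : brn n k (y x) ^ M ≠ 0 := (pow_pos e2 M).ne'
  field_simp

/-- One gap on one branch: for all small angles there is a closed orbit of the turned field which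
crosses the ray `x = -π` exactly once, at a point of branch `k` between the two test solutions. -/
theorem exists_orbit_gap {n M k : ℕ} (hk : k < n) {P Q : MvPolynomial (Fin 2) ℝ}
    {p q r s : ℝ → ℝ} (hp : IsTrig M p) (hq : IsTrig M q) (hr : IsTrig M r) (hs : IsTrig M s)
    (hPQ : ∀ ρ, 0 ≤ ρ → ∀ x, vf P Q (pt x ρ) =
      ((Real.sqrt ρ * Real.cos (x / 2) * UU n M p q x ρ -
        Real.sqrt ρ * Real.sin (x / 2) * VV n M r s x ρ) / 2,
       (Real.sqrt ρ * Real.sin (x / 2) * UU n M p q x ρ +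
        Real.sqrt ρ * Real.cos (x / 2) * VV n M r s x ρ) / 2))
    {y z : ℝ → ℝ}
    (hy : ∀ x ∈ Icc (-Real.pi) Real.pi, 0 < y x ∧ y x < 1 ∧ 0 < r x * y x - s x ∧
      HasDerivWithinAt y ((p x * y x + q x) / (r x * y x - s x)) (Icc (-Real.pi) Real.pi) x)
    (hz : ∀ x ∈ Icc (-Real.pi) Real.pi, 0 < z x ∧ z x < 1 ∧ 0 < r x * z x - s x ∧
      HasDerivWithinAt z ((p x * z x + q x) / (r x * z x - s x)) (Icc (-Real.pi) Real.pi) x)
    (hyz : y (-Real.pi) < z (-Real.pi))
    (hsign : (y Real.pi - y (-Real.pi)) * (z Real.pi - z (-Real.pi)) < 0) :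
    ∃ ε > 0, ∀ α ∈ Ioo (0 : ℝ) ε, ∃ C, IsClosedOrbit (turn α (vf P Q)) C ∧
      ∃ η ∈ Ioo (y (-Real.pi)) (z (-Real.pi)), ∀ ρ, 0 < ρ →
        (pt (-Real.pi) ρ ∈ C ↔ ρ = brn n k η) := by
  have hpi := Real.pi_pos
  have hn : 0 < n := by omega
  have hmL : -Real.pi ∈ Icc (-Real.pi) Real.pi := ⟨le_rfl, by linarith⟩
  have hmR : Real.pi ∈ Icc (-Real.pi) Real.pi := ⟨by linarith, le_rfl⟩
  have hyb : ∀ x ∈ Icc (-Real.pi) Real.pi, |y x| < 1 := fun x hx =>
    abs_lt.2 ⟨by linarith [(hy x hx).1], (hy x hx).2.1⟩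
  have hzb : ∀ x ∈ Icc (-Real.pi) Real.pi, |z x| < 1 := fun x hx =>
    abs_lt.2 ⟨by linarith [(hz x hx).1], (hz x hx).2.1⟩
  have hU1 : ContDiff ℝ 1 fun z : ℝ × ℝ => UU n M p q z.1 z.2 :=
    UU_contDiff hp.contDiff hq.contDiff
  have hV1 : ContDiff ℝ 1 fun z : ℝ × ℝ => VV n M r s z.1 z.2 :=
    VV_contDiff hr.contDiff hs.contDiff
  have hUper : ∀ x ρ, UU n M p q (x + 2 * Real.pi) ρ = UU n M p q x ρ := fun x ρ => by
    simp only [UU, hp.periodic, hq.periodic]
  have hVper : ∀ x ρ, VV n M r s (x + 2 * Real.pi) ρ = VV n M r s x ρ := fun x ρ => by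
    simp only [VV, hr.periodic, hs.periodic]
  set σ : ℝ := (-1) ^ k with hσ
  have hσ2 : σ * σ = 1 := sgn_mul_self k
  have hσ0 : σ ≠ 0 := fun h => by rw [h] at hσ2; norm_num at hσ2
  -- the coordinates of the turned field
  have hturn : ∀ α x ρ, 0 ≤ ρ → turn α (vf P Q) (pt x ρ) =
      ((Real.sqrt ρ * Real.cos (x / 2) *
          (Real.cos α * UU n M p q x ρ - Real.sin α * VV n M r s x ρ) -
        Real.sqrt ρ * Real.sin (x / 2) *
          (Real.sin α * UU n M p q x ρ + Real.cos α * VV n M r s x ρ)) / 2,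
       (Real.sqrt ρ * Real.sin (x / 2) *
          (Real.cos α * UU n M p q x ρ - Real.sin α * VV n M r s x ρ) +
        Real.sqrt ρ * Real.cos (x / 2) *
          (Real.sin α * UU n M p q x ρ + Real.cos α * VV n M r s x ρ)) / 2) := by
    intro α x ρ hρ
    unfold turn
    rw [hPQ ρ hρ x]
    refine Prod.ext ?_ ?_
    · simp only; ring
    · simp only; ring
  -- the two test solutions on branch `k`, in increasing order
  have main : ∀ r0 r1 : ℝ → ℝ,
      (∀ x ∈ Icc (-Real.pi) Real.pi, 1 < r0 x ∧ HasDerivWithinAt r0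
        (r0 x * (σ * UU n M p q x (r0 x)) / (σ * VV n M r s x (r0 x)))
          (Icc (-Real.pi) Real.pi) x) →
      (∀ x ∈ Icc (-Real.pi) Real.pi, HasDerivWithinAt r1
        (r1 x * (σ * UU n M p q x (r1 x)) / (σ * VV n M r s x (r1 x)))
          (Icc (-Real.pi) Real.pi) x) →
      r0 (-Real.pi) < r1 (-Real.pi) →
      (∀ x ∈ Icc (-Real.pi) Real.pi, ∀ ρ ∈ uIcc (r0 x) (r1 x), 0 < σ * VV n M r s x ρ) →
      (r0 Real.pi - r0 (-Real.pi)) * (r1 Real.pi - r1 (-Real.pi)) < 0 →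
      (∀ ρ ∈ Ioo (r0 (-Real.pi)) (r1 (-Real.pi)),
        ∃ η ∈ Ioo (y (-Real.pi)) (z (-Real.pi)), ρ = brn n k η) →
      ∃ ε > 0, ∀ α ∈ Ioo (0 : ℝ) ε, ∃ C, IsClosedOrbit (turn α (vf P Q)) C ∧
        ∃ η ∈ Ioo (y (-Real.pi)) (z (-Real.pi)), ∀ ρ, 0 < ρ →
          (pt (-Real.pi) ρ ∈ C ↔ ρ = brn n k η) := by
    intro r0 r1 h0 h1 hlt hpos hs' hrange
    obtain ⟨ε, hε, hper⟩ := persist (U := fun x ρ => σ * UU n M p q x ρ)
      (V := fun x ρ => σ * VV n M r s x ρ) (contDiff_const.mul hU1) (contDiff_const.mul hV1)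
      (by linarith : -Real.pi < Real.pi) (fun x hx => (h0 x hx).2) h1 hlt hpos hs'
      (one_half_pos (α := ℝ))
    refine ⟨ε, hε, fun α hα => ?_⟩
    obtain ⟨R, hR1, hR2, hR3⟩ := hper α (by rw [abs_of_pos hα.1]; exact hα.2)
    obtain ⟨η, hη, hRη⟩ := hrange _ hR1
    have hRpos : ∀ x ∈ Icc (-Real.pi) Real.pi, 0 < R x := fun x hx => by
      linarith [(hR3 x hx).1, (h0 x hx).1]
    have hcu : Continuous fun z : ℝ × ℝ =>
        Real.cos α * UU n M p q z.1 z.2 - Real.sin α * VV n M r s z.1 z.2 :=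
      (continuous_const.mul hU1.continuous).sub (continuous_const.mul hV1.continuous)
    have hcv : Continuous fun z : ℝ × ℝ =>
        Real.sin α * UU n M p q z.1 z.2 + Real.cos α * VV n M r s z.1 z.2 :=
      (continuous_const.mul hU1.continuous).add (continuous_const.mul hV1.continuous)
    have hpu : ∀ x ρ, Real.cos α * UU n M p q (x + 2 * Real.pi) ρ -
        Real.sin α * VV n M r s (x + 2 * Real.pi) ρ =
        Real.cos α * UU n M p q x ρ - Real.sin α * VV n M r s x ρ := fun x ρ => by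
      rw [hUper, hVper]
    have hpv : ∀ x ρ, Real.sin α * UU n M p q (x + 2 * Real.pi) ρ +
        Real.cos α * VV n M r s (x + 2 * Real.pi) ρ =
        Real.sin α * UU n M p q x ρ + Real.cos α * VV n M r s x ρ := fun x ρ => by
      rw [hUper, hVper]
    have hRd : ∀ x ∈ Icc (-Real.pi) Real.pi, HasDerivWithinAt R
        (R x * (Real.cos α * UU n M p q x (R x) - Real.sin α * VV n M r s x (R x)) /
          (Real.sin α * UU n M p q x (R x) + Real.cos α * VV n M r s x (R x)))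
        (Icc (-Real.pi) Real.pi) x := by
      intro x hx
      refine (hR3 x hx).2.2.2.congr_deriv ?_
      have e1 : R x * (Real.cos α * (σ * UU n M p q x (R x)) -
          Real.sin α * (σ * VV n M r s x (R x))) =
          σ * (R x * (Real.cos α * UU n M p q x (R x) - Real.sin α * VV n M r s x (R x))) := by
        ring
      have e2 : Real.sin α * (σ * UU n M p q x (R x)) +
          Real.cos α * (σ * VV n M r s x (R x)) =
          σ * (Real.sin α * UU n M p q x (R x) + Real.cos α * VV n M r s x (R x)) := by ring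
      rw [e1, e2, mul_div_mul_left _ _ hσ0]
    have hvs : ∀ x ∈ Icc (-Real.pi) Real.pi,
        0 < σ * (Real.sin α * UU n M p q x (R x) + Real.cos α * VV n M r s x (R x)) := by
      intro x hx
      have := (hR3 x hx).2.2.1
      have e2 : Real.sin α * (σ * UU n M p q x (R x)) +
          Real.cos α * (σ * VV n M r s x (R x)) =
          σ * (Real.sin α * UU n M p q x (R x) + Real.cos α * VV n M r s x (R x)) := by ring
      rwa [e2] at this
    have hfin : ∃ C, IsClosedOrbit (turn α (vf P Q)) C ∧ ∀ ρ, 0 < ρ →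
        (pt (-Real.pi) ρ ∈ C ↔ ρ = R (-Real.pi)) := by
      rcases Nat.even_or_odd k with he | ho
      · refine exists_closedOrbit_pos (hturn α) hcu hcv hpu hpv hRpos (fun x hx => ?_) hRd hR2
        have := hvs x hx
        rwa [hσ, he.neg_one_pow, one_mul] at this
      · refine exists_closedOrbit_neg (hturn α) hcu hcv hpu hpv hRpos (fun x hx => ?_) hRd hR2
        have := hvs x hx
        rw [hσ, ho.neg_one_pow] at this
        linarith
    obtain ⟨C, hC1, hC2⟩ := hfin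
    refine ⟨C, hC1, η, hη, fun ρ hρ => ?_⟩
    rw [hC2 ρ hρ, hRη]
  have hyz' := hyz
  have dy : ∀ x ∈ Icc (-Real.pi) Real.pi, HasDerivWithinAt (fun x => brn n k (y x))
      (brn n k (y x) * (σ * UU n M p q x (brn n k (y x))) / (σ * VV n M r s x (brn n k (y x))))
      (Icc (-Real.pi) Real.pi) x := fun x hx =>
    brn_solution hk (hyb x hx) (hy x hx).2.2.2 σ hσ0
  have dz : ∀ x ∈ Icc (-Real.pi) Real.pi, HasDerivWithinAt (fun x => brn n k (z x))
      (brn n k (z x) * (σ * UU n M p q x (brn n k (z x))) / (σ * VV n M r s x (brn n k (z x))))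
      (Icc (-Real.pi) Real.pi) x := fun x hx =>
    brn_solution hk (hzb x hx) (hz x hx).2.2.2 σ hσ0
  have hord := brn_strictMono hk (hyb _ hmL) (hzb _ hmL) hyz
  have hposV : ∀ x ∈ Icc (-Real.pi) Real.pi, ∀ ρ ∈ uIcc (brn n k (y x)) (brn n k (z x)),
      0 < σ * VV n M r s x ρ := fun x hx ρ hρ =>
    sgn_VV_pos_uIcc hk (hyb x hx) (hzb x hx) (hy x hx).2.2.1 (hz x hx).2.2.1 hρ
  -- the signs of the displacements
  have hdisp : ∀ w : ℝ → ℝ, |w Real.pi| < 1 → |w (-Real.pi)| < 1 → w Real.pi ≠ w (-Real.pi) →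
      0 < σ * ((brn n k (w Real.pi) - brn n k (w (-Real.pi))) *
        (w Real.pi - w (-Real.pi))) := by
    intro w h1 h2 h3
    rcases lt_or_gt_of_ne h3 with h | h
    · have := brn_strictMono hk h1 h2 h
      nlinarith
    · have := brn_strictMono hk h2 h1 h
      nlinarith
  have hny : y Real.pi ≠ y (-Real.pi) := by
    intro h
    rw [h, sub_self, zero_mul] at hsign
    exact lt_irrefl _ hsign
  have hnz : z Real.pi ≠ z (-Real.pi) := by
    intro h
    rw [h, sub_self, mul_zero] at hsign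
    exact lt_irrefl _ hsign
  have d1 := hdisp y (hyb _ hmR) (hyb _ hmL) hny
  have d2 := hdisp z (hzb _ hmR) (hzb _ hmL) hnz
  have hsign' : (brn n k (y Real.pi) - brn n k (y (-Real.pi))) *
      (brn n k (z Real.pi) - brn n k (z (-Real.pi))) < 0 := by
    have h3 := mul_pos d1 d2
    have h4 : σ * ((brn n k (y Real.pi) - brn n k (y (-Real.pi))) *
        (y Real.pi - y (-Real.pi))) * (σ * ((brn n k (z Real.pi) - brn n k (z (-Real.pi))) *
        (z Real.pi - z (-Real.pi)))) =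
        (σ * σ) * ((brn n k (y Real.pi) - brn n k (y (-Real.pi))) *
          (brn n k (z Real.pi) - brn n k (z (-Real.pi)))) *
          ((y Real.pi - y (-Real.pi)) * (z Real.pi - z (-Real.pi))) := by ring
    rw [h4, hσ2, one_mul] at h3
    exact neg_of_mul_pos_left h3 hsign.le
  have hrangeaux : ∀ ρ ∈ uIcc (brn n k (y (-Real.pi))) (brn n k (z (-Real.pi))),
      ρ ≠ brn n k (y (-Real.pi)) → ρ ≠ brn n k (z (-Real.pi)) →
      ∃ η ∈ Ioo (y (-Real.pi)) (z (-Real.pi)), ρ = brn n k η := by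
    intro ρ hρ h1 h2
    obtain ⟨η, hη, rfl⟩ := intermediate_value_uIcc (brn_continuous n k).continuousOn hρ
    rw [Set.uIcc_of_le hyz.le] at hη
    refine ⟨η, ⟨lt_of_le_of_ne hη.1 fun h => h1 ?_, lt_of_le_of_ne hη.2 fun h => h2 ?_⟩, rfl⟩
    · rw [h]
    · rw [h]
  rcases Nat.even_or_odd k with he | ho
  · have hlt : brn n k (y (-Real.pi)) < brn n k (z (-Real.pi)) := by
      rw [he.neg_one_pow, one_mul] at hord
      linarith
    refine main (fun x => brn n k (y x)) (fun x => brn n k (z x))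
      (fun x hx => ⟨(brn_mem hk (hyb x hx)).1, dy x hx⟩) dz hlt hposV hsign' ?_
    intro ρ hρ
    exact hrangeaux ρ (Set.mem_uIcc.2 (Or.inl ⟨hρ.1.le, hρ.2.le⟩)) hρ.1.ne' hρ.2.ne
  · have hlt : brn n k (z (-Real.pi)) < brn n k (y (-Real.pi)) := by
      rw [ho.neg_one_pow] at hord
      linarith
    refine main (fun x => brn n k (z x)) (fun x => brn n k (y x))
      (fun x hx => ⟨(brn_mem hk (hzb x hx)).1, dz x hx⟩) dy hlt ?_ (by
        rw [mul_comm]; exact hsign') ?_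
    · intro x hx ρ hρ
      rw [Set.uIcc_comm] at hρ
      exact hposV x hx ρ hρ
    · intro ρ hρ
      exact hrangeaux ρ (Set.mem_uIcc.2 (Or.inr ⟨hρ.1.le, hρ.2.le⟩)) hρ.2.ne hρ.1.ne'

/-- **Part C.** -/
theorem partC (n M N : ℕ) (hn : 1 ≤ n) (p q r s : ℝ → ℝ) (hp : IsTrig M p) (hq : IsTrig M q)
    (hr : IsTrig M r) (hs : IsTrig M s) (y : ℕ → ℝ → ℝ)
    (hy : ∀ i ≤ N, ∀ x ∈ Icc (-Real.pi) Real.pi, 0 < y i x ∧ y i x < 1 ∧
      0 < r x * y i x - s x ∧
      HasDerivWithinAt (y i) ((p x * y i x + q x) / (r x * y i x - s x))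
        (Icc (-Real.pi) Real.pi) x)
    (hord : ∀ i < N, y i (-Real.pi) < y (i + 1) (-Real.pi))
    (hsign : ∀ i < N, (y i Real.pi - y i (-Real.pi)) *
      (y (i + 1) Real.pi - y (i + 1) (-Real.pi)) < 0) :
    ((n * N : ℕ) : ℕ∞) ≤ hilbertNumber (2 * M + 4 * n + 1) := by
  obtain ⟨P, Q, hP, hQ, hPQ⟩ := exists_field hn hp hq hr hs
  have hpi := Real.pi_pos
  have hmL : -Real.pi ∈ Icc (-Real.pi) Real.pi := ⟨le_rfl, by linarith⟩
  have H : ∀ j : Fin n × Fin N, ∀ᶠ α in 𝓝[>] (0 : ℝ), ∃ C, IsClosedOrbit (turn α (vf P Q)) C ∧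
      ∃ η ∈ Ioo (y j.2 (-Real.pi)) (y (j.2 + 1) (-Real.pi)), ∀ ρ, 0 < ρ →
        (pt (-Real.pi) ρ ∈ C ↔ ρ = brn n j.1 η) := by
    intro j
    obtain ⟨ε, hε, h⟩ := exists_orbit_gap j.1.2 hp hq hr hs hPQ (hy j.2 j.2.2.le)
      (hy (j.2 + 1) j.2.2) (hord j.2 j.2.2) (hsign j.2 j.2.2)
    filter_upwards [Ioo_mem_nhdsGT hε] with α hα
    exact h α hα
  have H2 := Filter.eventually_all.2 H
  obtain ⟨ε, hε, H3⟩ := (mem_nhdsGT_iff_exists_Ioo_subset).1 H2
  refine le_hilbert_of_turn (by omega) P Q hP hQ hε fun α hα => ?_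
  have H4 := H3 hα
  simp only [Set.mem_ofPred_eq] at H4
  choose C hC η hη hpt using H4
  have hη1 : ∀ j, |η j| < 1 := by
    intro j
    have h1 := (hy j.2 j.2.2.le _ hmL).1
    have h2 := (hy (j.2 + 1) j.2.2 _ hmL).2.1
    exact abs_lt.2 ⟨by linarith [(hη j).1], by linarith [(hη j).2]⟩
  have hmono : ∀ i k : ℕ, i + 1 ≤ k → k ≤ N → y (i + 1) (-Real.pi) ≤ y k (-Real.pi) := by
    intro i k hik
    induction k, hik using Nat.le_induction with
    | base => intro _; exact le_rfl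
    | succ m hm ih =>
      intro hmN
      exact (ih (by omega)).trans (hord m (by omega)).le
  have hinj : Function.Injective C := by
    intro j j' hjj
    have hpos : 0 < brn n j.1 (η j) := by linarith [(brn_mem j.1.2 (hη1 j)).1]
    have h1 : pt (-Real.pi) (brn n j.1 (η j)) ∈ C j := (hpt j _ hpos).2 rfl
    rw [hjj] at h1
    have h2 := (hpt j' _ hpos).1 h1
    have h3 : (j.1 : ℕ) = j'.1 := brn_inj j.1.2 j'.1.2 (hη1 j) (hη1 j') h2
    have h4 : η j = η j' := by
      have e1 := T_brn (n := n) (k := j.1) (by omega) (hη1 j)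
      have e2 := T_brn (n := n) (k := j'.1) (by omega) (hη1 j')
      rw [← e1, ← e2, h2]
    have h5 : (j.2 : ℕ) = j'.2 := by
      rcases lt_trichotomy (j.2 : ℕ) j'.2 with h | h | h
      · have := hmono j.2 j'.2 h j'.2.2.le
        linarith [(hη j).2, (hη j').1]
      · exact h
      · have := hmono j'.2 j.2 h j.2.2.le
        linarith [(hη j').2, (hη j).1]
    exact Prod.ext (Fin.ext h3) (Fin.ext h5)
  have hsub : Set.range C ⊆ {C | IsClosedOrbit (turn α (vf P Q)) C} := by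
    rintro _ ⟨j, rfl⟩
    exact hC j
  have hcard : (Set.range C).encard = ((n * N : ℕ) : ℕ∞) := by
    rw [← Set.image_univ, hinj.injOn.encard_image, Set.encard_univ, ENat.card_eq_coe_fintype_card,
      Fintype.card_prod, Fintype.card_fin, Fintype.card_fin]
  rw [← hcard]
  exact Set.encard_le_encard hsub

end Pool.Agent.Lib.MP_95e7ec_an.Pw
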