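import Mathlib
import Pool.Agent.Lib.MP_95e7ec_anW.Final
import Pool.Agent.Lib.MP_95e7ec_an.Pw.BMain
import Pool.Agent.Lib.MP_95e7ec_an.Pw.CMain
import Pool.Agent.Lib.MP_95e7ec_an.Pw.C4Fin

/-!
# Power growth of the Hilbert numbers

The word theorem (Part A), the realisation of a word by a periodic scalar equation (Part B) and the
transfer to the plane (Part C) give `H_n ≥ n ^ (2 + c)` for all large `n`.
-/

set_option autoImplicit false

open Set Filter Topology Pool.Agent.MP95e7W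

namespace Pool.Agent.Lib.MP_95e7ec_an.Pw

private theorem final_mono : Monotone hilbertNumber := by
  intro n m h
  unfold hilbertNumber
  refine iSup_le fun P => iSup_le fun Q => iSup_le fun hP => iSup_le fun hQ => ?_
  exact le_iSup_of_le P (le_iSup_of_le Q (le_iSup_of_le (hP.trans h)
    (le_iSup_of_le (hQ.trans h) le_rfl)))

/-- A word with `K` letters near `1` and `N` alternations gives `K N` limit cycles in
degree `20 K + 1`. -/
theorem word_to_hilbert {K : ℕ} (hK : 1 ≤ K) : ∃ δ : ℝ, 0 < δ ∧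
    ∀ (l : List (ℝ × ℝ)) (N : ℕ) (z : ℕ → ℝ), l.length = K → (∀ p ∈ l, |p.1 - 1| ≤ δ) →
      (∀ i ≤ N, 0 < z i ∧ Ok l (z i)) → (∀ i < N, z i < z (i + 1)) →
      (∀ i ≤ N, 0 < (-1) ^ i * (wd l (z i) - z i)) →
      ((K * N : ℕ) : ℕ∞) ≤ hilbertNumber (20 * K + 1) := by
  obtain ⟨δ, hδ, h⟩ := B_main (2 * K) K rfl hK
  refine ⟨δ, hδ, fun l N z h1 h2 h3 h4 h5 => ?_⟩
  obtain ⟨p, r, s, y, hp, hr, hs, hy, hord, hsign⟩ := h l N z h1 h2 h3 h4 h5
  have h6 := partC (2 * K) (3 * (2 * K)) N (by omega) p (fun _ => 0) r s hp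
    (IsTrig.const _ 0) hr hs y hy hord hsign
  have h7 : 2 * (3 * (2 * K)) + 4 * (2 * K) + 1 = 20 * K + 1 := by ring
  rw [h7] at h6
  refine le_trans ?_ h6
  exact_mod_cast Nat.mul_le_mul_right N (by omega : K ≤ 2 * K)

/-- **Power growth of the Hilbert numbers.** -/
theorem power_growth : ∃ c : ℝ, 0 < c ∧ ∃ n1 : ℕ, ∀ n : ℕ, n1 ≤ n →
    ENNReal.ofReal ((n : ℝ) ^ (2 + c)) ≤ ((hilbertNumber n : ℕ∞) : ENNReal) := by
  obtain ⟨c, hc, m0, hw⟩ := word_theorem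
  refine pw_final2 final_mono hc 20 1 (by norm_num) (max m0 1) fun m hm => ?_
  obtain ⟨δ, hδ, hB⟩ := word_to_hilbert ((le_max_right m0 1).trans hm)
  obtain ⟨N, l, z, hN, hl, hlδ, hz, h⟩ := hw m ((le_max_left m0 1).trans hm) δ hδ
  exact ⟨N, hN, hB l N z hl hlδ (fun i hi => ⟨(h i hi).1, (h i hi).2.1⟩)
    (fun i _ => hz i (i + 1) (Nat.lt_succ_self i)) (fun i hi => (h i hi).2.2)⟩

end Pool.Agent.Lib.MP_95e7ec_an.Pw
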