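import Pool.Agent.Lib.MP_95e7ec_an.Pw.HDefs
import Pool.Agent.Lib.MP_95e7ec_an.Pw.Ode

/-!
# Half period: existence of the solutions
-/

set_option autoImplicit false

open Set Filter Topology

namespace Pool.Agent.Lib.MP_95e7ec_an.Pw

/-- The clamped value. -/
noncomputable def hcl (h : ℝ → ℝ) (m x v : ℝ) : ℝ := max (min v 1) (max (4 / 5 * h x) m)

/-- The region for the clamped equation. -/
def reg1 (h : ℝ → ℝ) (m : ℝ) (x : ℝ) : Set ℝ := {v | m ≤ v ∧ 4 / 5 * h x ≤ v ∧ v ≤ 1}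

theorem hcl_mem {h : ℝ → ℝ} {m x v : ℝ} (hm : m ≤ 1) (hh : h x ≤ 1 / 4) :
    hcl h m x v ∈ reg1 h m x := by
  refine ⟨(le_max_right _ _).trans (le_max_right _ _), (le_max_left _ _).trans (le_max_right _ _),
    max_le (min_le_right _ _) (max_le (by linarith) hm)⟩

theorem hcl_eq {h : ℝ → ℝ} {m x v : ℝ} (hv : v ∈ reg1 h m x) : hcl h m x v = v := by
  unfold hcl
  rw [min_eq_left hv.2.2, max_eq_left (max_le hv.2.1 hv.1)]

theorem hcl_lip (h : ℝ → ℝ) (m x v w : ℝ) : |hcl h m x v - hcl h m x w| ≤ |v - w| := by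
  unfold hcl
  refine (abs_max_sub_max_le_abs _ _ _).trans ?_
  have := abs_min_sub_min_le_max v 1 w 1
  simpa using this

/-- The region gives `h ≤ 1/4` and `h' ≥ 0`. -/
theorem half_h_le {α x0 β : ℝ} {a h h1 : ℝ → ℝ} {mu L c M : ℝ}
    (D : Half α x0 β a h h1 mu L c M) : MonotoneOn h (Icc α β) := by
  refine monotoneOn_of_deriv_nonneg (convex_Icc _ _)
    (fun x _ => (D.deriv x).continuousAt.continuousWithinAt)
    (fun x _ => (D.deriv x).differentiableAt.differentiableWithinAt) ?_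
  intro x hx
  rw [interior_Icc] at hx
  rw [(D.deriv x).deriv]
  exact (D.h1_pos x hx).le

theorem half_bd {α x0 β : ℝ} {a h h1 : ℝ → ℝ} {mu L c M : ℝ}
    (D : Half α x0 β a h h1 mu L c M) {x : ℝ} (hx : x ∈ Icc α β) :
    -1 / 4 ≤ h x ∧ h x ≤ 1 / 4 := by
  have hm := half_h_le D
  have hab : α ≤ β := (D.lt0.trans D.lt1).le
  constructor
  · have := hm ⟨le_rfl, hab⟩ hx hx.1
    rwa [D.h_start] at this
  · have := hm hx ⟨hab, le_rfl⟩ hx.2
    rwa [D.h_end] at this

theorem half_h1_nonneg {α x0 β : ℝ} {a h h1 : ℝ → ℝ} {mu L c M : ℝ}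
    (D : Half α x0 β a h h1 mu L c M) {x : ℝ} (hx : x ∈ Icc α β) : 0 ≤ h1 x := by
  have hab : α < β := D.lt0.trans D.lt1
  have hcl : Icc α β ⊆ closure (Ioo α β) := by rw [closure_Ioo hab.ne]
  have hset : IsClosed {x | 0 ≤ h1 x} := isClosed_le continuous_const D.cont_h1
  have : closure (Ioo α β) ⊆ {x | 0 ≤ h1 x} :=
    closure_minimal (fun x hx => (D.h1_pos x hx).le) hset
  exact this (hcl hx)

theorem reg_pos {h : ℝ → ℝ} {m x v : ℝ} (hm : 0 < m) (hv : v ∈ reg1 h m x) : 0 < v :=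
  hm.trans_le hv.1

theorem reg_den {a h : ℝ → ℝ} {m x v : ℝ} (ha : |a x - 1| ≤ 1 / 100) (hm : 0 < m)
    (hv : v ∈ reg1 h m x) : v / 2 ≤ den a h x v := by
  have h1 := den_ge ha (reg_pos hm hv) hv.2.1
  have h2 := abs_nonneg (v - h x)
  linarith

/-- The Lipschitz constant on the region. -/
theorem reg_lip {α x0 β : ℝ} {a h h1 : ℝ → ℝ} {mu L c M : ℝ}
    (D : Half α x0 β a h h1 mu L c M) {G : ℝ → ℝ}
    (hG1 : ∀ x ∈ Icc α β, |h1 x * G x| ≤ 1 / 10) {m : ℝ} (hm : 0 < m) :
    ∀ x ∈ Icc α β, ∀ v ∈ reg1 h m x, ∀ w ∈ reg1 h m x,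
      |rhs a h h1 G x v - rhs a h h1 G x w| ≤ (4 * M / m ^ 2) * |v - w| := by
  intro x hx v hv w hw
  have ha := D.a_near x hx
  have e1 := reg_den ha hm hv
  have e2 := reg_den ha hm hw
  have hv0 := reg_pos hm hv
  have hw0 := reg_pos hm hw
  have d1 : 0 < den a h x v := by linarith
  have d2 : 0 < den a h x w := by linarith
  have key : rhs a h h1 G x v - rhs a h h1 G x w =
      (h1 x * (1 + h1 x * G x) * (-(a x * h x))) / (den a h x v * den a h x w) * (v - w) := by
    unfold rhs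
    have n1 := d1.ne'
    have n2 := d2.ne'
    field_simp
    unfold den
    ring
  rw [key, abs_mul, abs_div]
  refine mul_le_mul_of_nonneg_right ?_ (abs_nonneg _)
  obtain ⟨hb1, hb2⟩ := half_bd D hx
  have hh : |h x| ≤ 1 / 4 := abs_le.2 ⟨by linarith, hb2⟩
  have hM := D.h1_le x hx
  have hg := hG1 x hx
  have ha2 : |a x| ≤ 101 / 100 := by
    rw [abs_le] at ha ⊢
    constructor <;> linarith [ha.1, ha.2]
  have h1G : |1 + h1 x * G x| ≤ 11 / 10 := by
    refine (abs_add_le _ _).trans ?_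
    rw [abs_one]
    linarith
  have hM0 : 0 ≤ M := (abs_nonneg _).trans hM
  have hnum : |h1 x * (1 + h1 x * G x) * (-(a x * h x))| ≤ M := by
    rw [abs_mul, abs_mul, abs_neg, abs_mul]
    have t1 : |h1 x| * |1 + h1 x * G x| ≤ M * (11 / 10) :=
      mul_le_mul hM h1G (abs_nonneg _) hM0
    have t2 : |a x| * |h x| ≤ (101 / 100) * (1 / 4) :=
      mul_le_mul ha2 hh (abs_nonneg _) (by norm_num)
    have t3 : |h1 x| * |1 + h1 x * G x| * (|a x| * |h x|) ≤
        M * (11 / 10) * ((101 / 100) * (1 / 4)) :=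
      mul_le_mul t1 t2 (by positivity) (by positivity)
    linarith [t3]
  have hden : m ^ 2 / 4 ≤ |den a h x v * den a h x w| := by
    rw [abs_of_pos (mul_pos d1 d2)]
    have t1 : m / 2 ≤ den a h x v := by linarith [hv.1]
    have t2 : m / 2 ≤ den a h x w := by linarith [hw.1]
    have := mul_le_mul t1 t2 (by positivity) d1.le
    calc m ^ 2 / 4 = m / 2 * (m / 2) := by ring
      _ ≤ _ := this
  calc |h1 x * (1 + h1 x * G x) * (-(a x * h x))| / |den a h x v * den a h x w|
      ≤ M / (m ^ 2 / 4) := div_le_div₀ hM0 hnum (by positivity) hden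
    _ = 4 * M / m ^ 2 := by field_simp

/-- The bound of the right side on the region. -/
theorem reg_abs {α x0 β : ℝ} {a h h1 : ℝ → ℝ} {mu L c M : ℝ}
    (D : Half α x0 β a h h1 mu L c M) {G : ℝ → ℝ}
    (hG1 : ∀ x ∈ Icc α β, |h1 x * G x| ≤ 1 / 10) {m : ℝ} (hm : 0 < m) :
    ∀ x ∈ Icc α β, ∀ v ∈ reg1 h m x, |rhs a h h1 G x v| ≤ 3 * M := by
  intro x hx v hv
  have ha := D.a_near x hx
  have e1 := reg_den ha hm hv
  have hv0 := reg_pos hm hv
  have d1 : 0 < den a h x v := by linarith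
  unfold rhs
  rw [abs_div, abs_mul, abs_mul, abs_of_pos hv0, abs_of_pos d1, div_le_iff₀ d1]
  have hM := D.h1_le x hx
  have hg := hG1 x hx
  have h1G : |1 + h1 x * G x| ≤ 11 / 10 := by
    refine (abs_add_le _ _).trans ?_
    rw [abs_one]
    linarith
  have hM0 : 0 ≤ M := (abs_nonneg _).trans hM
  have t1 : |h1 x| * |1 + h1 x * G x| ≤ M * (11 / 10) :=
    mul_le_mul hM h1G (abs_nonneg _) hM0
  have t2 : |h1 x| * |1 + h1 x * G x| * v ≤ M * (11 / 10) * v :=
    mul_le_mul_of_nonneg_right t1 hv0.le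
  have t3 : M * (v / 2) ≤ M * den a h x v := mul_le_mul_of_nonneg_left e1 hM0
  have t4 : 0 ≤ M * v := mul_nonneg hM0 hv0.le
  nlinarith

theorem cont_rhs_hcl {α x0 β : ℝ} {a h h1 : ℝ → ℝ} {mu L c M : ℝ}
    (D : Half α x0 β a h h1 mu L c M) {G : ℝ → ℝ} (hG : Continuous G) {m : ℝ} (hm : 0 < m)
    (hm1 : m ≤ 1) (v : ℝ) :
    ContinuousOn (fun x => rhs a h h1 G x (hcl h m x v)) (Icc α β) := by
  have hh : Continuous h := continuous_iff_continuousAt.2 fun x => (D.deriv x).continuousAt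
  have hc : Continuous fun x => hcl h m x v := by
    unfold hcl
    exact continuous_const.max ((continuous_const.mul hh).max continuous_const)
  unfold rhs
  refine ContinuousOn.div ?_ ?_ ?_
  · exact ((D.cont_h1.mul (continuous_const.add (D.cont_h1.mul hG))).mul hc).continuousOn
  · unfold den
    exact (((continuous_const.add D.cont_a).mul hc).sub (D.cont_a.mul hh)).continuousOn
  · intro x hx
    have hr := hcl_mem (v := v) hm1 (half_bd D hx).2
    have e1 := reg_den (D.a_near x hx) hm hr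
    have := reg_pos hm hr
    exact (by linarith : 0 < den a h x (hcl h m x v)).ne'

/-- One solution. -/
theorem exists_one {α x0 β : ℝ} {a h h1 : ℝ → ℝ} {mu L c M : ℝ}
    (D : Half α x0 β a h h1 mu L c M) {G : ℝ → ℝ} (hG : Continuous G)
    (hG1 : ∀ x ∈ Icc α β, |h1 x * G x| ≤ 1 / 10) {z : ℝ} (hz : z ∈ Ioc (0 : ℝ) (1 / 4)) :
    ∃ y : ℝ → ℝ, y α = z ∧ Sol a h h1 G α β y ∧ ∀ x ∈ Icc α β, y x ∈ reg1 h z x := by
  obtain ⟨hz0, hz1⟩ := hz
  have hab : α < β := D.lt0.trans D.lt1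
  have hm : 0 < z / 2 := by linarith
  have hm1 : z / 2 ≤ 1 := by linarith
  have hM0 : 0 ≤ M := (abs_nonneg _).trans (D.h1_le α ⟨le_rfl, hab.le⟩)
  obtain ⟨y, hyα, hy⟩ := exists_Sl (f := fun x v => rhs a h h1 G x (hcl h (z / 2) x v))
    (a := α) (b := β) (M := 3 * M) (L := 4 * M / (z / 2) ^ 2)
    (fun v => cont_rhs_hcl D hG hm hm1 v)
    (fun x hx v => reg_abs D hG1 hm x hx _ (hcl_mem hm1 (half_bd D hx).2))
    (fun x hx v w => (reg_lip D hG1 hm x hx _ (hcl_mem hm1 (half_bd D hx).2) _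
      (hcl_mem hm1 (half_bd D hx).2)).trans
        (mul_le_mul_of_nonneg_left (hcl_lip _ _ _ _ _) (by positivity)))
    (x0 := α) ⟨le_rfl, hab.le⟩ z
  -- the clamped right side is nonnegative
  have hfac : ∀ x ∈ Icc α β, 9 / 10 ≤ 1 + h1 x * G x ∧ 1 + h1 x * G x ≤ 11 / 10 := by
    intro x hx
    have := abs_le.1 (hG1 x hx)
    constructor <;> linarith [this.1, this.2]
  have hrn : ∀ x ∈ Icc α β, ∀ v, 0 ≤ rhs a h h1 G x (hcl h (z / 2) x v) := by
    intro x hx v
    have hr := hcl_mem (v := v) hm1 (half_bd D hx).2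
    have e1 := reg_den (D.a_near x hx) hm hr
    have hp := reg_pos hm hr
    have := half_h1_nonneg D hx
    have h3 := (hfac x hx).1
    unfold rhs
    have h4 : 0 ≤ 1 + h1 x * G x := by linarith
    have h5 : 0 < den a h x (hcl h (z / 2) x v) := by linarith
    positivity
  -- monotone
  have hmono : MonotoneOn y (Icc α β) := by
    refine monotoneOn_of_deriv_nonneg (convex_Icc _ _) hy.contOn ?_ ?_
    · intro x hx
      rw [interior_Icc] at hx
      exact (hy.inner hx).differentiableAt.differentiableWithinAt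
    · intro x hx
      rw [interior_Icc] at hx
      rw [(hy.inner hx).deriv]
      exact hrn x ⟨hx.1.le, hx.2.le⟩ _
  have hyz : ∀ x ∈ Icc α β, z ≤ y x := by
    intro x hx
    have := hmono ⟨le_rfl, hab.le⟩ hx hx.1
    rwa [hyα] at this
  -- upper barrier
  have hup : ∀ x ∈ Icc α β, y x ≤ 1 / 4 + 6 / 5 * (h x + 1 / 4) + 1 / 10 / (β - α) * (x - α) := by
    have hba : 0 < β - α := by linarith
    set e : ℝ := 1 / 10 / (β - α) with he
    have he0 : 0 < e := by positivity
    refine hy.upper_barrier (l := fun x => 1 / 4 + 6 / 5 * (h x + 1 / 4) + e * (x - α))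
      (l' := fun x => 6 / 5 * h1 x + e) ?_ ?_ ?_ ?_
    · intro x _
      have t1 : HasDerivAt (fun x => 1 / 4 + 6 / 5 * (h x + 1 / 4) + e * (x - α))
          (6 / 5 * h1 x + e * 1) x :=
        (((((D.deriv x).add_const (1 / 4)).const_mul (6 / 5)).const_add (1 / 4))).add
          (((hasDerivAt_id x).sub_const α).const_mul e)
      rw [mul_one] at t1
      exact t1.hasDerivWithinAt
    · intro x _
      exact ((continuousAt_const.add (continuousAt_const.mul
        ((D.deriv x).continuousAt.add continuousAt_const))).add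
        (continuousAt_const.mul (continuousAt_id.sub continuousAt_const))).continuousWithinAt
    · intro x hx
      have hx' : x ∈ Icc α β := ⟨hx.1, hx.2.le⟩
      obtain ⟨hb1, hb2⟩ := half_bd D hx'
      have hxe : 0 ≤ e * (x - α) := mul_nonneg he0.le (by linarith [hx.1])
      have hv : (1 : ℝ) / 4 ≤ 1 / 4 + 6 / 5 * (h x + 1 / 4) + e * (x - α) := by linarith
      set v : ℝ := 1 / 4 + 6 / 5 * (h x + 1 / 4) + e * (x - α) with hvdef
      have hr := hcl_mem (v := v) hm1 hb2
      have hq : 1 / 4 ≤ hcl h (z / 2) x v := by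
        unfold hcl
        exact le_max_of_le_left (le_min hv (by norm_num))
      set q : ℝ := hcl h (z / 2) x v with hqdef
      have hp := reg_pos hm hr
      have ha := abs_le.1 (D.a_near x hx')
      have hdq : q ≤ den a h x q := by
        have : den a h x q = q + a x * (q - h x) := by unfold den; ring
        rw [this]
        have : 0 ≤ a x * (q - h x) := mul_nonneg (by linarith [ha.1]) (by linarith)
        linarith
      have h1n := half_h1_nonneg D hx'
      have hf := (hfac x hx').2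
      have hf0 := (hfac x hx').1
      have hle : rhs a h h1 G x q ≤ 11 / 10 * h1 x := by
        unfold rhs
        rw [div_le_iff₀ (hp.trans_le hdq)]
        have t1 : h1 x * (1 + h1 x * G x) ≤ h1 x * (11 / 10) :=
          mul_le_mul_of_nonneg_left hf h1n
        have t2 : h1 x * (1 + h1 x * G x) * q ≤ h1 x * (11 / 10) * den a h x q :=
          mul_le_mul t1 hdq hp.le (by positivity)
        linarith
      show rhs a h h1 G x q < 6 / 5 * h1 x + e
      linarith
    · rw [hyα, D.h_start]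
      linarith
  have hy1 : ∀ x ∈ Icc α β, y x ≤ 1 := by
    intro x hx
    have h1 := hup x hx
    have h2 := (half_bd D hx).2
    have hba : 0 < β - α := by linarith
    have h3 : 1 / 10 / (β - α) * (x - α) ≤ 1 / 10 := by
      rw [div_mul_eq_mul_div, div_le_iff₀ hba]
      nlinarith [hx.2]
    linarith
  -- lower barrier on `[x0, β]`
  have hlow : ∀ x ∈ Icc α β, 4 / 5 * h x ≤ y x := by
    intro x hx
    rcases le_total x x0 with hxx | hxx
    · have h1 := half_h_le D hx ⟨D.lt0.le, D.lt1.le⟩ hxx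
      rw [D.h_zero] at h1
      have := hyz x hx
      linarith
    · have hsub : Sl (fun x v => rhs a h h1 G x (hcl h (z / 2) x v)) x0 β y :=
        hy.mono D.lt0.le le_rfl
      have key := image_le_of_deriv_right_lt_deriv_boundary' (f := fun x => 4 / 5 * h x)
        (f' := fun x => 4 / 5 * h1 x) (a := x0) (b := β) (B := y)
        (B' := fun x => rhs a h h1 G x (hcl h (z / 2) x (y x)))
        (fun x _ => (continuousAt_const.mul (D.deriv x).continuousAt).continuousWithinAt)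
        (fun x _ => ((D.deriv x).const_mul (4 / 5)).hasDerivWithinAt)
        (by
          have := hyz x0 ⟨D.lt0.le, D.lt1.le⟩
          rw [D.h_zero]; linarith)
        hsub.contOn (fun x hx => hsub.right hx) (fun x hx he => by
          have hx' : x ∈ Icc α β := ⟨D.lt0.le.trans hx.1, hx.2.le⟩
          have hyx := hyz x hx'
          have hreg : y x ∈ reg1 h (z / 2) x := ⟨by linarith, he.le, hy1 x hx'⟩
          rw [hcl_eq hreg]
          have h1p : 0 < h1 x := D.h1_pos x ⟨D.lt0.trans_le hx.1, hx.2⟩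
          have ha := abs_le.1 (D.a_near x hx')
          have hd := reg_den (D.a_near x hx') hm hreg
          have hyp := reg_pos hm hreg
          have hh : h x = 5 / 4 * y x := by linarith [he]
          have hden : den a h x (y x) = (1 - a x / 4) * y x := by
            unfold den
            rw [hh]; ring
          have hd0 : 0 < den a h x (y x) := by linarith
          unfold rhs
          rw [lt_div_iff₀ hd0, hden]
          have hf0 := (hfac x hx').1
          have t1 : 4 / 5 * (1 - a x / 4) < 9 / 10 := by linarith [ha.1]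
          have t2 : 0 < h1 x * y x := mul_pos h1p hyp
          have t3 : 4 / 5 * (1 - a x / 4) * (h1 x * y x) < (1 + h1 x * G x) * (h1 x * y x) :=
            mul_lt_mul_of_pos_right (t1.trans_le hf0) t2
          linarith [t3])
      exact key ⟨hxx, hx.2⟩
  have hreg : ∀ x ∈ Icc α β, y x ∈ reg1 h z x := fun x hx => ⟨hyz x hx, hlow x hx, hy1 x hx⟩
  refine ⟨y, hyα, fun x hx => ⟨hz0.trans_le (hyz x hx), hlow x hx, hy1 x hx, ?_⟩, hreg⟩
  have hd : HasDerivWithinAt y (rhs a h h1 G x (hcl h (z / 2) x (y x))) (Icc α β) x := hy x hx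
  have hr : y x ∈ reg1 h (z / 2) x := ⟨by linarith [hyz x hx], hlow x hx, hy1 x hx⟩
  rwa [hcl_eq hr] at hd

/-- For every start `z` in `(0, 1/4]` there is a solution on the half period; its end value is
strictly increasing and continuous in `z`. -/
theorem half_exists {α x0 β : ℝ} {a h h1 : ℝ → ℝ} {mu L c M : ℝ}
    (D : Half α x0 β a h h1 mu L c M) {G : ℝ → ℝ} (hG : Continuous G)
    (hG1 : ∀ x ∈ Icc α β, |h1 x * G x| ≤ 1 / 10) :
    ∃ Y : ℝ → ℝ → ℝ, (∀ z ∈ Ioc (0 : ℝ) (1 / 4), Y z α = z ∧ Sol a h h1 G α β (Y z)) ∧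
      StrictMonoOn (fun z => Y z β) (Ioc 0 (1 / 4)) ∧
      ContinuousOn (fun z => Y z β) (Ioc 0 (1 / 4)) := by
  have hab : α < β := D.lt0.trans D.lt1
  have hM0 : 0 ≤ M := (abs_nonneg _).trans (D.h1_le α ⟨le_rfl, hab.le⟩)
  have H : ∀ z : ℝ, ∃ y : ℝ → ℝ, z ∈ Ioc (0 : ℝ) (1 / 4) →
      (y α = z ∧ Sol a h h1 G α β y ∧ ∀ x ∈ Icc α β, y x ∈ reg1 h z x) := by
    intro z
    by_cases hz : z ∈ Ioc (0 : ℝ) (1 / 4)
    · obtain ⟨y, hy⟩ := exists_one D hG hG1 hz
      exact ⟨y, fun _ => hy⟩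
    · exact ⟨fun _ => 0, fun h => absurd h hz⟩
  choose Y hY using H
  have hSl : ∀ z ∈ Ioc (0 : ℝ) (1 / 4), Sl (fun x v => rhs a h h1 G x v) α β (Y z) :=
    fun z hz x hx => ((hY z hz).2.1 x hx).2.2.2
  have hmem : ∀ m, ∀ z ∈ Ioc (0 : ℝ) (1 / 4), m ≤ z → ∀ x ∈ Icc α β, Y z x ∈ reg1 h m x := by
    intro m z hz hmz x hx
    obtain ⟨h1, h2, h3⟩ := (hY z hz).2.2 x hx
    exact ⟨hmz.trans h1, h2, h3⟩
  refine ⟨Y, fun z hz => ⟨(hY z hz).1, (hY z hz).2.1⟩, ?_, ?_⟩
  · intro z hz w hw hzw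
    have hz0 : 0 < z := hz.1
    refine Sl.lt (S := fun x => reg1 h z x) (reg_lip D hG1 hz0) (hSl z hz) (hSl w hw)
      (hmem z z hz le_rfl) (hmem z w hw hzw.le) (x0 := α) ⟨le_rfl, hab.le⟩ ?_ β ⟨hab.le, le_rfl⟩
    rw [(hY z hz).1, (hY w hw).1]
    exact hzw
  · intro z hz
    have hz0 : 0 < z := hz.1
    have hm : 0 < z / 2 := by linarith
    set L' : ℝ := 4 * M / (z / 2) ^ 2 with hL'
    have hb : ∀ w ∈ Ioc (0 : ℝ) (1 / 4), z / 2 < w →
        |Y w β - Y z β| ≤ |w - z| * Real.exp (L' * (β - α)) := by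
      intro w hw hw2
      have := Sl.dist_le_exp (S := fun x => reg1 h (z / 2) x) (reg_lip D hG1 hm) (hSl w hw)
        (hSl z hz) (hmem _ w hw hw2.le) (hmem _ z hz (by linarith)) β ⟨hab.le, le_rfl⟩
      rwa [(hY z hz).1, (hY w hw).1] at this
    show Tendsto (fun w => Y w β) (𝓝[Ioc 0 (1 / 4)] z) (𝓝 (Y z β))
    rw [tendsto_iff_dist_tendsto_zero]
    have hlim : Tendsto (fun w => |w - z| * Real.exp (L' * (β - α))) (𝓝[Ioc 0 (1 / 4)] z)
        (𝓝 0) := by
      have hcont : Continuous fun w => |w - z| * Real.exp (L' * (β - α)) :=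
        ((continuous_id.sub continuous_const).abs).mul continuous_const
      have := (hcont.tendsto z).mono_left (nhdsWithin_le_nhds (s := Ioc (0 : ℝ) (1 / 4)))
      simpa using this
    refine squeeze_zero' (Eventually.of_forall fun w => dist_nonneg) ?_ hlim
    have hev : ∀ᶠ w in 𝓝[Ioc (0 : ℝ) (1 / 4)] z, z / 2 < w :=
      nhdsWithin_le_nhds (lt_mem_nhds (by linarith))
    filter_upwards [hev, self_mem_nhdsWithin] with w h1 h2
    rw [Real.dist_eq]
    exact hb w h2 h1

end Pool.Agent.Lib.MP_95e7ec_an.Pw
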