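import Pool.Agent.Lib.MP_95e7ec_an.Pw.HDefs

/-!
# Half period: the equation of `P = w u^mu` and its bounds
-/

set_option autoImplicit false

open Set Filter Topology

namespace Pool.Agent.Lib.MP_95e7ec_an.Pw

variable {α x0 β : ℝ} {a h h1 : ℝ → ℝ} {mu L c M : ℝ}

theorem Half.x0_mem (D : Half α x0 β a h h1 mu L c M) : x0 ∈ Icc α β :=
  ⟨D.lt0.le, D.lt1.le⟩

theorem Half.left_mem (D : Half α x0 β a h h1 mu L c M) : α ∈ Icc α β :=
  ⟨le_refl _, (D.lt0.trans D.lt1).le⟩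

theorem Half.right_mem (D : Half α x0 β a h h1 mu L c M) : β ∈ Icc α β :=
  ⟨(D.lt0.trans D.lt1).le, le_refl _⟩

theorem Half.a_x0 (D : Half α x0 β a h h1 mu L c M) : a x0 = mu := by
  have h1 := D.a_lip x0 D.x0_mem
  rw [D.h_zero, abs_zero, mul_zero] at h1
  have h2 := abs_nonneg (a x0 - mu)
  have h3 : |a x0 - mu| = 0 := le_antisymm h1 h2
  rw [abs_eq_zero] at h3
  linarith

/-- `|mu - 1| ≤ 1/100`. -/
theorem mu_near (D : Half α x0 β a h h1 mu L c M) : |mu - 1| ≤ 1 / 100 := by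
  have h := D.a_near x0 D.x0_mem
  rwa [D.a_x0] at h

theorem Half.L_nonneg (D : Half α x0 β a h h1 mu L c M) : 0 ≤ L := by
  have h1 := D.a_lip α D.left_mem
  rw [D.h_start] at h1
  have h2 := abs_nonneg (a α - mu)
  have h3 : |(-1 / 4 : ℝ)| = 1 / 4 := by rw [abs_of_neg (by norm_num)]; norm_num
  rw [h3] at h1
  linarith

theorem Half.M_nonneg (D : Half α x0 β a h h1 mu L c M) : 0 ≤ M :=
  (abs_nonneg _).trans (D.h1_le α D.left_mem)

/-- `P' = k P + E`. -/
theorem PP_deriv (D : Half α x0 β a h h1 mu L c M) {G y : ℝ → ℝ} (hS : Sol a h h1 G α β y)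
    {x : ℝ} (hx : x ∈ Icc α β) :
    HasDerivWithinAt (PP mu h y) (kk mu a h h1 y x * PP mu h y x + EE mu a h h1 G y x)
      (Icc α β) x := by
  obtain ⟨hy, hb, -, hd⟩ := hS x hx
  have hD : 0 < den a h x (y x) := den_pos (D.a_near x hx) hy hb
  have e1 : HasDerivWithinAt (fun t => y t - h t) (rhs a h h1 G x (y x) - h1 x) (Icc α β) x :=
    hd.sub (D.deriv x).hasDerivWithinAt
  have e2 : HasDerivWithinAt (fun t => (y t) ^ mu)
      (rhs a h h1 G x (y x) * mu * (y x) ^ (mu - 1)) (Icc α β) x :=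
    hd.rpow_const (Or.inl hy.ne')
  have e3 := e1.mul e2
  refine e3.congr_deriv ?_
  have e4 : (y x) ^ (mu - 1) = (y x) ^ mu / y x := by
    rw [Real.rpow_sub_one hy.ne']
  rw [e4]
  unfold kk EE PP rhs
  have e5 : den a h x (y x) = y x + a x * (y x - h x) := by unfold den; ring
  have hne := hD.ne'
  have hyne := hy.ne'
  rw [e5] at hne ⊢
  generalize (y x) ^ mu = U
  field_simp
  ring

/-- The region gives `|h| ≤ 2 D`. -/
theorem abs_h_le (D : Half α x0 β a h h1 mu L c M) {G y : ℝ → ℝ} (hS : Sol a h h1 G α β y)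
    {x : ℝ} (hx : x ∈ Icc α β) : |h x| ≤ 2 * den a h x (y x) := by
  obtain ⟨hy, hb, -, -⟩ := hS x hx
  have h1 := den_ge (D.a_near x hx) hy hb
  have h2 : |h x| ≤ y x + |y x - h x| := by
    have h3 : h x = y x - (y x - h x) := by ring
    calc |h x| = |y x - (y x - h x)| := by rw [← h3]
      _ ≤ |y x| + |y x - h x| := abs_sub _ _
      _ = y x + |y x - h x| := by rw [abs_of_pos hy]
  linarith

/-- `k` is bounded along the whole half period. -/
theorem kk_le (D : Half α x0 β a h h1 mu L c M) {G y : ℝ → ℝ} (hS : Sol a h h1 G α β y)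
    {x : ℝ} (hx : x ∈ Icc α β) : |kk mu a h h1 y x| ≤ 2 * L * M := by
  obtain ⟨hy, hb, -, -⟩ := hS x hx
  have hD : 0 < den a h x (y x) := den_pos (D.a_near x hx) hy hb
  unfold kk
  rw [abs_div, abs_mul, abs_of_pos hD, div_le_iff₀ hD]
  have e1 : |mu - a x| ≤ L * |h x| := by rw [abs_sub_comm]; exact D.a_lip x hx
  have e2 := abs_h_le D hS hx
  have e3 := D.h1_le x hx
  have hL := D.L_nonneg
  calc |mu - a x| * |h1 x| ≤ (L * |h x|) * M :=
        mul_le_mul e1 e3 (abs_nonneg _) (mul_nonneg hL (abs_nonneg _))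
    _ ≤ (L * (2 * den a h x (y x))) * M :=
        mul_le_mul_of_nonneg_right (mul_le_mul_of_nonneg_left e2 hL) D.M_nonneg
    _ = 2 * L * M * den a h x (y x) := by ring

/-- The second factor of the inhomogeneous term. -/
theorem II_le (D : Half α x0 β a h h1 mu L c M) {G y : ℝ → ℝ} (hS : Sol a h h1 G α β y)
    {x : ℝ} (hx : x ∈ Icc α β) :
    |(y x) ^ mu * (y x + mu * (y x - h x)) / den a h x (y x)| ≤ 3 * (y x) ^ mu := by
  obtain ⟨hy, hb, hy1, -⟩ := hS x hx
  have hD : 0 < den a h x (y x) := den_pos (D.a_near x hx) hy hb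
  have e0 := den_ge (D.a_near x hx) hy hb
  have hmu := abs_le.1 (mu_near D)
  have hU : 0 < (y x) ^ mu := Real.rpow_pos_of_pos hy _
  rw [abs_div, abs_mul, abs_of_pos hD, abs_of_pos hU, div_le_iff₀ hD]
  have e1 : |y x + mu * (y x - h x)| ≤ 101 / 100 * (y x + |y x - h x|) := by
    calc |y x + mu * (y x - h x)| ≤ |y x| + |mu * (y x - h x)| := abs_add_le _ _
      _ = y x + |mu| * |y x - h x| := by rw [abs_of_pos hy, abs_mul]
      _ ≤ y x + 101 / 100 * |y x - h x| := by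
          have : |mu| ≤ 101 / 100 := abs_le.2 ⟨by linarith [hmu.1], by linarith [hmu.2]⟩
          nlinarith [abs_nonneg (y x - h x)]
      _ ≤ 101 / 100 * (y x + |y x - h x|) := by linarith
  have e2 : |y x + mu * (y x - h x)| ≤ 3 * den a h x (y x) := by
    have := abs_nonneg (y x - h x)
    linarith
  calc (y x) ^ mu * |y x + mu * (y x - h x)| ≤ (y x) ^ mu * (3 * den a h x (y x)) :=
        mul_le_mul_of_nonneg_left e2 hU.le
    _ = 3 * (y x) ^ mu * den a h x (y x) := by ring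

/-- The inhomogeneous term is bounded. -/
theorem EE_le (D : Half α x0 β a h h1 mu L c M) {G y : ℝ → ℝ} {η : ℝ}
    (hη : ∀ x ∈ Icc α β, |G x| ≤ η) (hS : Sol a h h1 G α β y)
    {x : ℝ} (hx : x ∈ Icc α β) : |EE mu a h h1 G y x| ≤ 3 * M ^ 2 * η := by
  obtain ⟨hy, hb, hy1, -⟩ := hS x hx
  have hmu := abs_le.1 (mu_near D)
  have e1 := II_le D hS hx
  have e2 : (y x) ^ mu ≤ 1 := Real.rpow_le_one hy.le hy1 (by linarith [hmu.1])
  have e3 := hη x hx
  have e4 : |h1 x| ^ 2 ≤ M ^ 2 := pow_le_pow_left₀ (abs_nonneg _) (D.h1_le x hx) 2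
  unfold EE
  rw [abs_mul, abs_mul, abs_pow]
  have e5 : |h1 x| ^ 2 * |G x| ≤ M ^ 2 * η :=
    mul_le_mul e4 e3 (abs_nonneg _) (sq_nonneg _)
  have e6 : 0 ≤ M ^ 2 * η := mul_nonneg (sq_nonneg _) ((abs_nonneg _).trans e3)
  calc |h1 x| ^ 2 * |G x| * |(y x) ^ mu * (y x + mu * (y x - h x)) / den a h x (y x)|
      ≤ (M ^ 2 * η) * 3 := by
        refine mul_le_mul e5 (e1.trans ?_) (abs_nonneg _) e6
        linarith
    _ = 3 * M ^ 2 * η := by ring

/-- Gronwall for `P`. -/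
theorem PP_bound (D : Half α x0 β a h h1 mu L c M) {G y : ℝ → ℝ} {η : ℝ}
    (hη : ∀ x ∈ Icc α β, |G x| ≤ η) (hS : Sol a h h1 G α β y)
    {x : ℝ} (hx : x ∈ Icc α β) :
    |PP mu h y x| ≤ Real.exp ((2 * L * M + 1) * (β - α)) * (2 + 3 * M ^ 2) *
      ((y α) ^ mu + η) := by
  have hL := D.L_nonneg
  have hM := D.M_nonneg
  have hη0 : 0 ≤ η := (abs_nonneg _).trans (hη α D.left_mem)
  obtain ⟨hyα, -, hyα1, -⟩ := hS α D.left_mem
  set K : ℝ := 2 * L * M + 1 with hK
  have hK1 : 1 ≤ K := by have := mul_nonneg hL hM; rw [hK]; nlinarith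
  set E0 : ℝ := 3 * M ^ 2 * η with hE0
  have hE0' : 0 ≤ E0 := by positivity
  have hcont : ContinuousOn (PP mu h y) (Icc α β) := fun t ht =>
    (PP_deriv D hS ht).continuousWithinAt
  have hder : ∀ t ∈ Ico α β, HasDerivWithinAt (PP mu h y)
      (kk mu a h h1 y t * PP mu h y t + EE mu a h h1 G y t) (Ici t) t := fun t ht =>
    (PP_deriv D hS (Ico_subset_Icc_self ht)).mono_of_mem_nhdsWithin (Icc_mem_nhdsGE_of_mem ht)
  have hbd : ∀ t ∈ Ico α β, ‖kk mu a h h1 y t * PP mu h y t + EE mu a h h1 G y t‖ ≤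
      K * ‖PP mu h y t‖ + E0 := by
    intro t ht
    have ht' := Ico_subset_Icc_self ht
    have e1 := kk_le D hS ht'
    have e2 := EE_le D hη hS ht'
    rw [Real.norm_eq_abs, Real.norm_eq_abs]
    calc |kk mu a h h1 y t * PP mu h y t + EE mu a h h1 G y t|
        ≤ |kk mu a h h1 y t| * |PP mu h y t| + |EE mu a h h1 G y t| := by
          rw [← abs_mul]; exact abs_add_le _ _
      _ ≤ K * |PP mu h y t| + E0 := by
          refine add_le_add (mul_le_mul_of_nonneg_right ?_ (abs_nonneg _)) e2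
          rw [hK]; linarith
  have hg := norm_le_gronwallBound_of_norm_deriv_right_le hcont hder
    (le_refl ‖PP mu h y α‖) hbd x hx
  rw [Real.norm_eq_abs, Real.norm_eq_abs, gronwallBound_of_K_ne_0 (by linarith)] at hg
  have hPα : |PP mu h y α| ≤ 2 * (y α) ^ mu := by
    unfold PP
    rw [D.h_start, abs_mul, abs_of_pos (Real.rpow_pos_of_pos hyα mu)]
    refine mul_le_mul_of_nonneg_right ?_ (Real.rpow_nonneg hyα.le _)
    rw [abs_of_pos (by linarith)]
    linarith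
  have hexp : Real.exp (K * (x - α)) ≤ Real.exp (K * (β - α)) := by
    refine Real.exp_le_exp.2 (mul_le_mul_of_nonneg_left ?_ (by linarith))
    linarith [hx.2]
  have hexp1 : 0 < Real.exp (K * (x - α)) := Real.exp_pos _
  have h2 : E0 / K * (Real.exp (K * (x - α)) - 1) ≤ E0 * Real.exp (K * (β - α)) := by
    have h3 : E0 / K ≤ E0 := div_le_self hE0' hK1
    have h4 : 0 ≤ Real.exp (K * (x - α)) - 1 := by
      have : (1 : ℝ) ≤ Real.exp (K * (x - α)) :=
        Real.one_le_exp (mul_nonneg (by linarith) (by linarith [hx.1]))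
      linarith
    calc E0 / K * (Real.exp (K * (x - α)) - 1) ≤ E0 * (Real.exp (K * (x - α)) - 1) :=
          mul_le_mul_of_nonneg_right h3 h4
      _ ≤ E0 * Real.exp (K * (β - α)) := mul_le_mul_of_nonneg_left (by linarith) hE0'
  have h5 : |PP mu h y α| * Real.exp (K * (x - α)) ≤
      2 * (y α) ^ mu * Real.exp (K * (β - α)) :=
    mul_le_mul hPα hexp hexp1.le (by positivity)
  have h6 : 0 ≤ (y α) ^ mu := Real.rpow_nonneg hyα.le _
  have h7 : 0 < Real.exp (K * (β - α)) := Real.exp_pos _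
  calc |PP mu h y x| ≤ 2 * (y α) ^ mu * Real.exp (K * (β - α)) +
        E0 * Real.exp (K * (β - α)) := hg.trans (add_le_add h5 h2)
    _ = Real.exp (K * (β - α)) * (2 * (y α) ^ mu + 3 * M ^ 2 * η) := by rw [hE0]; ring
    _ ≤ Real.exp (K * (β - α)) * ((2 + 3 * M ^ 2) * ((y α) ^ mu + η)) := by
        refine mul_le_mul_of_nonneg_left ?_ h7.le
        nlinarith [mul_nonneg (sq_nonneg M) h6]
    _ = Real.exp (K * (β - α)) * (2 + 3 * M ^ 2) * ((y α) ^ mu + η) := by ring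

/-- `|y - max h 0| ^ (1 + mu) ≤ |P|`. -/
theorem dist_le_PP (D : Half α x0 β a h h1 mu L c M) {G y : ℝ → ℝ} (hS : Sol a h h1 G α β y)
    {x : ℝ} (hx : x ∈ Icc α β) :
    |y x - max (h x) 0| ^ (1 + mu) ≤ |PP mu h y x| := by
  obtain ⟨hy, hb, hy1, -⟩ := hS x hx
  have hmu := abs_le.1 (mu_near D)
  have hmu0 : 0 < mu := by linarith [hmu.1]
  have hU : 0 < (y x) ^ mu := Real.rpow_pos_of_pos hy _
  have key : |y x - max (h x) 0| ≤ |y x - h x| ∧ |y x - max (h x) 0| ≤ y x := by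
    rcases le_or_gt 0 (h x) with h0 | h0
    · rw [max_eq_left h0]
      refine ⟨le_refl _, ?_⟩
      rw [abs_le]
      constructor
      · linarith
      · linarith
    · rw [max_eq_right h0.le, sub_zero, abs_of_pos hy]
      refine ⟨?_, le_refl _⟩
      rw [abs_of_pos (by linarith)]
      linarith
  have hm : 0 ≤ |y x - max (h x) 0| := abs_nonneg _
  unfold PP
  rw [abs_mul, abs_of_pos hU, Real.rpow_add' hm (by linarith), Real.rpow_one]
  exact mul_le_mul key.1 (Real.rpow_le_rpow hm key.2 hmu0.le) (Real.rpow_nonneg hm _)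
    (abs_nonneg _)

/-- `P` is small, and the solution is near `max h 0` on the whole half period. -/
theorem half2 (D : Half α x0 β a h h1 mu L c M) :
    ∃ C : ℝ, 1 ≤ C ∧ ∀ (G : ℝ → ℝ) (η : ℝ) (y : ℝ → ℝ), Continuous G →
      (∀ x ∈ Icc α β, |G x| ≤ η) → Sol a h h1 G α β y →
      ∀ x ∈ Icc α β, |PP mu h y x| ≤ C * ((y α) ^ mu + η) ∧
        |y x - max (h x) 0| ≤ (C * ((y α) ^ mu + η)) ^ (1 / (1 + mu)) := by
  have hmu := abs_le.1 (mu_near D)
  have hL := D.L_nonneg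
  have hM := D.M_nonneg
  have hlt := D.lt0.trans D.lt1
  have hC1 : 1 ≤ Real.exp ((2 * L * M + 1) * (β - α)) := by
    refine Real.one_le_exp (mul_nonneg ?_ (by linarith))
    have := mul_nonneg hL hM
    nlinarith
  refine ⟨Real.exp ((2 * L * M + 1) * (β - α)) * (2 + 3 * M ^ 2), ?_, ?_⟩
  · nlinarith [sq_nonneg M]
  intro G η y hG hη hS x hx
  have h1 := PP_bound D hη hS hx
  refine ⟨h1, ?_⟩
  have h2 := (dist_le_PP D hS hx).trans h1
  have hm : 0 ≤ |y x - max (h x) 0| := abs_nonneg _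
  have hpos : 0 < 1 + mu := by linarith [hmu.1]
  have h3 : |y x - max (h x) 0| = (|y x - max (h x) 0| ^ (1 + mu)) ^ (1 / (1 + mu)) := by
    rw [← Real.rpow_mul hm, mul_one_div, div_self hpos.ne', Real.rpow_one]
  rw [h3]
  exact Real.rpow_le_rpow (Real.rpow_nonneg hm _) h2 (by positivity)

end Pool.Agent.Lib.MP_95e7ec_an.Pw
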