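import Pool.Agent.Lib.MP_95e7ec_an.Pw.Half2

/-!
# Half period: auxiliary estimates for the asymptotic letter
-/

set_option autoImplicit false

open Set Filter Topology MeasureTheory

namespace Pool.Agent.Lib.MP_95e7ec_an.Pw


variable {α x0 β : ℝ} {a h h1 : ℝ → ℝ} {mu L c M : ℝ}

/-! ### Elementary inequalities -/

theorem half3_rpow_sub {s t ρ mu : ℝ} (hs : 0 ≤ s) (hs1 : s ≤ 1) (ht : 0 ≤ t) (ht1 : t ≤ 1)
    (hρ : |t - s| ≤ ρ) (hρ1 : ρ ≤ 1) (hmu : |mu - 1| ≤ 1 / 100) :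
    |t ^ mu - s ^ mu| ≤ 2 * ρ ^ (9 / 20 : ℝ) := by
  rw [abs_le] at hmu
  have hρ0 : 0 ≤ ρ := (abs_nonneg _).trans hρ
  wlog hst : s ≤ t generalizing s t with H
  · rw [abs_sub_comm]
    exact H ht ht1 hs hs1 (by rwa [abs_sub_comm]) (le_of_not_ge hst)
  have e1 : t ^ mu = (t ^ (mu / 2)) ^ 2 := by
    rw [← Real.rpow_natCast, ← Real.rpow_mul ht]; congr 1; push_cast; ring
  have e2 : s ^ mu = (s ^ (mu / 2)) ^ 2 := by
    rw [← Real.rpow_natCast, ← Real.rpow_mul hs]; congr 1; push_cast; ring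
  have h1 : t ^ (mu / 2) ≤ s ^ (mu / 2) + (t - s) ^ (mu / 2) := by
    have := Real.rpow_add_le_add_rpow hs (sub_nonneg.2 hst) (by linarith [hmu.1] : 0 ≤ mu / 2)
      (by linarith [hmu.2] : mu / 2 ≤ 1)
    simpa using this
  have h2 : s ^ (mu / 2) ≤ t ^ (mu / 2) := Real.rpow_le_rpow hs hst (by linarith [hmu.1])
  have h3 : t ^ (mu / 2) ≤ 1 := Real.rpow_le_one ht ht1 (by linarith [hmu.1])
  have h4 : 0 ≤ s ^ (mu / 2) := Real.rpow_nonneg hs _
  have h5 : (t - s) ^ (mu / 2) ≤ ρ ^ (9 / 20 : ℝ) := by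
    have h6 : (t - s) ^ (mu / 2) ≤ ρ ^ (mu / 2) :=
      Real.rpow_le_rpow (sub_nonneg.2 hst) ((le_abs_self _).trans hρ) (by linarith [hmu.1])
    rcases hρ0.eq_or_lt with h7 | h7
    · rw [← h7] at h6 ⊢
      rw [Real.zero_rpow (by linarith [hmu.1])] at h6
      exact h6.trans (Real.rpow_nonneg le_rfl _)
    · exact h6.trans (Real.rpow_le_rpow_of_exponent_ge h7 hρ1 (by linarith [hmu.1]))
  have h6 : 0 ≤ ρ ^ (9 / 20 : ℝ) := Real.rpow_nonneg hρ0 _
  have h7 : s ^ mu ≤ t ^ mu := Real.rpow_le_rpow hs hst (by linarith [hmu.1])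
  rw [abs_of_nonneg (by linarith), e1, e2]
  have h8 : (t ^ (mu / 2)) ^ 2 - (s ^ (mu / 2)) ^ 2 =
      (t ^ (mu / 2) - s ^ (mu / 2)) * (t ^ (mu / 2) + s ^ (mu / 2)) := by ring
  rw [h8]
  calc (t ^ (mu / 2) - s ^ (mu / 2)) * (t ^ (mu / 2) + s ^ (mu / 2))
      ≤ ρ ^ (9 / 20 : ℝ) * 2 := by
        apply mul_le_mul (by linarith) (by linarith) (by linarith) h6
    _ = 2 * ρ ^ (9 / 20 : ℝ) := by ring

theorem half3_exp_sub {s t B : ℝ} (hs : s ≤ B) (ht : t ≤ B) :
    |Real.exp s - Real.exp t| ≤ Real.exp B * |s - t| := by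
  wlog hst : t ≤ s generalizing s t with H
  · rw [abs_sub_comm, abs_sub_comm s t]
    exact H ht hs (le_of_not_ge hst)
  have h1 : Real.exp t ≤ Real.exp s := Real.exp_le_exp.2 hst
  rw [abs_of_nonneg (by linarith), abs_of_nonneg (by linarith)]
  have h2 : t - s + 1 ≤ Real.exp (t - s) := Real.add_one_le_exp _
  have h3 : Real.exp t = Real.exp s * Real.exp (t - s) := by rw [← Real.exp_add]; ring_nf
  have h4 : Real.exp s ≤ Real.exp B := Real.exp_le_exp.2 hs
  have h5 := Real.exp_pos s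
  calc Real.exp s - Real.exp t = Real.exp s * (1 - Real.exp (t - s)) := by rw [h3]; ring
    _ ≤ Real.exp s * (s - t) := by apply mul_le_mul_of_nonneg_left _ h5.le; linarith
    _ ≤ Real.exp B * (s - t) := by apply mul_le_mul_of_nonneg_right h4; linarith

/-! ### Pointwise comparison -/

theorem half3_cont_h (D : Half α x0 β a h h1 mu L c M) : Continuous h :=
  continuous_iff_continuousAt.2 fun x => (D.deriv x).continuousAt

/-- The limit denominator. -/
noncomputable def dinf (a h : ℝ → ℝ) (x : ℝ) : ℝ := max (h x) 0 + a x * max (-h x) 0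

theorem half3_den (a h : ℝ → ℝ) (x y : ℝ) :
    den a h x y - dinf a h x = (1 + a x) * (y - max (h x) 0) := by
  unfold den dinf
  rcases le_total (h x) 0 with h0 | h0
  · rw [max_eq_right h0, max_eq_left (by linarith : 0 ≤ -h x)]; ring
  · rw [max_eq_left h0, max_eq_right (by linarith : -h x ≤ 0)]; ring

theorem half3_dinf_ge {a h : ℝ → ℝ} {x : ℝ} (ha : |a x - 1| ≤ 1 / 100) :
    99 / 100 * |h x| ≤ dinf a h x := by
  rw [abs_le] at ha
  unfold dinf
  rcases le_total (h x) 0 with h0 | h0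
  · rw [max_eq_right h0, max_eq_left (by linarith : 0 ≤ -h x), abs_of_nonpos h0]
    nlinarith [ha.1]
  · rw [max_eq_left h0, max_eq_right (by linarith : -h x ≤ 0), abs_of_nonneg h0]
    linarith

theorem half3_h_le {h : ℝ → ℝ} {x y : ℝ} (hy : 0 < y) : |h x| ≤ y + |y - h x| := by
  have h1 := abs_sub_abs_le_abs_sub (h x) y
  rw [abs_of_pos hy, abs_sub_comm] at h1
  linarith

theorem half3_kinf_le (D : Half α x0 β a h h1 mu L c M) {x : ℝ} (hx : x ∈ Icc α β) :
    |kinf mu a h h1 x| ≤ 2 * L * M := by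
  have hL := D.L_nonneg
  have hM := D.M_nonneg
  have e : kinf mu a h h1 x = (mu - a x) * h1 x / dinf a h x := rfl
  rw [e]
  rcases eq_or_ne (h x) 0 with h0 | h0
  · have h2 := D.a_lip x hx
    rw [h0, abs_zero, mul_zero] at h2
    have h3 : mu - a x = 0 := by
      have := abs_nonpos_iff.1 h2
      linarith
    rw [h3, zero_mul, zero_div, abs_zero]
    positivity
  · have h2 := half3_dinf_ge (h := h) (D.a_near x hx)
    have h3 : 0 < |h x| := abs_pos.2 h0
    have h4 : 0 < dinf a h x := by linarith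
    rw [abs_div, abs_mul, abs_of_pos h4, div_le_iff₀ h4]
    have h5 := D.a_lip x hx
    rw [abs_sub_comm] at h5
    calc |mu - a x| * |h1 x| ≤ (L * |h x|) * M :=
          mul_le_mul h5 (D.h1_le x hx) (abs_nonneg _) (by positivity)
      _ ≤ 2 * L * M * (99 / 100 * |h x|) := by
          have : 0 ≤ L * |h x| * M := by positivity
          nlinarith
      _ ≤ 2 * L * M * dinf a h x := by
          apply mul_le_mul_of_nonneg_left h2; positivity

theorem half3_k_sub (D : Half α x0 β a h h1 mu L c M) {G y : ℝ → ℝ} (hS : Sol a h h1 G α β y)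
    {x ρ : ℝ} (hx : x ∈ Icc α β) (hρ : |y x - max (h x) 0| ≤ ρ) (h0 : h x ≠ 0) :
    |kk mu a h h1 y x - kinf mu a h h1 x| ≤ 5 * L * M * ρ / |h x| := by
  have hL := D.L_nonneg
  have hM := D.M_nonneg
  obtain ⟨hy, hb, -, -⟩ := hS x hx
  have ha := D.a_near x hx
  have h2 := half3_dinf_ge (h := h) ha
  have h3 : 0 < |h x| := abs_pos.2 h0
  have h4 : 0 < dinf a h x := by linarith
  have h5 := den_ge ha hy hb
  have h6 := half3_h_le (h := h) (x := x) hy
  have h7 : |h x| / 2 ≤ den a h x (y x) := by linarith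
  have h8 : 0 < den a h x (y x) := by linarith
  have h9 := D.a_lip x hx
  rw [abs_sub_comm] at h9
  have e : kk mu a h h1 y x - kinf mu a h h1 x =
      -((mu - a x) * h1 x * ((1 + a x) * (y x - max (h x) 0))) /
        (den a h x (y x) * dinf a h x) := by
    rw [← half3_den]
    change (mu - a x) * h1 x / den a h x (y x) - (mu - a x) * h1 x / dinf a h x = _
    field_simp
    ring
  have hρ0 : 0 ≤ ρ := (abs_nonneg _).trans hρ
  have ha2 : |1 + a x| ≤ 201 / 100 := by
    rw [abs_le] at ha ⊢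
    constructor <;> linarith [ha.1, ha.2]
  rw [e, abs_div, abs_neg, abs_mul, abs_mul, abs_mul, abs_of_pos (mul_pos h8 h4),
    div_le_div_iff₀ (mul_pos h8 h4) h3]
  have h10 : |mu - a x| * |h1 x| * (|1 + a x| * |y x - max (h x) 0|) ≤
      (L * |h x|) * M * (201 / 100 * ρ) := by
    apply mul_le_mul _ _ (by positivity) (by positivity)
    · exact mul_le_mul h9 (D.h1_le x hx) (abs_nonneg _) (by positivity)
    · exact mul_le_mul ha2 hρ (abs_nonneg _) (by norm_num)
  have h11 : |h x| / 2 * (99 / 100 * |h x|) ≤ den a h x (y x) * dinf a h x :=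
    mul_le_mul h7 h2 (by positivity) h8.le
  calc |mu - a x| * |h1 x| * (|1 + a x| * |y x - max (h x) 0|) * |h x|
      ≤ (L * |h x|) * M * (201 / 100 * ρ) * |h x| := mul_le_mul_of_nonneg_right h10 h3.le
    _ ≤ 5 * L * M * ρ * (|h x| / 2 * (99 / 100 * |h x|)) := by
        have : 0 ≤ L * M * ρ * (|h x| * |h x|) := by positivity
        nlinarith
    _ ≤ 5 * L * M * ρ * (den a h x (y x) * dinf a h x) := by
        apply mul_le_mul_of_nonneg_left h11; positivity

/-! ### The bound of the integral -/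


theorem half3_int_bound {φ : ℝ → ℝ} {x x' x0 B q r ℓ : ℝ} (hx : x ≤ x') (hℓ : x' - x ≤ ℓ)
    (hB0 : 0 ≤ B) (hq : 0 ≤ q) (hr : 0 < r) (hB : ∀ t ∈ Icc x x', |φ t| ≤ B)
    (hφ : ∀ t ∈ Icc x x', t ≠ x0 → |φ t| ≤ q * r ^ 2 / |t - x0|) :
    |∫ t in x..x', φ t| ≤ (2 * B + q * ℓ) * r := by
  set J : Set ℝ := Icc (x0 - r) (x0 + r) with hJ
  have hJm : MeasurableSet J := measurableSet_Icc
  have hJi : IntervalIntegrable (J.indicator fun _ => B) volume x x' := by
    rw [intervalIntegrable_iff_integrableOn_Ioc_of_le hx]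
    exact (integrableOn_const (by simp) (by simp)).indicator hJm
  have hbi : IntervalIntegrable (fun t => J.indicator (fun _ => B) t + q * r) volume x x' :=
    hJi.add intervalIntegrable_const
  have h1 : ‖∫ t in x..x', φ t‖ ≤ ∫ t in x..x', (J.indicator (fun _ => B) t + q * r) := by
    apply intervalIntegral.norm_integral_le_of_norm_le hx _ hbi
    refine Eventually.of_forall fun t ht => ?_
    have ht' : t ∈ Icc x x' := Ioc_subset_Icc_self ht
    rw [Real.norm_eq_abs]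
    by_cases h : t ∈ J
    · rw [indicator_of_mem h]
      have := hB t ht'
      have : 0 ≤ q * r := by positivity
      linarith [hB t ht']
    · rw [indicator_of_notMem h, zero_add]
      have h2 : r < |t - x0| := by
        by_contra hcon
        push Not at hcon
        rw [abs_le] at hcon
        exact h ⟨by linarith [hcon.1], by linarith [hcon.2]⟩
      have h3 : t ≠ x0 := by
        rintro rfl
        rw [sub_self, abs_zero] at h2
        linarith
      refine (hφ t ht' h3).trans ?_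
      rw [div_le_iff₀ (by linarith)]
      have : q * r ^ 2 = q * r * r := by ring
      rw [this]
      exact mul_le_mul_of_nonneg_left h2.le (by positivity)
  have h2 : ∫ t in x..x', (J.indicator (fun _ => B) t + q * r) =
      (∫ t in x..x', J.indicator (fun _ => B) t) + (x' - x) * (q * r) := by
    rw [intervalIntegral.integral_add hJi intervalIntegrable_const,
      intervalIntegral.integral_const, smul_eq_mul]
  have h3 : ∫ t in x..x', J.indicator (fun _ => B) t ≤ 2 * r * B := by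
    rw [intervalIntegral.integral_of_le hx, setIntegral_indicator hJm, setIntegral_const,
      smul_eq_mul]
    apply mul_le_mul_of_nonneg_right _ hB0
    have h4 : volume.real (Ioc x x' ∩ J) ≤ volume.real J :=
      measureReal_mono inter_subset_right (by rw [hJ]; simp)
    refine h4.trans ?_
    rw [hJ, Real.volume_real_Icc_of_le (by linarith)]
    linarith
  rw [Real.norm_eq_abs] at h1
  have h5 : (x' - x) * (q * r) ≤ ℓ * (q * r) := mul_le_mul_of_nonneg_right hℓ (by positivity)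
  calc |∫ t in x..x', φ t| ≤ _ := h1
    _ = _ := h2
    _ ≤ 2 * r * B + ℓ * (q * r) := add_le_add h3 h5
    _ = (2 * B + q * ℓ) * r := by ring

/-! ### The inhomogeneous term -/

theorem half3_abs_h_le (D : Half α x0 β a h h1 mu L c M) {x : ℝ} (hx : x ∈ Icc α β) :
    |h x| ≤ 1 / 4 := by
  have hmono : MonotoneOn h (Icc α β) := by
    apply monotoneOn_of_deriv_nonneg (convex_Icc _ _)
      (fun x _ => (D.deriv x).continuousAt.continuousWithinAt)
      (fun x _ => (D.deriv x).differentiableAt.differentiableWithinAt)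
    intro x hx
    rw [interior_Icc] at hx
    rw [(D.deriv x).deriv]
    exact (D.h1_pos x hx).le
  have hαβ := (D.lt0.trans D.lt1).le
  have h2 := hmono (left_mem_Icc.2 hαβ) hx hx.1
  have h3 := hmono hx (right_mem_Icc.2 hαβ) hx.2
  rw [D.h_start] at h2
  rw [D.h_end] at h3
  rw [abs_le]
  constructor <;> linarith

theorem half3_frac_le (D : Half α x0 β a h h1 mu L c M) {G y : ℝ → ℝ}
    (hS : Sol a h h1 G α β y) {x : ℝ} (hx : x ∈ Icc α β) :
    |(y x + mu * (y x - h x)) / den a h x (y x)| ≤ 3 := by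
  obtain ⟨hy, hb, -, -⟩ := hS x hx
  have h5 := den_ge (D.a_near x hx) hy hb
  have h8 : 0 < den a h x (y x) := den_pos (D.a_near x hx) hy hb
  have hmu := mu_near D
  rw [abs_div, abs_of_pos h8, div_le_iff₀ h8]
  have h9 : |y x + mu * (y x - h x)| ≤ y x + |mu| * |y x - h x| := by
    refine (abs_add_le _ _).trans ?_
    rw [abs_of_pos hy, abs_mul]
  have h10 : |mu| ≤ 101 / 100 := by
    rw [abs_le] at hmu ⊢
    constructor <;> linarith [hmu.1, hmu.2]
  have h11 : |mu| * |y x - h x| ≤ 101 / 100 * |y x - h x| :=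
    mul_le_mul_of_nonneg_right h10 (abs_nonneg _)
  linarith [abs_nonneg (y x - h x)]

theorem half3_E_neg (D : Half α x0 β a h h1 mu L c M) {G y : ℝ → ℝ} {η ρ : ℝ}
    (hS : Sol a h h1 G α β y) {x : ℝ} (hx : x ∈ Icc α β) (hη : |G x| ≤ η)
    (hρ : |y x - max (h x) 0| ≤ ρ) (hρ1 : ρ ≤ 1) (h0 : h x ≤ 0) :
    |EE mu a h h1 G y x| ≤ 3 * M ^ 2 * η * ρ ^ (9 / 20 : ℝ) := by
  have hM := D.M_nonneg
  obtain ⟨hy, hb, -, -⟩ := hS x hx
  have hmu := mu_near D
  rw [abs_le] at hmu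
  rw [max_eq_right h0, sub_zero, abs_of_pos hy] at hρ
  have hρ0 : 0 < ρ := hy.trans_le hρ
  have g1 : (y x) ^ mu ≤ ρ ^ (9 / 20 : ℝ) :=
    (Real.rpow_le_rpow hy.le hρ (by linarith [hmu.1])).trans
      (Real.rpow_le_rpow_of_exponent_ge hρ0 hρ1 (by linarith [hmu.1]))
  have h2 := half3_frac_le D hS hx
  have h3 : 0 ≤ (y x) ^ mu := Real.rpow_nonneg hy.le _
  have h4 := D.h1_le x hx
  have hη0 : 0 ≤ η := (abs_nonneg _).trans hη
  unfold EE
  rw [mul_div_assoc, abs_mul, abs_mul, abs_mul, abs_of_nonneg h3, abs_pow]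
  have h5 : |h1 x| ^ 2 ≤ M ^ 2 := pow_le_pow_left₀ (abs_nonneg _) h4 2
  have h6 : 0 ≤ ρ ^ (9 / 20 : ℝ) := Real.rpow_nonneg hρ0.le _
  calc |h1 x| ^ 2 * |G x| * ((y x) ^ mu * |(y x + mu * (y x - h x)) / den a h x (y x)|)
      ≤ (M ^ 2 * η) * (ρ ^ (9 / 20 : ℝ) * 3) := by
        apply mul_le_mul _ _ (by positivity) (by positivity)
        · exact mul_le_mul h5 hη (abs_nonneg _) (by positivity)
        · exact mul_le_mul g1 h2 (abs_nonneg _) h6
    _ = 3 * M ^ 2 * η * ρ ^ (9 / 20 : ℝ) := by ring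

theorem half3_E_pos (D : Half α x0 β a h h1 mu L c M) {G y : ℝ → ℝ} {η ρ : ℝ}
    (hS : Sol a h h1 G α β y) {x : ℝ} (hx : x ∈ Icc α β) (hη : |G x| ≤ η)
    (hρ : |y x - max (h x) 0| ≤ ρ) (hρ1 : ρ ≤ 1) (h0 : 0 ≤ h x) :
    |EE mu a h h1 G y x - h1 x ^ 2 * (h x) ^ mu * G x| ≤
      (6 + 2 * L) * M ^ 2 * η * ρ ^ (9 / 20 : ℝ) := by
  have hM := D.M_nonneg
  have hL := D.L_nonneg
  obtain ⟨hy, hb, hy1, -⟩ := hS x hx
  have hmu := mu_near D
  have hmu' := hmu
  rw [abs_le] at hmu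
  rw [max_eq_left h0] at hρ
  have hρ0 : 0 ≤ ρ := (abs_nonneg _).trans hρ
  have hη0 : 0 ≤ η := (abs_nonneg _).trans hη
  have h2 := half3_frac_le D hS hx
  have h3 : |(y x) ^ mu - (h x) ^ mu| ≤ 2 * ρ ^ (9 / 20 : ℝ) :=
    half3_rpow_sub h0 (((le_abs_self _).trans (half3_abs_h_le D hx)).trans (by norm_num)) hy.le hy1 hρ
      hρ1 hmu'
  have h4 := D.h1_le x hx
  have h8 : 0 < den a h x (y x) := den_pos (D.a_near x hx) hy hb
  have h5 := den_ge (D.a_near x hx) hy hb
  have h6 := half3_h_le (h := h) (x := x) hy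
  have h7 : |(y x + mu * (y x - h x)) / den a h x (y x) - 1| ≤ 2 * L * ρ := by
    have e : (y x + mu * (y x - h x)) / den a h x (y x) - 1 =
        (mu - a x) * (y x - h x) / den a h x (y x) := by
      rw [div_sub_one h8.ne']
      unfold den
      ring
    rw [e, abs_div, abs_mul, abs_of_pos h8, div_le_iff₀ h8]
    have h9 := D.a_lip x hx
    rw [abs_sub_comm] at h9
    calc |mu - a x| * |y x - h x| ≤ (L * |h x|) * ρ :=
          mul_le_mul h9 hρ (abs_nonneg _) (by positivity)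
      _ ≤ 2 * L * ρ * den a h x (y x) := by
          have : 0 ≤ L * ρ := by positivity
          nlinarith
  have h9 : (h x) ^ mu ≤ 1 := by
    apply Real.rpow_le_one h0 _ (by linarith [hmu.1])
    exact ((le_abs_self _).trans (half3_abs_h_le D hx)).trans (by norm_num)
  have h10 : 0 ≤ (h x) ^ mu := Real.rpow_nonneg h0 _
  have h11 : ρ ≤ ρ ^ (9 / 20 : ℝ) := by
    rcases hρ0.eq_or_lt with h12 | h12
    · rw [← h12]; exact Real.rpow_nonneg le_rfl _
    · conv_lhs => rw [← Real.rpow_one ρ]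
      exact Real.rpow_le_rpow_of_exponent_ge h12 hρ1 (by norm_num)
  have h12 : 0 ≤ ρ ^ (9 / 20 : ℝ) := Real.rpow_nonneg hρ0 _
  have e : EE mu a h h1 G y x - h1 x ^ 2 * (h x) ^ mu * G x = h1 x ^ 2 * G x *
      (((y x) ^ mu - (h x) ^ mu) * ((y x + mu * (y x - h x)) / den a h x (y x)) +
        (h x) ^ mu * ((y x + mu * (y x - h x)) / den a h x (y x) - 1)) := by
    unfold EE
    ring
  have h13 : |((y x) ^ mu - (h x) ^ mu) * ((y x + mu * (y x - h x)) / den a h x (y x)) +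
        (h x) ^ mu * ((y x + mu * (y x - h x)) / den a h x (y x) - 1)| ≤
        (6 + 2 * L) * ρ ^ (9 / 20 : ℝ) := by
    refine (abs_add_le _ _).trans ?_
    rw [abs_mul, abs_mul, abs_of_nonneg h10]
    have h14 := mul_le_mul h3 h2 (abs_nonneg _) (by positivity)
    have h15 := mul_le_mul h9 h7 (abs_nonneg _) (by norm_num)
    have h16 : 1 * (2 * L * ρ) ≤ 2 * L * ρ ^ (9 / 20 : ℝ) := by
      rw [one_mul]
      exact mul_le_mul_of_nonneg_left h11 (by positivity)
    calc _ ≤ 2 * ρ ^ (9 / 20 : ℝ) * 3 + 2 * L * ρ ^ (9 / 20 : ℝ) :=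
          add_le_add h14 (h15.trans h16)
      _ = (6 + 2 * L) * ρ ^ (9 / 20 : ℝ) := by ring
  have h5 : |h1 x| ^ 2 ≤ M ^ 2 := pow_le_pow_left₀ (abs_nonneg _) h4 2
  rw [e, abs_mul, abs_mul, abs_pow]
  calc |h1 x| ^ 2 * |G x| * _ ≤ (M ^ 2 * η) * ((6 + 2 * L) * ρ ^ (9 / 20 : ℝ)) := by
        apply mul_le_mul _ h13 (abs_nonneg _) (by positivity)
        exact mul_le_mul h5 hη (abs_nonneg _) (by positivity)
    _ = (6 + 2 * L) * M ^ 2 * η * ρ ^ (9 / 20 : ℝ) := by ring

end Pool.Agent.Lib.MP_95e7ec_an.Pw
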