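import Mathlib

/-!
Interpolation by integrals.  For `K` intervals with disjoint interiors, a function `φ` that is
injective on the union of the open intervals and continuous, and weights that are positive inside
the intervals, every vector of `K` numbers is the vector of the weighted integrals of a polynomial
in `φ` of degree less than `K`.
-/

open MeasureTheory Set

namespace MP95Pw

/-- If the weighted integral of a continuous function vanishes and the weight is positive inside
the interval, then the function has a zero inside the interval. -/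
theorem exists_zero_of_integral {l r : ℝ} (hlr : l < r) {g W : ℝ → ℝ}
    (hg : ContinuousOn g (Icc l r)) (hW : ContinuousOn W (Icc l r))
    (hpos : ∀ x ∈ Ioo l r, 0 < W x) (h0 : ∫ x in l..r, g x * W x = 0) :
    ∃ x ∈ Ioo l r, g x = 0 := by
  by_contra hne
  push Not at hne
  have hgI : ContinuousOn g (Ioo l r) := hg.mono Ioo_subset_Icc_self
  have hint : IntervalIntegrable (fun x => g x * W x) volume l r := by
    apply ContinuousOn.intervalIntegrable
    rw [uIcc_of_le hlr.le]
    exact hg.mul hW
  -- constant sign on the open interval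
  have hsign : (∀ x ∈ Ioo l r, 0 < g x) ∨ (∀ x ∈ Ioo l r, g x < 0) := by
    by_contra hcon
    push Not at hcon
    obtain ⟨⟨x, hx, hx0⟩, ⟨y, hy, hy0⟩⟩ := hcon
    have hpc : IsPreconnected (Ioo l r) := isPreconnected_Ioo
    obtain ⟨z, hz, hz0⟩ := hpc.intermediate_value hx hy hgI ⟨hx0, hy0⟩
    exact hne z hz hz0
  rcases hsign with hp | hn
  · have : 0 < ∫ x in l..r, g x * W x :=
      intervalIntegral.intervalIntegral_pos_of_pos_on hint
        (fun x hx => mul_pos (hp x hx) (hpos x hx)) hlr
    linarith
  · have : 0 < ∫ x in l..r, -(g x * W x) :=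
      intervalIntegral.intervalIntegral_pos_of_pos_on hint.neg
        (fun x hx => by
          have := mul_neg_of_neg_of_pos (hn x hx) (hpos x hx)
          simpa using this) hlr
    rw [intervalIntegral.integral_neg] at this
    linarith

/-- The linear map sending the coefficients of a polynomial of degree less than `K` to its
weighted integrals. -/
noncomputable def intMap (K : ℕ) (l r : Fin K → ℝ) (φ : ℝ → ℝ) (W : Fin K → ℝ → ℝ)
    (hφ : ∀ j, ContinuousOn φ (Icc (l j) (r j))) (hW : ∀ j, ContinuousOn (W j) (Icc (l j) (r j)))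
    (hlr : ∀ j, l j < r j) :
    Polynomial.degreeLT ℝ K →ₗ[ℝ] (Fin K → ℝ) where
  toFun p := fun j => ∫ x in (l j)..(r j), (p : Polynomial ℝ).eval (φ x) * W j x
  map_add' p q := by
    funext j
    have hc : ∀ P : Polynomial ℝ, IntervalIntegrable (fun x => P.eval (φ x) * W j x) volume
        (l j) (r j) := by
      intro P
      apply ContinuousOn.intervalIntegrable
      rw [uIcc_of_le (hlr j).le]
      exact (P.continuous.comp_continuousOn (hφ j)).mul (hW j)
    simp only [Submodule.coe_add, Polynomial.eval_add, add_mul, Pi.add_apply]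
    exact intervalIntegral.integral_add (hc _) (hc _)
  map_smul' c p := by
    funext j
    simp only [Submodule.coe_smul, Polynomial.eval_smul, smul_eq_mul, RingHom.id_apply,
      Pi.smul_apply, mul_assoc]
    exact intervalIntegral.integral_const_mul _ _

theorem intMap_injective (K : ℕ) (l r : Fin K → ℝ) (φ : ℝ → ℝ) (W : Fin K → ℝ → ℝ)
    (hφ : ∀ j, ContinuousOn φ (Icc (l j) (r j))) (hW : ∀ j, ContinuousOn (W j) (Icc (l j) (r j)))
    (hlr : ∀ j, l j < r j) (hpos : ∀ j, ∀ x ∈ Ioo (l j) (r j), 0 < W j x)
    (hdis : ∀ i j, ∀ x ∈ Ioo (l i) (r i), ∀ y ∈ Ioo (l j) (r j), φ x = φ y → i = j) :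
    Function.Injective (intMap K l r φ W hφ hW hlr) := by
  rw [← LinearMap.ker_eq_bot, LinearMap.ker_eq_bot']
  intro p hp
  have hz : ∀ j, ∃ x ∈ Ioo (l j) (r j), (p : Polynomial ℝ).eval (φ x) = 0 := by
    intro j
    have h0 : ∫ x in (l j)..(r j), (p : Polynomial ℝ).eval (φ x) * W j x = 0 := congrFun hp j
    exact exists_zero_of_integral (hlr j)
      (((p : Polynomial ℝ).continuous.comp_continuousOn (hφ j))) (hW j) (hpos j) h0
  choose z hzI hz0 using hz
  have hinj : Function.Injective (fun j => φ (z j)) := by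
    intro i j hij
    exact hdis i j (z i) (hzI i) (z j) (hzI j) hij
  have hdeg : (p : Polynomial ℝ).degree < K := Polynomial.mem_degreeLT.1 p.2
  have : (p : Polynomial ℝ) = 0 := by
    apply Polynomial.eq_zero_of_degree_lt_of_eval_index_eq_zero (s := Finset.univ)
      (v := fun j : Fin K => φ (z j)) (hinj.injOn)
    · simpa using hdeg
    · intro i _
      exact hz0 i
  exact Subtype.ext this

/-- Every vector of `K` numbers is the vector of weighted integrals of a polynomial in `φ` of
degree less than `K`. -/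
theorem exists_poly_integral (K : ℕ) (l r : Fin K → ℝ) (φ : ℝ → ℝ) (W : Fin K → ℝ → ℝ)
    (hφ : ∀ j, ContinuousOn φ (Icc (l j) (r j))) (hW : ∀ j, ContinuousOn (W j) (Icc (l j) (r j)))
    (hlr : ∀ j, l j < r j) (hpos : ∀ j, ∀ x ∈ Ioo (l j) (r j), 0 < W j x)
    (hdis : ∀ i j, ∀ x ∈ Ioo (l i) (r i), ∀ y ∈ Ioo (l j) (r j), φ x = φ y → i = j)
    (B : Fin K → ℝ) :
    ∃ p : Polynomial ℝ, p.degree < K ∧
      ∀ j, ∫ x in (l j)..(r j), p.eval (φ x) * W j x = B j := by
  have hinj := intMap_injective K l r φ W hφ hW hlr hpos hdis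
  have hfin : Module.finrank ℝ (Polynomial.degreeLT ℝ K) = Module.finrank ℝ (Fin K → ℝ) := by
    rw [LinearEquiv.finrank_eq (Polynomial.degreeLTEquiv ℝ K)]
  have : FiniteDimensional ℝ (Polynomial.degreeLT ℝ K) :=
    LinearEquiv.finiteDimensional (Polynomial.degreeLTEquiv ℝ K).symm
  have hsurj : Function.Surjective (intMap K l r φ W hφ hW hlr) :=
    (LinearMap.injective_iff_surjective_of_finrank_eq_finrank hfin).1 hinj
  obtain ⟨p, hp⟩ := hsurj B
  exact ⟨p, Polynomial.mem_degreeLT.1 p.2, fun j => congrFun hp j⟩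

end MP95Pw
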